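import Mathlib

/-! # Vertex sets of faces of polytopes: definitions

A polytope is represented by the finite set `V` of its vertices, its nonempty faces by the sets of their vertices. -/

set_option autoImplicit false

namespace Pool.Agent.LibPol19

open Finset
open scoped Classical

/-- the ambient space -/
abbrev Ed (d : ℕ) := EuclideanSpace ℝ (Fin d)

variable {d : ℕ}

/-- every point of `V` is exposed -/
def IsVert (V : Finset (Ed d)) : Prop :=
  ∀ v ∈ V, ∃ ℓ : Ed d →ₗ[ℝ] ℝ, ∀ w ∈ V, w ≠ v → ℓ w < ℓ v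

/-- `A` is the set of vertices of a nonempty face -/
def IsFace (V A : Finset (Ed d)) : Prop :=
  A.Nonempty ∧ A ⊆ V ∧ ∃ (ℓ : Ed d →ₗ[ℝ] ℝ) (c : ℝ), ∀ v ∈ V, ℓ v ≤ c ∧ (ℓ v = c ↔ v ∈ A)

/-- the dimension -/
noncomputable def dm (A : Finset (Ed d)) : ℕ := Module.finrank ℝ (vectorSpan ℝ (A : Set (Ed d)))

/-- adjacency in the graph of the polytope -/
def Adj (V : Finset (Ed d)) (u v : Ed d) : Prop := u ≠ v ∧ IsFace V {u, v}

/-- the neighbours of a vertex -/
noncomputable def nb (V : Finset (Ed d)) (v : Ed d) : Finset (Ed d) := V.filter fun u => Adj V v u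

/-- full dimension -/
def Full (V : Finset (Ed d)) : Prop := vectorSpan ℝ (V : Set (Ed d)) = ⊤

/-! ## Orders on a finite set `X` with an adjacency relation -/

variable {X : Type*} [Fintype X]

/-- `s` is a source of `R` -/
def Src (adj : X → X → Prop) (r : X → ℕ) (R : Finset X) (s : X) : Prop := s ∈ R ∧ ∀ u ∈ R, adj s u → r s < r u

/-- `s` is a sink of `R` -/
def Snk (adj : X → X → Prop) (r : X → ℕ) (R : Finset X) (s : X) : Prop := s ∈ R ∧ ∀ u ∈ R, adj s u → r u < r s

/-- good orders: at most one source on every set of the family -/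
def Good (adj : X → X → Prop) (F2 : Finset X → Prop) (r : X → ℕ) : Prop :=
  Function.Injective r ∧ ∀ R, F2 R → ∀ s s' : X, Src adj r R s → Src adj r R s' → s = s'

/-- `a` comes first and `b` second (or `b = a`) -/
def Fst (r : X → ℕ) (a b : X) : Prop := (∀ x, x ≠ a → r a < r x) ∧ ∀ x, x ≠ a → x ≠ b → r b < r x

/-- `c` comes last -/
def Lst (r : X → ℕ) (c : X) : Prop := ∀ x, x ≠ c → r x < r c

/-- the set `R` is final -/
def Fin' (r : X → ℕ) (R : Finset X) : Prop := ∀ x, x ∉ R → ∀ y ∈ R, r x < r y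

/-- `s` is the first element of `R` -/
def FstIn (r : X → ℕ) (R : Finset X) (s : X) : Prop := ∀ u ∈ R, u ≠ s → r s < r u

/-- the neighbours -/
noncomputable def nbr (adj : X → X → Prop) (x : X) : Finset X := univ.filter fun u => adj x u

/-- the abstract system of the `2`-faces of a `d`-polytope -/
structure IsSys (d : ℕ) (adj : X → X → Prop) (F2 : Finset X → Prop) : Prop where
  symm : ∀ x y, adj x y → adj y x
  irrefl : ∀ x, ¬ adj x x
  two : ∀ R, F2 R → ∀ x ∈ R, (R.filter fun u => adj x u).card = 2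
  nonempty : ∀ R, F2 R → R.Nonempty
  inter : ∀ R R', F2 R → F2 R' → R ≠ R' → ∀ u w, u ∈ R → u ∈ R' → w ∈ R → w ∈ R' → u ≠ w →
    adj u w ∧ ∀ z, z ∈ R → z ∈ R' → z = u ∨ z = w
  span : ∀ x, (nbr adj x).card = d → ∀ u w, adj x u → adj x w → u ≠ w → ∃ R, F2 R ∧ x ∈ R ∧ u ∈ R ∧ w ∈ R
  deg : ∀ x, d ≤ (nbr adj x).card
  ord_pt : ∀ a b c, (b = a ∨ adj a b) → c ≠ a → c ≠ b → ∃ r : X → ℕ, Good adj F2 r ∧ Fst r a b ∧ Lst r c
  ord_face : ∀ a b R s y, (b = a ∨ adj a b) → F2 R → a ∉ R → b ∉ R → s ∈ R → y ∈ R → s ≠ y →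
    ∃ r : X → ℕ, Good adj F2 r ∧ Fst r a b ∧ Fin' r R ∧ FstIn r R s ∧ Lst r y

/-- the abstract system of the facets of a `d`-polytope -/
structure IsFac (d : ℕ) (adj : X → X → Prop) (F2 Fc : Finset X → Prop) : Prop where
  deg : ∀ F, Fc F → ∀ x ∈ F, d - 1 ≤ (F.filter fun u => adj x u).card
  deg_simple : ∀ F, Fc F → ∀ x ∈ F, (nbr adj x).card = d → (F.filter fun u => adj x u).card = d - 1
  ex : ∀ x, (nbr adj x).card = d → ∀ I, I ⊆ nbr adj x → I.card = d - 1 → ∃ F, Fc F ∧ x ∈ F ∧ (F.filter fun u => adj x u) = I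
  sub : ∀ F R, Fc F → F2 R → ∀ x, x ∈ F → x ∈ R → (∀ u ∈ R, adj x u → u ∈ F) → R ⊆ F
  conn : ∀ F, Fc F → ∀ S : Finset X, S.card ≤ 3 → ∀ x y, x ∈ F → x ∉ S → y ∈ F → y ∉ S →
    Relation.ReflTransGen (fun u w => adj u w ∧ w ∈ F ∧ w ∉ S) x y
  card : ∀ F, Fc F → 4 ≤ F.card

/-! ## Geometric orders and labels -/

/-- sources of a set of vertices -/
def SrcV (V : Finset (Ed d)) (r : Ed d → ℕ) (R : Finset (Ed d)) (s : Ed d) : Prop :=
  s ∈ R ∧ ∀ u ∈ R, Adj V s u → r s < r u

/-- good orders -/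
def GoodV (V : Finset (Ed d)) (r : Ed d → ℕ) : Prop :=
  Set.InjOn r (V : Set (Ed d)) ∧ ∀ R, IsFace V R → dm R = 2 → ∀ s s', SrcV V r R s → SrcV V r R s' → s = s'

/-- the image of a set of labels -/
noncomputable def im {V : Finset (Ed d)} (e : X ≃ {x // x ∈ V}) (R : Finset X) : Finset (Ed d) :=
  R.map (e.toEmbedding.trans (Function.Embedding.subtype _))

/-- adjacency of labels -/
def adjX {V : Finset (Ed d)} (e : X ≃ {x // x ∈ V}) (u w : X) : Prop := Adj V (e u : Ed d) (e w : Ed d)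

/-- the 2-faces in terms of labels -/
def F2X {V : Finset (Ed d)} (e : X ≃ {x // x ∈ V}) (R : Finset X) : Prop := IsFace V (im e R) ∧ dm (im e R) = 2

/-- the facets in terms of labels -/
def FcX {V : Finset (Ed d)} (e : X ≃ {x // x ∈ V}) (R : Finset X) : Prop := IsFace V (im e R) ∧ dm (im e R) + 1 = d

/-- nonempty faces of a convex set -/
def IsF (P F : Set (Ed d)) : Prop := IsExposed ℝ P F ∧ F.Nonempty

/-! ## Combinatorics of two systems with the same graph -/

/-- ordered pairs of elements of `I` lying in a common set of the family together with `x` -/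
noncomputable def prs (F2 : Finset X → Prop) (x : X) (I : Finset X) : Finset (X × X) :=
  I.offDiag.filter fun p => ∃ R, F2 R ∧ x ∈ R ∧ p.1 ∈ R ∧ p.2 ∈ R

/-- the in-neighbours -/
noncomputable def inn (adj : X → X → Prop) (r : X → ℕ) (x : X) : Finset X := (nbr adj x).filter fun u => r u < r x

/-- the number of sinks -/
noncomputable def snk (adj : X → X → Prop) (r : X → ℕ) (R : Finset X) : ℕ := (R.filter fun s => Snk adj r R s).card

/-- the family as a finite set -/
noncomputable def fam (F2 : Finset X → Prop) : Finset (Finset X) := univ.filter F2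

/-- the number of members containing `x` and `u` -/
noncomputable def dg2 (F2 : Finset X → Prop) (x u : X) : ℕ := ((fam F2).filter fun R => x ∈ R ∧ u ∈ R).card

/-- the defect -/
noncomputable def dl (F2 F2' : Finset X → Prop) (x : X) (I : Finset X) : ℤ :=
  ((prs F2 x I).card : ℤ) - ((prs F2' x I).card : ℤ)

/-- the difference of the degrees -/
noncomputable def dg (F2 F2' : Finset X → Prop) (x u : X) : ℤ := (dg2 F2 x u : ℤ) - (dg2 F2' x u : ℤ)

/-- two systems with the same graph and (at most) three hubs -/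
structure Pr (d : ℕ) (adj : X → X → Prop) (F2 F2' : Finset X → Prop) (a b c : X) : Prop where
  s : IsSys d adj F2
  s' : IsSys d adj F2'
  hd : 3 ≤ d
  hab : a ≠ b
  hac : a ≠ c
  hbc : b ≠ c
  hub : ∀ x, x ≠ a → x ≠ b → x ≠ c → (nbr adj x).card = d

/-- the sum of the defects at the hubs -/
noncomputable def SS (adj : X → X → Prop) (F2 F2' : Finset X → Prop) (a b c : X) (r : X → ℕ) : ℤ :=
  dl F2 F2' a (inn adj r a) + dl F2 F2' b (inn adj r b) + dl F2 F2' c (inn adj r c)

/-- the difference of the numbers of members -/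
noncomputable def DD (F2 F2' : Finset X → Prop) : ℤ := ((fam F2).card : ℤ) - ((fam F2').card : ℤ)

/-- exactly one pair of adjacent hubs -/
structure CA (d : ℕ) (adj : X → X → Prop) (F2 F2' : Finset X → Prop) (a b c : X) : Prop extends Pr d adj F2 F2' a b c where
  ab : adj a b
  bc : ¬ adj b c
  ac : ¬ adj a c

/-- a path of hubs -/
structure CB (d : ℕ) (adj : X → X → Prop) (F2 F2' : Finset X → Prop) (a b c : X) : Prop extends Pr d adj F2 F2' a b c where
  ab : adj a b
  bc : adj b c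
  ac : ¬ adj a c

/-- a triangle of hubs -/
structure CC (d : ℕ) (adj : X → X → Prop) (F2 F2' : Finset X → Prop) (a b c : X) : Prop extends Pr d adj F2 F2' a b c where
  ab : adj a b
  bc : adj b c
  ac : adj a c

end Pool.Agent.LibPol19
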