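import Mathlib
import Pool.Agent.LibPol19.Defs

/-! Row G03.
Restrict the functional; face_self: ℓ = 0, c = 0; face_single: the functional of IsVert, c = ℓ v; adj_symm: {u, v} = {v, u} (Finset.pair_comm).
-/

set_option autoImplicit false

namespace Pool.Agent.LibPol19

open Finset
open scoped Classical

variable {d : ℕ} {V A B F F' K R R' S : Finset (Ed d)}

/-- G03: faces contained in a face -/
theorem face_restrict (hB : IsFace V B) (h : B ⊆ A) (hA : A ⊆ V) : IsFace A B := by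
  obtain ⟨h1, -, ℓ, c, h2⟩ := hB
  exact ⟨h1, h, ℓ, c, fun v hv => h2 v (hA hv)⟩

theorem vert_sub (hV : IsVert V) (h : A ⊆ V) : IsVert A := by
  intro v hv
  obtain ⟨ℓ, h1⟩ := hV v (h hv)
  exact ⟨ℓ, fun w hw hne => h1 w (h hw) hne⟩

theorem face_self (h : V.Nonempty) : IsFace V V := by
  refine ⟨h, Subset.refl _, 0, 0, fun v hv => ⟨?_, ?_⟩⟩
  · exact le_of_eq (LinearMap.zero_apply v)
  · exact iff_of_true (LinearMap.zero_apply v) hv

theorem face_single (hV : IsVert V) {v : Ed d} (hv : v ∈ V) : IsFace V {v} := by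
  obtain ⟨ℓ, h1⟩ := hV v hv
  refine ⟨singleton_nonempty v, singleton_subset_iff.2 hv, ℓ, ℓ v, fun w hw => ?_⟩
  rw [mem_singleton]
  by_cases h : w = v
  · rw [h]
    exact ⟨le_rfl, iff_of_true rfl rfl⟩
  · have h2 := h1 w hw h
    exact ⟨h2.le, iff_of_false h2.ne h⟩

theorem adj_symm {u v : Ed d} (h : Adj V u v) : Adj V v u := by
  refine ⟨h.1.symm, ?_⟩
  rw [pair_comm]
  exact h.2

end Pool.Agent.LibPol19
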