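import Mathlib
import Pool.Agent.LibPol19.Defs

/-! Row G01.
face_trans: (ℓ1,c1) for A in V, (ℓ2,c2) for B in A. Take ℓ = N ℓ1 + ℓ2, c = N c1 + c2 with N so large that N (c1 - ℓ1 v) > ℓ2 v - c2 for the finitely many v ∈ V \ A (there c1 - ℓ1 v > 0);
on A: ℓ1 = c1, so ℓ v - c = ℓ2 v - c2. (N: sup over the finite set, or Finset.exists_le / induction.) face_inter: ℓ1 + ℓ2, c1 + c2.
-/

set_option autoImplicit false

namespace Pool.Agent.LibPol19

open Finset
open scoped Classical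

variable {d : ℕ} {V A B F F' K R R' S : Finset (Ed d)}

theorem G01_aux (s : Finset (Ed d)) (f g : Ed d → ℝ) (hg : ∀ v ∈ s, 0 < g v) :
    ∃ N : ℝ, ∀ v ∈ s, f v < N * g v := by
  refine ⟨∑ w ∈ s, (|f w| / g w + 1), fun v hv => ?_⟩
  have h1 : |f v| / g v + 1 ≤ ∑ w ∈ s, (|f w| / g w + 1) := by
    refine Finset.single_le_sum (f := fun w => |f w| / g w + 1) (fun w hw => ?_) hv
    have := div_nonneg (abs_nonneg (f w)) (hg w hw).le
    linarith
  have h2 := hg v hv
  have h3 : (|f v| / g v + 1) * g v = |f v| + g v := by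
    field_simp
  have h4 := mul_le_mul_of_nonneg_right h1 h2.le
  have h5 := le_abs_self (f v)
  linarith

/-- G01: a face of a face is a face -/
theorem face_trans (hA : IsFace V A) (hB : IsFace A B) : IsFace V B := by
  obtain ⟨_, hAV, l1, c1, h1⟩ := hA
  obtain ⟨hBn, hBA, l2, c2, h2⟩ := hB
  obtain ⟨N, hN⟩ := G01_aux (V \ A) (fun v => l2 v - c2) (fun v => c1 - l1 v) (by
    intro v hv
    rw [Finset.mem_sdiff] at hv
    have h3 := h1 v hv.1
    have h4 : l1 v ≠ c1 := fun h => hv.2 (h3.2.1 h)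
    have h5 := lt_of_le_of_ne h3.1 h4
    linarith)
  refine ⟨hBn, hBA.trans hAV, N • l1 + l2, N * c1 + c2, fun v hv => ?_⟩
  have h6 : (N • l1 + l2) v = N * l1 v + l2 v := rfl
  rw [h6]
  by_cases hvA : v ∈ A
  · have h3 : l1 v = c1 := (h1 v hv).2.2 hvA
    have h4 := h2 v hvA
    rw [h3]
    refine ⟨by linarith [h4.1], ?_⟩
    rw [← h4.2]
    constructor
    · intro h; linarith
    · intro h; rw [h]
  · have h3 := hN v (Finset.mem_sdiff.2 ⟨hv, hvA⟩)
    have h4 : N * l1 v + l2 v < N * c1 + c2 := by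
      have h5 : N * (c1 - l1 v) = N * c1 - N * l1 v := by ring
      simp only [h5] at h3
      linarith
    exact ⟨h4.le, fun h => absurd h h4.ne, fun h => absurd (hBA h) hvA⟩

/-- G02: intersections of faces -/
theorem face_inter (hA : IsFace V A) (hB : IsFace V B) (h : (A ∩ B).Nonempty) : IsFace V (A ∩ B) := by
  obtain ⟨_, hAV, l1, c1, h1⟩ := hA
  obtain ⟨_, _, l2, c2, h2⟩ := hB
  refine ⟨h, Finset.inter_subset_left.trans hAV, l1 + l2, c1 + c2, fun v hv => ?_⟩
  have h6 : (l1 + l2) v = l1 v + l2 v := rfl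
  rw [h6, Finset.mem_inter, ← (h1 v hv).2, ← (h2 v hv).2]
  have h3 := (h1 v hv).1
  have h4 := (h2 v hv).1
  refine ⟨by linarith, ?_⟩
  constructor
  · intro h5
    exact ⟨by linarith, by linarith⟩
  · rintro ⟨h5, h7⟩
    rw [h5, h7]

end Pool.Agent.LibPol19
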