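import Mathlib
import Pool.Agent.LibPol19.Defs
import Pool.Agent.LibPol19.G01
import Pool.Agent.LibPol19.G03

/-! Row G04.
v ∈ V not a maximum of ℓ. h exposes v: g u := h v - h u > 0 for u ∈ V, u ≠ v. Claim, by strong induction on card A: if A ⊆ V, v ∈ A, IsFace V A, 2 ≤ card A and ℓ u > ℓ v for all u ∈ A, u ≠ v,
then there is u ∈ A with IsFace V {v, u}, u ≠ v. Proof: card A = 2: A = {v, u}. card A ≥ 3: pick p ≠ q in A \ {v}; the vectors (p - v)/g p and (q - v)/g q are different: otherwise p - v = t (q - v), t > 0 (t = g p / g q),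
t ≠ 1, if t < 1 then p = (1-t) v + t q lies strictly between v and q and the functional exposing p gives a contradiction, same for t > 1 with q. So some linear m has m((p - v)/g p) ≠ m((q - v)/g q) (an inner product or a coordinate);
let M be the set of the u ∈ A \ {v} where ρ u = (m u - m v)/g u is maximal, ρ0 the maximum: the functional m + ρ0 h on A: (m + ρ0 h)(u) - (m + ρ0 h)(v) = g u (ρ u - ρ0) ≤ 0 with equality iff u ∈ M ∪ {v}: so M ∪ {v} is a face of A
(proper, since ρ is not constant), hence a face of V (face_trans), induction. Start: the same construction with m = ℓ on A = V: ρ0 > 0 as ℓ w > ℓ v for some w, so every u ∈ M has ℓ u > ℓ v.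
-/

set_option autoImplicit false

namespace Pool.Agent.LibPol19

open Finset
open scoped Classical

variable {d : ℕ} {V A B F F' K R R' S : Finset (Ed d)}


theorem G04_ray {p q v : Ed d} (h : Ed d →ₗ[ℝ] ℝ) (hpv : h p < h v) (hqv : h q < h v)
    (mp mq : Ed d →ₗ[ℝ] ℝ) (mpv : mp v < mp p) (mpq : mp q < mp p) (mqv : mq v < mq q)
    (mqp : mq p < mq q) :
    (1 / (h v - h p)) • (p - v) ≠ (1 / (h v - h q)) • (q - v) := by
  intro he
  have hgp : 0 < h v - h p := by linarith
  have hgq : 0 < h v - h q := by linarith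
  obtain ⟨x, hx⟩ : ∃ x, x = (1 / (h v - h p)) • (p - v) := ⟨_, rfl⟩
  have hp : p - v = (h v - h p) • x := by
    rw [hx, smul_smul, mul_one_div_cancel hgp.ne', one_smul]
  have hq : q - v = (h v - h q) • x := by
    rw [hx, he, smul_smul, mul_one_div_cancel hgq.ne', one_smul]
  have a1 : mp p - mp v = (h v - h p) * mp x := by
    rw [← map_sub, hp, map_smul, smul_eq_mul]
  have a2 : mp q - mp v = (h v - h q) * mp x := by
    rw [← map_sub, hq, map_smul, smul_eq_mul]
  have a3 : mq p - mq v = (h v - h p) * mq x := by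
    rw [← map_sub, hp, map_smul, smul_eq_mul]
  have a4 : mq q - mq v = (h v - h q) * mq x := by
    rw [← map_sub, hq, map_smul, smul_eq_mul]
  have b1 : 0 < mp x := by
    by_contra hcon
    have : (h v - h p) * mp x ≤ 0 := mul_nonpos_of_nonneg_of_nonpos hgp.le (not_lt.mp hcon)
    linarith
  have b2 : 0 < mq x := by
    by_contra hcon
    have : (h v - h q) * mq x ≤ 0 := mul_nonpos_of_nonneg_of_nonpos hgq.le (not_lt.mp hcon)
    linarith
  rcases le_total (h v - h p) (h v - h q) with hc | hc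
  · have : (h v - h p) * mp x ≤ (h v - h q) * mp x := mul_le_mul_of_nonneg_right hc b1.le
    linarith
  · have : (h v - h q) * mq x ≤ (h v - h p) * mq x := mul_le_mul_of_nonneg_right hc b2.le
    linarith

theorem G04_sep {x y : Ed d} (hxy : x ≠ y) : ∃ m : Ed d →ₗ[ℝ] ℝ, m x ≠ m y := by
  refine ⟨(innerSL ℝ (x - y)).toLinearMap, ?_⟩
  intro h
  have h1 : inner ℝ (x - y) x = inner ℝ (x - y) y := h
  have h2 : inner ℝ (x - y) (x - y) = (0 : ℝ) := by
    rw [inner_sub_right, h1, sub_self]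
  rw [inner_self_eq_zero, sub_eq_zero] at h2
  exact hxy h2

theorem G04_face {A : Finset (Ed d)} {v : Ed d} (hv : v ∈ A) (hne : ∃ u ∈ A, u ≠ v)
    (h : Ed d →ₗ[ℝ] ℝ) (hh : ∀ w ∈ A, w ≠ v → h w < h v) (m : Ed d →ₗ[ℝ] ℝ) :
    ∃ B, IsFace A B ∧ v ∈ B ∧ (∃ u ∈ B, u ≠ v) ∧ ∀ u ∈ B, u ≠ v → ∀ w ∈ A, w ≠ v →
      (m w - m v) / (h v - h w) ≤ (m u - m v) / (h v - h u) := by
  obtain ⟨u₀, hu₀, hu₀v⟩ := hne
  have hN : (A.erase v).Nonempty := ⟨u₀, mem_erase.mpr ⟨hu₀v, hu₀⟩⟩
  obtain ⟨z, hz, hzmax⟩ := exists_max_image (A.erase v) (fun w => (m w - m v) / (h v - h w)) hN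
  set ρ₀ := (m z - m v) / (h v - h z) with hρ₀
  rw [mem_erase] at hz
  refine ⟨A.filter (fun u => u = v ∨ (m u - m v) / (h v - h u) = ρ₀), ⟨?_, filter_subset _ _, ?_⟩,
    ?_, ?_, ?_⟩
  · exact ⟨v, mem_filter.mpr ⟨hv, Or.inl rfl⟩⟩
  · refine ⟨m + ρ₀ • h, m v + ρ₀ * h v, ?_⟩
    intro w hw
    simp only [LinearMap.add_apply, LinearMap.smul_apply, smul_eq_mul, mem_filter]
    by_cases hwv : w = v
    · subst hwv
      exact ⟨le_rfl, fun _ => ⟨hw, Or.inl rfl⟩, fun _ => rfl⟩
    · have hg : 0 < h v - h w := by linarith [hh w hw hwv]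
      have h1 : (m w - m v) / (h v - h w) ≤ ρ₀ := hzmax w (mem_erase.mpr ⟨hwv, hw⟩)
      have e1 : m w + ρ₀ * h w - (m v + ρ₀ * h v) =
          (h v - h w) * ((m w - m v) / (h v - h w) - ρ₀) := by
        field_simp
        ring
      constructor
      · have : (h v - h w) * ((m w - m v) / (h v - h w) - ρ₀) ≤ 0 :=
          mul_nonpos_of_nonneg_of_nonpos hg.le (by linarith)
        linarith
      · constructor
        · intro he
          have h2 : (h v - h w) * ((m w - m v) / (h v - h w) - ρ₀) = 0 := by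
            rw [← e1, he, sub_self]
          rcases mul_eq_zero.mp h2 with h3 | h3
          · exact absurd h3 hg.ne'
          · exact ⟨hw, Or.inr (by linarith)⟩
        · rintro ⟨-, h3 | h3⟩
          · exact absurd h3 hwv
          · rw [h3, sub_self, mul_zero] at e1
            linarith
  · exact mem_filter.mpr ⟨hv, Or.inl rfl⟩
  · exact ⟨z, mem_filter.mpr ⟨hz.2, Or.inr rfl⟩, hz.1⟩
  · intro u hu huv w hw hwv
    rcases (mem_filter.mp hu).2 with h1 | h1
    · exact absurd h1 huv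
    · rw [h1]
      exact hzmax w (mem_erase.mpr ⟨hwv, hw⟩)

theorem G04_ind (hV : IsVert V) {v : Ed d} (hv : v ∈ V) (ℓ : Ed d →ₗ[ℝ] ℝ) (n : ℕ) :
    ∀ A : Finset (Ed d), A.card = n → v ∈ A → IsFace V A → (∃ u ∈ A, u ≠ v) →
      (∀ u ∈ A, u ≠ v → ℓ v < ℓ u) → ∃ u ∈ A, u ≠ v ∧ IsFace V {v, u} := by
  induction n using Nat.strong_induction_on with
  | _ n ih =>
    intro A hn hvA hA hne hℓ
    obtain ⟨p, hp, hpv⟩ := hne
    by_cases hq : ∃ q ∈ A, q ≠ v ∧ q ≠ p
    · obtain ⟨q, hq, hqv, hqp⟩ := hq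
      have hAV : A ⊆ V := hA.2.1
      obtain ⟨h, hh⟩ := hV v hv
      obtain ⟨mp, hmp⟩ := hV p (hAV hp)
      obtain ⟨mq, hmq⟩ := hV q (hAV hq)
      have hray := G04_ray h (hh p (hAV hp) hpv) (hh q (hAV hq) hqv) mp mq
        (hmp v hv hpv.symm) (hmp q (hAV hq) hqp) (hmq v hv hqv.symm) (hmq p (hAV hp) hqp.symm)
      obtain ⟨m, hm⟩ := G04_sep hray
      obtain ⟨B, hB, hvB, hneB, hmax⟩ := G04_face hvA ⟨p, hp, hpv⟩ h
        (fun w hw hwv => hh w (hAV hw) hwv) m
      have hBA : B ⊆ A := hB.2.1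
      have hlt : B.card < n := by
        rw [← hn]
        apply card_lt_card
        rw [ssubset_iff_subset_ne]
        refine ⟨hBA, ?_⟩
        intro heq
        apply hm
        have hpB : p ∈ B := by rw [heq]; exact hp
        have hqB : q ∈ B := by rw [heq]; exact hq
        have h1 := hmax p hpB hpv q hq hqv
        have h2 := hmax q hqB hqv p hp hpv
        rw [map_smul, map_smul, map_sub, map_sub, smul_eq_mul, smul_eq_mul, one_div_mul_eq_div,
          one_div_mul_eq_div]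
        exact le_antisymm h2 h1
      obtain ⟨u, hu, huv, hface⟩ := ih B.card hlt B rfl hvB (face_trans hA hB) hneB
        (fun u hu huv => hℓ u (hBA hu) huv)
      exact ⟨u, hBA hu, huv, hface⟩
    · refine ⟨p, hp, hpv, ?_⟩
      have hAeq : A = {v, p} := by
        ext z
        rw [mem_insert, mem_singleton]
        constructor
        · intro hz
          by_contra hcon
          rw [not_or] at hcon
          exact hq ⟨z, hz, hcon.1, hcon.2⟩
        · rintro (rfl | rfl)
          · exact hvA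
          · exact hp
      rw [← hAeq]
      exact hA

/-- G04: a vertex which is not maximal has a better neighbour -/
theorem step (hV : IsVert V) {v : Ed d} (hv : v ∈ V) (ℓ : Ed d →ₗ[ℝ] ℝ) (h : ∃ w ∈ V, ℓ v < ℓ w) :
    ∃ u ∈ V, ℓ v < ℓ u ∧ Adj V v u := by
  obtain ⟨w, hw, hvw⟩ := h
  have hwv : w ≠ v := by
    rintro rfl
    exact lt_irrefl _ hvw
  obtain ⟨h, hh⟩ := hV v hv
  obtain ⟨B, hB, hvB, hneB, hmax⟩ := G04_face hv ⟨w, hw, hwv⟩ h hh ℓ
  have hBV : B ⊆ V := hB.2.1
  have hpos : ∀ u ∈ B, u ≠ v → ℓ v < ℓ u := by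
    intro u hu huv
    have h1 := hmax u hu huv w hw hwv
    have h2 : 0 < (ℓ w - ℓ v) / (h v - h w) :=
      div_pos (by linarith) (by linarith [hh w hw hwv])
    have hgu : 0 < h v - h u := by linarith [hh u (hBV hu) huv]
    have h3 : 0 < (ℓ u - ℓ v) / (h v - h u) := by linarith
    have h4 := mul_pos h3 hgu
    rw [div_mul_cancel₀ _ hgu.ne'] at h4
    linarith
  obtain ⟨u, hu, huv, hface⟩ := G04_ind hV hv ℓ B.card B rfl hvB hB hneB hpos
  exact ⟨u, hBV hu, hpos u hu huv, huv.symm, hface⟩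

end Pool.Agent.LibPol19
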