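import Mathlib
import Pool.Agent.LibPol19.Defs
import Pool.Agent.LibPol19.G01
import Pool.Agent.LibPol19.G03
import Pool.Agent.LibPol19.G04

/-! Row G05.
Apply step to A (IsVert A by vert_sub): u ∈ A, ℓ v < ℓ u, Adj A v u, i.e. IsFace A {v, u}, so IsFace V {v, u} by face_trans.
-/

set_option autoImplicit false

namespace Pool.Agent.LibPol19

open Finset
open scoped Classical

variable {d : ℕ} {V A B F F' K R R' S : Finset (Ed d)}


/-- G05: the same inside a face -/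
theorem step_face (hV : IsVert V) (hA : IsFace V A) {v : Ed d} (hv : v ∈ A) (ℓ : Ed d →ₗ[ℝ] ℝ)
    (h : ∃ w ∈ A, ℓ v < ℓ w) : ∃ u ∈ A, ℓ v < ℓ u ∧ Adj V v u := by
  obtain ⟨u, hu, h1, h2, h3⟩ := step (vert_sub hV hA.2.1) hv ℓ h
  exact ⟨u, hu, h1, h2, face_trans hA h3⟩

end Pool.Agent.LibPol19
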