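import Mathlib
import Pool.Agent.LibPol19.Defs
import Pool.Agent.LibPol19.G03
import Pool.Agent.LibPol19.G05

/-! Row G06.
If w = v take c = 0. h exposes v in V, g u := h v - h u > 0 for u ∈ V \ {v}. N := nb V v ∩ A. Consider û = (1/g u) • (u - v) for u ∈ N ∪ {w}. If ŵ ∈ convexHull ℝ {û : u ∈ N} (image of N), then ŵ = ∑ λ_u û, so
w - v = ∑ (g w λ_u / g u)(u - v): done (Finset.mem_convexHull / convexHull_eq, Finset.centerMass; put c u = g w λ_u / g u on N, 0 elsewhere; if N is empty the hull is empty). Otherwise separate (the hull of a finite set is compact, hence closed: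
Set.Finite.isClosed_convexHull; geometric_hahn_banach_closed_point): a continuous linear m and s with m û < s for all u ∈ N and s < m ŵ (if N = ∅ take m = 0, s = -1). Put ℓ := m + s • h (as a linear map): ℓ u - ℓ v = g u (m û - s) < 0 for u ∈ N, and
ℓ w - ℓ v = g w (m ŵ - s) > 0. step_face gives u ∈ A with ℓ v < ℓ u, Adj V v u, i.e. u ∈ N: contradiction.
-/

set_option autoImplicit false

namespace Pool.Agent.LibPol19

open Finset
open scoped Classical

variable {d : ℕ} {V A B F F' K R R' S : Finset (Ed d)}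


/-- G06: a face lies in the cone spanned by the edges at a vertex -/
theorem cone (hV : IsVert V) (hA : IsFace V A) {v w : Ed d} (hv : v ∈ A) (hw : w ∈ A) :
    ∃ c : Ed d → ℝ, (∀ u, 0 ≤ c u) ∧ w - v = ∑ u ∈ nb V v ∩ A, c u • (u - v) := by
  have hAV : A ⊆ V := hA.2.1
  by_cases hwv : w = v
  · refine ⟨fun _ => 0, fun _ => le_rfl, ?_⟩
    rw [hwv, sub_self]
    simp
  obtain ⟨h, hh⟩ := hV v (hAV hv)
  have hg : ∀ u ∈ V, u ≠ v → 0 < h v - h u := fun u hu huv => sub_pos.2 (hh u hu huv)
  set N : Finset (Ed d) := nb V v ∩ A with hN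
  have hNV : ∀ u ∈ N, u ∈ V ∧ u ≠ v ∧ Adj V v u := by
    intro u hu
    rw [hN, Finset.mem_inter] at hu
    unfold nb at hu
    rw [Finset.mem_filter] at hu
    exact ⟨hu.1.1, fun h0 => hu.1.2.1 h0.symm, hu.1.2⟩
  set f : Ed d → Ed d := fun u => (1 / (h v - h u)) • (u - v) with hf
  have hff : ∀ u ∈ V, u ≠ v → (h v - h u) • f u = u - v := by
    intro u hu huv
    have := hg u hu huv
    rw [hf]
    simp only
    rw [smul_smul, mul_one_div, div_self this.ne', one_smul]
  set K : Set (Ed d) := {z | ∃ c : Ed d → ℝ, (∀ u, 0 ≤ c u) ∧ z = ∑ u ∈ N, c u • (u - v)} with hK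
  have hKc : Convex ℝ K := by
    rintro z1 ⟨c1, h1, rfl⟩ z2 ⟨c2, h2, rfl⟩ a b ha hb -
    refine ⟨fun u => a * c1 u + b * c2 u, fun u => by
      have := h1 u
      have := h2 u
      positivity, ?_⟩
    rw [Finset.smul_sum, Finset.smul_sum, ← Finset.sum_add_distrib]
    refine Finset.sum_congr rfl fun u _ => ?_
    rw [smul_smul, smul_smul, ← add_smul]
  have hSK : f '' (N : Set (Ed d)) ⊆ K := by
    rintro z ⟨u, hu, rfl⟩
    have hu' : u ∈ N := hu
    obtain ⟨h1, h2, -⟩ := hNV u hu'
    have h3 := hg u h1 h2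
    refine ⟨fun w => if w = u then 1 / (h v - h u) else 0, fun w => ?_, ?_⟩
    · show (0:ℝ) ≤ if w = u then 1 / (h v - h u) else 0
      split_ifs
      · positivity
      · exact le_rfl
    · rw [Finset.sum_eq_single u]
      · beta_reduce
        rw [if_pos rfl]
      · intro w _ hw
        beta_reduce
        rw [if_neg hw, zero_smul]
      · intro h4
        exact absurd hu' h4
  by_cases hin : f w ∈ convexHull ℝ (f '' (N : Set (Ed d)))
  · obtain ⟨c, hc, hce⟩ := convexHull_min hSK hKc hin
    have h1 := hg w (hAV hw) hwv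
    refine ⟨fun u => (h v - h w) * c u, fun u => by
      have := hc u
      positivity, ?_⟩
    rw [← hff w (hAV hw) hwv, hce, Finset.smul_sum]
    refine Finset.sum_congr rfl fun u _ => ?_
    rw [smul_smul]
  · exfalso
    obtain ⟨m, s, hm1, hm2⟩ := geometric_hahn_banach_closed_point (convex_convexHull ℝ _)
      (((Finset.finite_toSet N).image f).isClosed_convexHull (𝕜 := ℝ)) hin
    have hval : ∀ u ∈ V, u ≠ v → (m.toLinearMap + s • h) u - (m.toLinearMap + s • h) v =
        (h v - h u) * (m (f u) - s) := by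
      intro u hu huv
      have h1 : m u - m v = (h v - h u) * m (f u) := by
        rw [← map_sub, ← hff u hu huv, map_smul, smul_eq_mul]
      rw [LinearMap.add_apply, LinearMap.add_apply, LinearMap.smul_apply, LinearMap.smul_apply,
        smul_eq_mul, smul_eq_mul]
      have h2 : m.toLinearMap u = m u := rfl
      have h3 : m.toLinearMap v = m v := rfl
      rw [h2, h3]
      linarith
    obtain ⟨u, huA, hu1, hu2⟩ := step_face hV hA hv (m.toLinearMap + s • h) ⟨w, hw, by
      have h1 := hval w (hAV hw) hwv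
      have h2 := hg w (hAV hw) hwv
      have h3 := mul_pos h2 (sub_pos.2 hm2)
      linarith⟩
    have huN : u ∈ N := by
      rw [hN, Finset.mem_inter]
      unfold nb
      rw [Finset.mem_filter]
      exact ⟨⟨hAV huA, hu2⟩, huA⟩
    obtain ⟨h1, h2, -⟩ := hNV u huN
    have h3 := hm1 (f u) (subset_convexHull ℝ _ ⟨u, huN, rfl⟩)
    have h4 := hval u h1 h2
    have h5 := hg u h1 h2
    have h6 := mul_pos h5 (sub_pos.2 h3)
    linarith

end Pool.Agent.LibPol19
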