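import Mathlib
import Pool.Agent.LibPol19.Defs
import Pool.Agent.LibPol19.G06

/-! Row G07.
vectorSpan_eq_span_vsub_set_right hv (u -ᵥ v = u - v): vectorSpan A = span of the w - v, w ∈ A; each is a combination of the u - v, u ∈ nb V v ∩ A (cone); the other inclusion is clear. dm_le_card: finrank_span_finset_le_card /
finrank_span_le_card for the image, card_image_le.
-/

set_option autoImplicit false

namespace Pool.Agent.LibPol19

open Finset
open scoped Classical

variable {d : ℕ} {V A B F F' K R R' S : Finset (Ed d)}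


/-- G07: the direction space of a face -/
theorem span_eq (hV : IsVert V) (hA : IsFace V A) {v : Ed d} (hv : v ∈ A) :
    vectorSpan ℝ (A : Set (Ed d)) = Submodule.span ℝ ((fun u => u - v) '' ((nb V v ∩ A : Finset (Ed d)) : Set (Ed d))) := by
  rw [vectorSpan_eq_span_vsub_set_right ℝ (mem_coe.2 hv)]
  apply le_antisymm
  · rw [Submodule.span_le]
    rintro _ ⟨w, hw, rfl⟩
    obtain ⟨c, -, hc⟩ := cone hV hA hv (mem_coe.1 hw)
    show w - v ∈ _
    rw [hc]
    refine Submodule.sum_mem _ fun u hu => Submodule.smul_mem _ _ (Submodule.subset_span ?_)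
    exact ⟨u, mem_coe.2 hu, rfl⟩
  · refine Submodule.span_mono ?_
    rintro _ ⟨u, hu, rfl⟩
    exact ⟨u, mem_coe.2 (mem_inter.1 (mem_coe.1 hu)).2, rfl⟩

theorem dm_le_card (hV : IsVert V) (hA : IsFace V A) {v : Ed d} (hv : v ∈ A) : dm A ≤ (nb V v ∩ A).card := by
  unfold dm
  rw [span_eq hV hA hv, ← coe_image]
  exact (finrank_span_finset_le_card _).trans card_image_le

end Pool.Agent.LibPol19
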