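import Mathlib
import Pool.Agent.LibPol19.Defs
import Pool.Agent.LibPol19.G03
import Pool.Agent.LibPol19.G07

/-! Row G12.
span_eq for A = V (face_self): ⊤ = span ((fun u => u - v) '' nb V v) since V ∩ nb V v = nb V v (nb V v ⊆ V). Family indexed by {u // u ∈ nb V v}, Fintype.card = d = finrank (EuclideanSpace ℝ (Fin d)): linearIndependent_of_top_le_span_of_card_eq_finrank.
-/

set_option autoImplicit false

namespace Pool.Agent.LibPol19

open Finset
open scoped Classical

variable {d : ℕ} {V A B F F' K R R' S : Finset (Ed d)}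


/-- G12: at a simple vertex the edges are linearly independent -/
theorem simple_indep (hV : IsVert V) (hfull : Full V) {v : Ed d} (hv : v ∈ V) (hs : (nb V v).card = d) :
    LinearIndependent ℝ (fun u : {u // u ∈ nb V v} => (u : Ed d) - v) := by
  have h1 := span_eq hV (face_self ⟨v, hv⟩) hv
  have h2 : nb V v ∩ V = nb V v := by
    rw [Finset.inter_eq_left]
    exact Finset.filter_subset _ _
  rw [h2, hfull] at h1
  refine linearIndependent_of_top_le_span_of_card_eq_finrank ?_ ?_
  · rw [h1]
    refine Submodule.span_mono ?_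
    rintro _ ⟨u, hu, rfl⟩
    exact ⟨⟨u, Finset.mem_coe.1 hu⟩, rfl⟩
  · rw [Fintype.card_coe, hs, finrank_euclideanSpace_fin]

end Pool.Agent.LibPol19
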