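import Mathlib
import Pool.Agent.LibPol19.Defs

/-! # Cutting off a simple vertex: definitions -/

set_option autoImplicit false

namespace Pool.Agent.LibPol19

open Finset
open scoped Classical

variable {d : ℕ}

/-- the middle of an edge -/
noncomputable def md (v u : Ed d) : Ed d := (1 / 2 : ℝ) • (v + u)

/-- the neighbours of `v` different from `a` and `b` -/
noncomputable def oth (V : Finset (Ed d)) (v a b : Ed d) : Finset (Ed d) := ((nb V v).erase a).erase b

/-- the vertices after cutting off `v` by the hyperplane through `a`, `b` and the middles of the other edges at `v` -/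
noncomputable def cutV (V : Finset (Ed d)) (v a b : Ed d) : Finset (Ed d) :=
  V.erase v ∪ (oth V v a b).image (md v)

/-- the vertices on the cutting hyperplane -/
noncomputable def cutT (V : Finset (Ed d)) (v a b : Ed d) : Finset (Ed d) := {a, b} ∪ (oth V v a b).image (md v)

/-- the trace of a set of vertices -/
noncomputable def cutF (V : Finset (Ed d)) (v a b : Ed d) (A : Finset (Ed d)) : Finset (Ed d) :=
  A.erase v ∪ (if v ∈ A then (oth V v a b ∩ A).image (md v) else ∅)

/-- the situation: `v` is simple, `a` and `b` are nonadjacent neighbours of `v` -/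
structure Cut (V : Finset (Ed d)) (v a b : Ed d) : Prop where
  vert : IsVert V
  full : Full V
  hd : 3 ≤ d
  hv : v ∈ V
  simple : (nb V v).card = d
  ha : a ∈ nb V v
  hb : b ∈ nb V v
  hab : a ≠ b
  nadj : ¬ Adj V a b

/-- labels of the vertices after the cut -/
abbrev Lab {X : Type} (adj : X → X → Prop) (v a b : X) : Type :=
  {x : X // x ≠ v} ⊕ {u : X // adj v u ∧ u ≠ a ∧ u ≠ b}

/-- adjacency of the labels after the cut -/
def adjY {X : Type} (adj : X → X → Prop) (v a b : X) : Lab adj v a b → Lab adj v a b → Prop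
  | Sum.inl x, Sum.inl y => adj x.1 y.1 ∨ (x.1 = a ∧ y.1 = b) ∨ (x.1 = b ∧ y.1 = a)
  | Sum.inl x, Sum.inr u => x.1 = u.1 ∨ x.1 = a ∨ x.1 = b
  | Sum.inr u, Sum.inl x => x.1 = u.1 ∨ x.1 = a ∨ x.1 = b
  | Sum.inr u, Sum.inr w => u.1 ≠ w.1

end Pool.Agent.LibPol19
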