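import Mathlib
import Pool.Agent.LibPol19.Defs2
import Pool.Agent.LibPol19.G03
import Pool.Agent.LibPol19.G06
import Pool.Agent.LibPol19.G12

/-! Row Q01.
cut_values: the family u - v (u ∈ nb V v) is linearly independent (simple_indep); a linear map with prescribed values on a linearly independent family (extend to a basis: Basis.extend, Basis.constr; or LinearIndependent gives basisOfLinearIndependentOfCardEqFinrank when d > 0). cut_fun: φ = 1 at a, b and 2 on the others.
For x ∈ V, x ≠ v: x - v = ∑ c u (u - v), c ≥ 0 (cone with A = V). m x - m v = c a + c b + 2 ∑_{oth} c u. Suppose it is ≤ 1. Then ∑ c u ≤ 1 and x = (1 - ∑ c u) v + ∑ c u u is a convex combination of v and its neighbours. If x ∉ {v} ∪ nb V v: the functional exposing x is < ℓ x at all these points: contradiction.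
If x ∈ nb V v: coefficients are unique (linear independence), so c = indicator of x and m x - m v = 1 (x = a, b) or 2. So for x ∉ {v, a, b} it is > 1.
-/

set_option autoImplicit false

namespace Pool.Agent.LibPol19

open Finset
open scoped Classical


variable {d : ℕ} {V V' A B F : Finset (Ed d)} {v a b c : Ed d}

/-- a linear map with prescribed values on a linearly independent family -/
theorem Q01_ext {ι E : Type*} [AddCommGroup E] [Module ℝ E] {f : ι → E}
    (hli : LinearIndependent ℝ f) (g : ι → ℝ) : ∃ ℓ : E →ₗ[ℝ] ℝ, ∀ i, ℓ (f i) = g i := by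
  obtain ⟨ℓ, hℓ⟩ := LinearMap.exists_extend
    ((Finsupp.linearCombination ℝ g) ∘ₗ (hli.repr : _ →ₗ[ℝ] _))
  refine ⟨ℓ, fun i => ?_⟩
  have hmem : f i ∈ Submodule.span ℝ (Set.range f) := Submodule.subset_span (Set.mem_range_self i)
  have h1 : ℓ (f i) = Finsupp.linearCombination ℝ g (hli.repr ⟨f i, hmem⟩) :=
    LinearMap.congr_fun hℓ ⟨f i, hmem⟩
  have h2 : hli.repr ⟨f i, hmem⟩ = Finsupp.single i 1 := hli.repr_eq_single i _ rfl
  rw [h1, h2, Finsupp.linearCombination_single, one_smul]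

theorem Q01_values (h : Cut V v a b) (φ : Ed d → ℝ) : ∃ ℓ : Ed d →ₗ[ℝ] ℝ, ∀ u ∈ nb V v, ℓ u - ℓ v = φ u := by
  obtain ⟨ℓ, hℓ⟩ := Q01_ext (simple_indep h.vert h.full h.hv h.simple) (fun u => φ u)
  refine ⟨ℓ, fun u hu => ?_⟩
  have h1 := hℓ ⟨u, hu⟩
  rw [map_sub] at h1
  exact h1

/-- Q01: the cutting hyperplane -/
theorem cut_fun (h : Cut V v a b) : ∃ m : Ed d →ₗ[ℝ] ℝ, m a - m v = 1 ∧ m b - m v = 1 ∧ (∀ u ∈ oth V v a b, m u - m v = 2) ∧
    ∀ x ∈ V, x ≠ v → x ≠ a → x ≠ b → 1 < m x - m v := by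
  obtain ⟨m, hm⟩ := Q01_values h (fun u => if u = a ∨ u = b then 1 else 2)
  have hnbV : nb V v ∩ V = nb V v := inter_eq_left.2 (filter_subset _ _)
  have hoth : ∀ u ∈ nb V v, u ≠ a → u ≠ b → m u - m v = 2 := by
    intro u hu ha hb
    rw [hm u hu, if_neg (by tauto)]
  refine ⟨m, ?_, ?_, ?_, ?_⟩
  · rw [hm a h.ha, if_pos (Or.inl rfl)]
  · rw [hm b h.hb, if_pos (Or.inr rfl)]
  · intro u hu
    unfold oth at hu
    rw [mem_erase, mem_erase] at hu
    exact hoth u hu.2.2 hu.2.1 hu.1
  · intro x hx hxv hxa hxb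
    by_cases hxn : x ∈ nb V v
    · rw [hoth x hxn hxa hxb]
      norm_num
    · by_contra hle
      rw [not_lt] at hle
      obtain ⟨c, hc0, hc⟩ := cone h.vert (face_self ⟨v, h.hv⟩) h.hv hx
      rw [hnbV] at hc
      have hval : ∀ ℓ : Ed d →ₗ[ℝ] ℝ, ℓ x - ℓ v = ∑ u ∈ nb V v, c u * (ℓ u - ℓ v) := by
        intro ℓ
        rw [← map_sub, hc, map_sum]
        refine sum_congr rfl fun u _ => ?_
        rw [map_smul, map_sub, smul_eq_mul]
      have hS : ∑ u ∈ nb V v, c u ≤ 1 := by
        refine le_trans ?_ hle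
        rw [hval m]
        refine sum_le_sum fun u hu => ?_
        rw [hm u hu]
        split_ifs
        · rw [mul_one]
        · linarith [hc0 u]
      obtain ⟨ℓ, hℓ⟩ := h.vert x hx
      have hv : ℓ v < ℓ x := hℓ v h.hv hxv.symm
      have hle2 : ∀ u ∈ nb V v, ℓ u < ℓ x := by
        intro u hu
        refine hℓ u (filter_subset _ _ hu) ?_
        rintro rfl
        exact hxn hu
      have hsum : ∑ u ∈ nb V v, c u * (ℓ x - ℓ v) ≤ ℓ x - ℓ v := by
        rw [← sum_mul]
        nlinarith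
      by_cases hall : ∀ u ∈ nb V v, c u = 0
      · have h0 := hval ℓ
        rw [sum_eq_zero (fun u hu => by rw [hall u hu, zero_mul])] at h0
        linarith
      · push Not at hall
        obtain ⟨u, hu, hcu⟩ := hall
        have hlt : ∑ u ∈ nb V v, c u * (ℓ u - ℓ v) < ∑ u ∈ nb V v, c u * (ℓ x - ℓ v) := by
          refine sum_lt_sum (fun w hw => ?_) ⟨u, hu, ?_⟩
          · exact mul_le_mul_of_nonneg_left (by linarith [hle2 w hw]) (hc0 w)
          · exact mul_lt_mul_of_pos_left (by linarith [hle2 u hu])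
              (lt_of_le_of_ne (hc0 u) (Ne.symm hcu))
        have h0 := hval ℓ
        linarith

/-- Q02: the functional with prescribed values -/
theorem cut_values (h : Cut V v a b) (φ : Ed d → ℝ) : ∃ ℓ : Ed d →ₗ[ℝ] ℝ, ∀ u ∈ nb V v, ℓ u - ℓ v = φ u :=
  Q01_values h φ

end Pool.Agent.LibPol19
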