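import Mathlib
import Pool.Agent.LibPol19.Defs

/-! Row G09.
two_le_dm: three different points p, q, r of A; if dm A ≤ 1 they are collinear (collinear_iff_finrank_le_one, Collinear.subset), so one of them is weakly between the others (Collinear.wbtw_or_wbtw_or_wbtw), say q = (1-t) p + t r with 0 ≤ t ≤ 1; the functional
exposing q gives ℓ q = (1-t) ℓ p + t ℓ r < ℓ q. dm_zero: card_eq_one, vectorSpan_singleton, finrank_bot. dm_one: card_eq_two, vectorSpan_pair (or vectorSpan_eq_span_vsub_set_right), finrank_span_singleton.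
-/

set_option autoImplicit false

namespace Pool.Agent.LibPol19

open Finset
open scoped Classical

variable {d : ℕ} {V A B F F' K R R' S : Finset (Ed d)}

theorem g09_btw (hV : IsVert V) {x y z : Ed d} (hx : x ∈ V) (hy : y ∈ V) (hz : z ∈ V)
    (hxy : x ≠ y) (hzy : z ≠ y) : ¬ Wbtw ℝ x y z := by
  rintro ⟨t, ⟨h0, h1⟩, ht⟩
  obtain ⟨ℓ, hℓ⟩ := hV y hy
  have h2 := hℓ x hx hxy
  have h3 := hℓ z hz hzy
  have h4 : ℓ y = (1 - t) * ℓ x + t * ℓ z := by
    rw [← ht, AffineMap.lineMap_apply_module, map_add, map_smul, map_smul, smul_eq_mul,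
      smul_eq_mul]
  have h5 : 0 ≤ (1 - t) * (ℓ y - ℓ x) := mul_nonneg (by linarith) (by linarith)
  have h6 : 0 ≤ t * (ℓ y - ℓ z) := mul_nonneg h0 (by linarith)
  have h7 : (1 - t) * (ℓ y - ℓ x) + t * (ℓ y - ℓ z) = 0 := by
    have h8 : (1 - t) * (ℓ y - ℓ x) + t * (ℓ y - ℓ z) =
        ℓ y - ((1 - t) * ℓ x + t * ℓ z) := by ring
    rw [h8, ← h4, sub_self]
  have h9 : (1 - t) * (ℓ y - ℓ x) = 0 := by linarith
  have h10 : t * (ℓ y - ℓ z) = 0 := by linarith
  rcases mul_eq_zero.1 h9 with h11 | h11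
  · rcases mul_eq_zero.1 h10 with h12 | h12
    · linarith
    · linarith
  · linarith

/-- G09: three vertices are not collinear -/
theorem two_le_dm (hV : IsVert V) (hA : A ⊆ V) (h : 3 ≤ A.card) : 2 ≤ dm A := by
  by_contra hcon
  have h1 : Module.finrank ℝ (vectorSpan ℝ (A : Set (Ed d))) ≤ 1 := by
    unfold dm at hcon
    omega
  have h2 : Collinear ℝ (A : Set (Ed d)) := collinear_iff_finrank_le_one.2 h1
  obtain ⟨x, y, z, hx, hy, hz, hxy, hxz, hyz⟩ := Finset.two_lt_card_iff.1 (by omega : 2 < A.card)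
  have h3 : Collinear ℝ ({x, y, z} : Set (Ed d)) := h2.subset (by
    rintro w (rfl | rfl | rfl)
    · exact hx
    · exact hy
    · exact hz)
  rcases h3.wbtw_or_wbtw_or_wbtw with h4 | h4 | h4
  · exact g09_btw hV (hA hx) (hA hy) (hA hz) hxy hyz.symm h4
  · exact g09_btw hV (hA hy) (hA hz) (hA hx) hyz hxz h4
  · exact g09_btw hV (hA hz) (hA hx) (hA hy) hxz.symm hxy.symm h4

theorem dm_zero (hA : A.card = 1) : dm A = 0 := by
  obtain ⟨x, rfl⟩ := Finset.card_eq_one.1 hA
  unfold dm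
  rw [Finset.coe_singleton, vectorSpan_singleton, finrank_bot]

theorem dm_one (hA : A.card = 2) : dm A = 1 := by
  obtain ⟨x, y, hxy, rfl⟩ := Finset.card_eq_two.1 hA
  unfold dm
  rw [Finset.coe_pair, vectorSpan_pair]
  exact finrank_span_singleton (by
    intro h
    exact hxy (vsub_eq_zero_iff_eq.1 h))

end Pool.Agent.LibPol19
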