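import Mathlib
import Pool.Agent.LibPol19.Defs

/-! Row T02.
face_hull: ℓ as continuous linear map (LinearMap.toContinuousLinearMap); convexHull A = {x ∈ P | ∀ y ∈ P, ℓ y ≤ ℓ x}: ℓ ≤ c on P (convexHull_min into the half space); a point of P with ℓ = c is a convex combination of V (Finset.mem_convexHull or mem_convexHull_iff_exists_weights) with weights only on A. IsExposed is: F.Nonempty → ∃ l, F = {x ∈ P | ∀ y ∈ P, l y ≤ l x}. hull_face: F = {x ∈ P | ∀ y ∈ P, l y ≤ l x}, c = max of l on P,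
A := V.filter (l v = c); A nonempty: the maximum over P is attained at a vertex (convexHull); then F = convexHull A by the same argument.
-/

set_option autoImplicit false

namespace Pool.Agent.LibPol19

open Finset
open scoped Classical

variable {d : ℕ} {V V' : Finset (Ed d)} {P Q : Set (Ed d)}

theorem t02_key {V A : Finset (Ed d)} (hne : A.Nonempty) (hAV : A ⊆ V) (l : Ed d →ₗ[ℝ] ℝ) (c : ℝ)
    (h : ∀ v ∈ V, l v ≤ c ∧ (l v = c ↔ v ∈ A)) :
    convexHull ℝ (A : Set (Ed d)) =
      {x | x ∈ convexHull ℝ (V : Set (Ed d)) ∧ ∀ y ∈ convexHull ℝ (V : Set (Ed d)), l y ≤ l x} := by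
  have hle : ∀ y ∈ convexHull ℝ (V : Set (Ed d)), l y ≤ c := by
    intro y hy
    exact convexHull_min (t := {z | l z ≤ c}) (fun v hv => (h v hv).1) (convex_halfSpace_le l.isLinear c) hy
  ext x
  constructor
  · intro hx
    have h1 : l x = c :=
      convexHull_min (t := {z | l z = c}) (fun v hv => ((h v (hAV hv)).2).2 hv) (convex_hyperplane l.isLinear c) hx
    exact ⟨convexHull_mono (by exact_mod_cast hAV) hx, fun y hy => by rw [h1]; exact hle y hy⟩
  · rintro ⟨hx, hmax⟩
    obtain ⟨a, ha⟩ := hne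
    have hla : l a = c := ((h a (hAV ha)).2).2 ha
    have hlx : l x = c := by
      refine le_antisymm (hle x hx) ?_
      rw [← hla]
      exact hmax a (subset_convexHull ℝ _ (by exact_mod_cast hAV ha))
    rw [Finset.mem_convexHull'] at hx ⊢
    obtain ⟨w, hw0, hw1, hwx⟩ := hx
    have hsum : ∑ v ∈ V, w v * (c - l v) = 0 := by
      have e1 : ∑ v ∈ V, w v * l v = c := by
        rw [← hlx, ← hwx, map_sum]
        exact Finset.sum_congr rfl fun v _ => by rw [map_smul, smul_eq_mul]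
      simp_rw [mul_sub]
      rw [Finset.sum_sub_distrib, ← Finset.sum_mul, hw1, e1]
      ring
    have hz : ∀ v ∈ V, v ∉ A → w v = 0 := by
      intro v hv hvA
      have e2 := (Finset.sum_eq_zero_iff_of_nonneg (fun v hv => mul_nonneg (hw0 v hv) (by linarith [(h v hv).1]))).1
        hsum v hv
      rcases mul_eq_zero.1 e2 with e3 | e3
      · exact e3
      · exact absurd (((h v hv).2).1 (by linarith)) hvA
    refine ⟨w, fun y hy => hw0 y (hAV hy), ?_, ?_⟩
    · rw [← hw1]
      exact Finset.sum_subset hAV fun v hv hvA => hz v hv hvA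
    · rw [← hwx]
      refine Finset.sum_subset hAV fun v hv hvA => ?_
      rw [hz v hv hvA, zero_smul]

/-- T02: faces as convex hulls -/
theorem face_hull (hP : P = convexHull ℝ (V : Set (Ed d))) {A : Finset (Ed d)} (hA : IsFace V A) :
    IsF P (convexHull ℝ (A : Set (Ed d))) := by
  obtain ⟨hne, hAV, l, c, h⟩ := hA
  refine ⟨fun _ => ⟨LinearMap.toContinuousLinearMap l, ?_⟩, ?_⟩
  · rw [hP, t02_key hne hAV l c h]
    rfl
  · rw [convexHull_nonempty_iff]
    exact_mod_cast hne

theorem hull_face (hP : P = convexHull ℝ (V : Set (Ed d))) {F : Set (Ed d)} (hF : IsF P F) :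
    ∃ A, IsFace V A ∧ F = convexHull ℝ (A : Set (Ed d)) := by
  obtain ⟨hex, hne⟩ := hF
  obtain ⟨l, hl⟩ := hex hne
  obtain ⟨x0, hx0⟩ := hne
  rw [hl] at hx0
  obtain ⟨hx0P, hx0m⟩ := hx0
  have hle : ∀ v ∈ V, l v ≤ l x0 := fun v hv => hx0m v (by rw [hP]; exact subset_convexHull ℝ _ (by exact_mod_cast hv))
  have h : ∀ v ∈ V, (l : Ed d →ₗ[ℝ] ℝ) v ≤ l x0 ∧ ((l : Ed d →ₗ[ℝ] ℝ) v = l x0 ↔ v ∈ V.filter fun v => l v = l x0) := by
    intro v hv
    refine ⟨hle v hv, ?_⟩
    simp [hv]
  have hA : (V.filter fun v => l v = l x0).Nonempty := by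
    by_contra hcon
    rw [Finset.not_nonempty_iff_eq_empty] at hcon
    have hlt : ∀ v ∈ V, l v < l x0 := by
      intro v hv
      refine lt_of_le_of_ne (hle v hv) fun he => ?_
      have : v ∈ V.filter fun v => l v = l x0 := by simp [hv, he]
      rw [hcon] at this
      simp at this
    rw [hP] at hx0P
    have h1 : l x0 < l x0 :=
      convexHull_min (t := {z | l z < l x0}) (fun v hv => hlt v (by exact_mod_cast hv))
        (convex_halfSpace_lt (l : Ed d →ₗ[ℝ] ℝ).isLinear (l x0)) hx0P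
    exact lt_irrefl _ h1
  refine ⟨V.filter fun v => l v = l x0, ⟨hA, Finset.filter_subset _ _, (l : Ed d →ₗ[ℝ] ℝ), l x0, h⟩, ?_⟩
  rw [t02_key hA (Finset.filter_subset _ _) (l : Ed d →ₗ[ℝ] ℝ) (l x0) h, hl, hP]
  rfl

end Pool.Agent.LibPol19
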