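import Mathlib
import Pool.Agent.LibPol19.Defs
import Pool.Agent.LibPol19.G03

/-! Row G16.
Choose a face B ⊇ A, x ∉ B, of maximal cardinality (Finset.exists_max_image over V.powerset filtered). (ℓ, c) exposes B; g y := c - ℓ y ≥ 0 on V, = 0 iff y ∈ B. b0 ∈ B. Claim dm B + 1 = d. Otherwise finrank (vectorSpan B) + 1 < d (vectorSpan B ≤ ker ℓ ≠ ⊤ gives dm B + 1 ≤ d,
because ℓ ≠ 0: x ∈ V \ B), so there is a linear m vanishing on vectorSpan B and not a multiple of ℓ (dimension of the dual annihilator of vectorSpan B is d - dm B ≥ 2: Subspace.finrank_dualAnnihilator..., or: choose y ∈ ker ℓ \ vectorSpan B (finrank ker ℓ = d - 1 > dm B) and a linear m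
with m y ≠ 0 vanishing on vectorSpan B: Submodule.exists_le_ker_of_notMem). ρ y := (m y - m b0)/g y for y ∈ V \ B. If ρ is constant = ρ0 then m y - m b0 = ρ0 (c - ℓ y) for all y ∈ V (also on B), so m = -ρ0 ℓ on vectorSpan V = ⊤: contradiction with m y ≠ 0 = ℓ y. Let M1, M2 be the sets where ρ is
maximal (value ρ1) resp. minimal (ρ2 < ρ1): disjoint; x is not in one of them, say x ∉ M1. B ∪ M1 is a face: functional m + ρ1 ℓ, constant m b0 + ρ1 c: (m + ρ1 ℓ) y - (m b0 + ρ1 c) = g y (ρ y - ρ1) ≤ 0, = 0 iff y ∈ B ∪ M1. Bigger than B, contains A, not x: contradiction.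
(M2: functional -m - ρ2 ℓ.)
-/

set_option autoImplicit false

namespace Pool.Agent.LibPol19

open Finset
open scoped Classical

variable {d : ℕ} {V A B F F' K R R' S : Finset (Ed d)}


theorem G16_const (ℓ : Ed d →ₗ[ℝ] ℝ) {B : Finset (Ed d)} {b0 : Ed d} (hb : ∀ y ∈ B, ℓ y = ℓ b0) :
    vectorSpan ℝ (B : Set (Ed d)) ≤ LinearMap.ker ℓ := by
  rw [vectorSpan_def, Submodule.span_le]
  intro z hz
  obtain ⟨u, hu, w, hw, rfl⟩ := Set.mem_vsub.1 hz
  rw [SetLike.mem_coe, LinearMap.mem_ker, vsub_eq_sub, map_sub, hb u hu, hb w hw, sub_self]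

/-- G16: every face is an intersection of facets -/
theorem exists_facet (hfull : Full V) (hA : IsFace V A) {x : Ed d} (hx : x ∈ V) (hxA : x ∉ A) :
    ∃ F, IsFace V F ∧ dm F + 1 = d ∧ A ⊆ F ∧ x ∉ F := by
  obtain ⟨B, hB, hmax⟩ := Finset.exists_max_image
    (V.powerset.filter fun B => IsFace V B ∧ A ⊆ B ∧ x ∉ B) Finset.card
    ⟨A, by
      rw [Finset.mem_filter, Finset.mem_powerset]
      exact ⟨hA.2.1, hA, Finset.Subset.refl A, hxA⟩⟩
  rw [Finset.mem_filter, Finset.mem_powerset] at hB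
  obtain ⟨hBV, hBf, hAB, hxB⟩ := hB
  refine ⟨B, hBf, ?_, hAB, hxB⟩
  obtain ⟨⟨b0, hb0⟩, -, ℓ, c, hℓ⟩ := hBf
  have hℓB : ∀ y ∈ B, ℓ y = c := fun y hy => (hℓ y (hBV hy)).2.2 hy
  have hℓlt : ∀ y ∈ V, y ∉ B → ℓ y < c := fun y hy hyB =>
    lt_of_le_of_ne (hℓ y hy).1 fun h => hyB ((hℓ y hy).2.1 h)
  have hgrow : ∀ (m' : Ed d →ₗ[ℝ] ℝ) (ρ' : ℝ), (∀ y ∈ B, m' y = m' b0) →
      (∀ y ∈ V, y ∉ B → m' y - m' b0 ≤ ρ' * (c - ℓ y)) →
      (∃ y ∈ V, y ∉ B ∧ m' y - m' b0 = ρ' * (c - ℓ y)) →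
      m' x - m' b0 < ρ' * (c - ℓ x) → False := by
    intro m' ρ' h1 h2 h3 h4
    set B' : Finset (Ed d) := V.filter fun y => m' y - m' b0 = ρ' * (c - ℓ y) with hB'
    have hBB' : B ⊆ B' := by
      intro y hy
      rw [hB', Finset.mem_filter]
      refine ⟨hBV hy, ?_⟩
      rw [h1 y hy, hℓB y hy]
      ring
    have hall : ∀ y ∈ V, m' y - m' b0 ≤ ρ' * (c - ℓ y) := by
      intro y hy
      by_cases hyB : y ∈ B
      · rw [h1 y hyB, hℓB y hyB]
        simp
      · exact h2 y hy hyB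
    have hf : IsFace V B' := by
      refine ⟨⟨b0, hBB' hb0⟩, Finset.filter_subset _ _, m' + ρ' • ℓ, m' b0 + ρ' * c, ?_⟩
      intro y hy
      have h5 := hall y hy
      rw [LinearMap.add_apply, LinearMap.smul_apply, smul_eq_mul]
      refine ⟨by linarith, ?_⟩
      rw [hB', Finset.mem_filter]
      constructor
      · intro h6
        exact ⟨hy, by linarith⟩
      · rintro ⟨-, h6⟩
        linarith
    have hxB' : x ∉ B' := by
      rw [hB', Finset.mem_filter]
      rintro ⟨-, h5⟩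
      linarith
    have h6 := hmax B' (by
      rw [Finset.mem_filter, Finset.mem_powerset]
      exact ⟨Finset.filter_subset _ _, hf, hAB.trans hBB', hxB'⟩)
    obtain ⟨y, hy, hyB, hye⟩ := h3
    have h7 : B ⊂ B' := by
      refine ⟨hBB', fun h => hyB (h ?_)⟩
      rw [hB', Finset.mem_filter]
      exact ⟨hy, hye⟩
    exact absurd (Finset.card_lt_card h7) (not_lt.2 h6)
  have hker : vectorSpan ℝ (B : Set (Ed d)) ≤ LinearMap.ker ℓ :=
    G16_const ℓ (b0 := b0) fun y hy => by rw [hℓB y hy, hℓB b0 hb0]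
  have hℓ0 : ℓ ≠ 0 := by
    intro h0
    have h1 := hℓlt x hx hxB
    have h2 := hℓB b0 hb0
    rw [h0, LinearMap.zero_apply] at h1 h2
    linarith
  have hrk : Module.finrank ℝ (LinearMap.ker ℓ) + 1 = d := by
    have := Module.Dual.finrank_ker_add_one_of_ne_zero (f := ℓ) hℓ0
    rw [finrank_euclideanSpace_fin] at this
    exact this
  by_contra hne
  have hlt : vectorSpan ℝ (B : Set (Ed d)) < LinearMap.ker ℓ := by
    refine lt_of_le_of_ne hker fun h => hne ?_
    unfold dm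
    rw [h]
    exact hrk
  obtain ⟨y, hyk, hyB⟩ := SetLike.exists_of_lt hlt
  obtain ⟨m, hmy, hm⟩ := Submodule.exists_le_ker_of_notMem hyB
  have hmB : ∀ u ∈ B, m u = m b0 := by
    intro u hu
    have h1 : u - b0 ∈ vectorSpan ℝ (B : Set (Ed d)) := by
      have := vsub_mem_vectorSpan ℝ (s := (B : Set (Ed d))) hu hb0
      rwa [vsub_eq_sub] at this
    have h2 := hm h1
    rw [LinearMap.mem_ker, map_sub] at h2
    linarith
  set ρ : Ed d → ℝ := fun u => (m u - m b0) / (c - ℓ u) with hρ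
  have hρe : ∀ u ∈ V, u ∉ B → m u - m b0 = ρ u * (c - ℓ u) := by
    intro u hu huB
    have := hℓlt u hu huB
    rw [hρ]
    simp only
    rw [div_mul_cancel₀]
    linarith
  have hT : (V.filter fun u => u ∉ B).Nonempty := ⟨x, by
    rw [Finset.mem_filter]
    exact ⟨hx, hxB⟩⟩
  obtain ⟨y1, hy1, hy1m⟩ := Finset.exists_max_image _ ρ hT
  obtain ⟨y2, hy2, hy2m⟩ := Finset.exists_min_image _ ρ hT
  rw [Finset.mem_filter] at hy1 hy2
  have hmem : ∀ u, u ∈ V → u ∉ B → u ∈ V.filter fun u => u ∉ B := fun u h1 h2 => by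
    rw [Finset.mem_filter]
    exact ⟨h1, h2⟩
  by_cases hx1 : ρ x < ρ y1
  · refine hgrow m (ρ y1) hmB ?_ ⟨y1, hy1.1, hy1.2, hρe y1 hy1.1 hy1.2⟩ ?_
    · intro u hu huB
      rw [hρe u hu huB]
      have h1 := hℓlt u hu huB
      exact mul_le_mul_of_nonneg_right (hy1m u (hmem u hu huB)) (by linarith)
    · rw [hρe x hx hxB]
      have h1 := hℓlt x hx hxB
      exact mul_lt_mul_of_pos_right hx1 (by linarith)
  · have hx1' : ρ x = ρ y1 := le_antisymm (hy1m x (hmem x hx hxB)) (not_lt.1 hx1)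
    by_cases hx2 : ρ y2 < ρ x
    · refine hgrow (-m) (-ρ y2) ?_ ?_ ⟨y2, hy2.1, hy2.2, ?_⟩ ?_
      · intro u hu
        rw [LinearMap.neg_apply, LinearMap.neg_apply, hmB u hu]
      · intro u hu huB
        rw [LinearMap.neg_apply, LinearMap.neg_apply]
        have h1 := hℓlt u hu huB
        have h2 := mul_le_mul_of_nonneg_right (hy2m u (hmem u hu huB))
          (show 0 ≤ c - ℓ u by linarith)
        have h3 := hρe u hu huB
        linarith
      · rw [LinearMap.neg_apply, LinearMap.neg_apply]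
        have h3 := hρe y2 hy2.1 hy2.2
        linarith
      · rw [LinearMap.neg_apply, LinearMap.neg_apply]
        have h1 := hℓlt x hx hxB
        have h2 := mul_lt_mul_of_pos_right hx2 (show 0 < c - ℓ x by linarith)
        have h3 := hρe x hx hxB
        linarith
    · have hall : ∀ u ∈ V, u ∉ B → ρ u = ρ x := by
        intro u hu huB
        have h1 := hy1m u (hmem u hu huB)
        have h2 := hy2m u (hmem u hu huB)
        have h3 := hy2m x (hmem x hx hxB)
        have h4 := not_lt.1 hx2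
        rw [← hx1'] at h1
        linarith
      have hconst : ∀ u ∈ V, (m + ρ x • ℓ) u = (m + ρ x • ℓ) b0 := by
        intro u hu
        rw [LinearMap.add_apply, LinearMap.smul_apply, smul_eq_mul, LinearMap.add_apply,
          LinearMap.smul_apply, smul_eq_mul, hℓB b0 hb0]
        by_cases huB : u ∈ B
        · rw [hmB u huB, hℓB u huB]
        · have h1 := hρe u hu huB
          rw [hall u hu huB] at h1
          linarith
      have h1 := G16_const (m + ρ x • ℓ) hconst
      have h2 : y ∈ vectorSpan ℝ (V : Set (Ed d)) := by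
        rw [hfull]
        exact Submodule.mem_top
      have h3 := h1 h2
      rw [LinearMap.mem_ker, LinearMap.add_apply, LinearMap.smul_apply] at h3
      rw [LinearMap.mem_ker] at hyk
      rw [hyk, smul_zero, add_zero] at h3
      exact hmy h3

end Pool.Agent.LibPol19
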