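import Mathlib
import Pool.Agent.LibPol19.Defs

/-! Row G08.
A ⊂ B: ℓ, c for A in V. x ∈ B \ A: ℓ x < c. vectorSpan A ≤ ker ℓ (ℓ (u - w) = 0 for u, w ∈ A; A nonempty), x - a ∉ ker ℓ for a ∈ A. So vectorSpan A < vectorSpan B (vectorSpan_mono), Submodule.finrank_lt_finrank_of_lt. dm_mono: Submodule.finrank_mono.
-/

set_option autoImplicit false

namespace Pool.Agent.LibPol19

open Finset
open scoped Classical

variable {d : ℕ} {V A B F F' K R R' S : Finset (Ed d)}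

/-- G08: the dimension increases strictly -/
theorem dm_lt (hA : IsFace V A) (hAB : A ⊂ B) (hB : B ⊆ V) : dm A < dm B := by
  obtain ⟨⟨a, ha⟩, hAV, ℓ, c, hl⟩ := hA
  obtain ⟨x, hxB, hxA⟩ := Finset.exists_of_ssubset hAB
  have hxc : ℓ x ≠ c := fun e => hxA ((hl x (hB hxB)).2.1 e)
  have hA1 : ∀ u ∈ A, ℓ u = c := fun u hu => (hl u (hAV hu)).2.2 hu
  have hle : vectorSpan ℝ (A : Set (Ed d)) ≤ vectorSpan ℝ (B : Set (Ed d)) :=
    vectorSpan_mono ℝ (by exact_mod_cast hAB.1)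
  have hker : vectorSpan ℝ (A : Set (Ed d)) ≤ LinearMap.ker ℓ := by
    unfold vectorSpan
    rw [Submodule.span_le]
    rintro _ ⟨u, hu, w, hw, rfl⟩
    have e1 := hA1 u (by exact_mod_cast hu)
    have e2 := hA1 w (by exact_mod_cast hw)
    change ℓ (u - w) = 0
    rw [map_sub, e1, e2, sub_self]
  have hmem : x -ᵥ a ∈ vectorSpan ℝ (B : Set (Ed d)) :=
    vsub_mem_vectorSpan ℝ (by exact_mod_cast hxB) (by exact_mod_cast hAB.1 ha)
  have hne : vectorSpan ℝ (A : Set (Ed d)) ≠ vectorSpan ℝ (B : Set (Ed d)) := by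
    intro e
    rw [← e] at hmem
    have h1 : ℓ (x - a) = 0 := hker hmem
    rw [map_sub, hA1 a ha, sub_eq_zero] at h1
    exact hxc h1
  exact Submodule.finrank_lt_finrank_of_lt (lt_of_le_of_ne hle hne)

theorem dm_mono (h : A ⊆ B) : dm A ≤ dm B :=
  Submodule.finrank_mono (vectorSpan_mono ℝ (by exact_mod_cast h))

end Pool.Agent.LibPol19
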