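import Mathlib
import Pool.Agent.LibPol19.Defs
import Pool.Agent.LibPol19.G07
import Pool.Agent.LibPol19.G09

/-! Row G10.
≥ 2 by dm_le_card. Suppose three different u1, u2, u3 ∈ nb V v ∩ R. h exposes v, g u = h v - h u > 0, p_i := (1/g u_i) • (u_i - v), h p_i = -1. The p_i - p_j lie in W = vectorSpan R ⊓ ker h, finrank W ≤ 1 (finrank vectorSpan R = 2 and
u1 - v ∈ vectorSpan R is not in ker h: Submodule.finrank_lt_finrank_of_lt). So p1, p2, p3 are collinear: one is weakly between the others, say p2 = (1-t) p1 + t p3 (0 ≤ t ≤ 1). The edge {v, u2} of V is exposed by m, c: m v = m u2 = c, m u1 < c, m u3 < c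
(u1, u3 ∉ {v, u2}): m p2 = 0, m p1 < 0, m p3 < 0, contradiction. (Collinear.wbtw_or_wbtw_or_wbtw; collinear_iff_of_mem with direction a generator of W, or finrank ≤ 1 → finrank_le_one_iff.)
-/

set_option autoImplicit false

namespace Pool.Agent.LibPol19

open Finset
open scoped Classical

variable {d : ℕ} {V A B F F' K R R' S : Finset (Ed d)}


theorem G10_sign {x y p q : ℝ} (hp : p < 0) (hq : q < 0) (h : x * p + y * q = 0) :
    x * y ≤ 0 ∧ (x = 0 → y = 0) ∧ (y = 0 → x = 0) := by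
  refine ⟨?_, ?_, ?_⟩
  · by_contra hcon
    push Not at hcon
    rcases pos_and_pos_or_neg_and_neg_of_mul_pos hcon with ⟨h1, h2⟩ | ⟨h1, h2⟩
    · have h3 := mul_neg_of_pos_of_neg h1 hp
      have h4 := mul_neg_of_pos_of_neg h2 hq
      linarith
    · have h3 := mul_pos_of_neg_of_neg h1 hp
      have h4 := mul_pos_of_neg_of_neg h2 hq
      linarith
  · rintro rfl
    rw [zero_mul, zero_add] at h
    rcases mul_eq_zero.mp h with h1 | h1
    · exact h1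
    · exact absurd h1 hq.ne
  · rintro rfl
    rw [zero_mul, add_zero] at h
    rcases mul_eq_zero.mp h with h1 | h1
    · exact h1
    · exact absurd h1 hp.ne

theorem G10_zero {c₁ c₂ c₃ p₁ q₁ p₂ q₂ p₃ q₃ : ℝ} (hp₁ : p₁ < 0) (hq₁ : q₁ < 0) (hp₂ : p₂ < 0)
    (hq₂ : q₂ < 0) (hp₃ : p₃ < 0) (hq₃ : q₃ < 0) (h₁ : c₂ * p₁ + c₃ * q₁ = 0)
    (h₂ : c₁ * p₂ + c₃ * q₂ = 0) (h₃ : c₁ * p₃ + c₂ * q₃ = 0) : c₁ = 0 ∧ c₂ = 0 ∧ c₃ = 0 := by
  obtain ⟨a1, a2, a3⟩ := G10_sign hp₁ hq₁ h₁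
  obtain ⟨b1, b2, b3⟩ := G10_sign hp₂ hq₂ h₂
  obtain ⟨d1, d2, d3⟩ := G10_sign hp₃ hq₃ h₃
  by_cases h : c₁ = 0
  · exact ⟨h, d2 h, b2 h⟩
  · exfalso
    have h2 : c₂ ≠ 0 := fun hc => h (d3 hc)
    have h3 : c₃ ≠ 0 := fun hc => h (b3 hc)
    have e1 : c₁ * c₂ < 0 := lt_of_le_of_ne d1 (mul_ne_zero h h2)
    have e2 : c₁ * c₃ < 0 := lt_of_le_of_ne b1 (mul_ne_zero h h3)
    have e3 : c₂ * c₃ < 0 := lt_of_le_of_ne a1 (mul_ne_zero h2 h3)
    have e4 : (c₁ * c₂) * (c₁ * c₃) * (c₂ * c₃) < 0 :=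
      mul_neg_of_pos_of_neg (mul_pos_of_neg_of_neg e1 e2) e3
    have e5 : (c₁ * c₂) * (c₁ * c₃) * (c₂ * c₃) = (c₁ * c₂ * c₃) ^ 2 := by ring
    rw [e5] at e4
    exact absurd e4 (not_lt.mpr (sq_nonneg _))

theorem G10_edge {v u w : Ed d} {m : Ed d →ₗ[ℝ] ℝ} {c : ℝ}
    (hm : ∀ z ∈ V, m z ≤ c ∧ (m z = c ↔ z ∈ ({v, u} : Finset (Ed d)))) (hv : v ∈ V) (hu : u ∈ V)
    (hw : w ∈ V) (hwv : w ≠ v) (hwu : w ≠ u) : m (u - v) = 0 ∧ m (w - v) < 0 := by
  have h1 : m v = c := (hm v hv).2.mpr (by simp)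
  have h2 : m u = c := (hm u hu).2.mpr (by simp)
  have h3 : m w ≠ c := by
    intro h
    have h4 := (hm w hw).2.mp h
    rw [mem_insert, mem_singleton] at h4
    rcases h4 with h4 | h4
    · exact hwv h4
    · exact hwu h4
  have h5 : m w < c := lt_of_le_of_ne (hm w hw).1 h3
  constructor
  · rw [map_sub, h1, h2, sub_self]
  · rw [map_sub, h1]
    linarith

/-- G10: polygons -/
theorem polygon (hV : IsVert V) (hR : IsFace V R) (h2 : dm R = 2) {v : Ed d} (hv : v ∈ R) :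
    (nb V v ∩ R).card = 2 := by
  have hge : 2 ≤ (nb V v ∩ R).card := by
    rw [← h2]
    exact dm_le_card hV hR hv
  refine le_antisymm ?_ hge
  by_contra hcon
  push Not at hcon
  obtain ⟨u₁, h1, u₂, h2', u₃, h3, h12, h13, h23⟩ := two_lt_card.mp hcon
  have hRV : R ⊆ V := hR.2.1
  have key : ∀ u, u ∈ nb V v ∩ R → u ∈ R ∧ u ∈ V ∧ u ≠ v ∧ ∃ (m : Ed d →ₗ[ℝ] ℝ) (c : ℝ),
      ∀ z ∈ V, m z ≤ c ∧ (m z = c ↔ z ∈ ({v, u} : Finset (Ed d))) := by
    intro u hu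
    rw [mem_inter, nb, mem_filter] at hu
    obtain ⟨⟨hu1, hu2, hu3⟩, hu4⟩ := hu
    exact ⟨hu4, hu1, fun h => hu2 h.symm, hu3.2.2⟩
  obtain ⟨r1, s1, t1, m1, c1, k1⟩ := key u₁ h1
  obtain ⟨r2, s2, t2, m2, c2, k2⟩ := key u₂ h2'
  obtain ⟨r3, s3, t3, m3, c3, k3⟩ := key u₃ h3
  have hvV := hRV hv
  have l12 := G10_edge k1 hvV s1 s2 t2 h12.symm
  have l13 := G10_edge k1 hvV s1 s3 t3 h13.symm
  have l21 := G10_edge k2 hvV s2 s1 t1 h12
  have l23 := G10_edge k2 hvV s2 s3 t3 h23.symm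
  have l31 := G10_edge k3 hvV s3 s1 t1 h13
  have l32 := G10_edge k3 hvV s3 s2 t2 h23
  have hli : LinearIndependent ℝ ![u₁ - v, u₂ - v, u₃ - v] := by
    rw [Fintype.linearIndependent_iff]
    intro g hg
    rw [Fin.sum_univ_three] at hg
    simp only [Matrix.cons_val_zero, Matrix.cons_val_one, Matrix.cons_val_two, Matrix.head_cons,
      Matrix.tail_cons, Matrix.cons_val] at hg
    have e1 := congrArg m1 hg
    have e2 := congrArg m2 hg
    have e3 := congrArg m3 hg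
    simp only [map_add, map_smul, smul_eq_mul, map_zero] at e1 e2 e3
    rw [l12.1, mul_zero, zero_add] at e1
    rw [l21.1, mul_zero, add_zero] at e2
    rw [l31.1, mul_zero, add_zero] at e3
    obtain ⟨z1, z2, z3⟩ := G10_zero l12.2 l13.2 l21.2 l23.2 l31.2 l32.2 e1 e2 e3
    intro i
    fin_cases i
    · exact z1
    · exact z2
    · exact z3
  have hfr := finrank_span_eq_card hli
  have hle : Submodule.span ℝ (Set.range ![u₁ - v, u₂ - v, u₃ - v]) ≤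
      vectorSpan ℝ (R : Set (Ed d)) := by
    rw [Submodule.span_le]
    rintro x ⟨i, rfl⟩
    fin_cases i
    · exact vsub_mem_vectorSpan ℝ (mem_coe.mpr r1) (mem_coe.mpr hv)
    · exact vsub_mem_vectorSpan ℝ (mem_coe.mpr r2) (mem_coe.mpr hv)
    · exact vsub_mem_vectorSpan ℝ (mem_coe.mpr r3) (mem_coe.mpr hv)
  have h5 := Submodule.finrank_mono hle
  rw [hfr, Fintype.card_fin] at h5
  have h6 : Module.finrank ℝ (vectorSpan ℝ (R : Set (Ed d))) = 2 := h2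
  omega

end Pool.Agent.LibPol19
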