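import Mathlib
import Pool.Agent.LibPol19.Defs
import Pool.Agent.LibPol19.G01
import Pool.Agent.LibPol19.G03
import Pool.Agent.LibPol19.G08
import Pool.Agent.LibPol19.G09

/-! Row G11.
I = R ∩ R' is a face (face_inter), I ≠ R or I ≠ R' (R ≠ R'), so dm I < 2 by dm_lt (I ⊂ R resp. I ⊂ R'). By two_le_dm card I ≤ 2; it contains u ≠ w, so I = {u, w} (Finset.eq_of_subset_of_card_le), Adj V u w and z ∈ I → z = u ∨ z = w.
-/

set_option autoImplicit false

namespace Pool.Agent.LibPol19

open Finset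
open scoped Classical

variable {d : ℕ} {V A B F F' K R R' S : Finset (Ed d)}


/-- G11: the intersection of two different 2-faces has at most two vertices, and they are adjacent -/
theorem two_inter (hV : IsVert V) (hR : IsFace V R) (h2 : dm R = 2) (hR' : IsFace V R') (h2' : dm R' = 2)
    (hne : R ≠ R') {u w : Ed d} (hu : u ∈ R) (hu' : u ∈ R') (hw : w ∈ R) (hw' : w ∈ R') (huw : u ≠ w) :
    Adj V u w ∧ ∀ z, z ∈ R → z ∈ R' → z = u ∨ z = w := by
  have hI : IsFace V (R ∩ R') := face_inter hR hR' ⟨u, Finset.mem_inter.2 ⟨hu, hu'⟩⟩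
  have hlt : dm (R ∩ R') < 2 := by
    by_cases h : R ∩ R' = R
    · have h3 : R ∩ R' ⊂ R' := by
        refine Finset.ssubset_iff_subset_ne.2 ⟨Finset.inter_subset_right, fun e => hne ?_⟩
        rw [← h, e]
      have h4 := dm_lt hI h3 hR'.2.1
      omega
    · have h4 := dm_lt hI (Finset.ssubset_iff_subset_ne.2 ⟨Finset.inter_subset_left, h⟩) hR.2.1
      omega
  have hcard : (R ∩ R').card ≤ 2 := by
    by_contra hc
    have h5 := two_le_dm hV hI.2.1 (by omega : 3 ≤ (R ∩ R').card)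
    omega
  have hsub : ({u, w} : Finset (Ed d)) ⊆ R ∩ R' := by
    intro z hz
    rw [Finset.mem_insert, Finset.mem_singleton] at hz
    rw [Finset.mem_inter]
    rcases hz with hz | hz
    · rw [hz]; exact ⟨hu, hu'⟩
    · rw [hz]; exact ⟨hw, hw'⟩
  have heq : ({u, w} : Finset (Ed d)) = R ∩ R' :=
    Finset.eq_of_subset_of_card_le hsub (by rw [Finset.card_pair huw]; exact hcard)
  refine ⟨⟨huw, ?_⟩, ?_⟩
  · rw [heq]; exact hI
  · intro z hz hz'
    have h6 : z ∈ ({u, w} : Finset (Ed d)) := by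
      rw [heq]; exact Finset.mem_inter.2 ⟨hz, hz'⟩
    rwa [Finset.mem_insert, Finset.mem_singleton] at h6

end Pool.Agent.LibPol19
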