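import Mathlib
import Pool.Agent.LibPol19.Defs

/-! Row G18.
W := span of {s - v : s ∈ S}, finrank W ≤ card S < dm F = finrank (vectorSpan F). vectorSpan F = span of {x - v : x ∈ F} (vectorSpan_eq_span_vsub_set_right hv). So some x ∈ F has x - v ∉ W (otherwise vectorSpan F ≤ W). A linear ℓ with W ≤ ker ℓ, ℓ (x - v) ≠ 0:
Submodule.exists_le_ker_of_notMem (or exists_dual_map_eq_bot_of_notMem).
-/

set_option autoImplicit false

namespace Pool.Agent.LibPol19

open Finset
open scoped Classical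

variable {d : ℕ} {V A B F F' K R R' S : Finset (Ed d)}

/-- G18: a functional which is constant on few vertices -/
theorem exists_fun {v : Ed d} (hv : v ∈ F) (hS : S.card < dm F) :
    ∃ ℓ : Ed d →ₗ[ℝ] ℝ, (∀ s ∈ S, ℓ s = ℓ v) ∧ ∃ x ∈ F, ℓ x ≠ ℓ v := by
  obtain ⟨W, hWdef⟩ : ∃ W, W = Submodule.span ℝ (((S.image fun s => s - v : Finset (Ed d))) : Set (Ed d)) := ⟨_, rfl⟩
  have hW : Module.finrank ℝ W ≤ S.card := by
    rw [hWdef]
    exact (finrank_span_finset_le_card (S.image fun s => s - v)).trans Finset.card_image_le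
  have hmem : ∀ s ∈ S, s - v ∈ W := by
    intro s hs
    rw [hWdef]
    exact Submodule.subset_span (by exact_mod_cast Finset.mem_image_of_mem _ hs)
  have hex : ∃ x ∈ F, x - v ∉ W := by
    by_contra hcon
    push Not at hcon
    have h1 : vectorSpan ℝ (F : Set (Ed d)) ≤ W := by
      rw [vectorSpan_eq_span_vsub_set_right ℝ (by exact_mod_cast hv : v ∈ (F : Set (Ed d))), Submodule.span_le]
      rintro _ ⟨x, hx, rfl⟩
      exact hcon x (by exact_mod_cast hx)
    have h2 := Submodule.finrank_mono h1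
    unfold dm at hS
    omega
  obtain ⟨x, hx, hxW⟩ := hex
  obtain ⟨ℓ, hker, hle⟩ := Submodule.exists_le_ker_of_notMem hxW
  refine ⟨ℓ, fun s hs => ?_, x, hx, fun h => hker ?_⟩
  · have h3 : ℓ (s - v) = 0 := LinearMap.mem_ker.1 (hle (hmem s hs))
    rw [map_sub] at h3
    linarith
  · rw [map_sub, h, sub_self]

end Pool.Agent.LibPol19
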