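import Mathlib
import Pool.Agent.LibPol19.Defs
import Pool.Agent.LibPol19.G03
import Pool.Agent.LibPol19.G06
import Pool.Agent.LibPol19.G12

/-! Row G13.
b := family u ↦ u - v over {u // u ∈ nb V v}, linearly independent with card = finrank (if d = 0 or nb empty: separate or basisOfLinearIndependentOfCardEqFinrank needs Nonempty; otherwise LinearIndependent.extend / exists_extension; a linear map ℓ with prescribed
values on a linearly independent family: (Basis.extend hli).constr or LinearIndependent.exists_dual...). Let ℓ (u - v) = 0 for u ∈ I and = -1 for u ∈ nb \ I. F := V.filter (ℓ x = ℓ v). For x ∈ V: x - v = ∑ c u (u - v), c ≥ 0 (cone with A = V), so ℓ x - ℓ v = -∑_{u ∈ nb \ I} c u ≤ 0: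
IsFace V F with c = ℓ v. nb V v ∩ F = I: for u ∈ nb: ℓ u = ℓ v iff u ∈ I.
-/

set_option autoImplicit false

namespace Pool.Agent.LibPol19

open Finset
open scoped Classical

variable {d : ℕ} {V A B F F' K R R' S : Finset (Ed d)}


/-- G13: faces at a simple vertex with prescribed edges -/
theorem simple_face (hV : IsVert V) (hfull : Full V) {v : Ed d} (hv : v ∈ V) (hs : (nb V v).card = d)
    {I : Finset (Ed d)} (hI : I ⊆ nb V v) : ∃ F, IsFace V F ∧ v ∈ F ∧ nb V v ∩ F = I := by
  have hli := simple_indep hV hfull hv hs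
  obtain ⟨ℓ, hℓ⟩ := LinearMap.exists_extend
    ((Module.Basis.span hli).constr ℝ (fun u : {u // u ∈ nb V v} => if (u : Ed d) ∈ I then (0:ℝ) else -1))
  have hval : ∀ u ∈ nb V v, ℓ (u - v) = if u ∈ I then (0:ℝ) else -1 := by
    intro u hu
    have h1 := LinearMap.congr_fun hℓ (Module.Basis.span hli ⟨u, hu⟩)
    rw [Module.Basis.constr_basis] at h1
    have h2 : ((Module.Basis.span hli ⟨u, hu⟩ : Submodule.span ℝ (Set.range _)) : Ed d) = u - v :=
      congrArg Subtype.val (Module.Basis.span_apply hli ⟨u, hu⟩)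
    rw [LinearMap.comp_apply, Submodule.subtype_apply, h2] at h1
    exact h1
  have hle : ∀ x ∈ V, ℓ x ≤ ℓ v := by
    intro x hx
    obtain ⟨c, hc, hx'⟩ := cone hV (face_self ⟨v, hv⟩) hv hx
    have h1 : ℓ x - ℓ v = ∑ u ∈ nb V v ∩ V, c u * ℓ (u - v) := by
      rw [← map_sub, hx', map_sum]
      exact Finset.sum_congr rfl fun u _ => by rw [map_smul, smul_eq_mul]
    have h2 : ∑ u ∈ nb V v ∩ V, c u * ℓ (u - v) ≤ 0 := by
      refine Finset.sum_nonpos fun u hu => ?_
      rw [hval u (Finset.mem_inter.1 hu).1]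
      split_ifs
      · simp
      · linarith [hc u]
    linarith
  refine ⟨V.filter fun x => ℓ x = ℓ v, ⟨⟨v, by simp [hv]⟩, Finset.filter_subset _ _, ℓ, ℓ v, fun x hx => ⟨hle x hx, ?_⟩⟩,
    by simp [hv], ?_⟩
  · simp [hx]
  · ext u
    simp only [Finset.mem_inter, Finset.mem_filter]
    constructor
    · rintro ⟨hu, -, hu2⟩
      have h1 := hval u hu
      rw [map_sub, hu2, sub_self] at h1
      by_contra hI'
      rw [if_neg hI'] at h1
      linarith
    · intro hu
      have hu' := hI hu
      have h1 := hval u hu'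
      rw [if_pos hu, map_sub] at h1
      exact ⟨hu', (Finset.mem_filter.1 hu').1, by linarith⟩

end Pool.Agent.LibPol19
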