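import Mathlib
import Pool.Agent.LibPol19.Defs
import Pool.Agent.LibPol19.G06

/-! Row G14.
w ∈ F: w - v = ∑_{u ∈ nb V v ∩ F} c u (u - v) (cone). ℓ', c' for F': ℓ' u = c' = ℓ' v for u ∈ nb V v ∩ F ⊆ F'. So ℓ' w = c' and w ∈ F'.
-/

set_option autoImplicit false

namespace Pool.Agent.LibPol19

open Finset
open scoped Classical

variable {d : ℕ} {V A B F F' K R R' S : Finset (Ed d)}


/-- G14: faces at a vertex are determined by their edges -/
theorem face_sub (hV : IsVert V) (hF : IsFace V F) (hF' : IsFace V F') {v : Ed d} (hv : v ∈ F) (hv' : v ∈ F')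
    (h : nb V v ∩ F ⊆ F') : F ⊆ F' := by
  intro w hw
  obtain ⟨c, _, hc⟩ := cone hV hF hv hw
  obtain ⟨_, _, l, k, hl⟩ := hF'
  have hwV : w ∈ V := hF.2.1 hw
  have hvk : l v = k := ((hl v (hF.2.1 hv)).2).2 hv'
  have h0 : l (w - v) = 0 := by
    rw [hc, map_sum]
    refine Finset.sum_eq_zero fun u hu => ?_
    have hu' : u ∈ F' := h hu
    have huV : u ∈ V := hF.2.1 (Finset.mem_inter.1 hu).2
    have huk : l u = k := ((hl u huV).2).2 hu'
    rw [map_smul, map_sub, huk, hvk, sub_self, smul_zero]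
  rw [map_sub, hvk] at h0
  exact ((hl w hwV).2).1 (by linarith)

end Pool.Agent.LibPol19
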