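import Mathlib
import Pool.Agent.LibPol19.Defs
import Pool.Agent.LibPol19.G07
import Pool.Agent.LibPol19.G12

/-! Row G15.
span_eq for F: vectorSpan F = span of the u - v, u ∈ nb V v ∩ F, a subfamily of a linearly independent family (simple_indep; LinearIndependent.comp or linearIndependent_subtype...), finrank_span_eq_card / finrank_span_finset_eq_card.
-/

set_option autoImplicit false

namespace Pool.Agent.LibPol19

open Finset
open scoped Classical

variable {d : ℕ} {V A B F F' K R R' S : Finset (Ed d)}


/-- G15: dimension of the faces at a simple vertex -/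
theorem simple_dm (hV : IsVert V) (hfull : Full V) {v : Ed d} (hs : (nb V v).card = d) (hF : IsFace V F)
    (hv : v ∈ F) : dm F = (nb V v ∩ F).card := by
  have hli := simple_indep hV hfull (hF.2.1 hv) hs
  have hli2 : LinearIndependent ℝ (fun u : {u // u ∈ nb V v ∩ F} => (u : Ed d) - v) :=
    hli.comp (fun u : {u // u ∈ nb V v ∩ F} => (⟨(u : Ed d), (Finset.mem_inter.1 u.2).1⟩ : {u // u ∈ nb V v}))
      fun u w h => Subtype.ext (congrArg (fun z : {u // u ∈ nb V v} => (z : Ed d)) h)
  have hr : (fun u => u - v) '' ((nb V v ∩ F : Finset (Ed d)) : Set (Ed d)) =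
      Set.range (fun u : {u // u ∈ nb V v ∩ F} => (u : Ed d) - v) := by
    ext z
    constructor
    · rintro ⟨u, hu, rfl⟩
      exact ⟨⟨u, by exact_mod_cast hu⟩, rfl⟩
    · rintro ⟨u, rfl⟩
      exact ⟨u, by exact_mod_cast u.2, rfl⟩
  unfold dm
  rw [span_eq hV hF hv, hr, finrank_span_eq_card hli2, Fintype.card_coe]

end Pool.Agent.LibPol19
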