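import Mathlib
import Pool.Agent.LibPol19.Defs
import Pool.Agent.LibPol19.G03
import Pool.Agent.LibPol19.G05

/-! Row G17.
climb: strong induction on the number of z ∈ F with ℓ z > ℓ x (card of a filter). If it is 0 take y = x. Otherwise step_face gives u ∈ F, ℓ x < ℓ u, Adj V x u, and for u the number is smaller; prepend the step. conn_face: F is IsVert (vert_sub with F ⊆ V), ℓ exposes y in F; climb from x ends in y' with
ℓ z ≤ ℓ y' for all z ∈ F, so y' = y. Relation.ReflTransGen.mono.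
-/

set_option autoImplicit false

namespace Pool.Agent.LibPol19

open Finset
open scoped Classical

variable {d : ℕ} {V A B F F' K R R' S : Finset (Ed d)}


/-- G17: monotone paths -/
theorem climb (hV : IsVert V) (hF : IsFace V F) (ℓ : Ed d →ₗ[ℝ] ℝ) {x : Ed d} (hx : x ∈ F) :
    ∃ y ∈ F, (∀ z ∈ F, ℓ z ≤ ℓ y) ∧ Relation.ReflTransGen (fun u w => Adj V u w ∧ w ∈ F ∧ ℓ u < ℓ w) x y := by
  induction hn : (F.filter fun z => ℓ x < ℓ z).card using Nat.strong_induction_on generalizing x with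
  | _ n ih =>
    by_cases h : ∃ w ∈ F, ℓ x < ℓ w
    · obtain ⟨u, hu, hlt, hadj⟩ := step_face hV hF hx ℓ h
      have hcard : (F.filter fun z => ℓ u < ℓ z).card < n := by
        rw [← hn]
        apply Finset.card_lt_card
        refine ⟨fun z hz => ?_, fun hsub => ?_⟩
        · rw [Finset.mem_filter] at hz ⊢
          exact ⟨hz.1, hlt.trans hz.2⟩
        · have hmem : u ∈ F.filter fun z => ℓ u < ℓ z := hsub (by simp [hu, hlt])
          exact lt_irrefl _ (Finset.mem_filter.1 hmem).2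
      obtain ⟨y, hy, hmax, hpath⟩ := ih _ hcard hu rfl
      exact ⟨y, hy, hmax, Relation.ReflTransGen.head ⟨hadj, hu, hlt⟩ hpath⟩
    · exact ⟨x, hx, fun z hz => not_lt.1 fun hlt => h ⟨z, hz, hlt⟩, Relation.ReflTransGen.refl⟩

theorem conn_face (hV : IsVert V) (hF : IsFace V F) {x y : Ed d} (hx : x ∈ F) (hy : y ∈ F) :
    Relation.ReflTransGen (fun u w => Adj V u w ∧ w ∈ F) x y := by
  obtain ⟨ℓ, hℓ⟩ := vert_sub hV hF.2.1 y hy
  obtain ⟨y', hy', hmax, hpath⟩ := climb hV hF ℓ hx
  have hyy : y' = y := by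
    by_contra hne
    exact absurd (hℓ y' hy' hne) (not_lt.2 (hmax y hy))
  rw [← hyy]
  exact Relation.ReflTransGen.mono (fun u w h => ⟨h.1, h.2.1⟩) _ _ hpath

end Pool.Agent.LibPol19
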