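import Mathlib
import Pool.Agent.LibPol19.Defs

/-! Row O01.
rank: r x := (V.filter fun y => κ y < κ x).card: strictly monotone (the filter for x is a proper subset of the one for y if κ x < κ y, since x is in the latter). exists_inj: a finite union of proper subspaces is not everything (Subspace.biUnion_ne_univ_of_top_nmem in the dual), or by induction
on V: given μ injective on V and a new point p, μ + t ν with ν separating p from finitely many points and t avoiding finitely many values; or: inner product with the vector (1, T, T², ...) for T outside the finitely many roots of the polynomials ∑ (x - y)_i T^i.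
-/

set_option autoImplicit false

namespace Pool.Agent.LibPol19

open Finset
open scoped Classical

variable {d : ℕ} {V A B F F' K R R' S : Finset (Ed d)}

/-- O01: ranks -/
theorem rank {ι : Type} [LinearOrder ι] (κ : Ed d → ι) (h : Set.InjOn κ (V : Set (Ed d))) :
    ∃ r : Ed d → ℕ, Set.InjOn r (V : Set (Ed d)) ∧ ∀ x ∈ V, ∀ y ∈ V, κ x < κ y → r x < r y := by
  have hm : ∀ x ∈ V, ∀ y ∈ V, κ x < κ y →
      (V.filter fun z => κ z < κ x).card < (V.filter fun z => κ z < κ y).card := by
    intro x hx y hy hxy
    apply Finset.card_lt_card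
    rw [Finset.ssubset_iff_of_subset]
    · exact ⟨x, Finset.mem_filter.2 ⟨hx, hxy⟩, fun h1 => lt_irrefl _ (Finset.mem_filter.1 h1).2⟩
    · intro z hz
      rw [Finset.mem_filter] at hz ⊢
      exact ⟨hz.1, hz.2.trans hxy⟩
  refine ⟨fun x => (V.filter fun z => κ z < κ x).card, ?_, hm⟩
  intro x hx y hy hxy
  have hx' : x ∈ V := hx
  have hy' : y ∈ V := hy
  simp only at hxy
  by_contra hne
  rcases lt_or_gt_of_ne (fun h1 => hne (h hx hy h1)) with h1 | h1
  · exact absurd hxy (hm x hx' y hy' h1).ne
  · exact absurd hxy (hm y hy' x hx' h1).ne'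

/-- O02: generic functionals -/
theorem exists_inj (V : Finset (Ed d)) : ∃ μ : Ed d →ₗ[ℝ] ℝ, Set.InjOn μ (V : Set (Ed d)) := by
  obtain ⟨f, hf⟩ := Module.exists_dual_forall_apply_ne_zero (K := ℝ) (M := Ed d)
    (fun p : {p : {x // x ∈ V} × {x // x ∈ V} // (p.1 : Ed d) ≠ p.2} => (p.1.1 : Ed d) - p.1.2)
    (fun p => sub_ne_zero.2 p.2)
  refine ⟨f, fun x hx y hy hxy => ?_⟩
  by_contra hne
  apply hf ⟨(⟨x, hx⟩, ⟨y, hy⟩), hne⟩
  change f (x - y) = 0
  rw [map_sub, hxy, sub_self]

end Pool.Agent.LibPol19
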