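import Mathlib
import Pool.Agent.LibPol19.Defs
import Pool.Agent.LibPol19.G01
import Pool.Agent.LibPol19.G03
import Pool.Agent.LibPol19.G17

/-! Row G19.
climb from x to a maximum point y of ℓ on F, and from v to a maximum point y'; M = ℓ y = ℓ y' > ℓ v. Every vertex after the start on both paths has ℓ-value > ℓ v, so it is not in S. T := F.filter (ℓ z = M) is a face of F, hence of V (face_trans); T ∩ S = ∅; conn_face in T joins y to y'
inside T. Reverse the path from v to y' (adj_symm; all its vertices, including v, are in F and not in S). Careful: the relation only records that the TARGET of each step is in F \ S; for the reversed path all vertices from v on are in F \ S.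
-/

set_option autoImplicit false

namespace Pool.Agent.LibPol19

open Finset
open scoped Classical

variable {d : ℕ} {V A B F F' K R R' S : Finset (Ed d)}


/-- G19: one half of Balinski's theorem -/
theorem conn_up (hV : IsVert V) (hF : IsFace V F) (ℓ : Ed d →ₗ[ℝ] ℝ) {v : Ed d} (hv : v ∈ F) (hvS : v ∉ S)
    (hS : ∀ s ∈ S, ℓ s = ℓ v) (h : ∃ x ∈ F, ℓ v < ℓ x) {x : Ed d} (hx : x ∈ F) (hxS : x ∉ S) (hxv : ℓ v ≤ ℓ x) :
    Relation.ReflTransGen (fun u w => Adj V u w ∧ w ∈ F ∧ w ∉ S) x v := by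
  obtain ⟨y, hyF, hymax, hpath⟩ := climb hV hF ℓ hx
  obtain ⟨y', hyF', hymax', hpath'⟩ := climb hV hF ℓ hv
  have hyy : ℓ y = ℓ y' := le_antisymm (hymax' y hyF) (hymax y' hyF')
  have hM : ℓ v < ℓ y := by
    obtain ⟨z, hz, hz'⟩ := h
    exact lt_of_lt_of_le hz' (hymax z hz)
  -- the path from x to y
  have h1 : Relation.ReflTransGen (fun u w => Adj V u w ∧ w ∈ F ∧ w ∉ S) x y := by
    have h2 : ∀ z, Relation.ReflTransGen (fun u w => Adj V u w ∧ w ∈ F ∧ ℓ u < ℓ w) x z →
        Relation.ReflTransGen (fun u w => Adj V u w ∧ w ∈ F ∧ w ∉ S) x z ∧ ℓ v ≤ ℓ z := by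
      intro z hz
      induction hz with
      | refl => exact ⟨Relation.ReflTransGen.refl, hxv⟩
      | tail _ hbc ih =>
        have h3 : ℓ v < ℓ _ := lt_of_le_of_lt ih.2 hbc.2.2
        exact ⟨ih.1.tail ⟨hbc.1, hbc.2.1, fun hS' => absurd (hS _ hS') h3.ne'⟩, h3.le⟩
    exact (h2 y hpath).1
  -- the path from y to y'
  have h2 : Relation.ReflTransGen (fun u w => Adj V u w ∧ w ∈ F ∧ w ∉ S) y y' := by
    have hT : IsFace F (F.filter fun z => ℓ z = ℓ y) := by
      refine ⟨⟨y, mem_filter.2 ⟨hyF, rfl⟩⟩, filter_subset _ _, ℓ, ℓ y, fun z hz => ⟨hymax z hz, ?_⟩⟩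
      rw [mem_filter]
      exact ⟨fun h3 => ⟨hz, h3⟩, fun h3 => h3.2⟩
    have hT' := face_trans hF hT
    have h3 := conn_face hV hT' (x := y) (y := y') (mem_filter.2 ⟨hyF, rfl⟩)
      (mem_filter.2 ⟨hyF', hyy.symm⟩)
    refine Relation.ReflTransGen.mono ?_ _ _ h3
    intro a b hab
    have hb := mem_filter.1 hab.2
    exact ⟨hab.1, hb.1, fun hS' => by
      have h4 := hS _ hS'
      rw [hb.2] at h4
      exact hM.ne' h4⟩
  -- the path from y' to v
  have h3 : Relation.ReflTransGen (fun u w => Adj V u w ∧ w ∈ F ∧ w ∉ S) y' v := by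
    have h4 : ∀ z, Relation.ReflTransGen (fun u w => Adj V u w ∧ w ∈ F ∧ ℓ u < ℓ w) v z →
        Relation.ReflTransGen (fun u w => Adj V u w ∧ w ∈ F ∧ w ∉ S) z v ∧ z ∈ F ∧ z ∉ S ∧
          ℓ v ≤ ℓ z := by
      intro z hz
      induction hz with
      | refl => exact ⟨Relation.ReflTransGen.refl, hv, hvS, le_refl _⟩
      | tail _ hbc ih =>
        have h5 : ℓ v < ℓ _ := lt_of_le_of_lt ih.2.2.2 hbc.2.2
        exact ⟨Relation.ReflTransGen.head ⟨adj_symm hbc.1, ih.2.1, ih.2.2.1⟩ ih.1, hbc.2.1,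
          fun hS' => absurd (hS _ hS') h5.ne', h5.le⟩
    exact (h4 y' hpath').1
  exact h1.trans (h2.trans h3)

end Pool.Agent.LibPol19
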