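import Mathlib
import Pool.Agent.LibPol19.Defs
import Pool.Agent.LibPol19.G03
import Pool.Agent.LibPol19.G18
import Pool.Agent.LibPol19.G19

/-! Row G20.
If x ∉ S: take v := y as base point (y ∈ F \ S) and show: every z ∈ F \ S is connected to v in both directions (the relation on F \ S is symmetric for z, v ∈ F \ S: reverse paths by adj_symm). exists_fun: ℓ = ℓ v on S, not constant on F. Case some point above ℓ v and some point below: for z with ℓ v ≤ ℓ z conn_up ℓ,
for ℓ z ≤ ℓ v conn_up (-ℓ). Case no point of F is above: then all z have ℓ z ≤ ℓ v and some point is below: conn_up (-ℓ) for all z. Case no point below: conn_up ℓ.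
-/

set_option autoImplicit false

namespace Pool.Agent.LibPol19

open Finset
open scoped Classical

variable {d : ℕ} {V A B F F' K R R' S : Finset (Ed d)}


/-- G20: Balinski's theorem for faces -/
theorem balinski (hV : IsVert V) (hF : IsFace V F) (hS : S.card < dm F) {x y : Ed d} (hx : x ∈ F) (hxS : x ∉ S)
    (hy : y ∈ F) (hyS : y ∉ S) : Relation.ReflTransGen (fun u w => Adj V u w ∧ w ∈ F ∧ w ∉ S) x y := by
  obtain ⟨ℓ, hℓ, x0, hx0, hne⟩ := exists_fun hy hS
  have hneg : ∀ s ∈ S, (-ℓ) s = (-ℓ) y := fun s hs => by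
    rw [LinearMap.neg_apply, LinearMap.neg_apply, hℓ s hs]
  rcases lt_trichotomy (ℓ x) (ℓ y) with h | h | h
  · refine conn_up hV hF (-ℓ) hy hyS hneg ⟨x, hx, ?_⟩ hx hxS ?_
    · rw [LinearMap.neg_apply, LinearMap.neg_apply]
      exact neg_lt_neg h
    · rw [LinearMap.neg_apply, LinearMap.neg_apply]
      exact (neg_lt_neg h).le
  · rcases lt_or_gt_of_ne hne with h0 | h0
    · refine conn_up hV hF (-ℓ) hy hyS hneg ⟨x0, hx0, ?_⟩ hx hxS ?_
      · rw [LinearMap.neg_apply, LinearMap.neg_apply]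
        exact neg_lt_neg h0
      · rw [LinearMap.neg_apply, LinearMap.neg_apply, h]
    · exact conn_up hV hF ℓ hy hyS hℓ ⟨x0, hx0, h0⟩ hx hxS h.ge
  · exact conn_up hV hF ℓ hy hyS hℓ ⟨x, hx, h⟩ hx hxS h.le

end Pool.Agent.LibPol19
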