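import Mathlib
import Pool.Agent.LibPol19.Defs

/-! Row C04.
prs_simple: span. prs_small: offDiag of a set with at most one element is empty. Others by unfolding.
-/

set_option autoImplicit false

namespace Pool.Agent.LibPol19

open Finset
open scoped Classical

variable {X : Type*} [Fintype X]
variable {d : ℕ} {adj : X → X → Prop} {F2 F2' Fc Fc' : Finset X → Prop} {a b c : X}

/-- C04: simple vertices -/
theorem prs_simple (h : IsSys d adj F2) {x : X} (hx : (nbr adj x).card = d) {I : Finset X} (hI : I ⊆ nbr adj x) :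
    prs F2 x I = I.offDiag := by
  unfold prs
  rw [Finset.filter_eq_self]
  rintro ⟨u, w⟩ hp
  rw [Finset.mem_offDiag] at hp
  obtain ⟨hu, hw, huw⟩ := hp
  have h1 := hI hu
  have h2 := hI hw
  unfold nbr at h1 h2
  rw [Finset.mem_filter] at h1 h2
  exact h.span x hx u w h1.2 h2.2 huw


theorem prs_small {x : X} {I : Finset X} (hI : I.card ≤ 1) : prs F2 x I = ∅ := by
  unfold prs
  have h1 : I.offDiag = ∅ := by
    rw [Finset.card_le_one] at hI
    ext ⟨u, w⟩
    rw [Finset.mem_offDiag]
    constructor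
    · rintro ⟨hu, hw, huw⟩
      exact absurd (hI u hu w hw) huw
    · intro h; simp at h
  rw [h1, Finset.filter_empty]


theorem dg2_comm (F2 : Finset X → Prop) (x u : X) : dg2 F2 x u = dg2 F2 u x := by
  unfold dg2
  congr 1
  apply Finset.filter_congr
  intro R _
  exact and_comm


/-- C12: the pairs at a vertex -/
theorem prs_symm {x : X} {I : Finset X} (u w : X) (h : (u, w) ∈ prs F2 x I) : (w, u) ∈ prs F2 x I ∧ u ≠ w := by
  unfold prs at h ⊢
  rw [Finset.mem_filter, Finset.mem_offDiag] at h ⊢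
  obtain ⟨⟨h1, h2, h3⟩, R, h4, h5, h6, h7⟩ := h
  exact ⟨⟨⟨h2, h1, fun h8 => h3 h8.symm⟩, R, h4, h5, h7, h6⟩, h3⟩


end Pool.Agent.LibPol19
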