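import Mathlib
import Pool.Agent.LibPol19.Defs

/-! Row C06.
Unfold inn, Fst, Lst; irrefl for u ≠ x.
-/

set_option autoImplicit false

namespace Pool.Agent.LibPol19

open Finset
open scoped Classical

variable {X : Type*} [Fintype X]
variable {d : ℕ} {adj : X → X → Prop} {F2 F2' Fc Fc' : Finset X → Prop} {a b c : X}

/-- C06: in-neighbours of special vertices -/
theorem inn_fst {r : X → ℕ} (h : Fst r a b) : inn adj r a = ∅ := by
  unfold inn
  rw [Finset.filter_eq_empty_iff]
  intro u _ hu
  by_cases h1 : u = a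
  · subst h1; omega
  · have := h.1 u h1
    omega


theorem inn_snd (h : IsSys d adj F2) {r : X → ℕ} (hr : Fst r a b) (hab : adj a b) : inn adj r b = {a} := by
  unfold inn nbr
  ext u
  rw [Finset.mem_filter, Finset.mem_filter, Finset.mem_singleton]
  have hne : b ≠ a := by
    rintro rfl; exact h.irrefl _ hab
  constructor
  · rintro ⟨⟨_, h1⟩, h2⟩
    by_contra h3
    have h4 : u ≠ b := by
      rintro rfl; exact h.irrefl _ h1
    have := hr.2 u h3 h4
    omega
  · rintro rfl
    exact ⟨⟨Finset.mem_univ _, h.symm _ _ hab⟩, hr.1 b hne⟩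


theorem inn_lst (h : IsSys d adj F2) {r : X → ℕ} (hr : Lst r c) : inn adj r c = nbr adj c := by
  unfold inn
  rw [Finset.filter_eq_self]
  intro u hu
  unfold nbr at hu
  rw [Finset.mem_filter] at hu
  apply hr u
  rintro rfl
  exact h.irrefl _ hu.2


end Pool.Agent.LibPol19
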