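import Mathlib
import Pool.Agent.LibPol19.Defs

/-! Row C01.
sys_uniq: otherwise inter with x, u gives w = x ∨ w = u. sys_pair: two and Finset.card_eq_two.
-/

set_option autoImplicit false

namespace Pool.Agent.LibPol19

open Finset
open scoped Classical

variable {X : Type*} [Fintype X]
variable {d : ℕ} {adj : X → X → Prop} {F2 F2' Fc Fc' : Finset X → Prop} {a b c : X}

/-- C01: a member is determined by a vertex and two other common vertices -/
theorem sys_uniq (h : IsSys d adj F2) {R R' : Finset X} (hR : F2 R) (hR' : F2 R') {x u w : X} (hx : x ∈ R) (hx' : x ∈ R')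
    (hu : u ∈ R) (hu' : u ∈ R') (hw : w ∈ R) (hw' : w ∈ R') (h1 : x ≠ u) (h2 : x ≠ w) (h3 : u ≠ w) : R = R' := by
  by_contra hne
  obtain ⟨_, hz⟩ := h.inter R R' hR hR' hne x u hx hx' hu hu' h1
  rcases hz w hw hw' with h4 | h4
  · exact h2 h4.symm
  · exact h3 h4.symm


/-- C01b: the two neighbours inside a member -/
theorem sys_pair (h : IsSys d adj F2) {R : Finset X} (hR : F2 R) {x : X} (hx : x ∈ R) :
    ∃ u w, u ≠ w ∧ adj x u ∧ adj x w ∧ u ∈ R ∧ w ∈ R ∧ x ≠ u ∧ x ≠ w ∧ ∀ z ∈ R, adj x z → z = u ∨ z = w := by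
  obtain ⟨u, w, huw, he⟩ := Finset.card_eq_two.1 (h.two R hR x hx)
  have hu : u ∈ R.filter fun v => adj x v := by rw [he]; simp
  have hw : w ∈ R.filter fun v => adj x v := by rw [he]; simp
  rw [Finset.mem_filter] at hu hw
  refine ⟨u, w, huw, hu.2, hw.2, hu.1, hw.1, ?_, ?_, ?_⟩
  · rintro rfl; exact h.irrefl _ hu.2
  · rintro rfl; exact h.irrefl _ hw.2
  · intro z hz hxz
    have h1 : z ∈ R.filter fun v => adj x v := Finset.mem_filter.2 ⟨hz, hxz⟩
    rw [he] at h1
    simpa using h1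


end Pool.Agent.LibPol19
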