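import Mathlib
import Pool.Agent.LibPol19.Defs
import Pool.Agent.LibPol19.C01

/-! Row C05.
dg2_eq: bijection between the R ∈ fam F2 containing x, u and the w ∈ nbr x, w ≠ u with x, u, w in a common member: R ↦ the second R-neighbour of x (sys_pair; u is one of the two neighbours since adj x u, u ∈ R), injective by sys_uniq. dg2_simple: the members containing x and u correspond to the neighbours w' ≠ x of u
(span at the simple vertex u, R ↦ second R-neighbour of u): d - 1. (dg2_comm-like symmetric version of dg2_eq at u: dg2 F2 u x = #{w ∈ nbr u : (x, w) ∈ prs F2 u (nbr u)} = #(nbr u \ {x}).)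
-/

set_option autoImplicit false

namespace Pool.Agent.LibPol19

open Finset
open scoped Classical

variable {X : Type*} [Fintype X]
variable {d : ℕ} {adj : X → X → Prop} {F2 F2' Fc Fc' : Finset X → Prop} {a b c : X}


/-- C05: degrees -/
theorem dg2_eq (h : IsSys d adj F2) {x u : X} (hu : adj x u) :
    ((nbr adj x).filter fun w => (u, w) ∈ prs F2 x (nbr adj x)).card = dg2 F2 x u := by
  have hxu : x ≠ u := by
    rintro rfl; exact h.irrefl _ hu
  have hex : ∀ R, F2 R ∧ x ∈ R ∧ u ∈ R → ∃ w, w ≠ u ∧ w ≠ x ∧ adj x w ∧ w ∈ R ∧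
      ∀ z ∈ R, adj x z → z = u ∨ z = w := by
    rintro R ⟨hR, hx, huR⟩
    obtain ⟨u1, w1, h1, h2, h3, h4, h5, h6, h7, h8⟩ := sys_pair h hR hx
    rcases h8 u huR hu with h9 | h9
    · subst h9
      exact ⟨w1, h1.symm, h7.symm, h3, h5, h8⟩
    · subst h9
      exact ⟨u1, h1, h6.symm, h2, h4, fun z hz hxz => (h8 z hz hxz).symm⟩
  have : Nonempty X := ⟨x⟩
  choose! f hf1 hf2 hf3 hf4 hf5 using hex
  unfold dg2
  symm
  apply Finset.card_bij (fun R _ => f R)
  · intro R hR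
    rw [Finset.mem_filter] at hR
    unfold fam at hR
    rw [Finset.mem_filter] at hR
    have hh : F2 R ∧ x ∈ R ∧ u ∈ R := ⟨hR.1.2, hR.2.1, hR.2.2⟩
    rw [Finset.mem_filter]
    unfold prs nbr
    refine ⟨Finset.mem_filter.2 ⟨Finset.mem_univ _, hf3 R hh⟩, ?_⟩
    rw [Finset.mem_filter, Finset.mem_offDiag]
    exact ⟨⟨Finset.mem_filter.2 ⟨Finset.mem_univ _, hu⟩,
      Finset.mem_filter.2 ⟨Finset.mem_univ _, hf3 R hh⟩, (hf1 R hh).symm⟩, R, hh.1, hh.2.1, hh.2.2,
      hf4 R hh⟩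
  · intro R hR R' hR' he
    rw [Finset.mem_filter] at hR hR'
    unfold fam at hR hR'
    rw [Finset.mem_filter] at hR hR'
    have hh : F2 R ∧ x ∈ R ∧ u ∈ R := ⟨hR.1.2, hR.2.1, hR.2.2⟩
    have hh' : F2 R' ∧ x ∈ R' ∧ u ∈ R' := ⟨hR'.1.2, hR'.2.1, hR'.2.2⟩
    have h1 := hf4 R hh
    have h2 := hf4 R' hh'
    have he' : f R = f R' := he
    rw [← he'] at h2
    exact sys_uniq h hh.1 hh'.1 hh.2.1 hh'.2.1 hh.2.2 hh'.2.2 h1 h2 hxu (hf2 R hh).symm
      (hf1 R hh).symm
  · intro w hw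
    rw [Finset.mem_filter] at hw
    obtain ⟨hw1, hw2⟩ := hw
    unfold prs nbr at hw2
    rw [Finset.mem_filter, Finset.mem_offDiag] at hw2
    obtain ⟨⟨_, h2, h3⟩, R, h4, h5, h6, h7⟩ := hw2
    rw [Finset.mem_filter] at h2
    have hh : F2 R ∧ x ∈ R ∧ u ∈ R := ⟨h4, h5, h6⟩
    refine ⟨R, ?_, ?_⟩
    · rw [Finset.mem_filter]
      unfold fam
      rw [Finset.mem_filter]
      exact ⟨⟨Finset.mem_univ _, h4⟩, h5, h6⟩
    · rcases hf5 R hh w h7 h2.2 with h8 | h8
      · exact absurd h8.symm h3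
      · exact h8.symm


theorem dg2_simple (h : IsSys d adj F2) {x u : X} (hu : adj x u) (hs : (nbr adj u).card = d) : dg2 F2 x u = d - 1 := by
  have hux := h.symm _ _ hu
  have h1 : dg2 F2 x u = dg2 F2 u x := by
    unfold dg2
    congr 1
    apply Finset.filter_congr
    intro R _
    exact and_comm
  rw [h1, ← dg2_eq h hux]
  have h2 : ((nbr adj u).filter fun w => (x, w) ∈ prs F2 u (nbr adj u)) = (nbr adj u).erase x := by
    ext w
    rw [Finset.mem_filter, Finset.mem_erase]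
    unfold prs
    rw [Finset.mem_filter, Finset.mem_offDiag]
    constructor
    · rintro ⟨h3, ⟨h4, h5, h6⟩, _⟩
      exact ⟨fun h7 => h6 h7.symm, h3⟩
    · rintro ⟨h3, h4⟩
      have hxm : x ∈ nbr adj u := by
        unfold nbr; exact Finset.mem_filter.2 ⟨Finset.mem_univ _, hux⟩
      have hwm := h4
      unfold nbr at hwm
      rw [Finset.mem_filter] at hwm
      exact ⟨h4, ⟨hxm, h4, fun h7 => h3 h7.symm⟩, h.span u hs x w hux hwm.2 (fun h7 => h3 h7.symm)⟩
  rw [h2, Finset.card_erase_of_mem, hs]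
  unfold nbr
  exact Finset.mem_filter.2 ⟨Finset.mem_univ _, hux⟩


end Pool.Agent.LibPol19
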