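import Mathlib
import Pool.Agent.LibPol19.Defs
import Pool.Agent.LibPol19.C04
import Pool.Agent.LibPol19.C05

/-! Row C05b.
prs_full: fibre the pairs over the first coordinate. prs_erase: pairs of nbr x minus the pairs with first or second coordinate u: each kind has dg2 F2 x u elements (dg2_eq, symmetry), disjoint kinds.
-/

set_option autoImplicit false

namespace Pool.Agent.LibPol19

open Finset
open scoped Classical

variable {X : Type*} [Fintype X]
variable {d : ℕ} {adj : X → X → Prop} {F2 F2' Fc Fc' : Finset X → Prop} {a b c : X}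


theorem C05b_fib1 (h : IsSys d adj F2) {x u : X} (hu : adj x u) :
    ((prs F2 x (nbr adj x)).filter fun p => p.1 = u).card = dg2 F2 x u := by
  rw [← dg2_eq h hu]
  apply Finset.card_bij (fun p _ => p.2)
  · rintro ⟨a1, a2⟩ hp
    rw [Finset.mem_filter] at hp
    obtain ⟨hp1, hp2⟩ := hp
    simp only at hp2
    subst hp2
    rw [Finset.mem_filter]
    refine ⟨?_, hp1⟩
    unfold prs at hp1
    rw [Finset.mem_filter, Finset.mem_offDiag] at hp1
    exact hp1.1.2.1
  · rintro ⟨a1, a2⟩ ha ⟨b1, b2⟩ hb he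
    rw [Finset.mem_filter] at ha hb
    have h1 : a1 = u := ha.2
    have h2 : b1 = u := hb.2
    have h3 : a2 = b2 := he
    rw [h1, h2, h3]
  · intro w hw
    rw [Finset.mem_filter] at hw
    exact ⟨(u, w), Finset.mem_filter.2 ⟨hw.2, rfl⟩, rfl⟩

theorem C05b_fib2 (h : IsSys d adj F2) {x u : X} (hu : adj x u) :
    ((prs F2 x (nbr adj x)).filter fun p => p.2 = u).card = dg2 F2 x u := by
  rw [← C05b_fib1 h hu]
  apply Finset.card_bij (fun p _ => (p.2, p.1))
  · rintro ⟨a1, a2⟩ hp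
    rw [Finset.mem_filter] at hp ⊢
    exact ⟨(prs_symm _ _ hp.1).1, hp.2⟩
  · rintro ⟨a1, a2⟩ ha ⟨b1, b2⟩ hb he
    simp only [Prod.mk.injEq] at he
    rw [he.1, he.2]
  · rintro ⟨a1, a2⟩ hp
    rw [Finset.mem_filter] at hp
    exact ⟨(a2, a1), Finset.mem_filter.2 ⟨(prs_symm _ _ hp.1).1, hp.2⟩, rfl⟩

theorem prs_full (h : IsSys d adj F2) (x : X) : (prs F2 x (nbr adj x)).card = ∑ u ∈ nbr adj x, dg2 F2 x u := by
  rw [Finset.card_eq_sum_card_fiberwise (f := fun p : X × X => p.1) (t := nbr adj x)]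
  · apply Finset.sum_congr rfl
    intro u hu
    unfold nbr at hu
    rw [Finset.mem_filter] at hu
    exact C05b_fib1 h hu.2
  · rintro ⟨a1, a2⟩ hp
    have hp' : (a1, a2) ∈ prs F2 x (nbr adj x) := hp
    unfold prs at hp'
    rw [Finset.mem_filter, Finset.mem_offDiag] at hp'
    exact hp'.1.1


theorem prs_erase (h : IsSys d adj F2) {x u : X} (hu : adj x u) :
    ((prs F2 x ((nbr adj x).erase u)).card : ℤ) = (prs F2 x (nbr adj x)).card - 2 * dg2 F2 x u := by
  have h1 : prs F2 x ((nbr adj x).erase u) =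
      (prs F2 x (nbr adj x)) \ (((prs F2 x (nbr adj x)).filter fun p => p.1 = u) ∪
        ((prs F2 x (nbr adj x)).filter fun p => p.2 = u)) := by
    ext ⟨a1, a2⟩
    rw [Finset.mem_sdiff, Finset.mem_union, Finset.mem_filter, Finset.mem_filter]
    unfold prs
    rw [Finset.mem_filter, Finset.mem_offDiag, Finset.mem_filter, Finset.mem_offDiag,
      Finset.mem_erase, Finset.mem_erase]
    simp only
    constructor
    · rintro ⟨⟨⟨h2, h3⟩, ⟨h4, h5⟩, h6⟩, h7⟩
      refine ⟨⟨⟨h3, h5, h6⟩, h7⟩, ?_⟩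
      rintro (⟨_, h8⟩ | ⟨_, h8⟩)
      · exact h2 h8
      · exact h4 h8
    · rintro ⟨⟨⟨h3, h5, h6⟩, h7⟩, h8⟩
      refine ⟨⟨⟨fun h9 => h8 (Or.inl ⟨⟨⟨h3, h5, h6⟩, h7⟩, h9⟩), h3⟩,
        ⟨fun h9 => h8 (Or.inr ⟨⟨⟨h3, h5, h6⟩, h7⟩, h9⟩), h5⟩, h6⟩, h7⟩
  have hdisj : Disjoint ((prs F2 x (nbr adj x)).filter fun p => p.1 = u)
      ((prs F2 x (nbr adj x)).filter fun p => p.2 = u) := by
    rw [Finset.disjoint_left]
    rintro ⟨a1, a2⟩ h2 h3
    rw [Finset.mem_filter] at h2 h3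
    have h4 := (prs_symm _ _ h2.1).2
    have h5 : a1 = u := h2.2
    have h6 : a2 = u := h3.2
    exact h4 (h5.trans h6.symm)
  have hsub : (((prs F2 x (nbr adj x)).filter fun p => p.1 = u) ∪
        ((prs F2 x (nbr adj x)).filter fun p => p.2 = u)) ⊆ prs F2 x (nbr adj x) :=
    Finset.union_subset (Finset.filter_subset _ _) (Finset.filter_subset _ _)
  have h2 := Finset.card_sdiff_add_card_eq_card hsub
  rw [← h1, Finset.card_union_of_disjoint hdisj, C05b_fib1 h hu, C05b_fib2 h hu] at h2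
  omega


end Pool.Agent.LibPol19
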