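import Mathlib
import Pool.Agent.LibPol19.Defs
import Pool.Agent.LibPol19.C05
import Pool.Agent.LibPol19.C05b

/-! Row C08.
Structures: reorder the fields (hab.symm etc.). dl_erase: prs_erase for both. dg_simple: dg2_simple for both. dl_full: prs_full for both, dl = ∑_{u ∈ nbr x} dg x u, and dg x u = 0 for u simple, i.e. u ∉ {a,b,c}; the sum reduces to the three hubs.
-/

set_option autoImplicit false

namespace Pool.Agent.LibPol19

open Finset
open scoped Classical

variable {X : Type*} [Fintype X]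
variable {d : ℕ} {adj : X → X → Prop} {F2 F2' Fc Fc' : Finset X → Prop} {a b c : X}


theorem Pr.swap (h : Pr d adj F2 F2' a b c) : Pr d adj F2' F2 a b c :=
  ⟨h.s', h.s, h.hd, h.hab, h.hac, h.hbc, h.hub⟩

theorem Pr.rev (h : Pr d adj F2 F2' a b c) : Pr d adj F2 F2' c b a :=
  ⟨h.s, h.s', h.hd, h.hbc.symm, h.hac.symm, h.hab.symm, fun x h1 h2 h3 => h.hub x h3 h2 h1⟩

theorem Pr.rot (h : Pr d adj F2 F2' a b c) : Pr d adj F2 F2' b c a :=
  ⟨h.s, h.s', h.hd, h.hbc, h.hab.symm, h.hac.symm, fun x h1 h2 h3 => h.hub x h3 h1 h2⟩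

theorem dl_erase (h : Pr d adj F2 F2' a b c) {x u : X} (hu : adj x u) : dl F2 F2' x ((nbr adj x).erase u) =
    dl F2 F2' x (nbr adj x) - 2 * dg F2 F2' x u := by
  unfold dl dg
  rw [prs_erase h.s hu, prs_erase h.s' hu]
  ring

theorem dg_simple (h : Pr d adj F2 F2' a b c) {x u : X} (hu : adj x u) (hs : (nbr adj u).card = d) : dg F2 F2' x u = 0 := by
  unfold dg
  rw [dg2_simple h.s hu hs, dg2_simple h.s' hu hs, sub_self]

/-- C10: the defect of the full neighbourhood -/
theorem dl_full (h : Pr d adj F2 F2' a b c) (x : X) : dl F2 F2' x (nbr adj x) =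
    (if adj x a then dg F2 F2' x a else 0) + (if adj x b then dg F2 F2' x b else 0) +
      (if adj x c then dg F2 F2' x c else 0) := by
  have h1 : dl F2 F2' x (nbr adj x) = ∑ u ∈ nbr adj x, dg F2 F2' x u := by
    unfold dl dg
    rw [prs_full h.s, prs_full h.s', Finset.sum_sub_distrib]
    push_cast
    rfl
  rw [h1]
  unfold nbr
  rw [Finset.sum_filter]
  have h2 : ∑ u ∈ ({a, b, c} : Finset X), (if adj x u then dg F2 F2' x u else 0) =
      ∑ u, (if adj x u then dg F2 F2' x u else 0) := by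
    refine Finset.sum_subset (Finset.subset_univ _) fun u _ hu => ?_
    simp only [Finset.mem_insert, Finset.mem_singleton, not_or] at hu
    split_ifs with hadj
    · exact dg_simple h hadj (h.hub u hu.1 hu.2.1 hu.2.2)
    · rfl
  rw [← h2, Finset.sum_insert (by simp [h.hab, h.hac]), Finset.sum_insert (by simp [h.hbc]),
    Finset.sum_singleton, add_assoc]

end Pool.Agent.LibPol19
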