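import Mathlib
import Pool.Agent.LibPol19.Defs
import Pool.Agent.LibPol19.C01

/-! Row C02.
Every x ∈ R has exactly two R-neighbours; out x + in x = 2 where out x = #{u ∈ R, adj x u, r x < r u}, in x likewise; ∑ out = ∑ in (swap the pairs, symm: Finset.sum_comm / card of {(x,u)}). #{out = 2} - #{in = 2} = 0 because out - in = 2, 0, -2. out = 2 iff source, in = 2 iff sink. good_iff: the element of R with maximal r is a sink,
so snk ≥ 1; Good means at most one source (Injective r is given), i.e. card of sources = snk ≤ 1.
-/

set_option autoImplicit false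

namespace Pool.Agent.LibPol19

open Finset
open scoped Classical

variable {X : Type*} [Fintype X]
variable {d : ℕ} {adj : X → X → Prop} {F2 F2' Fc Fc' : Finset X → Prop} {a b c : X}


/-- C02: sources and sinks of a member -/
theorem src_snk (h : IsSys d adj F2) {r : X → ℕ} (hr : Function.Injective r) {R : Finset X} (hR : F2 R) :
    (R.filter fun s => Src adj r R s).card = snk adj r R := by
  set o : X → ℕ := fun x => (R.filter fun u => adj x u ∧ r x < r u).card with ho
  set i : X → ℕ := fun x => (R.filter fun u => adj x u ∧ r u < r x).card with hi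
  have hsum : ∑ x ∈ R, o x = ∑ x ∈ R, i x := by
    have h1 := Finset.sum_card_bipartiteAbove_eq_sum_card_bipartiteBelow (s := R) (t := R)
      (fun x u => adj x u ∧ r x < r u)
    have h2 : ∀ x, (Finset.bipartiteAbove (fun x u => adj x u ∧ r x < r u) R x).card = o x := by
      intro x; rfl
    have h3 : ∀ x, (Finset.bipartiteBelow (fun x u => adj x u ∧ r x < r u) R x).card = i x := by
      intro x
      simp only [hi, Finset.bipartiteBelow]
      congr 1
      apply Finset.filter_congr
      intro u _
      constructor
      · rintro ⟨h4, h5⟩; exact ⟨h.symm _ _ h4, h5⟩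
      · rintro ⟨h4, h5⟩; exact ⟨h.symm _ _ h4, h5⟩
    simp_rw [h2, h3] at h1
    exact h1
  have hio : ∀ x ∈ R, o x + i x = 2 := by
    intro x hx
    have h1 := h.two R hR x hx
    rw [← h1]
    simp only [ho, hi]
    rw [← Finset.card_union_of_disjoint]
    · congr 1
      ext u
      simp only [Finset.mem_union, Finset.mem_filter]
      constructor
      · rintro (⟨h2, h3, _⟩ | ⟨h2, h3, _⟩)
        · exact ⟨h2, h3⟩
        · exact ⟨h2, h3⟩
      · rintro ⟨h2, h3⟩
        have hne : r x ≠ r u := by
          intro h4
          have := hr h4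
          subst this
          exact h.irrefl _ h3
        rcases lt_or_gt_of_ne hne with h4 | h4
        · exact Or.inl ⟨h2, h3, h4⟩
        · exact Or.inr ⟨h2, h3, h4⟩
    · rw [Finset.disjoint_left]
      intro u h2 h3
      rw [Finset.mem_filter] at h2 h3
      have h4 := h2.2.2
      have h5 := h3.2.2
      omega
  have hsrc : ∀ x ∈ R, (Src adj r R x ↔ i x = 0) := by
    intro x hx
    simp only [hi, Finset.card_eq_zero, Finset.filter_eq_empty_iff]
    constructor
    · rintro ⟨_, h2⟩ u hu ⟨h3, h4⟩
      have := h2 u hu h3
      omega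
    · intro h2
      refine ⟨hx, fun u hu hxu => ?_⟩
      have h3 := h2 hu
      have hne : r x ≠ r u := by
        intro h4
        have := hr h4
        subst this
        exact h.irrefl _ hxu
      by_contra h5
      exact h3 ⟨hxu, by omega⟩
  have hsnk : ∀ x ∈ R, (Snk adj r R x ↔ o x = 0) := by
    intro x hx
    simp only [ho, Finset.card_eq_zero, Finset.filter_eq_empty_iff]
    constructor
    · rintro ⟨_, h2⟩ u hu ⟨h3, h4⟩
      have := h2 u hu h3
      omega
    · intro h2
      refine ⟨hx, fun u hu hxu => ?_⟩
      have h3 := h2 hu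
      have hne : r x ≠ r u := by
        intro h4
        have := hr h4
        subst this
        exact h.irrefl _ hxu
      by_contra h5
      exact h3 ⟨hxu, by omega⟩
  unfold snk
  rw [Finset.card_filter, Finset.card_filter]
  have h1 : ∀ x ∈ R, o x + 2 * (if Snk adj r R x then 1 else 0) =
      i x + 2 * (if Src adj r R x then 1 else 0) := by
    intro x hx
    have h2 := hio x hx
    have h3 := hsrc x hx
    have h4 := hsnk x hx
    by_cases h5 : Src adj r R x <;> by_cases h6 : Snk adj r R x
    · have := h3.1 h5; have := h4.1 h6; omega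
    · have := h3.1 h5; simp only [h5, h6, if_true, if_false]; omega
    · have := h4.1 h6; simp only [h5, h6, if_true, if_false]; omega
    · have h7 : i x ≠ 0 := fun h8 => h5 (h3.2 h8)
      have h8 : o x ≠ 0 := fun h9 => h6 (h4.2 h9)
      simp only [h5, h6, if_false]; omega
  have h2 := Finset.sum_congr rfl h1
  rw [Finset.sum_add_distrib, Finset.sum_add_distrib, hsum, ← Finset.mul_sum, ← Finset.mul_sum] at h2
  omega


theorem good_iff (h : IsSys d adj F2) {r : X → ℕ} (hr : Function.Injective r) :
    (∀ R, F2 R → 1 ≤ snk adj r R) ∧ (Good adj F2 r ↔ ∀ R, F2 R → snk adj r R = 1) := by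
  have hone : ∀ R, F2 R → 1 ≤ snk adj r R := by
    intro R hR
    obtain ⟨x, hx, hmax⟩ := Finset.exists_max_image R r (h.nonempty R hR)
    unfold snk
    apply Finset.card_pos.2
    refine ⟨x, Finset.mem_filter.2 ⟨hx, hx, fun u hu hxu => ?_⟩⟩
    have hne : r x ≠ r u := by
      intro h4
      have := hr h4
      subst this
      exact h.irrefl _ hxu
    have := hmax u hu
    omega
  refine ⟨hone, ?_, ?_⟩
  · rintro ⟨_, hg⟩ R hR
    have h1 := hone R hR
    have h2 : snk adj r R ≤ 1 := by
      rw [← src_snk h hr hR, Finset.card_le_one]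
      intro s hs s' hs'
      rw [Finset.mem_filter] at hs hs'
      exact hg R hR s s' hs.2 hs'.2
    omega
  · intro hall
    refine ⟨hr, fun R hR s s' hs hs' => ?_⟩
    have h1 : (R.filter fun s => Src adj r R s).card ≤ 1 := by
      rw [src_snk h hr hR, hall R hR]
    rw [Finset.card_le_one] at h1
    exact h1 s (Finset.mem_filter.2 ⟨hs.1, hs⟩) s' (Finset.mem_filter.2 ⟨hs'.1, hs'⟩)


end Pool.Agent.LibPol19
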