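import Mathlib
import Pool.Agent.LibPol19.Defs
import Pool.Agent.LibPol19.C01

/-! Row C03.
Double count the triples (x, u, w): u ≠ w in inn x, with x, u, w in a common R, which is unique (sys_uniq; x ≠ u, w by irrefl). For R ∈ fam F2 and x ∈ R: the ordered pairs (u, w) of different elements of inn x ∩ R: inn x ∩ R ⊆ the two R-neighbours; 2 ordered pairs if x is a sink of R, else 0.
-/

set_option autoImplicit false

namespace Pool.Agent.LibPol19

open Finset
open scoped Classical

variable {X : Type*} [Fintype X]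
variable {d : ℕ} {adj : X → X → Prop} {F2 F2' Fc Fc' : Finset X → Prop} {a b c : X}


theorem C03_aux (h : IsSys d adj F2) {r : X → ℕ} {R : Finset X} (hR : F2 R) (x : X) :
    (((inn adj r x).offDiag.filter fun p : X × X => x ∈ R ∧ p.1 ∈ R ∧ p.2 ∈ R).card : ℕ) =
      if Snk adj r R x then 2 else 0 := by
  by_cases hx : x ∈ R
  swap
  · have h1 : ¬ Snk adj r R x := fun hs => hx hs.1
    rw [if_neg h1, Finset.card_eq_zero, Finset.filter_eq_empty_iff]
    intro p _ hp
    exact hx hp.1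
  obtain ⟨u, w, huw, hau, haw, hu, hw, hxu, hxw, hz⟩ := sys_pair h hR hx
  have hmem : ∀ z, z ∈ inn adj r x ↔ adj x z ∧ r z < r x := by
    intro z
    simp [inn, nbr]
  split_ifs with hs
  · have h1 : ((inn adj r x).offDiag.filter fun p : X × X => x ∈ R ∧ p.1 ∈ R ∧ p.2 ∈ R) =
        {(u, w), (w, u)} := by
      ext ⟨y, z⟩
      simp only [Finset.mem_filter, Finset.mem_offDiag, hmem, Finset.mem_insert,
        Finset.mem_singleton, Prod.mk.injEq]
      constructor
      · rintro ⟨⟨⟨hy, _⟩, ⟨hz', _⟩, hyz⟩, _, hyR, hzR⟩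
        rcases hz y hyR hy with h2 | h2 <;> rcases hz z hzR hz' with h3 | h3
        · exact absurd (h2.trans h3.symm) hyz
        · exact Or.inl ⟨h2, h3⟩
        · exact Or.inr ⟨h2, h3⟩
        · exact absurd (h2.trans h3.symm) hyz
      · rintro (⟨rfl, rfl⟩ | ⟨rfl, rfl⟩)
        · exact ⟨⟨⟨hau, hs.2 _ hu hau⟩, ⟨haw, hs.2 _ hw haw⟩, huw⟩, hx, hu, hw⟩
        · exact ⟨⟨⟨haw, hs.2 _ hw haw⟩, ⟨hau, hs.2 _ hu hau⟩, huw.symm⟩, hx, hw, hu⟩
    rw [h1, Finset.card_pair]
    intro h2
    exact huw (Prod.mk.inj h2).1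
  · rw [Finset.card_eq_zero, Finset.filter_eq_empty_iff]
    rintro ⟨y, z⟩ hyz ⟨_, hyR, hzR⟩
    simp only [Finset.mem_offDiag, hmem] at hyz
    obtain ⟨⟨hy, hy'⟩, ⟨hz', hz''⟩, hne⟩ := hyz
    apply hs
    refine ⟨hx, fun v hv hav => ?_⟩
    simp only at hyR hzR
    rcases hz y hyR hy with h2 | h2 <;> rcases hz z hzR hz' with h3 | h3
    · exact absurd (h2.trans h3.symm) hne
    · rcases hz v hv hav with h4 | h4
      · rw [h4, ← h2]; exact hy'
      · rw [h4, ← h3]; exact hz''
    · rcases hz v hv hav with h4 | h4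
      · rw [h4, ← h3]; exact hz''
      · rw [h4, ← h2]; exact hy'
    · exact absurd (h2.trans h3.symm) hne

theorem C03_prs (h : IsSys d adj F2) {r : X → ℕ} (x : X) :
    (prs F2 x (inn adj r x)).card = ∑ R ∈ fam F2, if Snk adj r R x then 2 else 0 := by
  have h1 : prs F2 x (inn adj r x) = (fam F2).biUnion fun R =>
      (inn adj r x).offDiag.filter fun p : X × X => x ∈ R ∧ p.1 ∈ R ∧ p.2 ∈ R := by
    ext p
    simp only [prs, Finset.mem_filter, Finset.mem_biUnion, fam, Finset.mem_univ, true_and]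
    constructor
    · rintro ⟨hp, R, hR, hx⟩
      exact ⟨R, hR, hp, hx⟩
    · rintro ⟨R, hR, hp, hx⟩
      exact ⟨hp, R, hR, hx⟩
  rw [h1, Finset.card_biUnion]
  · refine Finset.sum_congr rfl fun R hR => ?_
    have hR' : F2 R := by simpa [fam] using hR
    exact C03_aux h hR' x
  · intro R hR R' hR' hne
    rw [Function.onFun, Finset.disjoint_left]
    rintro p hp hp'
    apply hne
    have hR1 : F2 R := by simpa [fam] using hR
    have hR2 : F2 R' := by simpa [fam] using hR'
    simp only [Finset.mem_filter, Finset.mem_offDiag, inn, nbr, Finset.mem_univ, true_and] at hp hp'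
    obtain ⟨⟨⟨ha1, _⟩, ⟨ha2, _⟩, hne'⟩, hx, h3, h4⟩ := hp
    obtain ⟨_, hx', h3', h4'⟩ := hp'
    refine sys_uniq h hR1 hR2 hx hx' h3 h3' h4 h4' ?_ ?_ hne'
    · intro e
      rw [← e] at ha1
      exact h.irrefl x ha1
    · intro e
      rw [← e] at ha2
      exact h.irrefl x ha2

/-- C03: counting angles -/
theorem sum_prs (h : IsSys d adj F2) {r : X → ℕ} (hr : Function.Injective r) :
    ∑ x, (prs F2 x (inn adj r x)).card = 2 * ∑ R ∈ fam F2, snk adj r R := by
  simp only [C03_prs h]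
  rw [Finset.sum_comm, Finset.mul_sum]
  refine Finset.sum_congr rfl fun R _ => ?_
  rw [← Finset.sum_filter, Finset.sum_const, smul_eq_mul, mul_comm, snk]
  congr 2
  ext x
  simp only [Finset.mem_filter, Finset.mem_univ, true_and]
  exact ⟨fun hs => ⟨hs.1, hs⟩, fun hs => hs.2⟩

end Pool.Agent.LibPol19
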