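import Mathlib
import Pool.Agent.LibPol19.Defs
import Pool.Agent.LibPol19.C03
import Pool.Agent.LibPol19.C04

/-! Row C09.
sum_prs for both systems; for x ∉ {a,b,c} both prs are (inn x).offDiag (prs_simple, inn x ⊆ nbr x), so the difference of the sums over x is the sum over {a,b,c}.
-/

set_option autoImplicit false

namespace Pool.Agent.LibPol19

open Finset
open scoped Classical

variable {X : Type*} [Fintype X]
variable {d : ℕ} {adj : X → X → Prop} {F2 F2' Fc Fc' : Finset X → Prop} {a b c : X}


/-- C07: comparison -/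
theorem compare (h : Pr d adj F2 F2' a b c) {r : X → ℕ} (hr : Function.Injective r) :
    SS adj F2 F2' a b c r = 2 * ((∑ R ∈ fam F2, (snk adj r R : ℤ)) - ∑ R ∈ fam F2', (snk adj r R : ℤ)) := by
  have h1 := sum_prs h.s hr
  have h2 := sum_prs h.s' hr
  have h1' : ∑ x, ((prs F2 x (inn adj r x)).card : ℤ) = 2 * ∑ R ∈ fam F2, (snk adj r R : ℤ) := by
    exact_mod_cast h1
  have h2' : ∑ x, ((prs F2' x (inn adj r x)).card : ℤ) = 2 * ∑ R ∈ fam F2', (snk adj r R : ℤ) := by
    exact_mod_cast h2
  have h3 : ∑ x, dl F2 F2' x (inn adj r x) =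
      2 * ((∑ R ∈ fam F2, (snk adj r R : ℤ)) - ∑ R ∈ fam F2', (snk adj r R : ℤ)) := by
    unfold dl
    rw [Finset.sum_sub_distrib, h1', h2']
    ring
  rw [← h3]
  have h4 : ∑ x, dl F2 F2' x (inn adj r x) = ∑ x ∈ ({a, b, c} : Finset X), dl F2 F2' x (inn adj r x) := by
    symm
    apply Finset.sum_subset (Finset.subset_univ _)
    intro x _ hx
    simp only [Finset.mem_insert, Finset.mem_singleton, not_or] at hx
    have hd := h.hub x hx.1 hx.2.1 hx.2.2
    have hI : inn adj r x ⊆ nbr adj x := Finset.filter_subset _ _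
    unfold dl
    rw [prs_simple h.s hd hI, prs_simple h.s' hd hI, sub_self]
  rw [h4, Finset.sum_insert, Finset.sum_insert, Finset.sum_singleton]
  · unfold SS
    ring
  · simpa using h.hbc
  · simp only [Finset.mem_insert, Finset.mem_singleton, not_or]
    exact ⟨h.hab, h.hac⟩

end Pool.Agent.LibPol19
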