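import Mathlib
import Pool.Agent.LibPol19.Defs
import Pool.Agent.LibPol19.C02
import Pool.Agent.LibPol19.C09

/-! Row C10.
good_iff: r good for F2 means all snk = 1, sum = card fam F2; always sum ≥ card (each snk ≥ 1). key: from r: σ = 2 (card fam F2 - ∑' snk) ≤ 2 DD; from r': σ = 2 (∑ snk - card fam F2') ≥ 2 DD. transfer: 2 DD = 2 (card fam F2 - ∑_{fam F2'} snk) so ∑_{fam F2'} snk = card fam F2', all snk = 1 (each ≥ 1): Good adj F2' r.
-/

set_option autoImplicit false

namespace Pool.Agent.LibPol19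

open Finset
open scoped Classical

variable {X : Type*} [Fintype X]
variable {d : ℕ} {adj : X → X → Prop} {F2 F2' Fc Fc' : Finset X → Prop} {a b c : X}


theorem C10_mem {F : Finset X → Prop} {R : Finset X} : R ∈ fam F ↔ F R := by
  simp [fam]

theorem C10_ge (h : IsSys d adj F2) {r : X → ℕ} (hr : Function.Injective r) :
    ((fam F2).card : ℤ) ≤ ∑ R ∈ fam F2, (snk adj r R : ℤ) := by
  have h1 := Finset.card_nsmul_le_sum (fam F2) (fun R => (snk adj r R : ℤ)) 1 (fun R hR => by
    exact_mod_cast (good_iff h hr).1 R (C10_mem.1 hR))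
  simpa using h1

theorem C10_good (h : IsSys d adj F2) {r : X → ℕ} (hr : Good adj F2 r) :
    ∑ R ∈ fam F2, (snk adj r R : ℤ) = ((fam F2).card : ℤ) := by
  have h1 : ∀ R ∈ fam F2, (snk adj r R : ℤ) = 1 := fun R hR => by
    exact_mod_cast ((good_iff h hr.1).2.1 hr) R (C10_mem.1 hR)
  rw [Finset.sum_congr rfl h1]
  simp

/-- C08: one class of orders -/
theorem key (h : Pr d adj F2 F2' a b c) {r r' : X → ℕ} {σ : ℤ} (hr : Good adj F2 r) (hσ : SS adj F2 F2' a b c r = σ)
    (hr' : Good adj F2' r') (hσ' : SS adj F2 F2' a b c r' = σ) : σ = 2 * DD F2 F2' := by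
  have h1 := compare h hr.1
  have h2 := compare h hr'.1
  rw [C10_good h.s hr] at h1
  rw [C10_good h.s' hr'] at h2
  have h3 := C10_ge h.s' hr.1
  have h4 := C10_ge h.s hr'.1
  unfold DD
  linarith

theorem transfer (h : Pr d adj F2 F2' a b c) {r : X → ℕ} (hr : Good adj F2 r)
    (hσ : SS adj F2 F2' a b c r = 2 * DD F2 F2') : Good adj F2' r := by
  have h1 := compare h hr.1
  rw [C10_good h.s hr] at h1
  have hsum : ∑ R ∈ fam F2', ((snk adj r R : ℤ) - 1) = 0 := by
    rw [Finset.sum_sub_distrib]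
    simp only [Finset.sum_const, nsmul_eq_mul, mul_one]
    unfold DD at hσ
    linarith
  have hnn : ∀ R ∈ fam F2', (0 : ℤ) ≤ (snk adj r R : ℤ) - 1 := fun R hR => by
    have := (good_iff h.s' hr.1).1 R (C10_mem.1 hR)
    have h5 : (1 : ℤ) ≤ (snk adj r R : ℤ) := by exact_mod_cast this
    linarith
  rw [(good_iff h.s' hr.1).2]
  intro R hR
  have h6 := (Finset.sum_eq_zero_iff_of_nonneg hnn).1 hsum R (C10_mem.2 hR)
  have h7 : (snk adj r R : ℤ) = 1 := by linarith
  exact_mod_cast h7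

end Pool.Agent.LibPol19
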