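import Mathlib
import Pool.Agent.LibPol19.Defs
import Pool.Agent.LibPol19.C01
import Pool.Agent.LibPol19.C10

/-! Row C11.
kalai: the two R-neighbours u, w of s; span in F2' gives R' ∋ s, u, w. s is a source of R' (its R'-neighbours are u, w (two), both above s), and the minimum of R' is a source, so by Good r for F2' s is the minimum of R'. By Fin' every z with r z ≥ r s is in R: R' ⊆ R. For x ∈ R' the two R'-neighbours are the two R-neighbours (card 2, inclusion).
So there is no adjacency between R' and R \ R' inside R; if R \ R' ≠ ∅ its r-minimum is a source of R different from s (which is a source of R): contradiction with Good for F2. So R = R'. kalai_step: transfer + kalai.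
-/

set_option autoImplicit false

namespace Pool.Agent.LibPol19

open Finset
open scoped Classical

variable {X : Type*} [Fintype X]
variable {d : ℕ} {adj : X → X → Prop} {F2 F2' Fc Fc' : Finset X → Prop} {a b c : X}


theorem C11_two (h : IsSys d adj F2) {R : Finset X} (hR : F2 R) {x u w : X} (hx : x ∈ R) (hu : u ∈ R) (hw : w ∈ R)
    (xu : adj x u) (xw : adj x w) (huw : u ≠ w) : ∀ z ∈ R, adj x z → z = u ∨ z = w := by
  intro z hz xz
  have h1 : ({u, w} : Finset X) ⊆ R.filter fun u => adj x u := by
    intro y hy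
    rw [mem_insert, mem_singleton] at hy
    rcases hy with rfl | rfl
    · exact mem_filter.2 ⟨hu, xu⟩
    · exact mem_filter.2 ⟨hw, xw⟩
  have h2 : ({u, w} : Finset X) = R.filter fun u => adj x u :=
    eq_of_subset_of_card_le h1 (by rw [h.two R hR x hx, card_pair huw])
  have h3 : z ∈ ({u, w} : Finset X) := by
    rw [h2]
    exact mem_filter.2 ⟨hz, xz⟩
  rwa [mem_insert, mem_singleton] at h3

/-- C09: Kalai's argument -/
theorem kalai (h : IsSys d adj F2) (h' : IsSys d adj F2') {r : X → ℕ} (hr : Good adj F2 r) (hr' : Good adj F2' r)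
    {R : Finset X} (hR : F2 R) (hf : Fin' r R) {s : X} (hs : s ∈ R) (hs1 : FstIn r R s) (hsimple : (nbr adj s).card = d) :
    F2' R := by
  obtain ⟨u, w, huw, su, sw, hu, hw, hsu, hsw, hall⟩ := sys_pair h hR hs
  obtain ⟨R', hR', hs', hu', hw'⟩ := h'.span s hsimple u w su sw huw
  have hsrc : Src adj r R' s := by
    refine ⟨hs', fun z hz sz => ?_⟩
    rcases C11_two h' hR' hs' hu' hw' su sw huw z hz sz with rfl | rfl
    · exact hs1 _ hu hsu.symm
    · exact hs1 _ hw hsw.symm
  obtain ⟨m, hm, hmin⟩ := exists_min_image R' r (h'.nonempty R' hR')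
  have hmsrc : Src adj r R' m := by
    refine ⟨hm, fun z hz mz => lt_of_le_of_ne (hmin z hz) fun he => ?_⟩
    have := hr'.1 he
    subst this
    exact h'.irrefl _ mz
  have hms : m = s := hr'.2 R' hR' m s hmsrc hsrc
  subst hms
  have hsub : R' ⊆ R := by
    intro z hz
    by_contra hzR
    exact absurd (hf z hzR m hs) (not_lt.2 (hmin z hz))
  have hcl : ∀ x ∈ R', ∀ z ∈ R, adj x z → z ∈ R' := by
    intro x hx z hz xz
    obtain ⟨u', w', huw', xu, xw, hu1, hw1, _, _, _⟩ := sys_pair h' hR' hx
    rcases C11_two h hR (hsub hx) (hsub hu1) (hsub hw1) xu xw huw' z hz xz with rfl | rfl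
    · exact hu1
    · exact hw1
  have hsub2 : R ⊆ R' := by
    by_contra hne
    have hne' : (R \ R').Nonempty := by
      rw [sdiff_nonempty]
      exact hne
    obtain ⟨q, hq, hqmin⟩ := exists_min_image (R \ R') r hne'
    rw [mem_sdiff] at hq
    have hqsrc : Src adj r R q := by
      refine ⟨hq.1, fun z hz qz => ?_⟩
      have hz' : z ∉ R' := fun hz' => hq.2 (hcl z hz' q hq.1 (h.symm _ _ qz))
      refine lt_of_le_of_ne (hqmin z (mem_sdiff.2 ⟨hz, hz'⟩)) fun he => ?_
      have := hr.1 he
      subst this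
      exact h.irrefl _ qz
    have hssrc : Src adj r R m := by
      refine ⟨hs, fun z hz sz => hs1 z hz fun he => ?_⟩
      subst he
      exact h.irrefl _ sz
    have := hr.2 R hR q m hqsrc hssrc
    subst this
    exact hq.2 hm
  rw [Subset.antisymm hsub2 hsub]
  exact hR'

theorem kalai_step (h : Pr d adj F2 F2' a b c) {r : X → ℕ} (hr : Good adj F2 r)
    (hσ : SS adj F2 F2' a b c r = 2 * DD F2 F2') {R : Finset X} (hR : F2 R) (hf : Fin' r R) {s : X} (hs : s ∈ R)
    (hs1 : FstIn r R s) (hsimple : (nbr adj s).card = d) : F2' R :=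
  kalai h.s h.s' hr (transfer h hr hσ) hR hf hs hs1 hsimple

end Pool.Agent.LibPol19
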