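import Mathlib
import Pool.Agent.LibPol19.Defs
import Pool.Agent.LibPol19.C10
import Pool.Agent.LibPol19.C11

/-! Row C15.
face_class: ord_face gives r (good for F2, Fst, Fin', FstIn, Lst) [ord_face needs s ≠ y]; kalai_step. point_class: ord_pt for F2 gives r, for F2' gives r'; key.
-/

set_option autoImplicit false

namespace Pool.Agent.LibPol19

open Finset
open scoped Classical

variable {X : Type*} [Fintype X]
variable {d : ℕ} {adj : X → X → Prop} {F2 F2' Fc Fc' : Finset X → Prop} {a b c : X}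


/-- C15: faces meeting the hubs, general step: first `p` then `q` (`q = p` or adjacent to `p`), `R` final with sink `y` -/
theorem face_class (h : Pr d adj F2 F2' a b c) {R : Finset X} (hR : F2 R) {p q y s : X} (hpq : q = p ∨ adj p q)
    (hp : p ∉ R) (hq : q ∉ R) (hy : y ∈ R) (hs : s ∈ R) (hsy : s ≠ y) (hsimple : (nbr adj s).card = d)
    (hσ : ∀ r : X → ℕ, Good adj F2 r → Fst r p q → Fin' r R → FstIn r R s → Lst r y →
      SS adj F2 F2' a b c r = 2 * DD F2 F2') : F2' R := by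
  obtain ⟨r, h1, h2, h3, h4, h5⟩ := h.s.ord_face p q R s y hpq hR hp hq hs hy hsy
  exact kalai_step h h1 (hσ r h1 h2 h3 h4 h5) hR h3 hs h4 hsimple

theorem point_class (h : Pr d adj F2 F2' a b c) {p q y : X} (hpq : q = p ∨ adj p q) (hp : y ≠ p) (hq : y ≠ q) (σ : ℤ)
    (hσ : ∀ r : X → ℕ, Function.Injective r → Fst r p q → Lst r y → SS adj F2 F2' a b c r = σ) : σ = 2 * DD F2 F2' := by
  obtain ⟨r, h1, h2, h3⟩ := h.s.ord_pt p q y hpq hp hq
  obtain ⟨r', h1', h2', h3'⟩ := h.s'.ord_pt p q y hpq hp hq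
  exact key h h1 (hσ r h1.1 h2 h3) h1' (hσ r' h1'.1 h2' h3')

end Pool.Agent.LibPol19
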