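import Mathlib
import Pool.Agent.LibPol19.Defs
import Pool.Agent.LibPol19.C04
import Pool.Agent.LibPol19.C06
import Pool.Agent.LibPol19.C08
import Pool.Agent.LibPol19.C15

/-! Row A1.
caD: point_class with p = a, q = b, y = c, σ = 0: dl a ∅ = 0 (inn_fst, prs_small), dl b {a} = 0 (inn_snd), dl c (nbr c) = 0 by dl_full (c is adjacent to no hub; irrefl).
-/

set_option autoImplicit false

namespace Pool.Agent.LibPol19

open Finset
open scoped Classical

variable {X : Type*} [Fintype X]
variable {d : ℕ} {adj : X → X → Prop} {F2 F2' Fc Fc' : Finset X → Prop} {a b c : X}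


theorem CA.swap (h : CA d adj F2 F2' a b c) : CA d adj F2' F2 a b c :=
  { h.toPr.swap with ab := h.ab, bc := h.bc, ac := h.ac }

theorem CA.flip (h : CA d adj F2 F2' a b c) : CA d adj F2 F2' b a c :=
  { h.toPr.rev.rot with ab := h.s.symm _ _ h.ab, bc := h.ac, ac := h.bc }

/-- A1 -/
theorem caD (h : CA d adj F2 F2' a b c) : DD F2 F2' = 0 := by
  have hca : ¬ adj c a := fun h1 => h.ac (h.s.symm _ _ h1)
  have hcb : ¬ adj c b := fun h1 => h.bc (h.s.symm _ _ h1)
  have hcc : ¬ adj c c := h.s.irrefl c
  have key := point_class h.toPr (p := a) (q := b) (y := c) (Or.inr h.ab) (Ne.symm h.hac)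
    (Ne.symm h.hbc) 0 (fun r _ hf hl => by
      unfold SS
      rw [inn_fst hf, inn_snd h.s hf h.ab, inn_lst h.s hl, dl_full h.toPr c, if_neg hca, if_neg hcb,
        if_neg hcc]
      unfold dl
      rw [prs_small (F2 := F2) (x := a) (I := ∅) (by simp), prs_small (F2 := F2') (x := a) (I := ∅) (by simp),
        prs_small (F2 := F2) (x := b) (I := {a}) (by simp),
        prs_small (F2 := F2') (x := b) (I := {a}) (by simp)]
      simp)
  omega

end Pool.Agent.LibPol19
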