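import Mathlib
import Pool.Agent.LibPol19.Defs
import Pool.Agent.LibPol19.C01
import Pool.Agent.LibPol19.C02

/-! Row C07.
The two R-neighbours u1, u2 of x (sys_pair). x is not a source of R: s is a source (FstIn, irrefl) and Good says it is the only one. x is not a sink: y is a sink and there is only one (good_iff: snk = 1; two sinks x ≠ y would give snk ≥ 2). So exactly one of u1, u2 is above x, call it u. All neighbours of x outside R are below (Fin').
So inn x = nbr x minus u. If adj x y: y ∈ R is one of u1, u2 and is above x (Lst), so u = y.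
-/

set_option autoImplicit false

namespace Pool.Agent.LibPol19

open Finset
open scoped Classical

variable {X : Type*} [Fintype X]
variable {d : ℕ} {adj : X → X → Prop} {F2 F2' Fc Fc' : Finset X → Prop} {a b c : X}


theorem inn_mid (h : IsSys d adj F2) {r : X → ℕ} (hr : Good adj F2 r) {R : Finset X} (hR : F2 R) (hf : Fin' r R) {s y x : X}
    (hs : s ∈ R) (hy : y ∈ R) (hs1 : FstIn r R s) (hy1 : Lst r y) (hx : x ∈ R) (hxs : x ≠ s) (hxy : x ≠ y) :
    ∃ u ∈ R, adj x u ∧ inn adj r x = (nbr adj x).erase u ∧ (adj x y → u = y) := by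
  have hinj := hr.1
  obtain ⟨u1, u2, h1, h2, h3, h4, h5, h6, h7, h8⟩ := sys_pair h hR hx
  have hsrc : ¬ Src adj r R x := by
    intro h9
    have h10 : Src adj r R s := by
      refine ⟨hs, fun u hu hsu => hs1 u hu ?_⟩
      rintro rfl; exact h.irrefl _ hsu
    exact hxs (hr.2 R hR x s h9 h10)
  have hsnk : ¬ Snk adj r R x := by
    intro h9
    have h10 : Snk adj r R y := by
      refine ⟨hy, fun u hu hyu => hy1 u ?_⟩
      rintro rfl; exact h.irrefl _ hyu
    have h11 := ((good_iff h hinj).2.1 hr) R hR
    unfold snk at h11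
    have h12 := h11.le
    rw [Finset.card_le_one] at h12
    exact hxy (h12 x (Finset.mem_filter.2 ⟨hx, h9⟩) y (Finset.mem_filter.2 ⟨hy, h10⟩))
  have hn1 : r x ≠ r u1 := fun h9 => h6 (hinj h9)
  have hn2 : r x ≠ r u2 := fun h9 => h7 (hinj h9)
  have key : ∀ u w : X, u ∈ R → adj x u → r x < r u → r w < r x →
      (∀ z ∈ R, adj x z → z = u ∨ z = w) →
      ∃ u ∈ R, adj x u ∧ inn adj r x = (nbr adj x).erase u ∧ (adj x y → u = y) := by
    intro u w hu hxu hru hrw hz
    refine ⟨u, hu, hxu, ?_, ?_⟩
    · unfold inn
      ext z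
      rw [Finset.mem_filter, Finset.mem_erase]
      constructor
      · rintro ⟨h9, h10⟩
        refine ⟨?_, h9⟩
        rintro rfl
        omega
      · rintro ⟨h9, h10⟩
        refine ⟨h10, ?_⟩
        by_cases hzR : z ∈ R
        · have h11 := h10
          unfold nbr at h11
          rw [Finset.mem_filter] at h11
          rcases hz z hzR h11.2 with h12 | h12
          · exact absurd h12 h9
          · rw [h12]; exact hrw
        · exact hf z hzR x hx
    · intro hxy'
      rcases hz y hy hxy' with h9 | h9
      · exact h9.symm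
      · exfalso
        have := hy1 x hxy
        rw [h9] at this
        omega
  rcases lt_or_gt_of_ne hn1 with h9 | h9 <;> rcases lt_or_gt_of_ne hn2 with h10 | h10
  · exfalso
    apply hsrc
    refine ⟨hx, fun u hu hxu => ?_⟩
    rcases h8 u hu hxu with h11 | h11 <;> rw [h11] <;> assumption
  · exact key u1 u2 h4 h2 h9 h10 h8
  · exact key u2 u1 h5 h3 h10 h9 (fun z hz hxz => (h8 z hz hxz).symm)
  · exfalso
    apply hsnk
    refine ⟨hx, fun u hu hxu => ?_⟩
    rcases h8 u hu hxu with h11 | h11 <;> rw [h11] <;> assumption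


end Pool.Agent.LibPol19
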