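import Mathlib
import Pool.Agent.LibPol19.Defs
import Pool.Agent.LibPol19.C01
import Pool.Agent.LibPol19.C08

/-! Row C14.
R has at least three elements: x and its two neighbours, all different. If one of a, b, c is not in R: R \ {a,b,c} could be empty only if ... use: R has ≥ 3 elements, so if R misses one hub there is s ∈ R outside {a,b,c}. If a, b, c ∈ R and ¬ adj a c: the two R-neighbours of a are not c (symm) so one of them is not b: it is s. s ≠ y since y is a hub;
(nbr s).card = d by hub.
-/

set_option autoImplicit false

namespace Pool.Agent.LibPol19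

open Finset
open scoped Classical

variable {X : Type*} [Fintype X]
variable {d : ℕ} {adj : X → X → Prop} {F2 F2' Fc Fc' : Finset X → Prop} {a b c : X}


/-- C14: a simple vertex in a member which does not contain three mutually adjacent hubs -/
theorem ex_simple (h : Pr d adj F2 F2' a b c) {R : Finset X} (hR : F2 R) (hn : a ∉ R ∨ b ∉ R ∨ c ∉ R ∨ ¬ adj a c) (y : X)
    (hy : y = a ∨ y = b ∨ y = c) : ∃ s ∈ R, s ≠ a ∧ s ≠ b ∧ s ≠ c ∧ s ≠ y ∧ (nbr adj s).card = d := by
  suffices hmain : ∃ s ∈ R, s ≠ a ∧ s ≠ b ∧ s ≠ c by
    obtain ⟨s, hs, ha, hb, hc⟩ := hmain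
    refine ⟨s, hs, ha, hb, hc, ?_, h.hub s ha hb hc⟩
    rcases hy with rfl | rfl | rfl
    · exact ha
    · exact hb
    · exact hc
  by_contra hcon
  push Not at hcon
  have hall : ∀ s ∈ R, s = a ∨ s = b ∨ s = c := by
    intro s hs
    by_cases ha : s = a
    · exact Or.inl ha
    by_cases hb : s = b
    · exact Or.inr (Or.inl hb)
    exact Or.inr (Or.inr (hcon s hs ha hb))
  obtain ⟨x, hx⟩ := h.s.nonempty R hR
  obtain ⟨u, w, huw, -, -, hu, hw, hxu, hxw, -⟩ := sys_pair h.s hR hx
  have h3 : ({x, u, w} : Finset X).card = 3 := by
    rw [Finset.card_eq_three]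
    exact ⟨x, u, w, hxu, hxw, huw, rfl⟩
  have h4 : ({x, u, w} : Finset X) ⊆ R := by
    intro z hz
    simp only [Finset.mem_insert, Finset.mem_singleton] at hz
    rcases hz with rfl | rfl | rfl
    · exact hx
    · exact hu
    · exact hw
  have h5 : 3 ≤ R.card := h3 ▸ Finset.card_le_card h4
  rcases hn with hn | hn | hn | hn
  · have h6 : R ⊆ {b, c} := by
      intro z hz
      rcases hall z hz with rfl | rfl | rfl
      · exact absurd hz hn
      · simp
      · simp
    have h7 := (Finset.card_le_card h6).trans Finset.card_le_two
    omega
  · have h6 : R ⊆ {a, c} := by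
      intro z hz
      rcases hall z hz with rfl | rfl | rfl
      · simp
      · exact absurd hz hn
      · simp
    have h7 := (Finset.card_le_card h6).trans Finset.card_le_two
    omega
  · have h6 : R ⊆ {a, b} := by
      intro z hz
      rcases hall z hz with rfl | rfl | rfl
      · simp
      · simp
      · exact absurd hz hn
    have h7 := (Finset.card_le_card h6).trans Finset.card_le_two
    omega
  · by_cases haR : a ∈ R
    · obtain ⟨u, w, huw, hau, haw, hu, hw, hxu, hxw, -⟩ := sys_pair h.s hR haR
      have hu' : u = b := by
        rcases hall u hu with e | e | e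
        · exact absurd e.symm hxu
        · exact e
        · rw [e] at hau
          exact absurd hau hn
      have hw' : w = b := by
        rcases hall w hw with e | e | e
        · exact absurd e.symm hxw
        · exact e
        · rw [e] at haw
          exact absurd haw hn
      exact huw (hu'.trans hw'.symm)
    · have h6 : R ⊆ {b, c} := by
        intro z hz
        rcases hall z hz with rfl | rfl | rfl
        · exact absurd hz haR
        · simp
        · simp
      have h7 := (Finset.card_le_card h6).trans Finset.card_le_two
      omega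

end Pool.Agent.LibPol19
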