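import Mathlib
import Pool.Agent.LibPol19.Defs
import Pool.Agent.LibPol19.A1
import Pool.Agent.LibPol19.C04
import Pool.Agent.LibPol19.C06
import Pool.Agent.LibPol19.C07
import Pool.Agent.LibPol19.C08
import Pool.Agent.LibPol19.C14
import Pool.Agent.LibPol19.C15

/-! Row A2.
caC: p = a, q = b, y = c, s from ex_simple: SS = 0 + 0 + dl c (nbr c) = 0 = 2 DD. caAB: p = q = c, y = a, s from ex_simple (c ∉ R): inn c = ∅; inn a = nbr a: dl a (nbr a) = dg a b (dl_full); b is in the middle (b ≠ s, b ≠ a): inn_mid with adj b a: inn b = (nbr b).erase a: dl = dl b (nbr b) - 2 dg b a = dg b a - 2 dg b a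
(dl_erase, dl_full); dg a b = dg b a (dg2_comm). Sum 0 = 2 DD (caD).
-/

set_option autoImplicit false

namespace Pool.Agent.LibPol19

open Finset
open scoped Classical

variable {X : Type*} [Fintype X]
variable {d : ℕ} {adj : X → X → Prop} {F2 F2' Fc Fc' : Finset X → Prop} {a b c : X}


theorem A2_dl_empty (x : X) : dl F2 F2' x ∅ = 0 := by
  unfold dl
  rw [prs_small (F2 := F2) (x := x) (I := ∅) (by simp), prs_small (F2 := F2') (x := x) (I := ∅) (by simp)]
  simp

theorem A2_dl_single (x y : X) : dl F2 F2' x {y} = 0 := by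
  unfold dl
  rw [prs_small (F2 := F2) (x := x) (I := {y}) (by simp), prs_small (F2 := F2') (x := x) (I := {y}) (by simp)]
  simp

theorem A2_dl_c (h : CA d adj F2 F2' a b c) : dl F2 F2' c (nbr adj c) = 0 := by
  have hca : ¬ adj c a := fun h1 => h.ac (h.s.symm _ _ h1)
  have hcb : ¬ adj c b := fun h1 => h.bc (h.s.symm _ _ h1)
  have hcc : ¬ adj c c := h.s.irrefl c
  rw [dl_full h.toPr c, if_neg hca, if_neg hcb, if_neg hcc]
  simp

/-- A2: members containing `c` only -/
theorem caC (h : CA d adj F2 F2' a b c) {R : Finset X} (hR : F2 R) (hc : c ∈ R) (ha : a ∉ R) (hb : b ∉ R) : F2' R := by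
  obtain ⟨s, hs, hsa, hsb, hsc, hsy, hsd⟩ := ex_simple h.toPr hR (Or.inl ha) c (Or.inr (Or.inr rfl))
  refine face_class h.toPr hR (p := a) (q := b) (y := c) (s := s) (Or.inr h.ab) ha hb hc hs hsc hsd ?_
  intro r _ hf _ _ hl
  unfold SS
  rw [inn_fst hf, inn_snd h.s hf h.ab, inn_lst h.s hl, A2_dl_c h, A2_dl_empty, A2_dl_single, caD h]
  norm_num

/-- A3: members containing `a` and `b` but not `c` -/
theorem caAB (h : CA d adj F2 F2' a b c) {R : Finset X} (hR : F2 R) (ha : a ∈ R) (hb : b ∈ R) (hc : c ∉ R) : F2' R := by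
  obtain ⟨s, hs, hsa, hsb, hsc, hsy, hsd⟩ := ex_simple h.toPr hR (Or.inr (Or.inr (Or.inl hc))) a
    (Or.inl rfl)
  refine face_class h.toPr hR (p := c) (q := c) (y := a) (s := s) (Or.inl rfl) hc hc ha hs hsa hsd ?_
  intro r hg hf hfin hfs hl
  have hba : adj b a := h.s.symm _ _ h.ab
  obtain ⟨u, _, _, hu3, hu4⟩ := inn_mid h.s hg hR hfin hs ha hfs hl hb (Ne.symm hsb) (Ne.symm h.hab)
  have hua : u = a := hu4 hba
  rw [hua] at hu3
  have hcomm : dg F2 F2' a b = dg F2 F2' b a := by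
    unfold dg
    rw [dg2_comm F2 a b, dg2_comm F2' a b]
  unfold SS
  rw [inn_fst hf, inn_lst h.s hl, hu3, A2_dl_empty, dl_erase h.toPr hba, dl_full h.toPr a,
    dl_full h.toPr b, if_neg (h.s.irrefl a), if_pos h.ab, if_neg h.ac, if_pos hba,
    if_neg (h.s.irrefl b), if_neg h.bc, caD h, hcomm]
  ring

end Pool.Agent.LibPol19
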