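import Mathlib
import Pool.Agent.LibPol19.Defs

/-! Row C12.
D = E \ E', D' = E' \ E; for every u the number of w with (u,w) ∈ D equals the number with (u,w) ∈ D'. pairs_one: if D is empty then all counts for D' are 0, E = E'. Otherwise D = {(p,q),(q,p)}: counts 1 at p and q, 0 elsewhere; D' symmetric, irreflexive with the same counts: (p, w) ∈ D' → w has count ≥ 1 → w ∈ {p, q}, w ≠ p → w = q:
(p,q) ∈ D ∩ D': contradiction. pairs_star: for u ≠ p: all (u,w) ∈ D have w = p (else u = p), so count_D u = [ (u,p) ∈ D ], same for D', so (u,p) ∈ D ↔ (u,p) ∈ D', but D ∩ D' = ∅: so none; (p, u) by symmetry. Hence D = D' = ∅.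
-/

set_option autoImplicit false

namespace Pool.Agent.LibPol19

open Finset
open scoped Classical

variable {X : Type*} [Fintype X]
variable {d : ℕ} {adj : X → X → Prop} {F2 F2' Fc Fc' : Finset X → Prop} {a b c : X}

theorem C12_aux {E E' : Finset (X × X)} {u : X}
    (hdeg : (univ.filter fun w => (u, w) ∈ E).card = (univ.filter fun w => (u, w) ∈ E').card)
    (h : ∃ w, (u, w) ∈ E' ∧ (u, w) ∉ E) : ∃ w, (u, w) ∈ E ∧ (u, w) ∉ E' := by
  by_contra hcon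
  push Not at hcon
  have h1 : (univ.filter fun w => (u, w) ∈ E) ⊆ (univ.filter fun w => (u, w) ∈ E') := by
    intro w hw
    rw [mem_filter] at hw ⊢
    exact ⟨mem_univ w, hcon w hw.2⟩
  have h2 := eq_of_subset_of_card_le h1 hdeg.ge
  obtain ⟨w, hw, hw'⟩ := h
  have h3 : w ∈ (univ.filter fun w => (u, w) ∈ E) := by
    rw [h2, mem_filter]
    exact ⟨mem_univ w, hw⟩
  exact hw' (mem_filter.1 h3).2

/-- C11: finite sets of pairs with equal degrees -/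
theorem pairs_one {E E' : Finset (X × X)} (hE : ∀ u w, (u, w) ∈ E → (w, u) ∈ E ∧ u ≠ w)
    (hE' : ∀ u w, (u, w) ∈ E' → (w, u) ∈ E' ∧ u ≠ w)
    (hdeg : ∀ u, (univ.filter fun w => (u, w) ∈ E).card = (univ.filter fun w => (u, w) ∈ E').card)
    (p q : X) (hone : ∀ u w, (u, w) ∈ E → (u, w) ∉ E' → (u = p ∧ w = q) ∨ (u = q ∧ w = p)) : E = E' := by
  by_cases hex : ∃ u w, (u, w) ∈ E ∧ (u, w) ∉ E'
  · exfalso
    obtain ⟨u, w, h1, h2⟩ := hex
    have hpq : (p, q) ∈ E ∧ (p, q) ∉ E' := by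
      rcases hone u w h1 h2 with ⟨rfl, rfl⟩ | ⟨rfl, rfl⟩
      · exact ⟨h1, h2⟩
      · exact ⟨(hE _ _ h1).1, fun h3 => h2 (hE' _ _ h3).1⟩
    obtain ⟨z, hz, hz'⟩ := C12_aux (hdeg p).symm ⟨q, hpq⟩
    have hz1 : (z, p) ∈ E' := (hE' _ _ hz).1
    have hz2 : (z, p) ∉ E := fun h3 => hz' (hE _ _ h3).1
    obtain ⟨y, hy, hy'⟩ := C12_aux (hdeg z) ⟨p, hz1, hz2⟩
    rcases hone z y hy hy' with h3 | h3
    · exact (hE' _ _ hz).2 h3.1.symm
    · rw [h3.1] at hz'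
      exact hz' hpq.1
  · push Not at hex
    ext ⟨u, w⟩
    refine ⟨hex u w, fun h => ?_⟩
    by_contra h'
    obtain ⟨y, hy, hy'⟩ := C12_aux (hdeg u) ⟨w, h, h'⟩
    exact hy' (hex u y hy)

theorem pairs_star {E E' : Finset (X × X)} (hE : ∀ u w, (u, w) ∈ E → (w, u) ∈ E ∧ u ≠ w)
    (hE' : ∀ u w, (u, w) ∈ E' → (w, u) ∈ E' ∧ u ≠ w) (p : X)
    (hdeg : ∀ u, u ≠ p → (univ.filter fun w => (u, w) ∈ E).card = (univ.filter fun w => (u, w) ∈ E').card)
    (h1 : ∀ u w, (u, w) ∈ E → (u, w) ∉ E' → u = p ∨ w = p)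
    (h2 : ∀ u w, (u, w) ∈ E' → (u, w) ∉ E → u = p ∨ w = p) : E = E' := by
  have key : ∀ {A A' : Finset (X × X)}, (∀ u w, (u, w) ∈ A → (w, u) ∈ A ∧ u ≠ w) →
      (∀ u w, (u, w) ∈ A' → (w, u) ∈ A' ∧ u ≠ w) →
      (∀ u, u ≠ p → (univ.filter fun w => (u, w) ∈ A).card = (univ.filter fun w => (u, w) ∈ A').card) →
      (∀ u w, (u, w) ∈ A → (u, w) ∉ A' → u = p ∨ w = p) →
      (∀ u w, (u, w) ∈ A' → (u, w) ∉ A → u = p ∨ w = p) → ∀ u w, (u, w) ∈ A → (u, w) ∈ A' := by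
    intro A A' hA hA' hd k1 k2
    have hp : ∀ u, u ≠ p → (u, p) ∈ A → (u, p) ∈ A' := by
      intro u hu hup
      by_contra hcon
      obtain ⟨w, hw, hw'⟩ := C12_aux (hd u hu).symm ⟨p, hup, hcon⟩
      rcases k2 u w hw hw' with h3 | h3
      · exact hu h3
      · rw [h3] at hw'
        exact hw' hup
    intro u w huw
    by_contra hcon
    rcases k1 u w huw hcon with h3 | h3
    · have h4 := hA u w huw
      rw [h3] at h4 hcon
      exact hcon (hA' _ _ (hp w (Ne.symm h4.2) h4.1)).1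
    · rw [h3] at huw hcon
      exact hcon (hp u (hA _ _ huw).2 huw)
  ext ⟨u, w⟩
  exact ⟨key hE hE' hdeg h1 h2 u w, key hE' hE (fun u hu => (hdeg u hu).symm) h2 h1 u w⟩

end Pool.Agent.LibPol19
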