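import Mathlib
import Pool.Agent.LibPol19.Defs
import Pool.Agent.LibPol19.C04
import Pool.Agent.LibPol19.C05

/-! Row C13.
prs_deg: if adj x u the two counts are dg2 F2 x u and dg2 F2' x u (dg2_eq; (u,w) ∈ prs .. implies w ∈ nbr x), equal since dg = 0; if ¬ adj x u both are 0. dl_zero: (u,w) ∈ prs F2 x I ↔ (u,w) ∈ prs F2 x (nbr x) and u, w ∈ I.
-/

set_option autoImplicit false

namespace Pool.Agent.LibPol19

open Finset
open scoped Classical

variable {X : Type*} [Fintype X]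
variable {d : ℕ} {adj : X → X → Prop} {F2 F2' Fc Fc' : Finset X → Prop} {a b c : X}


theorem C13_mem {F : Finset X → Prop} {x : X} {I : Finset X} {u w : X} :
    (u, w) ∈ prs F x I ↔ (u ∈ I ∧ w ∈ I ∧ u ≠ w) ∧ ∃ R, F R ∧ x ∈ R ∧ u ∈ R ∧ w ∈ R := by
  unfold prs
  rw [mem_filter, mem_offDiag]

theorem C13_cnt {F : Finset X → Prop} (h : IsSys d adj F) {x u : X} (hu : adj x u) :
    (univ.filter fun w => (u, w) ∈ prs F x (nbr adj x)).card = dg2 F x u := by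
  rw [← dg2_eq h hu]
  congr 1
  ext w
  rw [mem_filter, mem_filter]
  exact ⟨fun h1 => ⟨(C13_mem.1 h1.2).1.2.1, h1.2⟩, fun h1 => ⟨mem_univ w, h1.2⟩⟩

theorem C13_emp {F : Finset X → Prop} {x u : X} (hu : ¬ adj x u) :
    (univ.filter fun w => (u, w) ∈ prs F x (nbr adj x)).card = 0 := by
  rw [card_eq_zero, filter_eq_empty_iff]
  intro w _ h1
  have h2 := (C13_mem.1 h1).1.1
  unfold nbr at h2
  exact hu (mem_filter.1 h2).2

theorem prs_deg (h : Pr d adj F2 F2' a b c) {x : X} (u : X) (hu : adj x u → dg F2 F2' x u = 0) :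
    (univ.filter fun w => (u, w) ∈ prs F2 x (nbr adj x)).card = (univ.filter fun w => (u, w) ∈ prs F2' x (nbr adj x)).card := by
  by_cases hxu : adj x u
  · rw [C13_cnt h.s hxu, C13_cnt h.s' hxu]
    have h1 := hu hxu
    unfold dg at h1
    omega
  · rw [C13_emp hxu, C13_emp hxu]

theorem dl_zero {x : X} (h : prs F2 x (nbr adj x) = prs F2' x (nbr adj x)) {I : Finset X} (hI : I ⊆ nbr adj x) :
    dl F2 F2' x I = 0 := by
  have h1 : prs F2 x I = prs F2' x I := by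
    ext ⟨u, w⟩
    have h2 : (u, w) ∈ prs F2 x (nbr adj x) ↔ (u, w) ∈ prs F2' x (nbr adj x) := by rw [h]
    rw [C13_mem, C13_mem] at h2 ⊢
    constructor
    · rintro ⟨h3, h4⟩
      exact ⟨h3, (h2.1 ⟨⟨hI h3.1, hI h3.2.1, h3.2.2⟩, h4⟩).2⟩
    · rintro ⟨h3, h4⟩
      exact ⟨h3, (h2.2 ⟨⟨hI h3.1, hI h3.2.1, h3.2.2⟩, h4⟩).2⟩
  unfold dl
  rw [h1, sub_self]

end Pool.Agent.LibPol19
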