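import Mathlib
import Pool.Agent.LibPol19.Defs
import Pool.Agent.LibPol19.A1
import Pool.Agent.LibPol19.A2
import Pool.Agent.LibPol19.C01
import Pool.Agent.LibPol19.C04
import Pool.Agent.LibPol19.C06
import Pool.Agent.LibPol19.C07
import Pool.Agent.LibPol19.C08
import Pool.Agent.LibPol19.C12
import Pool.Agent.LibPol19.C13
import Pool.Agent.LibPol19.C14
import Pool.Agent.LibPol19.C15

/-! Row A4.
For a hub h ∈ {a, b} and R, R' ∈ F2 with c, h in both: R = R' (inter, c and h not adjacent). T(F2) := ∃ R ∈ F2 containing a, b, c. (1) If T(F2): every R ∈ F2 with c ∈ R and (a ∈ R or b ∈ R) is this R0, so every pair in prs F2 c \ prs F2' c comes from R0 (caC), i.e. is one of the two orders of the two R0-neighbours p, q of c: pairs_one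
(degrees by prs_deg: for u ∈ nbr c, u is simple since c is adjacent to no hub: dg_simple). (2) If T(F2'): the same with the systems exchanged (CA.swap), then symmetry of =. (3) Neither: then dg a b = 0: the members of fam F2 containing a, b do not contain c, so they are the same for F2 and F2' (caAB and its swap), dg2 F2 a b = dg2 F2' a b. Now every R ∈ F2
with c ∈ R is in F2': if a, b ∉ R: caC. If a ∈ R (then b ∉ R): face_class with p = q = b, y = c, s from ex_simple: inn b = ∅, inn c = nbr c (dl = 0 by dl_full), inn a = (nbr a).erase u with u ∈ R adjacent to a, u ≠ c (¬ adj a c) and u ≠ b, u ≠ a so u is simple: dl a = dl a (nbr a) - 2 dg a u = dg a b - 0 = 0 (dl_full, dl_erase, dg_simple).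
If b ∈ R: same with CA.flip. By swap F2 and F2' have the same members containing c, hence the same pairs.
-/

set_option autoImplicit false

namespace Pool.Agent.LibPol19

open Finset
open scoped Classical

variable {X : Type*} [Fintype X]
variable {d : ℕ} {adj : X → X → Prop} {F2 F2' Fc Fc' : Finset X → Prop} {a b c : X}


theorem A4_dl_empty (x : X) : dl F2 F2' x ∅ = 0 := by
  unfold dl
  rw [prs_small (F2 := F2) (x := x) (I := ∅) (by simp), prs_small (F2 := F2') (x := x) (I := ∅) (by simp)]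
  simp

theorem A4_mem {x u w : X} : (u, w) ∈ prs F2 x (nbr adj x) ↔
    (adj x u ∧ adj x w ∧ u ≠ w) ∧ ∃ R, F2 R ∧ x ∈ R ∧ u ∈ R ∧ w ∈ R := by
  unfold prs nbr
  rw [Finset.mem_filter, Finset.mem_offDiag, Finset.mem_filter, Finset.mem_filter]
  simp only [Finset.mem_univ, true_and]

theorem A4_dl_c (h : CA d adj F2 F2' a b c) : dl F2 F2' c (nbr adj c) = 0 := by
  have hca : ¬ adj c a := fun h1 => h.ac (h.s.symm _ _ h1)
  have hcb : ¬ adj c b := fun h1 => h.bc (h.s.symm _ _ h1)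
  have hcc : ¬ adj c c := h.s.irrefl c
  rw [dl_full h.toPr c, if_neg hca, if_neg hcb, if_neg hcc]
  simp

theorem A4_one (h : CA d adj F2 F2' a b c) (hT : ∃ R, F2 R ∧ a ∈ R ∧ b ∈ R ∧ c ∈ R) :
    prs F2 c (nbr adj c) = prs F2' c (nbr adj c) := by
  have hca : ¬ adj c a := fun h1 => h.ac (h.s.symm _ _ h1)
  have hcb : ¬ adj c b := fun h1 => h.bc (h.s.symm _ _ h1)
  obtain ⟨R0, hR0, ha0, hb0, hc0⟩ := hT
  obtain ⟨p, q, hpq, hset⟩ := Finset.card_eq_two.1 (h.s.two R0 hR0 c hc0)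
  refine pairs_one (fun u w h1 => prs_symm u w h1) (fun u w h1 => prs_symm u w h1)
    (fun u => prs_deg h.toPr u (fun hu => dg_simple h.toPr hu (h.hub u ?_ ?_ ?_))) p q ?_
  · rintro rfl
    exact hca hu
  · rintro rfl
    exact hcb hu
  · rintro rfl
    exact h.s.irrefl _ hu
  · intro u w h1 h2
    obtain ⟨⟨hu, hw, huw⟩, R, hR, hcR, huR, hwR⟩ := A4_mem.1 h1
    have hRR : R = R0 := by
      by_contra hne
      have haR : a ∉ R := fun h3 =>
        hca (h.s.inter R R0 hR hR0 hne c a hcR hc0 h3 ha0 (Ne.symm h.hac)).1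
      have hbR : b ∉ R := fun h3 =>
        hcb (h.s.inter R R0 hR hR0 hne c b hcR hc0 h3 hb0 (Ne.symm h.hbc)).1
      exact h2 (A4_mem.2 ⟨⟨hu, hw, huw⟩, R, caC h hR hcR haR hbR, hcR, huR, hwR⟩)
    rw [hRR] at huR hwR
    have hu1 : u ∈ ({p, q} : Finset X) := by
      rw [← hset]
      exact Finset.mem_filter.2 ⟨huR, hu⟩
    have hw1 : w ∈ ({p, q} : Finset X) := by
      rw [← hset]
      exact Finset.mem_filter.2 ⟨hwR, hw⟩
    rw [Finset.mem_insert, Finset.mem_singleton] at hu1 hw1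
    rcases hu1 with hu1 | hu1 <;> rcases hw1 with hw1 | hw1
    · exact absurd (hu1.trans hw1.symm) huw
    · exact Or.inl ⟨hu1, hw1⟩
    · exact Or.inr ⟨hu1, hw1⟩
    · exact absurd (hu1.trans hw1.symm) huw

theorem A4_dg (h : CA d adj F2 F2' a b c) (hT : ¬ ∃ R, F2 R ∧ a ∈ R ∧ b ∈ R ∧ c ∈ R)
    (hT' : ¬ ∃ R, F2' R ∧ a ∈ R ∧ b ∈ R ∧ c ∈ R) : dg F2 F2' a b = 0 := by
  unfold dg dg2 fam
  have h1 : ((univ.filter F2).filter fun R => a ∈ R ∧ b ∈ R) =
      ((univ.filter F2').filter fun R => a ∈ R ∧ b ∈ R) := by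
    ext R
    rw [Finset.mem_filter, Finset.mem_filter, Finset.mem_filter, Finset.mem_filter]
    constructor
    · rintro ⟨⟨_, h2⟩, h3, h4⟩
      exact ⟨⟨Finset.mem_univ _, caAB h h2 h3 h4 (fun h5 => hT ⟨R, h2, h3, h4, h5⟩)⟩, h3, h4⟩
    · rintro ⟨⟨_, h2⟩, h3, h4⟩
      exact ⟨⟨Finset.mem_univ _, caAB h.swap h2 h3 h4 (fun h5 => hT' ⟨R, h2, h3, h4, h5⟩)⟩, h3, h4⟩
  rw [h1, sub_self]

theorem A4_sub (h : CA d adj F2 F2' a b c) (hT : ¬ ∃ R, F2 R ∧ a ∈ R ∧ b ∈ R ∧ c ∈ R)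
    (hT' : ¬ ∃ R, F2' R ∧ a ∈ R ∧ b ∈ R ∧ c ∈ R) {R : Finset X} (hR : F2 R) (hc : c ∈ R)
    (ha : a ∈ R) : F2' R := by
  have hb : b ∉ R := fun h1 => hT ⟨R, hR, ha, h1, hc⟩
  obtain ⟨s, hs, hsa, hsb, hsc, hsy, hsd⟩ := ex_simple h.toPr hR (Or.inr (Or.inl hb)) c
    (Or.inr (Or.inr rfl))
  refine face_class h.toPr hR (p := b) (q := b) (y := c) (s := s) (Or.inl rfl) hb hb hc hs hsc hsd ?_
  intro r hg hf hfin hfs hl
  obtain ⟨u, hu1, hu2, hu3, _⟩ := inn_mid h.s hg hR hfin hs hc hfs hl ha (Ne.symm hsa) h.hac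
  have hu : dg F2 F2' a u = 0 := by
    refine dg_simple h.toPr hu2 (h.hub u ?_ ?_ ?_)
    · rintro rfl
      exact h.s.irrefl _ hu2
    · rintro rfl
      exact hb hu1
    · rintro rfl
      exact h.ac hu2
  unfold SS
  rw [inn_fst hf, inn_lst h.s hl, hu3, A4_dl_empty, A4_dl_c h, dl_erase h.toPr hu2, hu,
    dl_full h.toPr a, if_neg (h.s.irrefl a), if_pos h.ab, if_neg h.ac, A4_dg h hT hT', caD h]
  norm_num

theorem A4_two (h : CA d adj F2 F2' a b c) (hT : ¬ ∃ R, F2 R ∧ a ∈ R ∧ b ∈ R ∧ c ∈ R)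
    (hT' : ¬ ∃ R, F2' R ∧ a ∈ R ∧ b ∈ R ∧ c ∈ R) {R : Finset X} (hR : F2 R) (hc : c ∈ R) :
    F2' R := by
  by_cases ha : a ∈ R
  · exact A4_sub h hT hT' hR hc ha
  · by_cases hb : b ∈ R
    · refine A4_sub h.flip ?_ ?_ hR hc hb
      · rintro ⟨R', h1, h2, h3, h4⟩
        exact hT ⟨R', h1, h3, h2, h4⟩
      · rintro ⟨R', h1, h2, h3, h4⟩
        exact hT' ⟨R', h1, h3, h2, h4⟩
    · exact caC h hR hc ha hb

/-- A4: the pairs at `c` -/
theorem caE (h : CA d adj F2 F2' a b c) : prs F2 c (nbr adj c) = prs F2' c (nbr adj c) := by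
  by_cases hT : ∃ R, F2 R ∧ a ∈ R ∧ b ∈ R ∧ c ∈ R
  · exact A4_one h hT
  by_cases hT' : ∃ R, F2' R ∧ a ∈ R ∧ b ∈ R ∧ c ∈ R
  · exact (A4_one h.swap hT').symm
  ext ⟨u, w⟩
  rw [A4_mem, A4_mem]
  constructor
  · rintro ⟨h1, R, hR, h2, h3, h4⟩
    exact ⟨h1, R, A4_two h hT hT' hR h2, h2, h3, h4⟩
  · rintro ⟨h1, R, hR, h2, h3, h4⟩
    exact ⟨h1, R, A4_two h.swap hT' hT hR h2, h2, h3, h4⟩

end Pool.Agent.LibPol19
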