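import Mathlib
import Pool.Agent.LibPol19.Defs
import Pool.Agent.LibPol19.A1
import Pool.Agent.LibPol19.A4
import Pool.Agent.LibPol19.C04
import Pool.Agent.LibPol19.C06
import Pool.Agent.LibPol19.C08
import Pool.Agent.LibPol19.C12
import Pool.Agent.LibPol19.C13
import Pool.Agent.LibPol19.C14
import Pool.Agent.LibPol19.C15

/-! Row A5.
dl c I = 0 for I ⊆ nbr c (caE, dl_zero). point_class p = q = a, y = b, σ = dg b a: SS = 0 + dl b (nbr b) + 0 = dg b a (dl_full; b adjacent only to the hub a), so dg b a = 2 DD = 0 (caD). Members R ∈ F2 with b ∈ R, a ∉ R are in F2': face_class p = q = a, y = b, s from ex_simple with y = b: SS = 0 + dl b (nbr b) + 0 = 0. Also for the swap.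
So every pair (u, w) in prs F2 b \ prs F2' b comes from an R containing a, i.e. R ∋ b, u, w, a with a a neighbour of b in R: u = a or w = a (two: the R-neighbours of b are u, w). pairs_star with p = a; degrees prs_deg: for u ≠ a, adj b u → u simple (u ≠ c since ¬ adj b c) → dg_simple.
-/

set_option autoImplicit false

namespace Pool.Agent.LibPol19

open Finset
open scoped Classical

variable {X : Type*} [Fintype X]
variable {d : ℕ} {adj : X → X → Prop} {F2 F2' Fc Fc' : Finset X → Prop} {a b c : X}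


theorem A5_dl_empty (x : X) : dl F2 F2' x ∅ = 0 := by
  unfold dl
  rw [prs_small (F2 := F2) (x := x) (I := ∅) (by simp), prs_small (F2 := F2') (x := x) (I := ∅) (by simp)]
  simp

theorem A5_mem {x u w : X} : (u, w) ∈ prs F2 x (nbr adj x) ↔
    (adj x u ∧ adj x w ∧ u ≠ w) ∧ ∃ R, F2 R ∧ x ∈ R ∧ u ∈ R ∧ w ∈ R := by
  unfold prs nbr
  rw [Finset.mem_filter, Finset.mem_offDiag, Finset.mem_filter, Finset.mem_filter]
  simp only [Finset.mem_univ, true_and]

theorem A5_SS (h : CA d adj F2 F2' a b c) {r : X → ℕ} (hf : Fst r a a) (hl : Lst r b) :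
    SS adj F2 F2' a b c r = dg F2 F2' b a := by
  unfold SS
  rw [inn_fst hf, inn_lst h.s hl, A5_dl_empty, dl_full h.toPr b, if_pos (h.s.symm _ _ h.ab),
    if_neg (h.s.irrefl b), if_neg h.bc,
    dl_zero (caE h) (show inn adj r c ⊆ nbr adj c from Finset.filter_subset _ _)]
  ring

theorem A5_dg (h : CA d adj F2 F2' a b c) : dg F2 F2' b a = 0 := by
  have key := point_class h.toPr (p := a) (q := a) (y := b) (Or.inl rfl) (Ne.symm h.hab)
    (Ne.symm h.hab) (dg F2 F2' b a) (fun r _ hf hl => A5_SS h hf hl)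
  rw [key, caD h, mul_zero]

theorem A5_sub (h : CA d adj F2 F2' a b c) {R : Finset X} (hR : F2 R) (hb : b ∈ R) (ha : a ∉ R) :
    F2' R := by
  obtain ⟨s, hs, hsa, hsb, hsc, hsy, hsd⟩ := ex_simple h.toPr hR (Or.inl ha) b (Or.inr (Or.inl rfl))
  refine face_class h.toPr hR (p := a) (q := a) (y := b) (s := s) (Or.inl rfl) ha ha hb hs hsb hsd ?_
  intro r _ hf _ _ hl
  rw [A5_SS h hf hl, A5_dg h, caD h, mul_zero]

theorem A5_star (h : CA d adj F2 F2' a b c) (u w : X) (h1 : (u, w) ∈ prs F2 b (nbr adj b))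
    (h2 : (u, w) ∉ prs F2' b (nbr adj b)) : u = a ∨ w = a := by
  obtain ⟨⟨hu, hw, huw⟩, R, hR, hbR, huR, hwR⟩ := A5_mem.1 h1
  have haR : a ∈ R := by
    by_contra ha
    exact h2 (A5_mem.2 ⟨⟨hu, hw, huw⟩, R, A5_sub h hR hbR ha, hbR, huR, hwR⟩)
  have hcard := h.s.two R hR b hbR
  have hsub : ({u, w} : Finset X) ⊆ R.filter fun z => adj b z := by
    intro z hz
    rw [Finset.mem_insert, Finset.mem_singleton] at hz
    rcases hz with rfl | rfl
    · exact Finset.mem_filter.2 ⟨huR, hu⟩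
    · exact Finset.mem_filter.2 ⟨hwR, hw⟩
  have heq : ({u, w} : Finset X) = R.filter fun z => adj b z := by
    apply Finset.eq_of_subset_of_card_le hsub
    rw [hcard, Finset.card_pair huw]
  have ha1 : a ∈ ({u, w} : Finset X) := by
    rw [heq]
    exact Finset.mem_filter.2 ⟨haR, h.s.symm _ _ h.ab⟩
  rw [Finset.mem_insert, Finset.mem_singleton] at ha1
  rcases ha1 with h3 | h3
  · exact Or.inl h3.symm
  · exact Or.inr h3.symm

/-- A5: the pairs at `b` -/
theorem caEb (h : CA d adj F2 F2' a b c) : prs F2 b (nbr adj b) = prs F2' b (nbr adj b) := by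
  refine pairs_star (fun u w h1 => prs_symm u w h1) (fun u w h1 => prs_symm u w h1) a
    (fun u hua => prs_deg h.toPr u (fun hu => dg_simple h.toPr hu (h.hub u hua ?_ ?_)))
    (A5_star h) (A5_star h.swap)
  · rintro rfl
    exact h.s.irrefl _ hu
  · rintro rfl
    exact h.bc hu

end Pool.Agent.LibPol19
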