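import Mathlib
import Pool.Agent.LibPol19.Defs
import Pool.Agent.LibPol19.C04
import Pool.Agent.LibPol19.C06
import Pool.Agent.LibPol19.C08
import Pool.Agent.LibPol19.C15

/-! Row B1.
flip exchanges a and c (symm of IsSys). cbD: point_class p = a, q = b, y = c: SS = 0 + 0 + dl c (nbr c) = dg c b, so dg c b = 2 DD; p = c, q = b, y = a: dg a b = 2 DD; dg2_comm for dg b c = dg c b.
-/

set_option autoImplicit false

namespace Pool.Agent.LibPol19

open Finset
open scoped Classical

variable {X : Type*} [Fintype X]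
variable {d : ℕ} {adj : X → X → Prop} {F2 F2' Fc Fc' : Finset X → Prop} {a b c : X}


theorem CB.swap (h : CB d adj F2 F2' a b c) : CB d adj F2' F2 a b c :=
  { toPr := h.toPr.swap, ab := h.ab, bc := h.bc, ac := h.ac }

theorem CB.flip (h : CB d adj F2 F2' a b c) : CB d adj F2 F2' c b a :=
  { toPr := h.toPr.rev
    ab := h.s.symm _ _ h.bc
    bc := h.s.symm _ _ h.ab
    ac := fun h1 => h.ac (h.s.symm _ _ h1) }

theorem B1_aux (h : CB d adj F2 F2' a b c) : dg F2 F2' c b = 2 * DD F2 F2' := by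
  refine point_class h.toPr (p := a) (q := b) (y := c) (Or.inr h.ab) (Ne.symm h.hac) (Ne.symm h.hbc) _ ?_
  intro r _ hf hl
  unfold SS
  rw [inn_fst hf, inn_snd h.s hf h.ab, inn_lst h.s hl, dl_full h.toPr c, if_neg (fun h1 => h.ac (h.s.symm _ _ h1)),
    if_pos (h.s.symm _ _ h.bc), if_neg (h.s.irrefl c)]
  unfold dl
  rw [prs_small (F2 := F2) (x := a) (I := ∅) (by simp), prs_small (F2 := F2') (x := a) (I := ∅) (by simp),
    prs_small (F2 := F2) (x := b) (I := {a}) (by simp), prs_small (F2 := F2') (x := b) (I := {a}) (by simp)]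
  simp

/-- B1 -/
theorem cbD (h : CB d adj F2 F2' a b c) : dg F2 F2' b c = 2 * DD F2 F2' ∧ dg F2 F2' a b = 2 * DD F2 F2' := by
  refine ⟨?_, B1_aux h.flip⟩
  have h1 := B1_aux h
  have h2 : dg F2 F2' b c = dg F2 F2' c b := by
    unfold dg
    rw [dg2_comm F2 b c, dg2_comm F2' b c]
  rw [h2, h1]

end Pool.Agent.LibPol19
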