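import Mathlib
import Pool.Agent.LibPol19.Defs
import Pool.Agent.LibPol19.B1
import Pool.Agent.LibPol19.C01
import Pool.Agent.LibPol19.C04
import Pool.Agent.LibPol19.C06
import Pool.Agent.LibPol19.C07
import Pool.Agent.LibPol19.C08
import Pool.Agent.LibPol19.C14
import Pool.Agent.LibPol19.C15

/-! Row B2.
cbBC: face_class p = q = a, y = c, s from ex_simple: inn a = ∅; inn c = nbr c: dl = dg c b; b in the middle, adj b c so inn b = (nbr b).erase c: dl = (dg b a + dg b c) - 2 dg b c. Sum = dg c b + dg b a - dg b c = dg b a = 2 DD (cbD, dg2_comm). cbZ: the members of fam F2 containing b and c: those without a are the same for F2 and F2'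
(cbBC and swap); those with a: at most one in each system (a, c ∈ R not adjacent: inter), so dg b c = T - T' with T, T' ∈ {0, 1}; 2 DD = T - T' forces T = T' (parity, omega), DD = 0.
-/

set_option autoImplicit false

namespace Pool.Agent.LibPol19

open Finset
open scoped Classical

variable {X : Type*} [Fintype X]
variable {d : ℕ} {adj : X → X → Prop} {F2 F2' Fc Fc' : Finset X → Prop} {a b c : X}


theorem B2_small {x : X} {I : Finset X} (hI : I.card ≤ 1) : dl F2 F2' x I = 0 := by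
  rw [dl, prs_small hI, prs_small hI]
  simp

theorem B2_comm (x u : X) : dg F2 F2' x u = dg F2 F2' u x := by
  rw [dg, dg, dg2_comm F2 x u, dg2_comm F2' x u]

/-- B2: members containing `b` and `c` but not `a` -/
theorem cbBC (h : CB d adj F2 F2' a b c) {R : Finset X} (hR : F2 R) (hb : b ∈ R) (hc : c ∈ R) (ha : a ∉ R) : F2' R := by
  obtain ⟨s, hs, hsa, hsb, hsc, -, hsimple⟩ := ex_simple h.toPr hR (Or.inl ha) c (Or.inr (Or.inr rfl))
  refine face_class h.toPr hR (p := a) (q := a) (y := c) (Or.inl rfl) ha ha hc hs hsc hsimple ?_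
  intro r hG hFst hFin hFI hL
  obtain ⟨u, -, hbu, hinn, hu⟩ := inn_mid h.s hG hR hFin hs hc hFI hL hb (Ne.symm hsb) h.hbc
  obtain rfl := hu h.bc
  obtain ⟨h1, h2⟩ := cbD h
  have e1 : dl F2 F2' a (inn adj r a) = 0 := by
    rw [inn_fst hFst]
    exact B2_small (by simp)
  have e2 : dl F2 F2' b (inn adj r b) = 0 := by
    rw [hinn, dl_erase h.toPr hbu, dl_full h.toPr b, if_pos (h.s.symm _ _ h.ab), if_neg (h.s.irrefl b),
      if_pos h.bc, B2_comm b a, h1, h2]
    ring
  have e3 : dl F2 F2' u (nbr adj u) = 2 * DD F2 F2' := by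
    rw [dl_full h.toPr u, if_neg fun h' => h.ac (h.s.symm _ _ h'), if_pos (h.s.symm _ _ h.bc),
      if_neg (h.s.irrefl u), B2_comm u b, h1]
    ring
  rw [SS, e1, e2, inn_lst h.s hL, e3]
  ring

theorem B2_one (hs : IsSys d adj F2) (hac : a ≠ c) (hn : ¬ adj a c) :
    (((fam F2).filter fun R => b ∈ R ∧ c ∈ R).filter fun R => a ∈ R).card ≤ 1 := by
  rw [Finset.card_le_one]
  intro R hR R' hR'
  simp only [fam, Finset.mem_filter, Finset.mem_univ, true_and] at hR hR'
  by_contra hne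
  exact hn (hs.inter R R' hR.1.1 hR'.1.1 hne a c hR.2 hR'.2 hR.1.2.2 hR'.1.2.2 hac).1

/-- B3 -/
theorem cbZ (h : CB d adj F2 F2' a b c) : DD F2 F2' = 0 ∧ dg F2 F2' b c = 0 ∧ dg F2 F2' a b = 0 := by
  obtain ⟨h1, h2⟩ := cbD h
  have h3 : (((fam F2).filter fun R => b ∈ R ∧ c ∈ R).filter fun R => ¬ a ∈ R) =
      ((fam F2').filter fun R => b ∈ R ∧ c ∈ R).filter fun R => ¬ a ∈ R := by
    ext R
    simp only [fam, Finset.mem_filter, Finset.mem_univ, true_and]
    constructor
    · rintro ⟨⟨hR, hb, hc⟩, ha⟩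
      exact ⟨⟨cbBC h hR hb hc ha, hb, hc⟩, ha⟩
    · rintro ⟨⟨hR, hb, hc⟩, ha⟩
      exact ⟨⟨cbBC h.swap hR hb hc ha, hb, hc⟩, ha⟩
  have h4 := Finset.card_filter_add_card_filter_not (s := (fam F2).filter fun R => b ∈ R ∧ c ∈ R)
    (fun R => a ∈ R)
  have h5 := Finset.card_filter_add_card_filter_not (s := (fam F2').filter fun R => b ∈ R ∧ c ∈ R)
    (fun R => a ∈ R)
  rw [h3] at h4
  have h6 := B2_one (b := b) h.s h.hac h.ac
  have h7 := B2_one (b := b) h.s' h.hac h.ac
  have h8 : dg F2 F2' b c = (((fam F2).filter fun R => b ∈ R ∧ c ∈ R).card : ℤ) -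
      ((fam F2').filter fun R => b ∈ R ∧ c ∈ R).card := rfl
  omega

end Pool.Agent.LibPol19
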