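import Mathlib
import Pool.Agent.LibPol19.Defs
import Pool.Agent.LibPol19.B1
import Pool.Agent.LibPol19.B2
import Pool.Agent.LibPol19.C04
import Pool.Agent.LibPol19.C06
import Pool.Agent.LibPol19.C07
import Pool.Agent.LibPol19.C08
import Pool.Agent.LibPol19.C12
import Pool.Agent.LibPol19.C13
import Pool.Agent.LibPol19.C14
import Pool.Agent.LibPol19.C15

/-! Row B4.
All dg between hubs vanish, DD = 0. Members R ∈ F2 containing c are in F2' except possibly the one containing a, b, c: (i) a, b ∉ R: face_class p = a, q = b, y = c: SS = 0 + 0 + dl c (nbr c) = dg c b = 0. (ii) b ∈ R, a ∉ R: cbBC. (iii) a ∈ R, b ∉ R: face_class p = q = b, y = c: inn b = ∅, inn c = nbr c (0), a in the middle: inn a = (nbr a).erase u,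
u ≠ c (¬ adj a c), u ≠ b (b ∉ R) so u simple: dl a = dg a b - 2·0 = 0. (iv) a, b, c ∈ R: at most one such R0 (inter with a, c). So prs F2 c \ prs F2' c consists of the two orders of the pair of R0-neighbours of c: pairs_one; degrees (prs_deg): u ∈ nbr c is simple (dg_simple) or u = b (dg c b = 0); u = a is impossible.
-/

set_option autoImplicit false

namespace Pool.Agent.LibPol19

open Finset
open scoped Classical

variable {X : Type*} [Fintype X]
variable {d : ℕ} {adj : X → X → Prop} {F2 F2' Fc Fc' : Finset X → Prop} {a b c : X}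


/-- B4: members containing `c` but not both `a` and `b` -/
theorem B4_key (h : CB d adj F2 F2' a b c) {R : Finset X} (hR : F2 R) (hc : c ∈ R) (hn : ¬ (a ∈ R ∧ b ∈ R)) : F2' R := by
  have hs := h.s
  have hP := h.toPr
  obtain ⟨hDD, hbc, hab⟩ := cbZ h
  have hcb : dg F2 F2' c b = 0 := by
    have h1 : dg F2 F2' c b = dg F2 F2' b c := by
      unfold dg
      rw [dg2_comm F2 c b, dg2_comm F2' c b]
    rw [h1, hbc]
  have hca : ¬ adj c a := fun h1 => h.ac (hs.symm _ _ h1)
  have hdl0 : ∀ (x : X) (I : Finset X), I.card ≤ 1 → dl F2 F2' x I = 0 := by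
    intro x I hI
    unfold dl
    rw [prs_small hI, prs_small hI]
    simp
  have hdlc : dl F2 F2' c (nbr adj c) = 0 := by
    rw [dl_full hP, if_neg hca, if_neg (hs.irrefl c), hcb]
    simp
  have hdla : dl F2 F2' a (nbr adj a) = 0 := by
    rw [dl_full hP, if_neg (hs.irrefl a), if_neg h.ac, hab]
    simp
  by_cases ha : a ∈ R
  · have hb : b ∉ R := fun hb => hn ⟨ha, hb⟩
    obtain ⟨s, hsR, hsa, hsb, hsc, hsc', hss⟩ := ex_simple hP hR (Or.inr (Or.inl hb)) c (Or.inr (Or.inr rfl))
    refine face_class hP hR (p := b) (q := b) (y := c) (s := s) (Or.inl rfl) hb hb hc hsR hsc hss ?_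
    intro r hr hf hfin hfst hlst
    obtain ⟨u, huR, hau, hinn, huc⟩ := inn_mid hs hr hR hfin hsR hc hfst hlst ha (fun h1 => hsa h1.symm) h.hac
    have hu : (nbr adj u).card = d := by
      apply h.hub u
      · rintro rfl; exact hs.irrefl _ hau
      · rintro rfl; exact hb huR
      · rintro rfl; exact h.ac hau
    have h1 : dl F2 F2' a (inn adj r a) = 0 := by
      rw [hinn, dl_erase hP hau, hdla, dg_simple hP hau hu]
      simp
    have h2 : dl F2 F2' b (inn adj r b) = 0 := by
      rw [inn_fst hf]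
      exact hdl0 b ∅ (by simp)
    have h3 : dl F2 F2' c (inn adj r c) = 0 := by
      rw [inn_lst hs hlst, hdlc]
    unfold SS
    rw [h1, h2, h3, hDD]
    simp
  · by_cases hb : b ∈ R
    · exact cbBC h hR hb hc ha
    · obtain ⟨s, hsR, hsa, hsb, hsc, hsc', hss⟩ := ex_simple hP hR (Or.inl ha) c (Or.inr (Or.inr rfl))
      refine face_class hP hR (p := a) (q := b) (y := c) (s := s) (Or.inr h.ab) ha hb hc hsR hsc hss ?_
      intro r hr hf hfin hfst hlst
      have h1 : dl F2 F2' a (inn adj r a) = 0 := by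
        rw [inn_fst hf]
        exact hdl0 a ∅ (by simp)
      have h2 : dl F2 F2' b (inn adj r b) = 0 := by
        rw [inn_snd hs hf h.ab]
        exact hdl0 b {a} (by simp)
      have h3 : dl F2 F2' c (inn adj r c) = 0 := by
        rw [inn_lst hs hlst, hdlc]
      unfold SS
      rw [h1, h2, h3, hDD]
      simp

/-- B4: the pairs at `c` -/
theorem cbE (h : CB d adj F2 F2' a b c) : prs F2 c (nbr adj c) = prs F2' c (nbr adj c) := by
  have hs := h.s
  have hP := h.toPr
  obtain ⟨hDD, hbc, hab⟩ := cbZ h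
  have hcb : dg F2 F2' c b = 0 := by
    have h1 : dg F2 F2' c b = dg F2 F2' b c := by
      unfold dg
      rw [dg2_comm F2 c b, dg2_comm F2' c b]
    rw [h1, hbc]
  have hca : ¬ adj c a := fun h1 => h.ac (hs.symm _ _ h1)
  have hdeg : ∀ u, (univ.filter fun w => (u, w) ∈ prs F2 c (nbr adj c)).card =
      (univ.filter fun w => (u, w) ∈ prs F2' c (nbr adj c)).card := by
    intro u
    apply prs_deg hP u
    intro hu
    by_cases hub : u = b
    · rw [hub]; exact hcb
    · apply dg_simple hP hu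
      apply h.hub u
      · rintro rfl; exact hca hu
      · exact hub
      · rintro rfl; exact hs.irrefl _ hu
  have hmem : ∀ u w, (u, w) ∈ prs F2 c (nbr adj c) → (u, w) ∉ prs F2' c (nbr adj c) →
      ∃ R, F2 R ∧ c ∈ R ∧ a ∈ R ∧ b ∈ R ∧ u ∈ R ∧ w ∈ R ∧ adj c u ∧ adj c w ∧ u ≠ w := by
    intro u w h1 h2
    unfold prs at h1 h2
    rw [Finset.mem_filter] at h1 h2
    obtain ⟨h3, R, hR, hcR, huR, hwR⟩ := h1
    have h4 : ¬ F2' R := fun h5 => h2 ⟨h3, R, h5, hcR, huR, hwR⟩
    have h5 : a ∈ R ∧ b ∈ R := by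
      by_contra h6
      exact h4 (B4_key h hR hcR h6)
    rw [Finset.mem_offDiag] at h3
    have h6 : adj c u := (Finset.mem_filter.mp h3.1).2
    have h7 : adj c w := (Finset.mem_filter.mp h3.2.1).2
    exact ⟨R, hR, hcR, h5.1, h5.2, huR, hwR, h6, h7, h3.2.2⟩
  by_cases hex : ∃ R, F2 R ∧ c ∈ R ∧ a ∈ R ∧ b ∈ R
  · obtain ⟨R₀, hR₀, hcR₀, haR₀, hbR₀⟩ := hex
    obtain ⟨p, q, hpq, hpq'⟩ := Finset.card_eq_two.mp (hs.two R₀ hR₀ c hcR₀)
    refine pairs_one (fun u w h1 => prs_symm u w h1) (fun u w h1 => prs_symm u w h1) hdeg p q ?_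
    intro u w h1 h2
    obtain ⟨R, hR, hcR, haR, hbR, huR, hwR, hu, hw, huw⟩ := hmem u w h1 h2
    have hRR : R = R₀ := by
      by_contra hne
      exact h.ac (hs.inter R R₀ hR hR₀ hne a c haR haR₀ hcR hcR₀ h.hac).1
    rw [hRR] at huR hwR
    have hu' : u ∈ R₀.filter fun u => adj c u := Finset.mem_filter.mpr ⟨huR, hu⟩
    have hw' : w ∈ R₀.filter fun u => adj c u := Finset.mem_filter.mpr ⟨hwR, hw⟩
    rw [hpq', Finset.mem_insert, Finset.mem_singleton] at hu' hw'
    rcases hu' with hu' | hu' <;> rcases hw' with hw' | hw'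
    · exact absurd (hu'.trans hw'.symm) huw
    · exact Or.inl ⟨hu', hw'⟩
    · exact Or.inr ⟨hu', hw'⟩
    · exact absurd (hu'.trans hw'.symm) huw
  · refine pairs_one (fun u w h1 => prs_symm u w h1) (fun u w h1 => prs_symm u w h1) hdeg a a ?_
    intro u w h1 h2
    obtain ⟨R, hR, hcR, haR, hbR, _⟩ := hmem u w h1 h2
    exact absurd ⟨R, hR, hcR, haR, hbR⟩ hex

end Pool.Agent.LibPol19
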