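import Mathlib
import Pool.Agent.LibPol19.Defs
import Pool.Agent.LibPol19.B1
import Pool.Agent.LibPol19.B2
import Pool.Agent.LibPol19.B4
import Pool.Agent.LibPol19.C04
import Pool.Agent.LibPol19.C06
import Pool.Agent.LibPol19.C08
import Pool.Agent.LibPol19.C12
import Pool.Agent.LibPol19.C13
import Pool.Agent.LibPol19.C14
import Pool.Agent.LibPol19.C15

/-! Row B5.
Members R ∈ F2 containing b: (i) a, c ∉ R: face_class p = q = a, y = b: SS = 0 + dl b (nbr b) + dl c (..) = (dg b a + dg b c) + 0 = 0 (cbZ; dl c = 0 by cbE, dl_zero): R ∈ F2'. (ii) c ∈ R, a ∉ R: cbBC. (iii) a ∈ R, c ∉ R: cbBC of the flip. (iv) a, b, c ∈ R: the R-neighbours of b are a and c (both adjacent to b): the pair is (a, c) or (c, a).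
pairs_one with p = a, q = c; degrees: simple u or u = a, c (dg = 0).
-/

set_option autoImplicit false

namespace Pool.Agent.LibPol19

open Finset
open scoped Classical

variable {X : Type*} [Fintype X]
variable {d : ℕ} {adj : X → X → Prop} {F2 F2' Fc Fc' : Finset X → Prop} {a b c : X}


theorem B5_small {x : X} {I : Finset X} (hI : I.card ≤ 1) : dl F2 F2' x I = 0 := by
  rw [dl, prs_small hI, prs_small hI]
  simp

theorem B5_comm (x u : X) : dg F2 F2' x u = dg F2 F2' u x := by
  rw [dg, dg, dg2_comm F2 x u, dg2_comm F2' x u]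

theorem B5_none (h : CB d adj F2 F2' a b c) {R : Finset X} (hR : F2 R) (hb : b ∈ R) (ha : a ∉ R) (hc : c ∉ R) : F2' R := by
  obtain ⟨s, hs, hsa, hsb, hsc, -, hsimple⟩ := ex_simple h.toPr hR (Or.inl ha) c (Or.inr (Or.inr rfl))
  refine face_class h.toPr hR (p := a) (q := a) (y := b) (Or.inl rfl) ha ha hb hs hsb hsimple ?_
  intro r hG hFst hFin hFI hL
  obtain ⟨h0, h1, h2⟩ := cbZ h
  have e1 : dl F2 F2' a (inn adj r a) = 0 := by
    rw [inn_fst hFst]
    exact B5_small (by simp)
  have e2 : dl F2 F2' b (nbr adj b) = 0 := by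
    rw [dl_full h.toPr b, if_pos (h.s.symm _ _ h.ab), if_neg (h.s.irrefl b), if_pos h.bc, B5_comm b a, h1, h2]
    ring
  have e3 : dl F2 F2' c (inn adj r c) = 0 := dl_zero (cbE h) (Finset.filter_subset _ _)
  rw [SS, e1, inn_lst h.s hL, e2, e3, h0]
  ring

/-- B5: the pairs at `b` -/
theorem cbEb (h : CB d adj F2 F2' a b c) : prs F2 b (nbr adj b) = prs F2' b (nbr adj b) := by
  obtain ⟨h0, h1, h2⟩ := cbZ h
  refine pairs_one (fun u w hE => prs_symm u w hE) (fun u w hE => prs_symm u w hE) (fun u => ?_) a c ?_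
  · refine prs_deg h.toPr u fun hu => ?_
    by_cases hua : u = a
    · rw [hua, B5_comm b a]; exact h2
    by_cases huc : u = c
    · rw [huc]; exact h1
    by_cases hub : u = b
    · rw [hub] at hu
      exact absurd hu (h.s.irrefl b)
    · exact dg_simple h.toPr hu (h.hub u hua hub huc)
  · intro u w hE hE'
    simp only [prs, Finset.mem_filter, Finset.mem_offDiag] at hE hE'
    obtain ⟨⟨hu, hw, huw⟩, R, hR, hb, huR, hwR⟩ := hE
    have hno : ¬ F2' R := fun h' => hE' ⟨⟨hu, hw, huw⟩, R, h', hb, huR, hwR⟩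
    have hau : adj b u := by simpa [nbr] using hu
    have haw : adj b w := by simpa [nbr] using hw
    by_cases ha : a ∈ R
    · by_cases hc : c ∈ R
      · have hpair : (R.filter fun v => adj b v) = {a, c} := by
          symm
          apply Finset.eq_of_subset_of_card_le
          · intro v hv
            rcases Finset.mem_insert.1 hv with hv | hv
            · rw [hv]; exact Finset.mem_filter.2 ⟨ha, h.s.symm _ _ h.ab⟩
            · rw [Finset.mem_singleton.1 hv]; exact Finset.mem_filter.2 ⟨hc, h.bc⟩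
          · rw [h.s.two R hR b hb, Finset.card_pair h.hac]
        have h3 : u ∈ R.filter fun v => adj b v := Finset.mem_filter.2 ⟨huR, hau⟩
        have h4 : w ∈ R.filter fun v => adj b v := Finset.mem_filter.2 ⟨hwR, haw⟩
        rw [hpair, Finset.mem_insert, Finset.mem_singleton] at h3 h4
        rcases h3 with h3 | h3 <;> rcases h4 with h4 | h4
        · exact absurd (h3.trans h4.symm) huw
        · exact Or.inl ⟨h3, h4⟩
        · exact Or.inr ⟨h3, h4⟩
        · exact absurd (h3.trans h4.symm) huw
      · exact absurd (cbBC h.flip hR hb ha hc) hno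
    · by_cases hc : c ∈ R
      · exact absurd (cbBC h hR hb hc ha) hno
      · exact absurd (B5_none h hR hb ha hc) hno

end Pool.Agent.LibPol19
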