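import Mathlib
import Pool.Agent.LibPol19.Defs
import Pool.Agent.LibPol19.C08
import Pool.Agent.LibPol19.C13
import Pool.Agent.LibPol19.C15

/-! Row C16.
All dl vanish (dl_zero, inn ⊆ nbr), so SS = 0 = 2 DD for every r. Choose k ∉ R: s has at least d ≥ 3 neighbours (deg) but only two of them in R (two), so some neighbour k of s is not in R. y := any R-neighbour of s (sys: two). face_class with p = q = k.
-/

set_option autoImplicit false

namespace Pool.Agent.LibPol19

open Finset
open scoped Classical

variable {X : Type*} [Fintype X]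
variable {d : ℕ} {adj : X → X → Prop} {F2 F2' Fc Fc' : Finset X → Prop} {a b c : X}


/-- C13: if the pairs at the hubs coincide then the systems coincide -/
theorem finish (h : Pr d adj F2 F2' a b c) (hD : DD F2 F2' = 0) (ha : prs F2 a (nbr adj a) = prs F2' a (nbr adj a))
    (hb : prs F2 b (nbr adj b) = prs F2' b (nbr adj b)) (hc : prs F2 c (nbr adj c) = prs F2' c (nbr adj c))
    {R : Finset X} (hR : F2 R) {s : X} (hs : s ∈ R) (hsimple : (nbr adj s).card = d) : F2' R := by
  have htwo := h.s.two R hR s hs
  obtain ⟨y, hy⟩ : (R.filter fun u => adj s u).Nonempty := by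
    rw [← Finset.card_pos]
    omega
  obtain ⟨hyR, hsy⟩ := Finset.mem_filter.1 hy
  have hne : s ≠ y := by
    intro hcon
    rw [hcon] at hsy
    exact h.s.irrefl _ hsy
  obtain ⟨k, hk⟩ : ∃ k, k ∉ R := by
    by_contra hcon
    push Not at hcon
    have h1 : nbr adj s ⊆ R.filter fun u => adj s u := by
      intro z hz
      exact Finset.mem_filter.2 ⟨hcon z, (Finset.mem_filter.1 hz).2⟩
    have h2 := Finset.card_le_card h1
    have h3 := h.hd
    omega
  refine face_class h hR (Or.inl rfl : k = k ∨ adj k k) hk hk hyR hs hne hsimple ?_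
  intro r _ _ _ _ _
  have hin : ∀ x, inn adj r x ⊆ nbr adj x := fun x => Finset.filter_subset _ _
  unfold SS
  rw [dl_zero ha (hin a), dl_zero hb (hin b), dl_zero hc (hin c), hD]
  norm_num

end Pool.Agent.LibPol19
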