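import Mathlib
import Pool.Agent.LibPol19.Defs
import Pool.Agent.LibPol19.C04
import Pool.Agent.LibPol19.C06
import Pool.Agent.LibPol19.C08
import Pool.Agent.LibPol19.C15

/-! Row D1.
point_class p = a, q = b, y = c: SS = dl c (nbr c) = dg c a + dg c b = 2 DD; cyclically dg a b + dg a c = 2 DD, dg b a + dg b c = 2 DD. Solve (dg2_comm).
-/

set_option autoImplicit false

namespace Pool.Agent.LibPol19

open Finset
open scoped Classical

variable {X : Type*} [Fintype X]
variable {d : ℕ} {adj : X → X → Prop} {F2 F2' Fc Fc' : Finset X → Prop} {a b c : X}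


theorem CC.swap (h : CC d adj F2 F2' a b c) : CC d adj F2' F2 a b c :=
  ⟨h.toPr.swap, h.ab, h.bc, h.ac⟩

theorem CC.rot (h : CC d adj F2 F2' a b c) : CC d adj F2 F2' b c a :=
  ⟨h.toPr.rot, h.bc, h.s.symm _ _ h.ac, h.s.symm _ _ h.ab⟩

theorem D1_dl_small {x : X} {I : Finset X} (hI : I.card ≤ 1) : dl F2 F2' x I = 0 := by
  unfold dl
  rw [prs_small hI, prs_small hI, sub_self]

theorem D1_one (h : CC d adj F2 F2' a b c) : dg F2 F2' c a + dg F2 F2' c b = 2 * DD F2 F2' := by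
  refine point_class h.toPr (p := a) (q := b) (y := c) (Or.inr h.ab) h.hac.symm h.hbc.symm _ ?_
  intro r _ hr1 hr2
  unfold SS
  rw [inn_fst hr1, inn_snd h.s hr1 h.ab, inn_lst h.s hr2,
    D1_dl_small (by simp), D1_dl_small (by simp), dl_full h.toPr,
    if_pos (h.s.symm _ _ h.ac), if_pos (h.s.symm _ _ h.bc), if_neg (h.s.irrefl c)]
  ring

/-- D1 -/
theorem ccD (h : CC d adj F2 F2' a b c) : dg F2 F2' a b = DD F2 F2' ∧ dg F2 F2' b c = DD F2 F2' ∧ dg F2 F2' a c = DD F2 F2' := by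
  have hcomm : ∀ x u, dg F2 F2' x u = dg F2 F2' u x := by
    intro x u
    unfold dg
    rw [dg2_comm F2 x u, dg2_comm F2' x u]
  have h1 := D1_one h
  have h2 := D1_one h.rot
  have h3 := D1_one h.rot.rot
  rw [hcomm c a, hcomm c b] at h1
  rw [hcomm b a] at h3
  refine ⟨?_, ?_, ?_⟩ <;> linarith

end Pool.Agent.LibPol19
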