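import Mathlib
import Pool.Agent.LibPol19.Defs
import Pool.Agent.LibPol19.C04
import Pool.Agent.LibPol19.C06
import Pool.Agent.LibPol19.C07
import Pool.Agent.LibPol19.C08
import Pool.Agent.LibPol19.C14
import Pool.Agent.LibPol19.C15
import Pool.Agent.LibPol19.D1

/-! Row D2.
ccBC: p = q = a, y = c: inn a = ∅; dl c (nbr c) = 2 DD; b in the middle with adj b c: dl b = dl b (nbr b) - 2 dg b c = 2 DD - 2 DD = 0. Sum 2 DD. ccC: p = a, q = b, y = c: SS = dl c (nbr c) = 2 DD.
-/

set_option autoImplicit false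

namespace Pool.Agent.LibPol19

open Finset
open scoped Classical

variable {X : Type*} [Fintype X]
variable {d : ℕ} {adj : X → X → Prop} {F2 F2' Fc Fc' : Finset X → Prop} {a b c : X}


theorem D2_small {x : X} {I : Finset X} (hI : I.card ≤ 1) : dl F2 F2' x I = 0 := by
  rw [dl, prs_small hI, prs_small hI]
  simp

theorem D2_comm (x u : X) : dg F2 F2' x u = dg F2 F2' u x := by
  rw [dg, dg, dg2_comm F2 x u, dg2_comm F2' x u]

theorem D2_c (h : CC d adj F2 F2' a b c) : dl F2 F2' c (nbr adj c) = 2 * DD F2 F2' := by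
  obtain ⟨h1, h2, h3⟩ := ccD h
  rw [dl_full h.toPr c, if_pos (h.s.symm _ _ h.ac), if_pos (h.s.symm _ _ h.bc), if_neg (h.s.irrefl c),
    D2_comm c a, D2_comm c b, h2, h3]
  ring

/-- D2: members containing `b` and `c` but not `a` -/
theorem ccBC (h : CC d adj F2 F2' a b c) {R : Finset X} (hR : F2 R) (hb : b ∈ R) (hc : c ∈ R) (ha : a ∉ R) : F2' R := by
  obtain ⟨s, hs, hsa, hsb, hsc, -, hsimple⟩ := ex_simple h.toPr hR (Or.inl ha) c (Or.inr (Or.inr rfl))
  refine face_class h.toPr hR (p := a) (q := a) (y := c) (Or.inl rfl) ha ha hc hs hsc hsimple ?_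
  intro r hG hFst hFin hFI hL
  obtain ⟨u, -, hbu, hinn, hu⟩ := inn_mid h.s hG hR hFin hs hc hFI hL hb (Ne.symm hsb) h.hbc
  obtain rfl := hu h.bc
  obtain ⟨h1, h2, h3⟩ := ccD h
  have e1 : dl F2 F2' a (inn adj r a) = 0 := by
    rw [inn_fst hFst]
    exact D2_small (by simp)
  have e2 : dl F2 F2' b (inn adj r b) = 0 := by
    rw [hinn, dl_erase h.toPr hbu, dl_full h.toPr b, if_pos (h.s.symm _ _ h.ab), if_neg (h.s.irrefl b),
      if_pos h.bc, D2_comm b a, h1, h2]
    ring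
  rw [SS, e1, e2, inn_lst h.s hL, D2_c h]
  ring

/-- D3: members containing `c` only -/
theorem ccC (h : CC d adj F2 F2' a b c) {R : Finset X} (hR : F2 R) (hc : c ∈ R) (ha : a ∉ R) (hb : b ∉ R) : F2' R := by
  obtain ⟨s, hs, hsa, hsb, hsc, -, hsimple⟩ := ex_simple h.toPr hR (Or.inl ha) c (Or.inr (Or.inr rfl))
  refine face_class h.toPr hR (p := a) (q := b) (y := c) (Or.inr h.ab) ha hb hc hs hsc hsimple ?_
  intro r hG hFst hFin hFI hL
  have e1 : dl F2 F2' a (inn adj r a) = 0 := by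
    rw [inn_fst hFst]
    exact D2_small (by simp)
  have e2 : dl F2 F2' b (inn adj r b) = 0 := by
    rw [inn_snd h.s hFst h.ab]
    exact D2_small (by simp)
  rw [SS, e1, e2, inn_lst h.s hL, D2_c h]
  ring

end Pool.Agent.LibPol19
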