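import Mathlib
import Pool.Agent.LibPol19.Defs
import Pool.Agent.LibPol19.C01

/-! Row D4.
The R-neighbours of a are b, c; of b: a, c; of c: a, b. If R had another element z, take ord_face?? no: use connectivity of R: from a good order (ord_pt a a c gives a good r): the r-minimum m1 of {a,b,c} has both R-neighbours in {a,b,c}, so it is a source of R; if R \ {a,b,c} ≠ ∅ its r-minimum z is a source of R too (its R-neighbours are not in {a,b,c}, because the
R-neighbours of a, b, c are in {a,b,c}, symm); z ≠ m1 contradicts Good.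
-/

set_option autoImplicit false

namespace Pool.Agent.LibPol19

open Finset
open scoped Classical

variable {X : Type*} [Fintype X]
variable {d : ℕ} {adj : X → X → Prop} {F2 F2' Fc Fc' : Finset X → Prop} {a b c : X}


theorem D4_nbr (h : IsSys d adj F2) {R : Finset X} (hR : F2 R) {x u w : X} (hx : x ∈ R) (hu : u ∈ R)
    (hw : w ∈ R) (huw : u ≠ w) (h1 : adj x u) (h2 : adj x w) {z : X} (hz : z ∈ R) (h3 : adj x z) :
    z = u ∨ z = w := by
  have hsub : ({u, w} : Finset X) ⊆ R.filter fun u => adj x u := by
    intro y hy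
    rw [Finset.mem_filter]
    rcases Finset.mem_insert.1 hy with h4 | h4
    · rw [h4]; exact ⟨hu, h1⟩
    · rw [Finset.mem_singleton.1 h4]; exact ⟨hw, h2⟩
  have heq := Finset.eq_of_subset_of_card_le hsub (by rw [h.two R hR x hx, Finset.card_pair huw])
  have hz' : z ∈ R.filter fun u => adj x u := Finset.mem_filter.2 ⟨hz, h3⟩
  rw [← heq] at hz'
  simpa using hz'

/-- D4: members containing the three hubs -/
theorem ccT (h : CC d adj F2 F2' a b c) {R : Finset X} (hR : F2 R) (ha : a ∈ R) (hb : b ∈ R) (hc : c ∈ R) : R = {a, b, c} := by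
  have hs := h.s
  have hab := h.hab
  have hac := h.hac
  have hbc := h.hbc
  have adab := h.ab
  have adbc := h.bc
  have adac := h.ac
  have adba := hs.symm _ _ adab
  have adcb := hs.symm _ _ adbc
  have adca := hs.symm _ _ adac
  have hT : ({a, b, c} : Finset X) ⊆ R := by
    intro z hz
    simp only [Finset.mem_insert, Finset.mem_singleton] at hz
    rcases hz with h1 | h1 | h1 <;> rw [h1] <;> assumption
  -- neighbours in `R` of an element of the triple are in the triple
  have hclosed : ∀ t ∈ ({a, b, c} : Finset X), ∀ z ∈ R, adj t z → z ∈ ({a, b, c} : Finset X) := by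
    intro t ht z hz htz
    simp only [Finset.mem_insert, Finset.mem_singleton] at ht ⊢
    rcases ht with h1 | h1 | h1
    · rw [h1] at htz
      rcases D4_nbr hs hR ha hb hc hbc adab adac hz htz with h2 | h2 <;> simp [h2]
    · rw [h1] at htz
      rcases D4_nbr hs hR hb ha hc hac adba adbc hz htz with h2 | h2 <;> simp [h2]
    · rw [h1] at htz
      rcases D4_nbr hs hR hc ha hb hab adca adcb hz htz with h2 | h2 <;> simp [h2]
  by_contra hne
  have hex : (R \ {a, b, c}).Nonempty := by
    rw [Finset.nonempty_iff_ne_empty]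
    intro hempty
    exact hne (Finset.Subset.antisymm (Finset.sdiff_eq_empty_iff_subset.1 hempty) hT)
  obtain ⟨r, hgood, _, _⟩ := hs.ord_pt a a c (Or.inl rfl) hac.symm hac.symm
  obtain ⟨m, hm, hmin⟩ := Finset.exists_min_image ({a, b, c} : Finset X) r ⟨a, by simp⟩
  obtain ⟨z, hz, hzmin⟩ := Finset.exists_min_image (R \ {a, b, c}) r hex
  have hm1 : Src adj r R m := by
    refine ⟨hT hm, fun u hu hmu => ?_⟩
    have h1 := hmin u (hclosed m hm u hu hmu)
    refine lt_of_le_of_ne h1 fun h2 => ?_
    have h3 := hgood.1 h2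
    rw [← h3] at hmu
    exact hs.irrefl _ hmu
  have hz1 : Src adj r R z := by
    rw [Finset.mem_sdiff] at hz
    refine ⟨hz.1, fun u hu hzu => ?_⟩
    have hu2 : u ∉ ({a, b, c} : Finset X) := fun hu2 =>
      hz.2 (hclosed u hu2 z hz.1 (hs.symm _ _ hzu))
    have h1 := hzmin u (Finset.mem_sdiff.2 ⟨hu, hu2⟩)
    refine lt_of_le_of_ne h1 fun h2 => ?_
    have h3 := hgood.1 h2
    rw [← h3] at hzu
    exact hs.irrefl _ hzu
  have heq := hgood.2 R hR m z hm1 hz1
  rw [heq] at hm
  exact (Finset.mem_sdiff.1 hz).2 hm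

end Pool.Agent.LibPol19
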