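import Mathlib
import Pool.Agent.LibPol19.Defs
import Pool.Agent.LibPol19.C04
import Pool.Agent.LibPol19.D1
import Pool.Agent.LibPol19.D2
import Pool.Agent.LibPol19.D4

/-! Row D5.
Let τ = 1 if F2 {a,b,c} else 0, τ' likewise. The members containing a hub but not all three are common (ccBC, ccC, their rotations, swap); those containing all three are {a,b,c} (ccT). So DD = dg a b = τ - τ' (members containing a, b: without c common). For a hub x and I ⊆ nbr x: a pair (u,w) in prs F2 x I but not in prs F2' x I comes from {a,b,c}, i.e. {u,w} = the other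
two hubs (ordered: 2 pairs), and a pair (other two hubs) lies in prs F2 x I iff both are in I and F2 {a,b,c} (any member containing a, b, c is {a,b,c}). So dl x I = 2 (τ - τ') [other two hubs ∈ I]. For an injective r exactly one hub (the last of the three) has both other hubs in inn. So SS = 2 (τ - τ') = 2 DD.
-/

set_option autoImplicit false

namespace Pool.Agent.LibPol19

open Finset
open scoped Classical

variable {X : Type*} [Fintype X]
variable {d : ℕ} {adj : X → X → Prop} {F2 F2' Fc Fc' : Finset X → Prop} {a b c : X}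


theorem D5_common (h : CC d adj F2 F2' a b c) {R : Finset X} (hR : F2 R) (ha : a ∈ R)
    (hn : ¬ (b ∈ R ∧ c ∈ R)) : F2' R := by
  by_cases hb : b ∈ R
  · exact ccBC h.rot.rot hR ha hb (fun hc => hn ⟨hb, hc⟩)
  · by_cases hc : c ∈ R
    · exact ccBC h.rot hR hc ha hb
    · exact ccC h.rot hR ha hb hc

theorem D5_count (h : CC d adj F2 F2' a b c) :
    (dg2 F2 a b : ℤ) = (if F2 {a, b, c} then 1 else 0) +
      (((univ : Finset (Finset X)).filter fun R => (F2 R ∧ F2' R) ∧ a ∈ R ∧ b ∈ R ∧ c ∉ R).card : ℤ) := by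
  have h1 : ((fam F2).filter fun R => a ∈ R ∧ b ∈ R) =
      (if F2 {a, b, c} then {{a, b, c}} else ∅) ∪
        ((univ : Finset (Finset X)).filter fun R => (F2 R ∧ F2' R) ∧ a ∈ R ∧ b ∈ R ∧ c ∉ R) := by
    ext R
    simp only [fam, Finset.mem_filter, Finset.mem_univ, true_and, Finset.mem_union]
    constructor
    · rintro ⟨hR, ha, hb⟩
      by_cases hc : c ∈ R
      · left
        have h2 := ccT h hR ha hb hc
        rw [h2] at hR
        rw [if_pos hR]
        exact Finset.mem_singleton.2 h2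
      · right
        exact ⟨⟨hR, D5_common h hR ha (fun h => hc h.2)⟩, ha, hb, hc⟩
    · rintro (h2 | ⟨⟨h2, h3⟩, h4, h5, h6⟩)
      · by_cases hT : F2 {a, b, c}
        · rw [if_pos hT] at h2
          rw [Finset.mem_singleton.1 h2]
          exact ⟨hT, by simp, by simp⟩
        · rw [if_neg hT] at h2
          exact absurd h2 (Finset.notMem_empty _)
      · exact ⟨h2, h4, h5⟩
  have h2 : Disjoint (if F2 {a, b, c} then ({{a, b, c}} : Finset (Finset X)) else ∅)
      ((univ : Finset (Finset X)).filter fun R => (F2 R ∧ F2' R) ∧ a ∈ R ∧ b ∈ R ∧ c ∉ R) := by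
    by_cases hT : F2 {a, b, c}
    · rw [if_pos hT, Finset.disjoint_singleton_left, Finset.mem_filter]
      rintro ⟨_, _, _, _, h3⟩
      exact h3 (by simp)
    · rw [if_neg hT]
      exact Finset.disjoint_empty_left _
  unfold dg2
  rw [h1, Finset.card_union_of_disjoint h2]
  push_cast
  congr 1
  by_cases hT : F2 {a, b, c}
  · rw [if_pos hT, if_pos hT, Finset.card_singleton]
    norm_num
  · rw [if_neg hT, if_neg hT, Finset.card_empty]
    norm_num

theorem D5_DD (h : CC d adj F2 F2' a b c) :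
    DD F2 F2' = (if F2 {a, b, c} then 1 else 0) - (if F2' {a, b, c} then 1 else 0) := by
  rw [← (ccD h).1]
  unfold dg
  rw [D5_count h, D5_count h.swap]
  have h1 : ((univ : Finset (Finset X)).filter fun R => (F2 R ∧ F2' R) ∧ a ∈ R ∧ b ∈ R ∧ c ∉ R) =
      ((univ : Finset (Finset X)).filter fun R => (F2' R ∧ F2 R) ∧ a ∈ R ∧ b ∈ R ∧ c ∉ R) := by
    apply Finset.filter_congr
    intro R _
    rw [and_comm (a := F2 R)]
  rw [h1]
  ring

theorem D5_mem (h : CC d adj F2 F2' a b c) {I : Finset X} (hI : I ⊆ nbr adj a) {u w : X}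
    (hu : u ∈ I) (hw : w ∈ I) (huw : u ≠ w) (h1 : ¬ (u = b ∧ w = c)) (h2 : ¬ (u = c ∧ w = b))
    (hex : ∃ R, F2 R ∧ a ∈ R ∧ u ∈ R ∧ w ∈ R) : ∃ R, F2' R ∧ a ∈ R ∧ u ∈ R ∧ w ∈ R := by
  obtain ⟨R, hR, ha, hu', hw'⟩ := hex
  have hne : ∀ z ∈ I, z ≠ a := by
    intro z hz hza
    have h3 := (Finset.mem_filter.1 (hI hz)).2
    rw [hza] at h3
    exact h.s.irrefl _ h3
  by_cases hbc : b ∈ R ∧ c ∈ R
  · exfalso
    have h3 := ccT h hR ha hbc.1 hbc.2
    rw [h3] at hu' hw'
    simp only [Finset.mem_insert, Finset.mem_singleton] at hu' hw'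
    rcases hu' with h4 | h4 | h4
    · exact hne u hu h4
    · rcases hw' with h5 | h5 | h5
      · exact hne w hw h5
      · exact huw (h4.trans h5.symm)
      · exact h1 ⟨h4, h5⟩
    · rcases hw' with h5 | h5 | h5
      · exact hne w hw h5
      · exact h2 ⟨h4, h5⟩
      · exact huw (h4.trans h5.symm)
  · exact ⟨R, D5_common h hR ha hbc, ha, hu', hw'⟩

theorem D5_prs (h : CC d adj F2 F2' a b c) {I : Finset X} :
    ((prs F2 a I).card : ℤ) = (((prs F2 a I).filter fun p => p ≠ (b, c) ∧ p ≠ (c, b)).card : ℤ) +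
      (if b ∈ I ∧ c ∈ I then 2 * (if F2 {a, b, c} then 1 else 0) else 0) := by
  have h1 := Finset.card_filter_add_card_filter_not (s := prs F2 a I)
    (fun p : X × X => p ≠ (b, c) ∧ p ≠ (c, b))
  rw [← h1]
  push_cast
  congr 1
  have hbc := h.hbc
  by_cases hbI : b ∈ I ∧ c ∈ I
  · rw [if_pos hbI]
    by_cases hT : F2 {a, b, c}
    · rw [if_pos hT]
      have h2 : ((prs F2 a I).filter fun p : X × X => ¬ (p ≠ (b, c) ∧ p ≠ (c, b))) =
          {(b, c), (c, b)} := by
        ext p
        simp only [Finset.mem_filter, Finset.mem_insert, Finset.mem_singleton]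
        constructor
        · rintro ⟨_, h3⟩
          by_contra hcon
          push Not at hcon
          exact h3 hcon
        · intro h3
          refine ⟨?_, ?_⟩
          · unfold prs
            rw [Finset.mem_filter, Finset.mem_offDiag]
            rcases h3 with h3 | h3
            · rw [h3]
              exact ⟨⟨hbI.1, hbI.2, hbc⟩, {a, b, c}, hT, by simp, by simp, by simp⟩
            · rw [h3]
              exact ⟨⟨hbI.2, hbI.1, hbc.symm⟩, {a, b, c}, hT, by simp, by simp, by simp⟩
          · intro h4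
            rcases h3 with h3 | h3
            · exact h4.1 h3
            · exact h4.2 h3
      rw [h2, Finset.card_pair]
      · norm_num
      · intro h3
        exact hbc (Prod.ext_iff.1 h3).1
    · rw [if_neg hT]
      have h2 : ((prs F2 a I).filter fun p : X × X => ¬ (p ≠ (b, c) ∧ p ≠ (c, b))) = ∅ := by
        rw [Finset.filter_eq_empty_iff]
        intro p hp h3
        apply h3
        unfold prs at hp
        rw [Finset.mem_filter] at hp
        obtain ⟨_, R, hR, ha, hu, hw⟩ := hp
        constructor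
        · intro h4
          rw [h4] at hu hw
          have h5 := ccT h hR ha hu hw
          rw [h5] at hR
          exact hT hR
        · intro h4
          rw [h4] at hu hw
          have h5 := ccT h hR ha hw hu
          rw [h5] at hR
          exact hT hR
      rw [h2, Finset.card_empty]
      norm_num
  · rw [if_neg hbI]
    have h2 : ((prs F2 a I).filter fun p : X × X => ¬ (p ≠ (b, c) ∧ p ≠ (c, b))) = ∅ := by
      rw [Finset.filter_eq_empty_iff]
      intro p hp h3
      apply h3
      unfold prs at hp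
      rw [Finset.mem_filter, Finset.mem_offDiag] at hp
      obtain ⟨⟨h4, h5, _⟩, _⟩ := hp
      constructor
      · intro h6
        rw [h6] at h4 h5
        exact hbI ⟨h4, h5⟩
      · intro h6
        rw [h6] at h4 h5
        exact hbI ⟨h5, h4⟩
    rw [h2, Finset.card_empty]
    norm_num

theorem D5_dl (h : CC d adj F2 F2' a b c) {I : Finset X} (hI : I ⊆ nbr adj a) :
    dl F2 F2' a I = if b ∈ I ∧ c ∈ I then 2 * DD F2 F2' else 0 := by
  unfold dl
  rw [D5_prs h, D5_prs h.swap, D5_DD h]
  have h1 : ((prs F2 a I).filter fun p => p ≠ (b, c) ∧ p ≠ (c, b)) =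
      ((prs F2' a I).filter fun p => p ≠ (b, c) ∧ p ≠ (c, b)) := by
    ext ⟨u, w⟩
    unfold prs
    simp only [Finset.mem_filter, Finset.mem_offDiag, ne_eq, Prod.mk.injEq]
    constructor
    · rintro ⟨⟨⟨h2, h3, h4⟩, h5⟩, h6, h7⟩
      exact ⟨⟨⟨h2, h3, h4⟩, D5_mem h hI h2 h3 h4 h6 h7 h5⟩, h6, h7⟩
    · rintro ⟨⟨⟨h2, h3, h4⟩, h5⟩, h6, h7⟩
      exact ⟨⟨⟨h2, h3, h4⟩, D5_mem h.swap hI h2 h3 h4 h6 h7 h5⟩, h6, h7⟩
  rw [h1]
  by_cases hbI : b ∈ I ∧ c ∈ I
  · rw [if_pos hbI, if_pos hbI, if_pos hbI]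
    ring
  · rw [if_neg hbI, if_neg hbI, if_neg hbI]
    ring

/-- D5: the defect of an arbitrary order -/
theorem ccS (h : CC d adj F2 F2' a b c) {r : X → ℕ} (hr : Function.Injective r) : SS adj F2 F2' a b c r = 2 * DD F2 F2' := by
  have hin : ∀ x, inn adj r x ⊆ nbr adj x := fun x => Finset.filter_subset _ _
  unfold SS
  rw [D5_dl h (hin a), D5_dl h.rot (hin b), D5_dl h.rot.rot (hin c)]
  have hm : ∀ x y, y ∈ inn adj r x ↔ adj x y ∧ r y < r x := by
    intro x y
    unfold inn nbr
    simp only [Finset.mem_filter, Finset.mem_univ, true_and]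
  simp only [hm]
  have ab := h.ab
  have bc := h.bc
  have ac := h.ac
  have ba := h.s.symm _ _ h.ab
  have cb := h.s.symm _ _ h.bc
  have ca := h.s.symm _ _ h.ac
  simp only [ab, bc, ac, ba, cb, ca, true_and]
  have n1 : r a ≠ r b := fun hh => h.hab (hr hh)
  have n2 : r a ≠ r c := fun hh => h.hac (hr hh)
  have n3 : r b ≠ r c := fun hh => h.hbc (hr hh)
  by_cases c1 : r b < r a ∧ r c < r a
  · rw [if_pos c1, if_neg (by omega), if_neg (by omega)]
    ring
  · by_cases c2 : r c < r b ∧ r a < r b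
    · rw [if_neg c1, if_pos c2, if_neg (by omega)]
      ring
    · rw [if_neg c1, if_neg c2, if_pos (by omega)]
      ring

end Pool.Agent.LibPol19
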