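import Mathlib
import Pool.Agent.LibPol19.Defs
import Pool.Agent.LibPol19.A1
import Pool.Agent.LibPol19.A4
import Pool.Agent.LibPol19.A5
import Pool.Agent.LibPol19.B1
import Pool.Agent.LibPol19.B2
import Pool.Agent.LibPol19.B4
import Pool.Agent.LibPol19.B5
import Pool.Agent.LibPol19.C08
import Pool.Agent.LibPol19.C15
import Pool.Agent.LibPol19.C16
import Pool.Agent.LibPol19.D1
import Pool.Agent.LibPol19.D5

/-! Row C17.
caF: finish with DD = 0 (caD), pairs at a: caEb of the flip (c fixed: CA.flip exchanges a and b), at b: caEb, at c: caE. cbF: finish with cbZ, pairs at a: cbE of the flip. ccF: every r has SS = 2 DD (ccS): choose k ∉ R a neighbour of s (deg ≥ d ≥ 3, only two neighbours in R), y an R-neighbour of s, face_class with p = q = k. faces_common: case distinction on which of adj a b, adj b c, adj a c hold,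
relabelling by Pr.rot, Pr.rev (and composition) into CA, CB, CC.
-/

set_option autoImplicit false

namespace Pool.Agent.LibPol19

open Finset
open scoped Classical

variable {X : Type*} [Fintype X]
variable {d : ℕ} {adj : X → X → Prop} {F2 F2' Fc Fc' : Finset X → Prop} {a b c : X}


/-- C16: members with a simple vertex -/
theorem caF (h : CA d adj F2 F2' a b c) {R : Finset X} (hR : F2 R) {s : X} (hs : s ∈ R) (hsimple : (nbr adj s).card = d) :
    F2' R :=
  finish h.toPr (caD h) (caEb h.flip) (caEb h) (caE h) hR hs hsimple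

theorem cbF (h : CB d adj F2 F2' a b c) {R : Finset X} (hR : F2 R) {s : X} (hs : s ∈ R) (hsimple : (nbr adj s).card = d) :
    F2' R :=
  finish h.toPr (cbZ h).1 (cbE h.flip) (cbEb h) (cbE h) hR hs hsimple

theorem ccF (h : CC d adj F2 F2' a b c) {R : Finset X} (hR : F2 R) {s : X} (hs : s ∈ R) (hsimple : (nbr adj s).card = d) :
    F2' R := by
  have h2 : (R.filter fun u => adj s u).card = 2 := h.s.two R hR s hs
  obtain ⟨y, hy⟩ : (R.filter fun u => adj s u).Nonempty := by
    rw [← Finset.card_pos, h2]
    norm_num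
  rw [Finset.mem_filter] at hy
  obtain ⟨k, hk, hk'⟩ : ∃ k ∈ nbr adj s, k ∉ R.filter fun u => adj s u := by
    by_contra hcon
    push Not at hcon
    have h3 : nbr adj s ⊆ R.filter fun u => adj s u := hcon
    have h4 := Finset.card_le_card h3
    have h5 := h.hd
    omega
  have hka : adj s k := by simpa [nbr] using hk
  have hkR : k ∉ R := fun h' => hk' (Finset.mem_filter.2 ⟨h', hka⟩)
  have hsy : s ≠ y := by
    intro e
    rw [← e] at hy
    exact h.s.irrefl s hy.2
  exact face_class h.toPr hR (p := k) (q := k) (Or.inl rfl) hkR hkR hy.1 hs hsy hsimple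
    fun r hG _ _ _ _ => ccS h hG.1

/-- C17: the common statement -/
theorem faces_common (h : Pr d adj F2 F2' a b c) (hadj : adj a b ∨ adj b c ∨ adj a c) {R : Finset X} (hR : F2 R) {s : X}
    (hs : s ∈ R) (hsimple : (nbr adj s).card = d) : F2' R := by
  have hsym : ∀ x y, adj x y → adj y x := h.s.symm
  by_cases hab : adj a b <;> by_cases hbc : adj b c <;> by_cases hac : adj a c
  · exact ccF (CC.mk h hab hbc hac) hR hs hsimple
  · exact cbF (CB.mk h hab hbc hac) hR hs hsimple
  · exact cbF (CB.mk h.rev.rot (hsym _ _ hab) hac hbc) hR hs hsimple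
  · exact caF (CA.mk h hab hbc hac) hR hs hsimple
  · exact cbF (CB.mk h.rot hbc (hsym _ _ hac) fun h' => hab (hsym _ _ h')) hR hs hsimple
  · exact caF (CA.mk h.rot hbc (fun h' => hac (hsym _ _ h')) fun h' => hab (hsym _ _ h')) hR hs hsimple
  · exact caF (CA.mk h.rot.rot (hsym _ _ hac) hab fun h' => hbc (hsym _ _ h')) hR hs hsimple
  · rcases hadj with h' | h' | h'
    · exact absurd h' hab
    · exact absurd h' hbc
    · exact absurd h' hac

end Pool.Agent.LibPol19
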