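import Mathlib
import Pool.Agent.LibPol19.Defs
import Pool.Agent.LibPol19.C08
import Pool.Agent.LibPol19.C17

/-! Row C18.
facets_sub: H = {a,b,c} (card ≤ 3). Claim: for all z ∈ F \ H: z ∈ F' and F.filter (adj z) = F'.filter (adj z). True for x if x ∉ H (x simple; if x is a hub with card = d it may be in H: then use hub-free start: conn needs x ∉ H: so first note that (nbr x).card = d; if x ∈ H treat H' = H minus x, all elements outside H' are simple, card ≤ 3). Let H' := {a,b,c}.filter (card ≠ d).
Induction along the path from x to z in F \ H' (conn F H'): step u → w, adj u w, w ∈ F \ H', w simple: u has the property so w ∈ F'. For t ∈ F, adj w t, t ≠ u: span at w gives R ∋ w, u, t, F2 R (w simple), so F2' R by hcom; R ⊆ F by sub at w (R-neighbours of w are u, t ∈ F); R ∋ u and R-neighbours of u are in F.filter (adj u) = F'.filter (adj u), so by IsFac.sub for F' at u (u ∈ F', u ∈ R) R ⊆ F', t ∈ F'.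
So F.filter (adj w) ⊆ F'.filter (adj w); both have d - 1 elements (deg_simple): equal. Hubs t ∈ F ∩ H': t has ≥ d - 1 ≥ 4 > 2 neighbours in F (deg), so one simple neighbour z ∈ F \ H'; t ∈ F.filter (adj z) = F'.filter (adj z). facets_common: F a facet; card F ≥ 4 > 3 so it has a simple x; I = F.filter (adj x), d - 1 elements, ex for F2' gives F'; facets_sub both ways
(hcom by faces_common, and for the swap) gives F = F'.
-/

set_option autoImplicit false

namespace Pool.Agent.LibPol19

open Finset
open scoped Classical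

variable {X : Type*} [Fintype X]
variable {d : ℕ} {adj : X → X → Prop} {F2 F2' Fc Fc' : Finset X → Prop} {a b c : X}


/-- C18: facets -/
theorem facets_sub (h : Pr d adj F2 F2' a b c) (hd5 : 5 ≤ d) (hF : IsFac d adj F2 Fc) (hF' : IsFac d adj F2' Fc')
    (hcom : ∀ R, (∃ s ∈ R, (nbr adj s).card = d) → F2 R → F2' R) {F F' : Finset X} (h1 : Fc F) (h2 : Fc' F') {x : X}
    (hx : x ∈ F) (hx' : x ∈ F') (hs : (nbr adj x).card = d)
    (heq : (F.filter fun u => adj x u) = F'.filter fun u => adj x u) : F ⊆ F' := by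
  have hsym : ∀ x y, adj x y → adj y x := h.s.symm
  set H : Finset X := ({a, b, c} : Finset X).filter fun t => (nbr adj t).card ≠ d with hH
  have hHc : H.card ≤ 3 := (Finset.card_filter_le _ _).trans Finset.card_le_three
  have hsimp : ∀ z, z ∉ H → (nbr adj z).card = d := by
    intro z hz
    by_contra hne
    by_cases ha : z = a
    · exact hz (Finset.mem_filter.2 ⟨by simp [ha], hne⟩)
    by_cases hb : z = b
    · exact hz (Finset.mem_filter.2 ⟨by simp [hb], hne⟩)
    by_cases hc : z = c
    · exact hz (Finset.mem_filter.2 ⟨by simp [hc], hne⟩)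
    exact hne (h.hub z ha hb hc)
  have hxH : x ∉ H := fun h' => (Finset.mem_filter.1 h').2 hs
  have key : ∀ z, Relation.ReflTransGen (fun u w => adj u w ∧ w ∈ F ∧ w ∉ H) x z →
      z ∈ F ∧ z ∉ H ∧ z ∈ F' ∧ (F.filter fun u => adj z u) = F'.filter fun u => adj z u := by
    intro z hz
    induction hz with
    | refl => exact ⟨hx, hxH, hx', heq⟩
    | @tail u w _ huw ih =>
      obtain ⟨huF, huH, huF', hue⟩ := ih
      obtain ⟨hadj, hwF, hwH⟩ := huw
      have hwF' : w ∈ F' := by
        have h3 : w ∈ F.filter fun v => adj u v := Finset.mem_filter.2 ⟨hwF, hadj⟩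
        rw [hue] at h3
        exact (Finset.mem_filter.1 h3).1
      refine ⟨hwF, hwH, hwF', ?_⟩
      have hsub : (F.filter fun v => adj w v) ⊆ F'.filter fun v => adj w v := by
        intro t ht
        obtain ⟨htF, hwt⟩ := Finset.mem_filter.1 ht
        refine Finset.mem_filter.2 ⟨?_, hwt⟩
        by_cases htu : t = u
        · rw [htu]; exact huF'
        obtain ⟨R, hR, hwR, huR, htR⟩ := h.s.span w (hsimp w hwH) u t (hsym _ _ hadj) hwt
          (fun e => htu e.symm)
        have hR' : F2' R := hcom R ⟨w, hwR, hsimp w hwH⟩ hR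
        have hpair : (R.filter fun v => adj w v) = {u, t} := by
          symm
          apply Finset.eq_of_subset_of_card_le
          · intro v hv
            rcases Finset.mem_insert.1 hv with hv | hv
            · rw [hv]; exact Finset.mem_filter.2 ⟨huR, hsym _ _ hadj⟩
            · rw [Finset.mem_singleton.1 hv]; exact Finset.mem_filter.2 ⟨htR, hwt⟩
          · rw [h.s.two R hR w hwR, Finset.card_pair (fun e => htu e.symm)]
        have hRF : R ⊆ F := by
          refine hF.sub F R h1 hR w hwF hwR fun v hv hwv => ?_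
          have h3 : v ∈ R.filter fun v => adj w v := Finset.mem_filter.2 ⟨hv, hwv⟩
          rw [hpair] at h3
          rcases Finset.mem_insert.1 h3 with h4 | h4
          · rw [h4]; exact huF
          · rw [Finset.mem_singleton.1 h4]; exact htF
        have hRF' : R ⊆ F' := by
          refine hF'.sub F' R h2 hR' u huF' huR fun v hv huv => ?_
          have h3 : v ∈ F.filter fun v => adj u v := Finset.mem_filter.2 ⟨hRF hv, huv⟩
          rw [hue] at h3
          exact (Finset.mem_filter.1 h3).1
        exact hRF' htR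
      refine Finset.eq_of_subset_of_card_le hsub ?_
      rw [hF.deg_simple F h1 w hwF (hsimp w hwH), hF'.deg_simple F' h2 w hwF' (hsimp w hwH)]
  intro t ht
  by_cases htH : t ∈ H
  · have h3 := hF.deg F h1 t ht
    obtain ⟨z, hz, hzH⟩ : ∃ z ∈ F.filter (fun u => adj t u), z ∉ H := by
      by_contra hcon
      push Not at hcon
      have h4 : (F.filter fun u => adj t u) ⊆ H := hcon
      have h5 := Finset.card_le_card h4
      omega
    obtain ⟨hzF, htz⟩ := Finset.mem_filter.1 hz
    obtain ⟨_, _, hzF', hze⟩ := key z (hF.conn F h1 H hHc x z hx hxH hzF hzH)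
    have h4 : t ∈ F.filter fun u => adj z u := Finset.mem_filter.2 ⟨ht, hsym _ _ htz⟩
    rw [hze] at h4
    exact (Finset.mem_filter.1 h4).1
  · exact (key t (hF.conn F h1 H hHc x t hx hxH ht htH)).2.2.1

theorem facets_one (h : Pr d adj F2 F2' a b c) (hd5 : 5 ≤ d) (hF : IsFac d adj F2 Fc) (hF' : IsFac d adj F2' Fc')
    (hadj : adj a b ∨ adj b c ∨ adj a c) (F : Finset X) (h1 : Fc F) : Fc' F := by
  obtain ⟨x, hx, hxH⟩ : ∃ x ∈ F, x ∉ ({a, b, c} : Finset X) := by
    by_contra hcon
    push Not at hcon
    have h4 : F ⊆ ({a, b, c} : Finset X) := hcon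
    have h5 := (Finset.card_le_card h4).trans Finset.card_le_three
    have h6 := hF.card F h1
    omega
  simp only [Finset.mem_insert, Finset.mem_singleton, not_or] at hxH
  have hs : (nbr adj x).card = d := h.hub x hxH.1 hxH.2.1 hxH.2.2
  obtain ⟨F', h2, hx', he⟩ := hF'.ex x hs (F.filter fun u => adj x u)
    (fun u hu => by simpa [nbr] using (Finset.mem_filter.1 hu).2) (hF.deg_simple F h1 x hx hs)
  have h3 : F ⊆ F' := facets_sub h hd5 hF hF'
    (fun R ⟨s, hsR, hs'⟩ hR => faces_common h hadj hR hsR hs') h1 h2 hx hx' hs he.symm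
  have h4 : F' ⊆ F := facets_sub h.swap hd5 hF' hF
    (fun R ⟨s, hsR, hs'⟩ hR => faces_common h.swap hadj hR hsR hs') h2 h1 hx' hx hs he
  rw [Finset.Subset.antisymm h3 h4]
  exact h2

theorem facets_common (h : Pr d adj F2 F2' a b c) (hd5 : 5 ≤ d) (hF : IsFac d adj F2 Fc) (hF' : IsFac d adj F2' Fc')
    (hadj : adj a b ∨ adj b c ∨ adj a c) (F : Finset X) : Fc F ↔ Fc' F :=
  ⟨facets_one h hd5 hF hF' hadj F, facets_one h.swap hd5 hF' hF hadj F⟩

end Pool.Agent.LibPol19
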