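import Mathlib
import Pool.Agent.LibPol19.Defs
import Pool.Agent.LibPol19.G01
import Pool.Agent.LibPol19.G03
import Pool.Agent.LibPol19.G16

/-! Row G16b.
→: exists_facet by contraposition. ←: let 𝓕 be the finite set of facets (in V.powerset) containing A. If it is empty every x ∈ V lies in A, A = V: face_self. Otherwise A = V ∩ ⋂ 𝓕; by induction over finite nonempty families a nonempty intersection of faces is a face (face_inter).
-/

set_option autoImplicit false

namespace Pool.Agent.LibPol19

open Finset
open scoped Classical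

variable {d : ℕ} {V A B F F' K R R' S : Finset (Ed d)}


theorem face_iff (hfull : Full V) : IsFace V A ↔ A.Nonempty ∧ A ⊆ V ∧
    ∀ x ∈ V, (∀ F, IsFace V F → dm F + 1 = d → A ⊆ F → x ∈ F) → x ∈ A := by
  constructor
  · intro hA
    refine ⟨hA.1, hA.2.1, fun x hx h => ?_⟩
    by_contra hxA
    obtain ⟨F, hF, hd, hAF, hxF⟩ := exists_facet hfull hA hx hxA
    exact hxF (h F hF hd hAF)
  · rintro ⟨hne, hsub, h⟩
    have key : ∀ s : Finset (Finset (Ed d)), (∀ F ∈ s, IsFace V F ∧ A ⊆ F) →
        IsFace V (V.filter fun x => ∀ F ∈ s, x ∈ F) := by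
      intro s
      induction s using Finset.induction_on with
      | empty =>
        intro _
        have e : (V.filter fun x => ∀ F ∈ (∅ : Finset (Finset (Ed d))), x ∈ F) = V := by
          ext x
          simp
        rw [e]
        exact face_self (hne.mono hsub)
      | insert F s hFs ih =>
        intro hs
        have e : (V.filter fun x => ∀ F' ∈ insert F s, x ∈ F') = F ∩ V.filter fun x => ∀ F' ∈ s, x ∈ F' := by
          ext x
          simp only [Finset.mem_filter, Finset.mem_insert, forall_eq_or_imp, Finset.mem_inter]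
          constructor
          · rintro ⟨hx, h1, h2⟩
            exact ⟨h1, hx, h2⟩
          · rintro ⟨h1, hx, h2⟩
            exact ⟨hx, h1, h2⟩
        rw [e]
        refine face_inter (hs F (Finset.mem_insert_self _ _)).1
          (ih fun F' hF' => hs F' (Finset.mem_insert_of_mem hF')) ?_
        obtain ⟨a, ha⟩ := hne
        refine ⟨a, Finset.mem_inter.2 ⟨(hs F (Finset.mem_insert_self _ _)).2 ha, Finset.mem_filter.2 ⟨hsub ha, ?_⟩⟩⟩
        intro F' hF'
        exact (hs F' (Finset.mem_insert_of_mem hF')).2 ha
    have hA : A = V.filter fun x => ∀ F ∈ V.powerset.filter (fun F => IsFace V F ∧ dm F + 1 = d ∧ A ⊆ F), x ∈ F := by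
      ext x
      simp only [Finset.mem_filter, Finset.mem_powerset]
      constructor
      · intro hx
        exact ⟨hsub hx, fun F hF => hF.2.2.2 hx⟩
      · rintro ⟨hx, h2⟩
        exact h x hx fun F hF hd hAF => h2 F ⟨hF.2.1, hF, hd, hAF⟩
    rw [hA]
    refine key _ fun F hF => ?_
    rw [Finset.mem_filter] at hF
    exact ⟨hF.2.1, hF.2.2.2⟩

end Pool.Agent.LibPol19
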