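import Mathlib
import Pool.Agent.LibPol19.Defs

/-! Row S01.
Finset.map bookkeeping. im_surj: R := univ.filter fun x => (e x : Ed d) ∈ A. nbr_card: card of the image of nbr (adjX e) x under e is nb V (e x) (Finset.card_bij or card_map).
-/

set_option autoImplicit false

namespace Pool.Agent.LibPol19

open Finset
open scoped Classical

variable {d : ℕ} {V A B F F' K R R' S : Finset (Ed d)} {X : Type*} [Fintype X]

theorem S01_mem (e : X ≃ {x // x ∈ V}) (R : Finset X) (u : Ed d) :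
    u ∈ im e R ↔ ∃ x ∈ R, (e x : Ed d) = u := by
  unfold im
  rw [mem_map]
  rfl

/-- S01: labels -/
theorem mem_im (e : X ≃ {x // x ∈ V}) (R : Finset X) (x : X) : (e x : Ed d) ∈ im e R ↔ x ∈ R := by
  rw [S01_mem]
  constructor
  · rintro ⟨y, hy, h⟩
    rwa [← e.injective (Subtype.ext h)]
  · exact fun h => ⟨x, h, rfl⟩

theorem im_sub (e : X ≃ {x // x ∈ V}) (R : Finset X) : im e R ⊆ V := by
  intro u hu
  obtain ⟨x, -, rfl⟩ := (S01_mem e R u).1 hu
  exact (e x).2

theorem im_inj (e : X ≃ {x // x ∈ V}) {R R' : Finset X} (h : im e R = im e R') : R = R' := by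
  ext x
  rw [← mem_im e R x, ← mem_im e R' x, h]

theorem im_surj (e : X ≃ {x // x ∈ V}) {A : Finset (Ed d)} (h : A ⊆ V) : ∃ R : Finset X, im e R = A := by
  refine ⟨univ.filter fun x => (e x : Ed d) ∈ A, ?_⟩
  ext u
  rw [S01_mem]
  constructor
  · rintro ⟨x, hx, rfl⟩
    exact (mem_filter.1 hx).2
  · intro hu
    refine ⟨e.symm ⟨u, h hu⟩, mem_filter.2 ⟨mem_univ _, ?_⟩, ?_⟩
    · rw [e.apply_symm_apply]
      exact hu
    · rw [e.apply_symm_apply]

theorem im_card (e : X ≃ {x // x ∈ V}) (R : Finset X) : (im e R).card = R.card := by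
  unfold im
  exact card_map _

theorem nbr_card (e : X ≃ {x // x ∈ V}) (x : X) : (nbr (adjX e) x).card = (nb V (e x : Ed d)).card := by
  rw [← im_card e]
  congr 1
  ext u
  rw [S01_mem]
  unfold nb nbr
  rw [mem_filter]
  constructor
  · rintro ⟨y, hy, rfl⟩
    exact ⟨(e y).2, (mem_filter.1 hy).2⟩
  · rintro ⟨hu, h⟩
    refine ⟨e.symm ⟨u, hu⟩, mem_filter.2 ⟨mem_univ _, ?_⟩, ?_⟩
    · unfold adjX
      rw [e.apply_symm_apply]
      exact h
    · rw [e.apply_symm_apply]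

theorem filter_card (e : X ≃ {x // x ∈ V}) (R : Finset X) (x : X) :
    (R.filter fun u => adjX e x u).card = (nb V (e x : Ed d) ∩ im e R).card := by
  rw [← im_card e]
  congr 1
  ext u
  rw [mem_inter, S01_mem, S01_mem]
  unfold nb
  rw [mem_filter]
  constructor
  · rintro ⟨y, hy, rfl⟩
    exact ⟨⟨(e y).2, (mem_filter.1 hy).2⟩, y, (mem_filter.1 hy).1, rfl⟩
  · rintro ⟨⟨hu, h⟩, y, hy, rfl⟩
    exact ⟨y, mem_filter.2 ⟨hy, h⟩, rfl⟩

end Pool.Agent.LibPol19
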