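import Mathlib
import Pool.Agent.LibPol19.Defs
import Pool.Agent.LibPol19.G01
import Pool.Agent.LibPol19.G05

/-! Row O03.
(ℓK, cK), (ℓF, cF) for K, F. gK = cK - ℓK ≥ 0, gF = cF - ℓF ≥ 0 on V. ψ v := gK v / gF v. First part clear. Second: L := ψ v • (-ℓF) + ℓK = linear part of x ↦ ψ v gF x - gK x; L w - L v = ψ v gF w - gK w - 0. For w ∉ F: = gF w (ψ v - ψ w) > 0 iff ψ w < ψ v; for w ∈ F: = -gK w < 0 (w ∉ K).
step_face in R with L: u ∈ R, L u > L v, so u ∉ F, ψ u < ψ v, Adj V v u. Third: the same L with constant L v exposes the set {w ∈ R : w ∉ F, ψ w = ψ v} in R (L w - L v = gF w (ψ v - ψ w) ≤ 0 for w ∉ F, < 0 on F): face of R, then face_trans. It is nonempty (contains v).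
-/

set_option autoImplicit false

namespace Pool.Agent.LibPol19

open Finset
open scoped Classical

variable {d : ℕ} {V A B F F' K R R' S : Finset (Ed d)}


/-- O03: sweeps by the quotient of two supporting functions -/
theorem ratio_step (hV : IsVert V) (hK : IsFace V K) (hF : IsFace V F) (hKF : Disjoint K F) :
    ∃ ψ : Ed d → ℝ, (∀ v ∈ V, v ∉ F → 0 ≤ ψ v ∧ (ψ v = 0 ↔ v ∈ K)) ∧
      (∀ R, IsFace V R → ∀ v ∈ R, v ∉ F → (∃ w ∈ R, w ∉ F ∧ ψ w < ψ v) →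
        ∃ u ∈ R, u ∉ F ∧ ψ u < ψ v ∧ Adj V v u) ∧
      (∀ R, IsFace V R → ∀ v ∈ R, v ∉ F → (∀ w ∈ R, w ∉ F → ψ v ≤ ψ w) →
        IsFace V (R.filter fun w => w ∉ F ∧ ψ w = ψ v)) := by
  obtain ⟨_, _, ℓK, cK, hK'⟩ := hK
  obtain ⟨_, _, ℓF, cF, hF'⟩ := hF
  have gF0 : ∀ v ∈ V, v ∈ F → cF - ℓF v = 0 := fun v hv hvF => by
    have := (hF' v hv).2.2 hvF
    linarith
  have gF1 : ∀ v ∈ V, v ∉ F → 0 < cF - ℓF v := fun v hv hvF => by
    have h1 := (hF' v hv).1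
    have h2 : ℓF v ≠ cF := fun h => hvF ((hF' v hv).2.1 h)
    have h3 := lt_of_le_of_ne h1 h2
    linarith
  have gK1 : ∀ v ∈ V, v ∉ K → 0 < cK - ℓK v := fun v hv hvF => by
    have h1 := (hK' v hv).1
    have h2 : ℓK v ≠ cK := fun h => hvF ((hK' v hv).2.1 h)
    have h3 := lt_of_le_of_ne h1 h2
    linarith
  -- the functional
  have hL : ∀ v ∈ V, v ∉ F → ∀ w : Ed d,
      (ℓK - ((cK - ℓK v) / (cF - ℓF v)) • ℓF) w - (ℓK - ((cK - ℓK v) / (cF - ℓF v)) • ℓF) v =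
        ((cK - ℓK v) / (cF - ℓF v)) * (cF - ℓF w) - (cK - ℓK w) := by
    intro v hv hvF w
    have h1 := gF1 v hv hvF
    have h2 : ((cK - ℓK v) / (cF - ℓF v)) * (cF - ℓF v) = cK - ℓK v := div_mul_cancel₀ _ h1.ne'
    simp only [LinearMap.sub_apply, LinearMap.smul_apply, smul_eq_mul]
    linear_combination (-1 : ℝ) * h2
  have hw1 : ∀ v ∈ V, v ∉ F → ∀ w ∈ V, w ∉ F →
      (ℓK - ((cK - ℓK v) / (cF - ℓF v)) • ℓF) w - (ℓK - ((cK - ℓK v) / (cF - ℓF v)) • ℓF) v =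
        (cF - ℓF w) * ((cK - ℓK v) / (cF - ℓF v) - (cK - ℓK w) / (cF - ℓF w)) := by
    intro v hv hvF w hw hwF
    rw [hL v hv hvF w]
    have h1 := gF1 w hw hwF
    have h2 : ((cK - ℓK w) / (cF - ℓF w)) * (cF - ℓF w) = cK - ℓK w := div_mul_cancel₀ _ h1.ne'
    linear_combination h2
  have hw2 : ∀ v ∈ V, v ∉ F → ∀ w ∈ V, w ∈ F →
      (ℓK - ((cK - ℓK v) / (cF - ℓF v)) • ℓF) w - (ℓK - ((cK - ℓK v) / (cF - ℓF v)) • ℓF) v < 0 := by
    intro v hv hvF w hw hwF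
    rw [hL v hv hvF w, gF0 w hw hwF]
    have h1 := gK1 w hw (fun h => (Finset.disjoint_left.1 hKF) h hwF)
    linarith
  refine ⟨fun v => (cK - ℓK v) / (cF - ℓF v), ?_, ?_, ?_⟩
  · intro v hv hvF
    have h1 := gF1 v hv hvF
    have h2 := (hK' v hv).1
    refine ⟨div_nonneg (by linarith) h1.le, ?_⟩
    rw [div_eq_zero_iff]
    constructor
    · rintro (h | h)
      · exact (hK' v hv).2.1 (by linarith)
      · exact absurd h h1.ne'
    · intro h
      left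
      have := (hK' v hv).2.2 h
      linarith
  · rintro R hR v hv hvF ⟨w, hw, hwF, hlt⟩
    have hvV := hR.2.1 hv
    have hwV := hR.2.1 hw
    dsimp only at hlt ⊢
    obtain ⟨u, hu, h1, h2⟩ := step_face hV hR hv (ℓK - ((cK - ℓK v) / (cF - ℓF v)) • ℓF)
      ⟨w, hw, by
        have h3 := hw1 v hvV hvF w hwV hwF
        have h4 := mul_pos (gF1 w hwV hwF) (sub_pos.2 hlt)
        linarith⟩
    have huV := hR.2.1 hu
    have huF : u ∉ F := by
      intro h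
      have h3 := hw2 v hvV hvF u huV h
      linarith
    refine ⟨u, hu, huF, ?_, h2⟩
    have h3 := hw1 v hvV hvF u huV huF
    have h4 : 0 < (cF - ℓF u) * ((cK - ℓK v) / (cF - ℓF v) - (cK - ℓK u) / (cF - ℓF u)) := by
      rw [← h3]
      linarith
    have h5 := (pos_iff_pos_of_mul_pos h4).1 (gF1 u huV huF)
    linarith
  · intro R hR v hv hvF hmin
    have hvV := hR.2.1 hv
    dsimp only at hmin ⊢
    refine face_trans hR ⟨⟨v, Finset.mem_filter.2 ⟨hv, hvF, rfl⟩⟩, Finset.filter_subset _ _,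
      ℓK - ((cK - ℓK v) / (cF - ℓF v)) • ℓF, (ℓK - ((cK - ℓK v) / (cF - ℓF v)) • ℓF) v, ?_⟩
    intro w hw
    have hwV := hR.2.1 hw
    rw [Finset.mem_filter]
    by_cases hwF : w ∈ F
    · have h3 := hw2 v hvV hvF w hwV hwF
      refine ⟨by linarith, ⟨fun h => ?_, fun h => absurd hwF h.2.1⟩⟩
      exfalso
      linarith
    · have h3 := hw1 v hvV hvF w hwV hwF
      have h4 := gF1 w hwV hwF
      have h5 := hmin w hw hwF
      have h6 : (cF - ℓF w) * ((cK - ℓK v) / (cF - ℓF v) - (cK - ℓK w) / (cF - ℓF w)) ≤ 0 :=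
        mul_nonpos_of_nonneg_of_nonpos h4.le (by linarith)
      refine ⟨by linarith, ⟨fun h => ⟨hw, hwF, ?_⟩, fun h => ?_⟩⟩
      · have h7 : (cF - ℓF w) * ((cK - ℓK v) / (cF - ℓF v) - (cK - ℓK w) / (cF - ℓF w)) = 0 := by
          rw [← h3]
          linarith
        rcases mul_eq_zero.1 h7 with h8 | h8
        · exact absurd h8 h4.ne'
        · linarith
      · rw [h.2.2, sub_self, mul_zero] at h3
        linarith

end Pool.Agent.LibPol19
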