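import Mathlib
import Pool.Agent.LibPol19.Defs
import Pool.Agent.LibPol19.G01
import Pool.Agent.LibPol19.G05
import Pool.Agent.LibPol19.G08
import Pool.Agent.LibPol19.G09
import Pool.Agent.LibPol19.G11
import Pool.Agent.LibPol19.O01
import Pool.Agent.LibPol19.O03

/-! Row O04.
Key κ x := toLex (cls x, toLex (α x, μ x)) : ℕ ×ₗ (ℝ ×ₗ ℝ), cls = 0 on K, 2 on F, 1 otherwise; α x = k x on K, f x on F, ψ x otherwise (ψ of ratio_step); μ injective (exists_inj). κ is injective on V (k, f injective on K, F). rank gives r. Strict monotony of r in κ gives the four order statements.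
GoodV: let R be a 2-face, s a source of R w.r.t. r. (i) R = K: SrcV V k K s (r and k order K in the same way) and hks. (ii) R = F: hfs. (iii) R ≠ K, R ≠ F. A source s is not in F: if s ∈ R ∩ F, R ⊄ F (else dm F ≥ 2, R ⊆ F; R ⊂ F contradicts dm_lt with dm F ≤ 2), so some w ∈ R \ F, and step_face with -ℓF
gives a neighbour u ∈ R \ F of s, r u < r s. (iv) if R ∩ K ≠ ∅: a source is in K (s ∉ K ∪ F has ψ s > 0 = ψ k for k ∈ R ∩ K, ratio_step gives u with ψ u < ψ s, Adj V s u, u ∉ F, so r u < r s). R ∩ K is a face ≠ R (as in (iii)), dm < 2, so it has at most two elements (two_le_dm), and if it has two they are adjacent;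
then only the smaller one can be a source. (v) if R ∩ K = ∅: a source s minimises ψ on R \ F (ratio_step), R0 := {w ∈ R : w ∉ F, ψ w = ψ s} is a face. If R0 ≠ R: at most two elements, adjacent: as before. If R0 = R: then R ∩ F = ∅, all of R is in class 1 with the same ψ, r orders R as μ, and two sources s, s'
with μ s < μ s': step_face with -μ at s' gives a neighbour with smaller μ: contradiction. IsFace for -ℓ etc. not needed: step_face takes any linear functional.
-/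

set_option autoImplicit false

namespace Pool.Agent.LibPol19

open Finset
open scoped Classical

variable {d : ℕ} {V A B F F' K R R' S : Finset (Ed d)}


/-- the class of a vertex -/
noncomputable def O04_cls (K F : Finset (Ed d)) (x : Ed d) : ℕ :=
  if x ∈ K then 0 else if x ∈ F then 2 else 1

noncomputable def O04_al (K F : Finset (Ed d)) (k f : Ed d → ℕ) (ψ : Ed d → ℝ) (x : Ed d) : ℝ :=
  if x ∈ K then (k x : ℝ) else if x ∈ F then (f x : ℝ) else ψ x

noncomputable def O04_key (K F : Finset (Ed d)) (k f : Ed d → ℕ) (ψ : Ed d → ℝ) (μ : Ed d →ₗ[ℝ] ℝ)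
    (x : Ed d) : ℕ ×ₗ (ℝ ×ₗ ℝ) :=
  toLex (O04_cls K F x, toLex (O04_al K F k f ψ x, μ x))

theorem O04_lt1 (K F : Finset (Ed d)) (k f : Ed d → ℕ) (ψ : Ed d → ℝ) (μ : Ed d →ₗ[ℝ] ℝ) {x y : Ed d}
    (h : O04_cls K F x < O04_cls K F y) : O04_key K F k f ψ μ x < O04_key K F k f ψ μ y := by
  unfold O04_key
  exact Prod.Lex.toLex_lt_toLex.2 (Or.inl h)

theorem O04_lt2 (K F : Finset (Ed d)) (k f : Ed d → ℕ) (ψ : Ed d → ℝ) (μ : Ed d →ₗ[ℝ] ℝ) {x y : Ed d}
    (h : O04_cls K F x = O04_cls K F y) (h' : O04_al K F k f ψ x < O04_al K F k f ψ y) :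
    O04_key K F k f ψ μ x < O04_key K F k f ψ μ y := by
  unfold O04_key
  exact Prod.Lex.toLex_lt_toLex.2 (Or.inr ⟨h, Prod.Lex.toLex_lt_toLex.2 (Or.inl h')⟩)

theorem O04_lt3 (K F : Finset (Ed d)) (k f : Ed d → ℕ) (ψ : Ed d → ℝ) (μ : Ed d →ₗ[ℝ] ℝ) {x y : Ed d}
    (h : O04_cls K F x = O04_cls K F y) (h' : O04_al K F k f ψ x = O04_al K F k f ψ y)
    (h'' : μ x < μ y) : O04_key K F k f ψ μ x < O04_key K F k f ψ μ y := by
  unfold O04_key
  exact Prod.Lex.toLex_lt_toLex.2 (Or.inr ⟨h, Prod.Lex.toLex_lt_toLex.2 (Or.inr ⟨h', h''⟩)⟩)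

/-- a proper subface of a `2`-face with two different vertices `s`, `s'` is the edge -/
theorem O04_edge (hV : IsVert V) (hA : IsFace V A) (hAR : A ⊂ R) (hR : IsFace V R) (h2 : dm R = 2)
    {s s' : Ed d} (hs : s ∈ A) (hs' : s' ∈ A) (hne : s ≠ s') : Adj V s s' := by
  have h1 : dm A < 2 := h2 ▸ dm_lt hA hAR hR.2.1
  have h3 : A.card ≤ 2 := by
    by_contra h
    have := two_le_dm hV hA.2.1 (by omega)
    omega
  have h4 : ({s, s'} : Finset (Ed d)) = A := by
    apply Finset.eq_of_subset_of_card_le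
    · intro z hz
      rcases Finset.mem_insert.1 hz with h | h
      · rw [h]; exact hs
      · rw [Finset.mem_singleton.1 h]; exact hs'
    · rw [Finset.card_pair hne]
      exact h3
  exact ⟨hne, h4 ▸ hA⟩

/-- O04: the gluing lemma -/
theorem glue (hV : IsVert V) (hK : IsFace V K) (hKd : dm K ≤ 2) (hF : IsFace V F) (hFd : dm F ≤ 2)
    (hKF : Disjoint K F) (k f : Ed d → ℕ) (hk : Set.InjOn k (K : Set (Ed d))) (hf : Set.InjOn f (F : Set (Ed d)))
    (hks : dm K = 2 → ∀ s s', SrcV V k K s → SrcV V k K s' → s = s')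
    (hfs : dm F = 2 → ∀ s s', SrcV V f F s → SrcV V f F s' → s = s') :
    ∃ r : Ed d → ℕ, GoodV V r ∧ (∀ x ∈ K, ∀ y ∈ V, y ∉ K → r x < r y) ∧ (∀ x ∈ K, ∀ y ∈ K, k x < k y → r x < r y) ∧
      (∀ x ∈ V, x ∉ F → ∀ y ∈ F, r x < r y) ∧ (∀ x ∈ F, ∀ y ∈ F, f x < f y → r x < r y) := by
  obtain ⟨ψ, ψ1, ψ2, ψ3⟩ := ratio_step hV hK hF hKF
  obtain ⟨μ, hμ⟩ := exists_inj V
  have hdis : ∀ x, x ∈ K → x ∉ F := fun x h1 h2 => (Finset.disjoint_left.1 hKF) h1 h2
  have hinj : Set.InjOn (O04_key K F k f ψ μ) (V : Set (Ed d)) := by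
    intro x hx y hy hxy
    apply hμ hx hy
    unfold O04_key at hxy
    have h1 := toLex.injective hxy
    have h2 := toLex.injective (Prod.ext_iff.1 h1).2
    exact (Prod.ext_iff.1 h2).2
  obtain ⟨r, hr1, hr2⟩ := rank (O04_key K F k f ψ μ) hinj
  have hKV := hK.2.1
  have hFV := hF.2.1
  have clsK : ∀ x, x ∈ K → O04_cls K F x = 0 := fun x hx => by simp [O04_cls, hx]
  have clsF : ∀ x, x ∈ F → O04_cls K F x = 2 := fun x hx => by
    have : x ∉ K := fun h => hdis x h hx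
    simp [O04_cls, hx, this]
  have clsN : ∀ x, x ∉ K → x ∉ F → O04_cls K F x = 1 := fun x hx hx' => by
    simp [O04_cls, hx, hx']
  have alK : ∀ x, x ∈ K → O04_al K F k f ψ x = k x := fun x hx => by simp [O04_al, hx]
  have alF : ∀ x, x ∈ F → O04_al K F k f ψ x = f x := fun x hx => by
    have : x ∉ K := fun h => hdis x h hx
    simp [O04_al, hx, this]
  have alN : ∀ x, x ∉ K → x ∉ F → O04_al K F k f ψ x = ψ x := fun x hx hx' => by
    simp [O04_al, hx, hx']
  have c1 : ∀ x ∈ K, ∀ y ∈ V, y ∉ K → r x < r y := by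
    intro x hx y hy hyK
    refine hr2 x (hKV hx) y hy (O04_lt1 K F k f ψ μ ?_)
    rw [clsK x hx]
    by_cases h : y ∈ F
    · rw [clsF y h]; norm_num
    · rw [clsN y hyK h]; norm_num
  have c2 : ∀ x ∈ K, ∀ y ∈ K, k x < k y → r x < r y := by
    intro x hx y hy h
    refine hr2 x (hKV hx) y (hKV hy) (O04_lt2 K F k f ψ μ (by rw [clsK x hx, clsK y hy]) ?_)
    rw [alK x hx, alK y hy]
    exact_mod_cast h
  have c3 : ∀ x ∈ V, x ∉ F → ∀ y ∈ F, r x < r y := by
    intro x hx hxF y hy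
    refine hr2 x hx y (hFV hy) (O04_lt1 K F k f ψ μ ?_)
    rw [clsF y hy]
    by_cases h : x ∈ K
    · rw [clsK x h]; norm_num
    · rw [clsN x h hxF]; norm_num
  have c4 : ∀ x ∈ F, ∀ y ∈ F, f x < f y → r x < r y := by
    intro x hx y hy h
    refine hr2 x (hFV hx) y (hFV hy) (O04_lt2 K F k f ψ μ (by rw [clsF x hx, clsF y hy]) ?_)
    rw [alF x hx, alF y hy]
    exact_mod_cast h
  have c5 : ∀ x ∈ V, ∀ y ∈ V, x ∉ K → x ∉ F → y ∉ K → y ∉ F → ψ x < ψ y → r x < r y := by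
    intro x hx y hy h1 h2 h3 h4 h
    refine hr2 x hx y hy (O04_lt2 K F k f ψ μ (by rw [clsN x h1 h2, clsN y h3 h4]) ?_)
    rw [alN x h1 h2, alN y h3 h4]
    exact h
  have c6 : ∀ x ∈ V, ∀ y ∈ V, x ∉ K → x ∉ F → y ∉ K → y ∉ F → ψ x = ψ y → μ x < μ y → r x < r y := by
    intro x hx y hy h1 h2 h3 h4 h h'
    refine hr2 x hx y hy (O04_lt3 K F k f ψ μ (by rw [clsN x h1 h2, clsN y h3 h4]) ?_ h')
    rw [alN x h1 h2, alN y h3 h4]
    exact h
  have adj_symm : ∀ u v, Adj V u v → Adj V v u := fun u v h => ⟨h.1.symm, by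
    rw [Finset.pair_comm]; exact h.2⟩
  refine ⟨r, ⟨hr1, ?_⟩, c1, c2, c3, c4⟩
  intro R hR hR2 s s' hs hs'
  have hRV := hR.2.1
  by_cases hRK : R = K
  · subst hRK
    have key : ∀ z, SrcV V r R z → SrcV V k R z := by
      intro z hz
      refine ⟨hz.1, fun u hu hzu => ?_⟩
      by_contra hcon
      rcases (not_lt.1 hcon).lt_or_eq with h | h
      · have := c2 u hu z hz.1 h
        have := hz.2 u hu hzu
        omega
      · exact hzu.1 (hk hu hz.1 h).symm
    exact hks hR2 s s' (key s hs) (key s' hs')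
  by_cases hRF : R = F
  · subst hRF
    have key : ∀ z, SrcV V r R z → SrcV V f R z := by
      intro z hz
      refine ⟨hz.1, fun u hu hzu => ?_⟩
      by_contra hcon
      rcases (not_lt.1 hcon).lt_or_eq with h | h
      · have := c4 u hu z hz.1 h
        have := hz.2 u hu hzu
        omega
      · exact hzu.1 (hf hu hz.1 h).symm
    exact hfs hR2 s s' (key s hs) (key s' hs')
  -- general 2-faces
  have hnF : ¬ R ⊆ F := by
    intro h
    have := dm_lt hR (h.ssubset_of_ne hRF) hFV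
    omega
  have hnK : ¬ R ⊆ K := by
    intro h
    have := dm_lt hR (h.ssubset_of_ne hRK) hKV
    omega
  have srcF : ∀ z, SrcV V r R z → z ∉ F := by
    intro z hz hzF
    obtain ⟨w, hw, hwF⟩ := Finset.not_subset.1 hnF
    obtain ⟨ℓ, c, hℓ⟩ := hF.2.2
    have h1 : ℓ z = c := (hℓ z (hFV hzF)).2.2 hzF
    have h2 : ℓ w < c := lt_of_le_of_ne (hℓ w (hRV hw)).1 fun h => hwF ((hℓ w (hRV hw)).2.1 h)
    obtain ⟨u, hu, hu1, hu2⟩ := step_face hV hR hz.1 (-ℓ) ⟨w, hw, by
      simp only [LinearMap.neg_apply]; linarith⟩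
    simp only [LinearMap.neg_apply] at hu1
    have huF : u ∉ F := by
      intro h
      have := (hℓ u (hFV h)).2.2 h
      linarith
    have h3 := c3 u (hRV hu) huF z hzF
    have h4 := hz.2 u hu hu2
    omega
  have hadj : ∀ z z', SrcV V r R z → SrcV V r R z' → ¬ Adj V z z' := by
    intro z z' hz hz' h
    have h1 := hz.2 z' hz'.1 h
    have h2 := hz'.2 z hz.1 (adj_symm _ _ h)
    omega
  by_contra hne
  by_cases hRKn : (R ∩ K).Nonempty
  · obtain ⟨k0, hk0⟩ := hRKn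
    obtain ⟨hk0R, hk0K⟩ := Finset.mem_inter.1 hk0
    have srcK : ∀ z, SrcV V r R z → z ∈ K := by
      intro z hz
      by_contra hzK
      have hzF := srcF z hz
      have h1 := ψ1 z (hRV hz.1) hzF
      have h2 := ψ1 k0 (hKV hk0K) (hdis k0 hk0K)
      have h3 : ψ k0 = 0 := h2.2.2 hk0K
      have h4 : 0 < ψ z := lt_of_le_of_ne h1.1 fun h => hzK (h1.2.1 h.symm)
      obtain ⟨u, hu, huF, hu1, hu2⟩ := ψ2 R hR z hz.1 hzF ⟨k0, hk0R, hdis k0 hk0K, by rw [h3]; exact h4⟩
      have h5 := hz.2 u hu hu2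
      have h6 : r u < r z := by
        by_cases huK : u ∈ K
        · exact c1 u huK z (hRV hz.1) hzK
        · exact c5 u (hRV hu) z (hRV hz.1) huK huF hzK hzF hu1
      omega
    have hface := face_inter hR hK ⟨k0, hk0⟩
    have hss : R ∩ K ⊂ R := by
      refine Finset.inter_subset_left.ssubset_of_ne fun h => hnK ?_
      exact Finset.inter_eq_left.1 h
    exact hadj s s' hs hs' (O04_edge hV hface hss hR hR2
      (Finset.mem_inter.2 ⟨hs.1, srcK s hs⟩) (Finset.mem_inter.2 ⟨hs'.1, srcK s' hs'⟩) hne)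
  · have hRK' : ∀ z ∈ R, z ∉ K := fun z hz hzK => hRKn ⟨z, Finset.mem_inter.2 ⟨hz, hzK⟩⟩
    have hmin : ∀ z, SrcV V r R z → ∀ w ∈ R, w ∉ F → ψ z ≤ ψ w := by
      intro z hz w hw hwF
      by_contra hcon
      obtain ⟨u, hu, huF, hu1, hu2⟩ := ψ2 R hR z hz.1 (srcF z hz) ⟨w, hw, hwF, not_le.1 hcon⟩
      have h5 := hz.2 u hu hu2
      have h6 := c5 u (hRV hu) z (hRV hz.1) (hRK' u hu) huF (hRK' z hz.1) (srcF z hz) hu1
      omega
    have heq : ψ s' = ψ s := le_antisymm (hmin s' hs' s hs.1 (srcF s hs)) (hmin s hs s' hs'.1 (srcF s' hs'))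
    have hface := ψ3 R hR s hs.1 (srcF s hs) (hmin s hs)
    by_cases hR0 : (R.filter fun w => w ∉ F ∧ ψ w = ψ s) = R
    · have hall : ∀ w ∈ R, w ∉ F ∧ ψ w = ψ s := by
        intro w hw
        rw [← hR0] at hw
        exact (Finset.mem_filter.1 hw).2
      have key : ∀ z z', SrcV V r R z → SrcV V r R z' → μ z < μ z' → False := by
        intro z z' hz hz' h
        obtain ⟨u, hu, hu1, hu2⟩ := step_face hV hR hz'.1 (-μ) ⟨z, hz.1, by
          simp only [LinearMap.neg_apply]; linarith⟩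
        simp only [LinearMap.neg_apply] at hu1
        have h5 := hz'.2 u hu hu2
        have h6 := c6 u (hRV hu) z' (hRV hz'.1) (hRK' u hu) (hall u hu).1 (hRK' z' hz'.1)
          (hall z' hz'.1).1 (by rw [(hall u hu).2, (hall z' hz'.1).2]) (by linarith)
        omega
      rcases lt_trichotomy (μ s) (μ s') with h | h | h
      · exact key s s' hs hs' h
      · exact hne (hμ (hRV hs.1) (hRV hs'.1) h)
      · exact key s' s hs' hs h
    · have hss : (R.filter fun w => w ∉ F ∧ ψ w = ψ s) ⊂ R :=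
        (Finset.filter_subset _ _).ssubset_of_ne hR0
      exact hadj s s' hs hs' (O04_edge hV hface hss hR hR2
        (Finset.mem_filter.2 ⟨hs.1, srcF s hs, rfl⟩)
        (Finset.mem_filter.2 ⟨hs'.1, srcF s' hs', heq⟩) hne)

end Pool.Agent.LibPol19
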