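import Mathlib
import Pool.Agent.LibPol19.Defs
import Pool.Agent.LibPol19.G01
import Pool.Agent.LibPol19.G03
import Pool.Agent.LibPol19.G09
import Pool.Agent.LibPol19.O04

/-! Row O05.
Apply glue with V := R (IsVert R), K := {s}, F := {y} (faces of R by face_single; dm = 0), k = f = fun _ => 0. GoodV R r applied to the face R of R (face_self), with dm R = 2: SrcV R r R t → unique. For t, u ∈ R: Adj V t u ↔ Adj R t u (face_restrict / face_trans), so SrcV V r R = SrcV R r R.
-/

set_option autoImplicit false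

namespace Pool.Agent.LibPol19

open Finset
open scoped Classical

variable {d : ℕ} {V A B F F' K R R' S : Finset (Ed d)}


/-- O05: orders of a polygon with prescribed first and last vertex -/
theorem poly_order (hV : IsVert V) (hR : IsFace V R) (h2 : dm R = 2) {s y : Ed d} (hs : s ∈ R) (hy : y ∈ R)
    (hsy : s ≠ y) : ∃ f : Ed d → ℕ, Set.InjOn f (R : Set (Ed d)) ∧ (∀ t t', SrcV V f R t → SrcV V f R t' → t = t') ∧
      (∀ x ∈ R, x ≠ s → f s < f x) ∧ ∀ x ∈ R, x ≠ y → f x < f y := by
  have hVR := vert_sub hV hR.2.1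
  have d1 : dm ({s} : Finset (Ed d)) = 0 := dm_zero (Finset.card_singleton s)
  have d2 : dm ({y} : Finset (Ed d)) = 0 := dm_zero (Finset.card_singleton y)
  obtain ⟨r, h1, h3, _, h4, _⟩ := glue (d := d) hVR (face_single hVR hs) (by rw [d1]; omega) (face_single hVR hy)
    (by rw [d2]; omega) (Finset.disjoint_singleton.2 hsy) (fun _ => 0) (fun _ => 0)
    (by rw [Finset.coe_singleton]; exact Set.injOn_singleton _ _)
    (by rw [Finset.coe_singleton]; exact Set.injOn_singleton _ _)
    (by rw [d1]; intro h; omega) (by rw [d2]; intro h; omega)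
  have hsrc : ∀ t, SrcV V r R t → SrcV R r R t := by
    rintro t ⟨ht, h5⟩
    refine ⟨ht, fun u hu hadj => h5 u hu ⟨hadj.1, face_trans hR hadj.2⟩⟩
  refine ⟨r, h1.1, ?_, ?_, ?_⟩
  · intro t t' ht ht'
    exact h1.2 R (face_self ⟨s, hs⟩) h2 t t' (hsrc t ht) (hsrc t' ht')
  · intro x hx hxs
    exact h3 s (Finset.mem_singleton_self s) x hx (fun h => hxs (Finset.mem_singleton.1 h))
  · intro x hx hxy
    exact h4 x hx (fun h => hxy (Finset.mem_singleton.1 h)) y (Finset.mem_singleton_self y)

end Pool.Agent.LibPol19
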