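import Mathlib
import Pool.Agent.LibPol19.Defs
import Pool.Agent.LibPol19.G09
import Pool.Agent.LibPol19.O04
import Pool.Agent.LibPol19.O05
import Pool.Agent.LibPol19.S01

/-! Row S02.
V-level order by glue with K := im e K, F := im e F; k := order of K with e a first (fun p => if p = e a then 0 else 1: injective on im e K, which has at most two elements since dm ≤ 1: two_le_dm contrapositive; if you need it, card ≤ 2), hks vacuous (dm K ≤ 1). f: if dm F = 2 the function of poly_order
with first e s and last e y; if dm F = 0 then F has one element (two different points give dm ≥ 1: dm_one + dm_mono), f := 0. r' := fun x => r (e x). Good (adjX e) (F2X e) r': SrcV V r (im e R) (e s') ↔ Src (adjX e) r' R s'. injectivity from InjOn.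
-/

set_option autoImplicit false

namespace Pool.Agent.LibPol19

open Finset
open scoped Classical

variable {d : ℕ} {V A B F F' K R R' S : Finset (Ed d)} {X : Type*} [Fintype X]


/-- S02: an injective bounded function on the vertices -/
theorem S02_inj (e : X ≃ {x // x ∈ V}) : ∃ g : Ed d → ℕ, Set.InjOn g (V : Set (Ed d)) ∧ ∀ p, g p ≤ Fintype.card X := by
  refine ⟨fun p => if hp : p ∈ V then (Fintype.equivFin X (e.symm ⟨p, hp⟩) : ℕ) else 0, ?_, ?_⟩
  · intro p hp q hq hpq
    have hp' : p ∈ V := hp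
    have hq' : q ∈ V := hq
    simp only [dif_pos hp', dif_pos hq'] at hpq
    have h1 := (Fintype.equivFin X).injective (Fin.val_injective hpq)
    have h2 := e.symm.injective h1
    exact congrArg Subtype.val h2
  · intro p
    by_cases hp : p ∈ V
    · simp only [dif_pos hp]
      exact (Fintype.equivFin X (e.symm ⟨p, hp⟩)).2.le
    · simp only [dif_neg hp]
      exact Nat.zero_le _

/-- S02: two orders -/
theorem sys_ord (hV : IsVert V) (e : X ≃ {x // x ∈ V}) (K F : Finset X) (hK : IsFace V (im e K)) (hKd : dm (im e K) ≤ 1)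
    (hF : IsFace V (im e F)) (hFd : dm (im e F) = 0 ∨ dm (im e F) = 2) (hKF : Disjoint K F) {a : X} (ha : a ∈ K) {s y : X}
    (hs : s ∈ F) (hy : y ∈ F) (hsy : dm (im e F) = 2 → s ≠ y) :
    ∃ r : X → ℕ, Good (adjX e) (F2X e) r ∧ (∀ x ∈ K, ∀ z, z ∉ K → r x < r z) ∧ (∀ x ∈ K, x ≠ a → r a < r x) ∧
      Fin' r F ∧ (dm (im e F) = 2 → FstIn r F s) ∧ ∀ x ∈ F, x ≠ y → r x < r y := by
  obtain ⟨g, hg, hgN⟩ := S02_inj e
  have hinj : ∀ x x' : X, (e x : Ed d) = (e x' : Ed d) → x = x' := by
    intro x x' h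
    exact e.injective (Subtype.ext h)
  have hKV : im e K ⊆ V := im_sub e K
  have hFV : im e F ⊆ V := im_sub e F
  have hdisj : Disjoint (im e K) (im e F) := by
    rw [Finset.disjoint_left]
    intro p hp hq
    have hpV := hKV hp
    obtain ⟨x, hx⟩ : ∃ x, (e x : Ed d) = p := ⟨e.symm ⟨p, hpV⟩, by simp⟩
    rw [← hx, mem_im] at hp hq
    exact (Finset.disjoint_left.mp hKF) hp hq
  -- the order on `K`
  set k : Ed d → ℕ := fun p => if p = (e a : Ed d) then 0 else g p + 1 with hk
  have hkinj : Set.InjOn k (im e K : Set (Ed d)) := by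
    intro p hp q hq hpq
    simp only [hk] at hpq
    by_cases h1 : p = (e a : Ed d)
    · by_cases h2 : q = (e a : Ed d)
      · rw [h1, h2]
      · rw [if_pos h1, if_neg h2] at hpq
        omega
    · by_cases h2 : q = (e a : Ed d)
      · rw [if_neg h1, if_pos h2] at hpq
        omega
      · rw [if_neg h1, if_neg h2] at hpq
        exact hg (hKV hp) (hKV hq) (by omega)
  -- the order on `F`
  obtain ⟨f, hf1, hf2, hf3, hf4⟩ : ∃ f : Ed d → ℕ, Set.InjOn f (im e F : Set (Ed d)) ∧
      (dm (im e F) = 2 → ∀ t t', SrcV V f (im e F) t → SrcV V f (im e F) t' → t = t') ∧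
      (dm (im e F) = 2 → ∀ x ∈ im e F, x ≠ (e s : Ed d) → f (e s) < f x) ∧
      ∀ x ∈ im e F, x ≠ (e y : Ed d) → f x < f (e y) := by
    by_cases h2 : dm (im e F) = 2
    · obtain ⟨f, h3, h4, h5, h6⟩ := poly_order hV hF h2 (s := (e s : Ed d)) (y := (e y : Ed d))
        ((mem_im e F s).mpr hs) ((mem_im e F y).mpr hy) (fun h => hsy h2 (hinj _ _ h))
      exact ⟨f, h3, fun _ => h4, fun _ => h5, h6⟩
    · refine ⟨fun p => if p = (e y : Ed d) then Fintype.card X + 1 else g p, ?_, fun h => absurd h h2, fun h => absurd h h2, ?_⟩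
      · intro p hp q hq hpq
        simp only at hpq
        have hp1 := hgN p
        have hq1 := hgN q
        by_cases h3 : p = (e y : Ed d)
        · by_cases h4 : q = (e y : Ed d)
          · rw [h3, h4]
          · rw [if_pos h3, if_neg h4] at hpq
            omega
        · by_cases h4 : q = (e y : Ed d)
          · rw [if_neg h3, if_pos h4] at hpq
            omega
          · rw [if_neg h3, if_neg h4] at hpq
            exact hg (hFV hp) (hFV hq) hpq
      · intro x hx hxy
        have hx1 := hgN x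
        simp only [if_neg hxy, if_true]
        omega
  obtain ⟨r, hr1, hr2, hr3, hr4, hr5⟩ := glue hV hK (by omega) hF (by omega) hdisj k f hkinj hf1 (fun h => by omega) hf2
  refine ⟨fun x => r (e x), ⟨?_, ?_⟩, ?_, ?_, ?_, ?_, ?_⟩
  · intro x x' hxx
    exact hinj x x' (hr1.1 (e x).2 (e x').2 hxx)
  · intro R hR t t' ht ht'
    have hsrc : ∀ t, Src (adjX e) (fun x => r (e x)) R t → SrcV V r (im e R) (e t) := by
      intro t ht
      refine ⟨(mem_im e R t).mpr ht.1, ?_⟩
      intro u hu hadj
      have huV := im_sub e R hu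
      obtain ⟨x, hx⟩ : ∃ x, (e x : Ed d) = u := ⟨e.symm ⟨u, huV⟩, by simp⟩
      rw [← hx] at hu hadj ⊢
      exact ht.2 x ((mem_im e R x).mp hu) hadj
    exact hinj t t' (hr1.2 (im e R) hR.1 hR.2 _ _ (hsrc t ht) (hsrc t' ht'))
  · intro x hx z hz
    exact hr2 _ ((mem_im e K x).mpr hx) _ (e z).2 (fun h => hz ((mem_im e K z).mp h))
  · intro x hx hxa
    refine hr3 _ ((mem_im e K a).mpr ha) _ ((mem_im e K x).mpr hx) ?_
    have h1 : (e x : Ed d) ≠ (e a : Ed d) := fun h => hxa (hinj _ _ h)
    simp only [hk, if_true, if_neg h1]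
    omega
  · intro x hx y' hy'
    exact hr4 _ (e x).2 (fun h => hx ((mem_im e F x).mp h)) _ ((mem_im e F y').mpr hy')
  · intro h2 u hu hus
    exact hr5 _ ((mem_im e F s).mpr hs) _ ((mem_im e F u).mpr hu)
      (hf3 h2 _ ((mem_im e F u).mpr hu) (fun h => hus (hinj _ _ h)))
  · intro x hx hxy
    exact hr5 _ ((mem_im e F x).mpr hx) _ ((mem_im e F y).mpr hy)
      (hf4 _ ((mem_im e F x).mpr hx) (fun h => hxy (hinj _ _ h)))

end Pool.Agent.LibPol19
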