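import Mathlib
import Pool.Agent.LibPol19.Defs
import Pool.Agent.LibPol19.G03
import Pool.Agent.LibPol19.G07
import Pool.Agent.LibPol19.G09
import Pool.Agent.LibPol19.G10
import Pool.Agent.LibPol19.G11
import Pool.Agent.LibPol19.G13
import Pool.Agent.LibPol19.G15
import Pool.Agent.LibPol19.S01
import Pool.Agent.LibPol19.S02

/-! Row S03.
Field by field. two: filter_card + polygon. inter: two_inter. span: simple_face with I = {e u, e w}, simple_dm: dm = card I = 2. deg: dm_le_card for A = V (face_self), dm V = finrank ⊤ = d, nb V v ∩ V = nb V v. ord_pt: sys_ord with K = {a, b} (if b = a: {a}), F = {c}; ord_face: F = R.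
dm (im e {a}) = 0, dm (im e {a,b}) = 1 by im_card; IsFace V (im e {a, b}) is Adj.
-/

set_option autoImplicit false

namespace Pool.Agent.LibPol19

open Finset
open scoped Classical

variable {d : ℕ} {V A B F F' K R R' S : Finset (Ed d)} {X : Type*} [Fintype X]


theorem S03_pair (e : X ≃ {x // x ∈ V}) (a b : X) : im e {a, b} = {(e a : Ed d), (e b : Ed d)} := by
  ext z
  constructor
  · intro hz
    have h1 := im_sub e {a, b} hz
    obtain ⟨x, hx⟩ := e.surjective ⟨z, h1⟩
    have h2 : (e x : Ed d) = z := by rw [hx]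
    rw [← h2, mem_im, mem_insert, mem_singleton] at hz
    rw [← h2, mem_insert, mem_singleton]
    rcases hz with rfl | rfl
    · exact Or.inl rfl
    · exact Or.inr rfl
  · intro hz
    rw [mem_insert, mem_singleton] at hz
    rcases hz with rfl | rfl
    · exact (mem_im e _ _).2 (mem_insert_self _ _)
    · exact (mem_im e _ _).2 (mem_insert_of_mem (mem_singleton_self _))

theorem S03_one (e : X ≃ {x // x ∈ V}) (a : X) : im e {a} = {(e a : Ed d)} := by
  have h1 := S03_pair e a a
  rwa [pair_eq_singleton, pair_eq_singleton] at h1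

theorem S03_inj (e : X ≃ {x // x ∈ V}) {a b : X} (h : (e a : Ed d) = e b) : a = b :=
  e.injective (Subtype.ext h)

theorem S03_K (hV : IsVert V) (e : X ≃ {x // x ∈ V}) {a b : X} (hab : b = a ∨ adjX e a b) :
    IsFace V (im e {a, b}) ∧ dm (im e {a, b}) ≤ 1 := by
  by_cases h : b = a
  · subst h
    rw [pair_eq_singleton, S03_one]
    exact ⟨face_single hV (e b).2, by rw [dm_zero (card_singleton _)]; exact Nat.zero_le _⟩
  · have h1 := hab.resolve_left h
    refine ⟨?_, ?_⟩
    · rw [S03_pair]
      exact h1.2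
    · rw [dm_one (by rw [im_card, card_pair (Ne.symm h)])]

theorem S03_Fst {r : X → ℕ} {a b : X} (h1 : ∀ x ∈ ({a, b} : Finset X), ∀ z, z ∉ ({a, b} : Finset X) → r x < r z)
    (h2 : ∀ x ∈ ({a, b} : Finset X), x ≠ a → r a < r x) : Fst r a b := by
  refine ⟨fun x hx => ?_, fun x hxa hxb => ?_⟩
  · by_cases h : x ∈ ({a, b} : Finset X)
    · exact h2 x h hx
    · exact h1 a (mem_insert_self _ _) x h
  · refine h1 b (mem_insert_of_mem (mem_singleton_self _)) x ?_
    rw [mem_insert, mem_singleton]
    rintro (h | h)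
    · exact hxa h
    · exact hxb h

/-- S03: the system of the 2-faces -/
theorem isSys (hV : IsVert V) (hfull : Full V) (hd : 3 ≤ d) (e : X ≃ {x // x ∈ V}) : IsSys d (adjX e) (F2X e) where
  symm := fun x y h => adj_symm h
  irrefl := fun x h => h.1 rfl
  two := by
    intro R hR x hx
    rw [filter_card]
    exact polygon hV hR.1 hR.2 ((mem_im e R x).2 hx)
  nonempty := by
    intro R hR
    have h1 := hR.1.1
    rw [← card_pos, im_card, card_pos] at h1
    exact h1
  inter := by
    intro R R' hR hR' hne u w hu hu' hw hw' huw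
    obtain ⟨h1, h2⟩ := two_inter hV hR.1 hR.2 hR'.1 hR'.2 (fun h => hne (im_inj e h))
      ((mem_im e R u).2 hu) ((mem_im e R' u).2 hu') ((mem_im e R w).2 hw) ((mem_im e R' w).2 hw')
      (fun h => huw (S03_inj e h))
    refine ⟨h1, fun z hz hz' => ?_⟩
    rcases h2 _ ((mem_im e R z).2 hz) ((mem_im e R' z).2 hz') with h | h
    · exact Or.inl (S03_inj e h)
    · exact Or.inr (S03_inj e h)
  span := by
    intro x hx u w xu xw huw
    rw [nbr_card] at hx
    have hI : ({(e u : Ed d), (e w : Ed d)} : Finset (Ed d)) ⊆ nb V (e x : Ed d) := by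
      intro z hz
      rw [mem_insert, mem_singleton] at hz
      rcases hz with rfl | rfl
      · exact mem_filter.2 ⟨(e u).2, xu⟩
      · exact mem_filter.2 ⟨(e w).2, xw⟩
    obtain ⟨F, hF, hxF, hFI⟩ := simple_face hV hfull (e x).2 hx hI
    have hdm := simple_dm hV hfull hx hF hxF
    rw [hFI, card_pair (fun h => huw (S03_inj e h))] at hdm
    obtain ⟨R, rfl⟩ := im_surj e hF.2.1
    refine ⟨R, ⟨hF, hdm⟩, (mem_im e R x).1 hxF, (mem_im e R u).1 ?_, (mem_im e R w).1 ?_⟩
    · have h1 : (e u : Ed d) ∈ nb V (e x : Ed d) ∩ im e R := by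
        rw [hFI]
        exact mem_insert_self _ _
      exact (mem_inter.1 h1).2
    · have h1 : (e w : Ed d) ∈ nb V (e x : Ed d) ∩ im e R := by
        rw [hFI]
        exact mem_insert_of_mem (mem_singleton_self _)
      exact (mem_inter.1 h1).2
  deg := by
    intro x
    rw [nbr_card]
    have h1 := dm_le_card hV (face_self ⟨_, (e x).2⟩) (e x).2
    have h2 : dm V = d := by
      unfold dm
      have h3 : vectorSpan ℝ (V : Set (Ed d)) = ⊤ := hfull
      rw [h3, finrank_top, finrank_euclideanSpace_fin]
    rw [h2] at h1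
    exact h1.trans (card_le_card inter_subset_left)
  ord_pt := by
    intro a b c hab hca hcb
    obtain ⟨hK, hKd⟩ := S03_K hV e hab
    have hF : IsFace V (im e {c}) := by
      rw [S03_one]
      exact face_single hV (e c).2
    have hFd : dm (im e {c}) = 0 := dm_zero (by rw [im_card, card_singleton])
    have hKF : Disjoint ({a, b} : Finset X) {c} := by
      rw [disjoint_singleton_right, mem_insert, mem_singleton]
      rintro (h | h)
      · exact hca h
      · exact hcb h
    obtain ⟨r, h1, h2, h3, h4, -, -⟩ := sys_ord hV e {a, b} {c} hK hKd hF (Or.inl hFd) hKF (mem_insert_self _ _)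
      (mem_singleton_self c) (mem_singleton_self c) (fun h => by rw [hFd] at h; exact absurd h (by norm_num))
    refine ⟨r, h1, S03_Fst h2 h3, fun x hx => h4 x ?_ c (mem_singleton_self _)⟩
    rw [mem_singleton]
    exact hx
  ord_face := by
    intro a b R s y hab hR haR hbR hs hy hsy
    obtain ⟨hK, hKd⟩ := S03_K hV e hab
    have hKF : Disjoint ({a, b} : Finset X) R := by
      rw [disjoint_left]
      intro x hx
      rw [mem_insert, mem_singleton] at hx
      rcases hx with rfl | rfl
      · exact haR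
      · exact hbR
    obtain ⟨r, h1, h2, h3, h4, h5, h6⟩ := sys_ord hV e {a, b} R hK hKd hR.1 (Or.inr hR.2) hKF (mem_insert_self _ _)
      hs hy (fun _ => hsy)
    refine ⟨r, h1, S03_Fst h2 h3, h4, h5 hR.2, fun x hx => ?_⟩
    by_cases h : x ∈ R
    · exact h6 x h hx
    · exact h4 x h y hy

end Pool.Agent.LibPol19
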