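import Mathlib
import Pool.Agent.LibPol19.Defs
import Pool.Agent.LibPol19.G03
import Pool.Agent.LibPol19.G07
import Pool.Agent.LibPol19.G13
import Pool.Agent.LibPol19.G14
import Pool.Agent.LibPol19.G15
import Pool.Agent.LibPol19.G20
import Pool.Agent.LibPol19.S01

/-! Row S04.
Field by field: deg: dm_le_card; deg_simple: simple_dm; ex: simple_face + simple_dm (I ⊆ nbr, I.card = d - 1, so dm + 1 = d); sub: face_sub; conn: balinski with S.card ≤ 3 < 4 ≤ d - 1 = dm, transport the path along e (Relation.ReflTransGen.lift or head_induction);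
card: x ∈ F has at least d - 1 ≥ 4 neighbours in F.
-/

set_option autoImplicit false

namespace Pool.Agent.LibPol19

open Finset
open scoped Classical

variable {d : ℕ} {V A B F F' K R R' S : Finset (Ed d)} {X : Type*} [Fintype X]


omit [Fintype X] in
theorem S04_mem (e : X ≃ {x // x ∈ V}) {R : Finset X} {y : Ed d} (hy : y ∈ im e R) :
    ∃ u ∈ R, (e u : Ed d) = y := by
  unfold im at hy
  obtain ⟨u, hu, h⟩ := Finset.mem_map.1 hy
  exact ⟨u, hu, h⟩

theorem S04_nb {v u : Ed d} (h : u ∈ nb V v) : Adj V v u := (Finset.mem_filter.1 h).2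

/-- S04: the system of the facets -/
theorem isFac (hV : IsVert V) (hfull : Full V) (hd : 5 ≤ d) (e : X ≃ {x // x ∈ V}) :
    IsFac d (adjX e) (F2X e) (FcX e) := by
  have hdeg : ∀ F, FcX e F → ∀ x ∈ F, d - 1 ≤ (F.filter fun u => adjX e x u).card := by
    rintro F ⟨h1, h2⟩ x hx
    rw [filter_card]
    have h3 := dm_le_card hV h1 ((mem_im e F x).2 hx)
    omega
  refine ⟨hdeg, ?_, ?_, ?_, ?_, ?_⟩
  · rintro F ⟨h1, h2⟩ x hx hs
    rw [nbr_card] at hs
    rw [filter_card]
    have h3 := simple_dm hV hfull hs h1 ((mem_im e F x).2 hx)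
    omega
  · intro x hs I hI hcard
    rw [nbr_card] at hs
    have hIn : im e I ⊆ nb V (e x : Ed d) := by
      intro y hy
      obtain ⟨u, hu, rfl⟩ := S04_mem e hy
      exact Finset.mem_filter.2 ⟨(e u).2, (Finset.mem_filter.1 (hI hu)).2⟩
    obtain ⟨F0, hF0, hx0, hnb⟩ := simple_face hV hfull (e x).2 hs hIn
    obtain ⟨F, rfl⟩ := im_surj e hF0.2.1
    have h3 := simple_dm hV hfull hs hF0 hx0
    rw [hnb, im_card, hcard] at h3
    refine ⟨F, ⟨hF0, by omega⟩, (mem_im e F x).1 hx0, ?_⟩
    ext u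
    rw [Finset.mem_filter, ← mem_im e I u, ← hnb, Finset.mem_inter, mem_im]
    constructor
    · rintro ⟨h4, h5⟩
      exact ⟨Finset.mem_filter.2 ⟨(e u).2, h5⟩, h4⟩
    · rintro ⟨h4, h5⟩
      exact ⟨h5, S04_nb h4⟩
  · rintro F R ⟨h1, h2⟩ ⟨h3, h4⟩ x hxF hxR hall
    have h5 : im e R ⊆ im e F := by
      refine face_sub hV h3 h1 ((mem_im e R x).2 hxR) ((mem_im e F x).2 hxF) ?_
      intro y hy
      obtain ⟨hy1, hy2⟩ := Finset.mem_inter.1 hy
      obtain ⟨u, hu, rfl⟩ := S04_mem e hy2
      exact (mem_im e F u).2 (hall u hu (S04_nb hy1))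
    intro u hu
    exact (mem_im e F u).1 (h5 ((mem_im e R u).2 hu))
  · rintro F ⟨h1, h2⟩ S hS x y hx hxS hy hyS
    have hcard : (im e S).card < dm (im e F) := by
      rw [im_card]
      omega
    have hpath := balinski hV h1 hcard ((mem_im e F x).2 hx) (fun h => hxS ((mem_im e S x).1 h))
      ((mem_im e F y).2 hy) (fun h => hyS ((mem_im e S y).1 h))
    have key : ∀ q, Relation.ReflTransGen
        (fun u w => Adj V u w ∧ w ∈ im e F ∧ w ∉ im e S) (e x : Ed d) q → ∀ z : X, (e z : Ed d) = q →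
        Relation.ReflTransGen (fun u w => adjX e u w ∧ w ∈ F ∧ w ∉ S) x z := by
      intro q hq
      induction hq with
      | refl =>
        intro z hz
        have h5 : z = x := e.injective (Subtype.ext hz)
        rw [h5]
      | @tail b c _ hstep ih =>
        intro z hz
        obtain ⟨hadj, hcF, hcS⟩ := hstep
        have hbV : b ∈ V := hadj.2.2.1 (Finset.mem_insert_self b _)
        have hb : (e (e.symm ⟨b, hbV⟩) : Ed d) = b := by rw [Equiv.apply_symm_apply]
        refine (ih _ hb).tail ⟨?_, ?_, ?_⟩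
        · unfold adjX
          rw [hb, hz]
          exact hadj
        · rw [← mem_im e F z, hz]
          exact hcF
        · rw [← mem_im e S z, hz]
          exact hcS
    exact key _ hpath y rfl
  · intro F hF
    obtain ⟨y, hy⟩ := hF.1.1
    obtain ⟨x, hx, -⟩ := S04_mem e hy
    have h3 := hdeg F hF x hx
    have h4 := Finset.card_filter_le F fun u => adjX e x u
    omega

end Pool.Agent.LibPol19
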