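import Mathlib
import Pool.Agent.LibPol19.Defs
import Pool.Agent.LibPol19.C18
import Pool.Agent.LibPol19.S01
import Pool.Agent.LibPol19.S03
import Pool.Agent.LibPol19.S04

/-! Row N01.
adjX e = adjX e' by funext, propext; Pr d (adjX e) (F2X e) (F2X e') a b c from isSys (rewrite adjX e' to adjX e), hub by nbr_card; facets_common.
-/

set_option autoImplicit false

namespace Pool.Agent.LibPol19

open Finset
open scoped Classical

variable {d : ℕ} {V V' : Finset (Ed d)} {P Q : Set (Ed d)}


/-- N01: the facets coincide -/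
theorem facets_eq {X : Type} [Fintype X] (hd : 5 ≤ d) (hV : IsVert V) (hfull : Full V) (hV' : IsVert V') (hfull' : Full V')
    (e : X ≃ {x // x ∈ V}) (e' : X ≃ {x // x ∈ V'}) (hadj : ∀ u w, adjX e u w ↔ adjX e' u w) {a b c : X} (hab : a ≠ b)
    (hac : a ≠ c) (hbc : b ≠ c) (hub : ∀ x, x ≠ a → x ≠ b → x ≠ c → (nb V (e x : Ed d)).card = d)
    (hh : adjX e a b ∨ adjX e b c ∨ adjX e a c) (F : Finset X) : FcX e F ↔ FcX e' F := by
  have hadj' : adjX e = adjX e' := by
    funext u w
    exact propext (hadj u w)
  have hPr : Pr d (adjX e) (F2X e) (F2X e') a b c :=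
    { s := isSys hV hfull (by omega) e
      s' := by
        rw [hadj']
        exact isSys hV' hfull' (by omega) e'
      hd := by omega
      hab := hab
      hac := hac
      hbc := hbc
      hub := fun x h1 h2 h3 => by
        rw [nbr_card]
        exact hub x h1 h2 h3 }
  exact facets_common hPr hd (isFac hV hfull hd e) (by rw [hadj']; exact isFac hV' hfull' hd e') hh F

end Pool.Agent.LibPol19
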