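import Mathlib
import Pool.Agent.LibPol19.Defs
import Pool.Agent.LibPol19.G16b
import Pool.Agent.LibPol19.S01

/-! Row S05.
face_iff with A := im e A; facets of V are the im e F with FcX e F (im_surj); Nonempty of the image.
-/

set_option autoImplicit false

namespace Pool.Agent.LibPol19

open Finset
open scoped Classical

variable {d : ℕ} {V A B F F' K R R' S : Finset (Ed d)} {X : Type*} [Fintype X]


theorem S05_ex (e : X ≃ {x // x ∈ V}) {u : Ed d} (hu : u ∈ V) : ∃ x : X, (e x : Ed d) = u :=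
  ⟨e.symm ⟨u, hu⟩, by rw [e.apply_symm_apply]⟩

theorem S05_sub (e : X ≃ {x // x ∈ V}) {A F : Finset X} : im e A ⊆ im e F ↔ A ⊆ F := by
  constructor
  · intro h x hx
    rw [← mem_im e]
    exact h ((mem_im e A x).2 hx)
  · intro h u hu
    obtain ⟨x, rfl⟩ := S05_ex e (im_sub e A hu)
    rw [mem_im] at hu ⊢
    exact h hu

/-- S05: all faces from the facets -/
theorem face_im_iff (hfull : Full V) (e : X ≃ {x // x ∈ V}) (A : Finset X) : IsFace V (im e A) ↔ A.Nonempty ∧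
    ∀ x, (∀ F, FcX e F → A ⊆ F → x ∈ F) → x ∈ A := by
  rw [face_iff hfull]
  constructor
  · rintro ⟨⟨u, hu⟩, -, h⟩
    refine ⟨?_, fun x hx => ?_⟩
    · obtain ⟨x, rfl⟩ := S05_ex e (im_sub e A hu)
      exact ⟨x, (mem_im e A x).1 hu⟩
    · rw [← mem_im e]
      refine h _ (e x).2 fun F hF hd hAF => ?_
      obtain ⟨F', rfl⟩ := im_surj e hF.2.1
      rw [mem_im]
      exact hx F' ⟨hF, hd⟩ ((S05_sub e).1 hAF)
  · rintro ⟨⟨y, hy⟩, h⟩
    refine ⟨⟨_, (mem_im e A y).2 hy⟩, im_sub e A, fun u hu hF => ?_⟩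
    obtain ⟨x, rfl⟩ := S05_ex e hu
    rw [mem_im]
    refine h x fun F hFc hAF => ?_
    rw [← mem_im e]
    exact hF _ hFc.1 hFc.2 ((S05_sub e).2 hAF)

end Pool.Agent.LibPol19
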