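import Mathlib
import Pool.Agent.LibPol19.Defs
import Pool.Agent.LibPol19.G07
import Pool.Agent.LibPol19.N01
import Pool.Agent.LibPol19.S01
import Pool.Agent.LibPol19.S03
import Pool.Agent.LibPol19.S05

/-! Row N02.
X := {x // x ∈ V}, e0 := Equiv.refl, e. The three hubs: Finset.card_eq_three for the filter: a, b, c ∈ V; for other x: (nb V x).card ≤ d by the filter and ≥ d by dm_le_card (IsSys.deg), so = d. Two adjacent hubs among them. face_im_iff for e0 (im e0 A = A.map subtype) and for e; facets_eq.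
-/

set_option autoImplicit false

namespace Pool.Agent.LibPol19

open Finset
open scoped Classical

variable {d : ℕ} {V V' : Finset (Ed d)} {P Q : Set (Ed d)}


/-- N02: the lattices coincide -/
theorem main_V (hd : 5 ≤ d) (hV : IsVert V) (hfull : Full V) (hV' : IsVert V') (hfull' : Full V')
    (e : {x // x ∈ V} ≃ {x // x ∈ V'}) (hadj : ∀ u w : {x // x ∈ V}, Adj V u w ↔ Adj V' (e u : Ed d) (e w : Ed d))
    (h3 : (V.filter fun v => d < (nb V v).card).card = 3)
    (hh : ∃ u w, u ∈ V ∧ w ∈ V ∧ d < (nb V u).card ∧ d < (nb V w).card ∧ Adj V u w) (A : Finset {x // x ∈ V}) :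
    IsFace V (A.map (Function.Embedding.subtype _)) ↔
      IsFace V' (A.map (e.toEmbedding.trans (Function.Embedding.subtype _))) := by
  obtain ⟨e0, he0⟩ : ∃ e0 : {x // x ∈ V} ≃ {x // x ∈ V}, e0 = Equiv.refl _ := ⟨_, rfl⟩
  have hv : ∀ x, e0 x = x := fun x => by rw [he0]; rfl
  have hcard : ∀ x : {x // x ∈ V}, d ≤ (nb V (x : Ed d)).card := fun x => by
    have h1 := (isSys hV hfull (by omega : 3 ≤ d) e0).deg x
    rw [nbr_card, hv] at h1
    exact h1
  obtain ⟨a0, b0, c0, hab, hac, hbc, hf⟩ := Finset.card_eq_three.mp h3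
  have hmem : ∀ x, x ∈ V → d < (nb V x).card → x = a0 ∨ x = b0 ∨ x = c0 := fun x h1 h2 => by
    have h4 : x ∈ V.filter fun v => d < (nb V v).card := Finset.mem_filter.mpr ⟨h1, h2⟩
    rw [hf] at h4
    simpa using h4
  have hmem' : ∀ x, (x = a0 ∨ x = b0 ∨ x = c0) → x ∈ V := fun x h1 => by
    have h4 : x ∈ V.filter fun v => d < (nb V v).card := by
      rw [hf]
      simpa using h1
    exact (Finset.mem_filter.mp h4).1
  obtain ⟨a, ha⟩ : ∃ a : {x // x ∈ V}, (a : Ed d) = a0 := ⟨⟨a0, hmem' a0 (Or.inl rfl)⟩, rfl⟩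
  obtain ⟨b, hb⟩ : ∃ b : {x // x ∈ V}, (b : Ed d) = b0 := ⟨⟨b0, hmem' b0 (Or.inr (Or.inl rfl))⟩, rfl⟩
  obtain ⟨c, hc⟩ : ∃ c : {x // x ∈ V}, (c : Ed d) = c0 := ⟨⟨c0, hmem' c0 (Or.inr (Or.inr rfl))⟩, rfl⟩
  have hne : ∀ {x y : {x // x ∈ V}} {p q : Ed d}, (x : Ed d) = p → (y : Ed d) = q → p ≠ q → x ≠ y := by
    rintro x y p q rfl rfl h rfl
    exact h rfl
  have hub : ∀ x : {x // x ∈ V}, x ≠ a → x ≠ b → x ≠ c → (nb V (e0 x : Ed d)).card = d := by
    intro x h1 h2 h3
    rw [hv]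
    refine le_antisymm ?_ (hcard x)
    by_contra h4
    push Not at h4
    rcases hmem x x.2 h4 with h5 | h5 | h5
    · exact h1 (Subtype.ext (h5.trans ha.symm))
    · exact h2 (Subtype.ext (h5.trans hb.symm))
    · exact h3 (Subtype.ext (h5.trans hc.symm))
  have hsymm : ∀ u w : Ed d, Adj V u w → Adj V w u := fun u w h => ⟨h.1.symm, by
    rw [Finset.pair_comm]
    exact h.2⟩
  have hh' : adjX e0 a b ∨ adjX e0 b c ∨ adjX e0 a c := by
    obtain ⟨u, w, hu, hw, hdu, hdw, huw⟩ := hh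
    unfold adjX
    rw [hv, hv, hv, ha, hb, hc]
    rcases hmem u hu hdu with rfl | rfl | rfl <;> rcases hmem w hw hdw with rfl | rfl | rfl
    · exact absurd rfl huw.1
    · exact Or.inl huw
    · exact Or.inr (Or.inr huw)
    · exact Or.inl (hsymm _ _ huw)
    · exact absurd rfl huw.1
    · exact Or.inr (Or.inl huw)
    · exact Or.inr (Or.inr (hsymm _ _ huw))
    · exact Or.inr (Or.inl (hsymm _ _ huw))
    · exact absurd rfl huw.1
  have key := facets_eq hd hV hfull hV' hfull' e0 e (fun u w => by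
    unfold adjX
    rw [hv, hv]
    exact hadj u w) (hne ha hb hab) (hne ha hc hac) (hne hb hc hbc) hub hh'
  have h1 := face_im_iff hfull e0 A
  have h2 := face_im_iff hfull' e A
  have h3 : A.map (Function.Embedding.subtype _) = im e0 A := by
    rw [he0]
    rfl
  have h4 : A.map (e.toEmbedding.trans (Function.Embedding.subtype _)) = im e A := rfl
  rw [h3, h4, h1, h2]
  simp only [key]

end Pool.Agent.LibPol19
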