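import Mathlib
import Pool.Agent.LibPol19.Defs

/-! Row T01.
P = convexHull S. V := the finset of the v ∈ S with v ∉ convexHull (S \ {v}) (S.erase v). P = convexHull V: among the subsets S' of S with convexHull S' = P take a minimal one V (Finset.exists_minimal / strong induction: if v ∈ convexHull (S'.erase v) then convexHull (S'.erase v) = convexHull S' and recurse). IsVert: v ∉ convexHull (V.erase v), which is compact and convex: geometric_hahn_banach gives a continuous linear f and s with
f w < s < f v for w ∈ V.erase v (if V.erase v = ∅ trivial).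
-/

set_option autoImplicit false

namespace Pool.Agent.LibPol19

open Finset
open scoped Classical

variable {d : ℕ} {V V' : Finset (Ed d)} {P Q : Set (Ed d)}

/-- T01: the vertices of a polytope -/
theorem exists_vert (h : ∃ S : Finset (Ed d), P = convexHull ℝ (S : Set (Ed d))) :
    ∃ V : Finset (Ed d), IsVert V ∧ P = convexHull ℝ (V : Set (Ed d)) := by
  obtain ⟨S, hS⟩ := h
  obtain ⟨V, hV, hmin⟩ := Finset.exists_min_image
    (S.powerset.filter (fun V : Finset (Ed d) => P = convexHull ℝ (V : Set (Ed d)))) Finset.card
    ⟨S, Finset.mem_filter.2 ⟨Finset.mem_powerset_self S, hS⟩⟩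
  obtain ⟨hVS, hVP⟩ := Finset.mem_filter.1 hV
  refine ⟨V, ?_, hVP⟩
  intro v hv
  have hnot : v ∉ convexHull ℝ ((V.erase v : Finset (Ed d)) : Set (Ed d)) := by
    intro hmem
    have h1 : convexHull ℝ ((V.erase v : Finset (Ed d)) : Set (Ed d)) = convexHull ℝ (V : Set (Ed d)) := by
      apply Set.Subset.antisymm
      · exact convexHull_mono (by exact_mod_cast Finset.erase_subset v V)
      · apply convexHull_min _ (convex_convexHull ℝ _)
        intro w hw
        by_cases hwv : w = v
        · rw [hwv]; exact hmem
        · exact subset_convexHull ℝ _ (by exact_mod_cast Finset.mem_erase.2 ⟨hwv, hw⟩)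
    have h2 := hmin (V.erase v) (Finset.mem_filter.2
      ⟨Finset.mem_powerset.2 ((Finset.erase_subset v V).trans (Finset.mem_powerset.1 hVS)),
        by rw [h1]; exact hVP⟩)
    have h3 := Finset.card_erase_lt_of_mem hv
    omega
  have hcl : IsClosed (convexHull ℝ ((V.erase v : Finset (Ed d)) : Set (Ed d))) :=
    Set.Finite.isClosed_convexHull ℝ (V.erase v).finite_toSet
  obtain ⟨f, u, h1, h2⟩ := geometric_hahn_banach_closed_point
    (convex_convexHull ℝ ((V.erase v : Finset (Ed d)) : Set (Ed d))) hcl hnot
  refine ⟨f.toLinearMap, fun w hw hwv => ?_⟩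
  exact (h1 w (subset_convexHull ℝ _ (by exact_mod_cast Finset.mem_erase.2 ⟨hwv, hw⟩))).trans h2

end Pool.Agent.LibPol19
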