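import Mathlib
import Pool.Agent.LibPol19.Defs

/-! Row T03.
hull_sub: if v ∈ A ⊆ convexHull B, v ∈ V: the functional exposing v: if v ∉ B all points of B have ℓ < ℓ v, so all of convexHull B (convexHull_min with {x | ℓ x < ℓ v} convex): contradiction. hull_span: direction of affineSpan_convexHull. full_of: affineSpan ℝ V = ⊤, direction_top; V nonempty since the affine span of ∅ is ⊥ ≠ ⊤ (Ed d is nonempty).
-/

set_option autoImplicit false

namespace Pool.Agent.LibPol19

open Finset
open scoped Classical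

variable {d : ℕ} {V V' : Finset (Ed d)} {P Q : Set (Ed d)}

/-- T03: inclusion -/
theorem hull_sub (hV : IsVert V) {A B : Finset (Ed d)} (hA : A ⊆ V) (hB : B ⊆ V) :
    convexHull ℝ (A : Set (Ed d)) ⊆ convexHull ℝ (B : Set (Ed d)) ↔ A ⊆ B := by
  constructor
  · intro h v hv
    by_contra hvB
    obtain ⟨ℓ, hℓ⟩ := hV v (hA hv)
    have h1 : v ∈ convexHull ℝ (B : Set (Ed d)) := h (subset_convexHull ℝ _ (mem_coe.2 hv))
    have h2 : convexHull ℝ (B : Set (Ed d)) ⊆ {x | ℓ x < ℓ v} := by
      refine convexHull_min ?_ (convex_halfSpace_lt ℓ.isLinear (ℓ v))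
      intro w hw
      refine hℓ w (hB (mem_coe.1 hw)) fun he => ?_
      subst he
      exact hvB (mem_coe.1 hw)
    have h3 : ℓ v < ℓ v := h2 h1
    exact lt_irrefl _ h3
  · intro h
    exact convexHull_mono (coe_subset.2 h)

/-- T04: dimension -/
theorem hull_span (A : Finset (Ed d)) : vectorSpan ℝ (convexHull ℝ (A : Set (Ed d))) = vectorSpan ℝ (A : Set (Ed d)) := by
  rw [← direction_affineSpan, ← direction_affineSpan, affineSpan_convexHull]

theorem full_of (hP : P = convexHull ℝ (V : Set (Ed d))) (h : affineSpan ℝ P = ⊤) : Full V ∧ V.Nonempty := by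
  rw [hP, affineSpan_convexHull] at h
  refine ⟨?_, ?_⟩
  · unfold Full
    rw [← direction_affineSpan, h, AffineSubspace.direction_top]
  · by_contra hne
    rw [not_nonempty_iff_eq_empty] at hne
    rw [hne, coe_empty, AffineSubspace.span_empty] at h
    exact AffineSubspace.bot_ne_top ℝ (Ed d) (Ed d) h

end Pool.Agent.LibPol19
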