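import Mathlib
import Pool.Agent.LibPol19.Defs
import Pool.Agent.LibPol19.G09
import Pool.Agent.LibPol19.T02
import Pool.Agent.LibPol19.T03

/-! Row T05.
exposed_single: ←: face {v} (functional of IsVert), convexHull {v} = {v}. →: hull_face: {v} = convexHull A, A ⊆ {v} nonempty. edges_ncard: F ↔ face A with F = convexHull A (hull_face, face_hull; injective by hull_sub), finrank = 1 ↔ card A = 2 (dm A = 1; see two_le_dm_T), v ∈ F ↔ v ∈ A (hull_sub with {v}). So F ↦ the other element: the set is the image of nb V v under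
u ↦ convexHull {v, u}, injective: Set.ncard_image_of_injOn, Set.ncard_coe_finset.
-/

set_option autoImplicit false

namespace Pool.Agent.LibPol19

open Finset
open scoped Classical

variable {d : ℕ} {V V' : Finset (Ed d)} {P Q : Set (Ed d)}


/-- T05: vertices and edges -/
theorem exposed_single (hV : IsVert V) (hP : P = convexHull ℝ (V : Set (Ed d))) (v : Ed d) :
    IsExposed ℝ P {v} ↔ v ∈ V := by
  constructor
  · intro h
    obtain ⟨A, hA, hAv⟩ := hull_face hP (F := {v}) ⟨h, Set.singleton_nonempty v⟩
    obtain ⟨a, ha⟩ := hA.1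
    have h1 : a ∈ convexHull ℝ (A : Set (Ed d)) := subset_convexHull ℝ _ (Finset.mem_coe.2 ha)
    rw [← hAv, Set.mem_singleton_iff] at h1
    rw [← h1]
    exact hA.2.1 ha
  · intro h
    obtain ⟨ℓ, hl⟩ := hV v h
    have hf : IsFace V {v} := by
      refine ⟨Finset.singleton_nonempty v, Finset.singleton_subset_iff.2 h, ℓ, ℓ v, ?_⟩
      intro w hw
      by_cases hwv : w = v
      · rw [hwv]
        exact ⟨le_rfl, by simp⟩
      · have h2 := hl w hw hwv
        refine ⟨h2.le, fun e => absurd e h2.ne, fun e => absurd (Finset.mem_singleton.1 e) hwv⟩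
    have h3 := (face_hull hP hf).1
    rwa [Finset.coe_singleton, convexHull_singleton] at h3

theorem edges_ncard (hV : IsVert V) (hP : P = convexHull ℝ (V : Set (Ed d))) {v : Ed d} (hv : v ∈ V) :
    Set.ncard {F : Set (Ed d) | IsExposed ℝ P F ∧ Module.finrank ℝ (vectorSpan ℝ F) = 1 ∧ v ∈ F} = (nb V v).card := by
  have hset : {F : Set (Ed d) | IsExposed ℝ P F ∧ Module.finrank ℝ (vectorSpan ℝ F) = 1 ∧ v ∈ F}
      = (fun u : Ed d => convexHull ℝ ((({v, u} : Finset (Ed d)) : Set (Ed d)))) '' ((nb V v : Finset (Ed d)) : Set (Ed d)) := by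
    ext F
    constructor
    · rintro ⟨h1, h2, h3⟩
      obtain ⟨A, hA, hAF⟩ := hull_face hP (F := F) ⟨h1, ⟨v, h3⟩⟩
      have hdm : dm A = 1 := by
        unfold dm
        rw [← hull_span, ← hAF]
        exact h2
      have hc1 : 1 ≤ A.card := Finset.card_pos.2 hA.1
      have hc2 : A.card ≠ 1 := fun e => by
        have := dm_zero e
        omega
      have hc3 : ¬ 3 ≤ A.card := fun e => by
        have := two_le_dm hV hA.2.1 e
        omega
      have hc : A.card = 2 := by omega
      have hvA : v ∈ A := by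
        have h4 : convexHull ℝ ((({v} : Finset (Ed d)) : Set (Ed d))) ⊆ convexHull ℝ (A : Set (Ed d)) := by
          rw [Finset.coe_singleton, convexHull_singleton, Set.singleton_subset_iff, ← hAF]
          exact h3
        have h5 := (hull_sub hV (Finset.singleton_subset_iff.2 hv) hA.2.1).1 h4
        exact Finset.singleton_subset_iff.1 h5
      have hex : ∃ u, v ≠ u ∧ A = {v, u} := by
        obtain ⟨x, y, hxy, hAxy⟩ := Finset.card_eq_two.1 hc
        rw [hAxy, Finset.mem_insert, Finset.mem_singleton] at hvA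
        rcases hvA with h6 | h6
        · exact ⟨y, by rw [h6]; exact hxy, by rw [hAxy, h6]⟩
        · exact ⟨x, by rw [h6]; exact hxy.symm, by rw [hAxy, h6, Finset.pair_comm]⟩
      obtain ⟨u, hvu, hAu⟩ := hex
      refine ⟨u, ?_, ?_⟩
      · rw [Finset.mem_coe]
        unfold nb
        rw [Finset.mem_filter]
        refine ⟨hA.2.1 (by rw [hAu]; simp), hvu, ?_⟩
        rw [← hAu]
        exact hA
      · change convexHull ℝ ((({v, u} : Finset (Ed d)) : Set (Ed d))) = F
        rw [← hAu]
        exact hAF.symm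
    · rintro ⟨u, hu, rfl⟩
      rw [Finset.mem_coe] at hu
      unfold nb at hu
      rw [Finset.mem_filter] at hu
      obtain ⟨-, hvu, hf⟩ := hu
      refine ⟨(face_hull hP hf).1, ?_, subset_convexHull ℝ _ (by simp)⟩
      have h7 : dm ({v, u} : Finset (Ed d)) = 1 := dm_one (Finset.card_pair hvu)
      unfold dm at h7
      rw [← hull_span] at h7
      exact h7
  rw [hset, Set.ncard_image_of_injOn, Set.ncard_coe_finset]
  intro a ha b hb hab
  rw [Finset.mem_coe] at ha hb
  unfold nb at ha hb
  rw [Finset.mem_filter] at ha hb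
  have h8 : ({v, a} : Finset (Ed d)) ⊆ {v, b} :=
    (hull_sub hV ha.2.2.2.1 hb.2.2.2.1).1 (by
      change convexHull ℝ ((({v, a} : Finset (Ed d)) : Set (Ed d)))
        = convexHull ℝ ((({v, b} : Finset (Ed d)) : Set (Ed d))) at hab
      rw [hab])
  have h9 : a ∈ ({v, b} : Finset (Ed d)) := h8 (by simp)
  rw [Finset.mem_insert, Finset.mem_singleton] at h9
  rcases h9 with h10 | h10
  · exact absurd h10.symm ha.2.1
  · exact h10

end Pool.Agent.LibPol19
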