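import Mathlib
import Pool.Agent.LibPol19.Defs
import Pool.Agent.LibPol19.G09
import Pool.Agent.LibPol19.T02
import Pool.Agent.LibPol19.T03

/-! Row T06.
Φ the order isomorphism between the posets of exposed nonempty faces of dimension ≤ 1. Minimal elements = the {v}, v ∈ V (every face contains a vertex face; hull_face: F = convexHull A, A nonempty, {v} ⊆ F for v ∈ A, {v} has dimension 0). So Φ maps {v} to {v'} : e. Adj V u w (u ≠ w) ↔ there is an element of the poset above {u} and {w}: → convexHull {u, w} (finrank 1); ←: F = convexHull A, finrank ≤ 1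
so card A ≤ 2 (two_le_dm_T), A ⊇ {u, w}, so A = {u, w} is a face. Φ preserves this.
-/

set_option autoImplicit false

namespace Pool.Agent.LibPol19

open Finset
open scoped Classical

variable {d : ℕ} {V V' : Finset (Ed d)} {P Q : Set (Ed d)}


private theorem vert_face (hV : IsVert V) {v : Ed d} (hv : v ∈ V) : IsFace V {v} := by
  obtain ⟨ℓ, hℓ⟩ := hV v hv
  refine ⟨Finset.singleton_nonempty v, by simpa using hv, ℓ, ℓ v, fun w hw => ?_⟩
  by_cases h : w = v
  · subst h; simp
  · refine ⟨(hℓ w hw h).le, ?_⟩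
    simp only [Finset.mem_singleton]
    exact ⟨fun h' => absurd h' (hℓ w hw h).ne, fun h' => absurd h' h⟩

/-- the poset of the small faces -/
private abbrev FP (P : Set (Ed d)) : Type _ :=
  {F : Set (Ed d) // IsExposed ℝ P F ∧ F.Nonempty ∧ Module.finrank ℝ (vectorSpan ℝ F) ≤ 1}

private theorem single_mem (hV : IsVert V) (hP : P = convexHull ℝ (V : Set (Ed d))) {v : Ed d} (hv : v ∈ V) :
    IsExposed ℝ P {v} ∧ ({v} : Set (Ed d)).Nonempty ∧ Module.finrank ℝ (vectorSpan ℝ ({v} : Set (Ed d))) ≤ 1 := by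
  have h := face_hull hP (vert_face hV hv)
  rw [Finset.coe_singleton, convexHull_singleton] at h
  refine ⟨h.1, h.2, ?_⟩
  rw [vectorSpan_singleton, finrank_bot]
  exact Nat.zero_le _

private theorem sub_iff (hV : IsVert V) {A : Finset (Ed d)} (hA : A ⊆ V) {v : Ed d} (hv : v ∈ V) :
    ({v} : Set (Ed d)) ⊆ convexHull ℝ (A : Set (Ed d)) ↔ v ∈ A := by
  have h := hull_sub hV (A := {v}) (B := A) (by simpa using hv) hA
  rw [Finset.coe_singleton, convexHull_singleton] at h
  rw [h]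
  simp

private theorem isMin_iff (hV : IsVert V) (hP : P = convexHull ℝ (V : Set (Ed d))) (F : FP P) :
    IsMin F ↔ ∃ v ∈ V, (F : Set (Ed d)) = {v} := by
  constructor
  · intro hF
    obtain ⟨A, hA, hFA⟩ := hull_face hP (F := (F : Set (Ed d))) ⟨F.2.1, F.2.2.1⟩
    obtain ⟨v, hvA⟩ := hA.1
    have hv : v ∈ V := hA.2.1 hvA
    refine ⟨v, hv, ?_⟩
    have hle : (⟨{v}, single_mem hV hP hv⟩ : FP P) ≤ F := by
      change ({v} : Set (Ed d)) ⊆ (F : Set (Ed d))
      rw [hFA]
      exact (sub_iff hV hA.2.1 hv).2 hvA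
    have hle2 : (F : Set (Ed d)) ⊆ {v} := hF hle
    exact Set.Subset.antisymm hle2 hle
  · rintro ⟨v, hv, hF⟩ G hG
    have h1 : (G : Set (Ed d)) ⊆ {v} := by
      rw [← hF]; exact hG
    have h2 : (G : Set (Ed d)) = {v} := by
      rcases Set.subset_singleton_iff_eq.1 h1 with h | h
      · exact absurd h G.2.2.1.ne_empty
      · exact h
    change (F : Set (Ed d)) ⊆ (G : Set (Ed d))
    rw [h2, hF]

private theorem adj_iff (hV : IsVert V) (hP : P = convexHull ℝ (V : Set (Ed d))) {u w : Ed d} (hu : u ∈ V) (hw : w ∈ V)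
    (huw : u ≠ w) : Adj V u w ↔ ∃ F : FP P, ({u} : Set (Ed d)) ⊆ F ∧ ({w} : Set (Ed d)) ⊆ F := by
  constructor
  · rintro ⟨-, h⟩
    have h1 := face_hull hP h
    refine ⟨⟨convexHull ℝ (({u, w} : Finset (Ed d)) : Set (Ed d)), h1.1, h1.2, ?_⟩, ?_, ?_⟩
    · rw [hull_span]
      have h2 : dm ({u, w} : Finset (Ed d)) = 1 := dm_one (Finset.card_pair huw)
      unfold dm at h2
      rw [h2]
    · exact (sub_iff hV h.2.1 hu).2 (by simp)
    · exact (sub_iff hV h.2.1 hw).2 (by simp)
  · rintro ⟨F, h1, h2⟩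
    obtain ⟨A, hA, hFA⟩ := hull_face hP (F := (F : Set (Ed d))) ⟨F.2.1, F.2.2.1⟩
    have h3 : dm A ≤ 1 := by
      have h4 := F.2.2.2
      rw [hFA, hull_span] at h4
      exact h4
    rw [hFA, sub_iff hV hA.2.1 hu] at h1
    rw [hFA, sub_iff hV hA.2.1 hw] at h2
    have h5 : A.card ≤ 2 := by
      by_contra h6
      have := two_le_dm hV hA.2.1 (by omega)
      omega
    have h7 : ({u, w} : Finset (Ed d)) ⊆ A := by
      intro z hz
      simp only [Finset.mem_insert, Finset.mem_singleton] at hz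
      rcases hz with rfl | rfl
      · exact h1
      · exact h2
    have h8 : ({u, w} : Finset (Ed d)) = A := Finset.eq_of_subset_of_card_le h7 (by rw [Finset.card_pair huw]; exact h5)
    exact ⟨huw, h8 ▸ hA⟩

/-- T06: the graph from the poset of the faces of dimension at most one -/
theorem graph_iso (hV : IsVert V) (hP : P = convexHull ℝ (V : Set (Ed d))) (hV' : IsVert V')
    (hQ : Q = convexHull ℝ (V' : Set (Ed d)))
    (h : Nonempty ({F : Set (Ed d) // IsExposed ℝ P F ∧ F.Nonempty ∧ Module.finrank ℝ (vectorSpan ℝ F) ≤ 1} ≃o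
      {F : Set (Ed d) // IsExposed ℝ Q F ∧ F.Nonempty ∧ Module.finrank ℝ (vectorSpan ℝ F) ≤ 1})) :
    ∃ e : {x // x ∈ V} ≃ {x // x ∈ V'}, ∀ u w : {x // x ∈ V}, Adj V u w ↔ Adj V' (e u : Ed d) (e w : Ed d) := by
  obtain ⟨Φ⟩ := h
  let s : {x // x ∈ V} → FP P := fun v => ⟨{(v : Ed d)}, single_mem hV hP v.2⟩
  let s' : {x // x ∈ V'} → FP Q := fun v => ⟨{(v : Ed d)}, single_mem hV' hQ v.2⟩
  have hs : ∀ v, IsMin (s v) := fun v => (isMin_iff hV hP _).2 ⟨v, v.2, rfl⟩
  have hs' : ∀ v, IsMin (s' v) := fun v => (isMin_iff hV' hQ _).2 ⟨v, v.2, rfl⟩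
  have h1 : ∀ v : {x // x ∈ V}, ∃ v' : {x // x ∈ V'}, Φ (s v) = s' v' := by
    intro v
    have h2 : IsMin (Φ (s v)) := (OrderIso.isMin_apply Φ).2 (hs v)
    obtain ⟨v', hv', h3⟩ := (isMin_iff hV' hQ _).1 h2
    exact ⟨⟨v', hv'⟩, Subtype.ext h3⟩
  have h1' : ∀ v : {x // x ∈ V'}, ∃ v' : {x // x ∈ V}, Φ.symm (s' v) = s v' := by
    intro v
    have h2 : IsMin (Φ.symm (s' v)) := (OrderIso.isMin_apply Φ.symm).2 (hs' v)
    obtain ⟨v', hv', h3⟩ := (isMin_iff hV hP _).1 h2
    exact ⟨⟨v', hv'⟩, Subtype.ext h3⟩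
  choose f hf using h1
  choose g hg using h1'
  have sinj : ∀ v w, s v = s w → v = w := by
    intro v w h2
    have h3 : ({(v : Ed d)} : Set (Ed d)) = {(w : Ed d)} := congrArg Subtype.val h2
    exact Subtype.ext (Set.singleton_injective h3)
  have sinj' : ∀ v w, s' v = s' w → v = w := by
    intro v w h2
    have h3 : ({(v : Ed d)} : Set (Ed d)) = {(w : Ed d)} := congrArg Subtype.val h2
    exact Subtype.ext (Set.singleton_injective h3)
  let e : {x // x ∈ V} ≃ {x // x ∈ V'} :=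
    { toFun := f
      invFun := g
      left_inv := by
        intro v
        apply sinj
        rw [← hg, ← hf, OrderIso.symm_apply_apply]
      right_inv := by
        intro v
        apply sinj'
        rw [← hf, ← hg, OrderIso.apply_symm_apply] }
  refine ⟨e, fun u w => ?_⟩
  by_cases huw : u = w
  · subst huw
    exact ⟨fun h2 => absurd rfl h2.1, fun h2 => absurd rfl h2.1⟩
  · have huw1 : (u : Ed d) ≠ (w : Ed d) := fun h2 => huw (Subtype.ext h2)
    have huw2 : (e u : Ed d) ≠ (e w : Ed d) := fun h2 => huw (e.injective (Subtype.ext h2))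
    rw [adj_iff hV hP u.2 w.2 huw1, adj_iff hV' hQ (e u).2 (e w).2 huw2]
    constructor
    · rintro ⟨F, hF1, hF2⟩
      refine ⟨Φ F, ?_, ?_⟩
      · have h2 : s u ≤ F := hF1
        have h3 : s' (f u) ≤ Φ F := by
          rw [← hf]; exact Φ.monotone h2
        exact h3
      · have h2 : s w ≤ F := hF2
        have h3 : s' (f w) ≤ Φ F := by
          rw [← hf]; exact Φ.monotone h2
        exact h3
    · rintro ⟨F, hF1, hF2⟩
      refine ⟨Φ.symm F, ?_, ?_⟩
      · have h2 : s' (e u) ≤ F := hF1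
        have h3 : s u ≤ Φ.symm F := by
          rw [OrderIso.le_symm_apply, hf]; exact h2
        exact h3
      · have h2 : s' (e w) ≤ F := hF2
        have h3 : s w ≤ Φ.symm F := by
          rw [OrderIso.le_symm_apply, hf]; exact h2
        exact h3

end Pool.Agent.LibPol19
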