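import Mathlib
import Pool.Agent.LibPol19.Defs
import Pool.Agent.LibPol19.T02
import Pool.Agent.LibPol19.T03

/-! Row T07.
Both posets are isomorphic to {A : Finset {x // x ∈ V} // IsFace V (A.map ..)} ordered by ⊆, via A ↦ convexHull (A.map ...) and A ↦ convexHull of the image under e: bijective by face_hull, hull_face (every face set A' ⊆ V is an A.map), order embedding by hull_sub. Build the OrderIso (e.g. StrictMono/RelIso from a surjective order embedding: RelIso.ofSurjective / OrderIso.ofSurjective..).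
-/

set_option autoImplicit false

namespace Pool.Agent.LibPol19

open Finset
open scoped Classical

variable {d : ℕ} {V V' : Finset (Ed d)} {P Q : Set (Ed d)}


/-- T07: isomorphism of the face lattices -/
theorem lattice_iso (hV : IsVert V) (hP : P = convexHull ℝ (V : Set (Ed d))) (hV' : IsVert V')
    (hQ : Q = convexHull ℝ (V' : Set (Ed d))) (e : {x // x ∈ V} ≃ {x // x ∈ V'})
    (h : ∀ A : Finset {x // x ∈ V}, IsFace V (A.map (Function.Embedding.subtype _)) ↔
      IsFace V' (A.map (e.toEmbedding.trans (Function.Embedding.subtype _)))) :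
    Nonempty ({F : Set (Ed d) // IsExposed ℝ P F ∧ F.Nonempty} ≃o {F : Set (Ed d) // IsExposed ℝ Q F ∧ F.Nonempty}) := by
  obtain ⟨iV, hiV⟩ : ∃ iV : Finset {x // x ∈ V} → Finset (Ed d),
      iV = fun A => A.map (Function.Embedding.subtype _) := ⟨_, rfl⟩
  obtain ⟨iW, hiW⟩ : ∃ iW : Finset {x // x ∈ V} → Finset (Ed d),
      iW = fun A => A.map (e.toEmbedding.trans (Function.Embedding.subtype _)) := ⟨_, rfl⟩
  have h' : ∀ A, IsFace V (iV A) ↔ IsFace V' (iW A) := by
    intro A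
    rw [hiV, hiW]
    exact h A
  have hsubV : ∀ A, iV A ⊆ V := by
    intro A z hz
    rw [hiV, Finset.mem_map] at hz
    obtain ⟨y, _, rfl⟩ := hz
    exact y.2
  have hsubW : ∀ A, iW A ⊆ V' := by
    intro A z hz
    rw [hiW, Finset.mem_map] at hz
    obtain ⟨y, _, rfl⟩ := hz
    exact (e y).2
  have hmonoV : ∀ A B, iV A ⊆ iV B ↔ A ⊆ B := by
    intro A B
    rw [hiV]
    exact Finset.map_subset_map
  have hmonoW : ∀ A B, iW A ⊆ iW B ↔ A ⊆ B := by
    intro A B
    rw [hiW]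
    exact Finset.map_subset_map
  have hsurV : ∀ C ⊆ V, ∃ A, iV A = C := by
    intro C hC
    refine ⟨C.subtype (fun x => x ∈ V), ?_⟩
    rw [hiV]
    ext z
    simp only [Finset.mem_map, Finset.mem_subtype, Function.Embedding.subtype_apply,
      Subtype.exists, exists_and_left, exists_prop, exists_eq_right_right]
    exact ⟨fun h => h.1, fun h => ⟨h, hC h⟩⟩
  have hsurW : ∀ C ⊆ V', ∃ A, iW A = C := by
    intro C hC
    refine ⟨(C.subtype (fun x => x ∈ V')).map e.symm.toEmbedding, ?_⟩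
    rw [hiW]
    ext z
    simp only [Finset.mem_map, Finset.mem_subtype, Function.Embedding.trans_apply,
      Function.Embedding.subtype_apply, Equiv.coe_toEmbedding]
    constructor
    · rintro ⟨y, ⟨w, hw, rfl⟩, rfl⟩
      simpa using hw
    · intro hz
      exact ⟨e.symm ⟨z, hC hz⟩, ⟨⟨z, hC hz⟩, hz, rfl⟩, by simp⟩
  -- the two order isomorphisms
  obtain ⟨f, hf⟩ : ∃ f : {A : Finset {x // x ∈ V} // IsFace V (iV A)} →
      {F : Set (Ed d) // IsExposed ℝ P F ∧ F.Nonempty},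
      ∀ A, (f A : Set (Ed d)) = convexHull ℝ (iV A.1 : Set (Ed d)) :=
    ⟨fun A => ⟨convexHull ℝ (iV A.1 : Set (Ed d)), face_hull hP A.2⟩, fun _ => rfl⟩
  obtain ⟨g, hg⟩ : ∃ g : {A : Finset {x // x ∈ V} // IsFace V (iV A)} →
      {F : Set (Ed d) // IsExposed ℝ Q F ∧ F.Nonempty},
      ∀ A, (g A : Set (Ed d)) = convexHull ℝ (iW A.1 : Set (Ed d)) :=
    ⟨fun A => ⟨convexHull ℝ (iW A.1 : Set (Ed d)), face_hull hQ ((h' A.1).1 A.2)⟩, fun _ => rfl⟩
  have hfle : ∀ A B, f A ≤ f B ↔ A ≤ B := by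
    intro A B
    rw [← Subtype.coe_le_coe, ← Subtype.coe_le_coe, hf, hf]
    exact (hull_sub hV (hsubV _) (hsubV _)).trans (hmonoV _ _)
  have hgle : ∀ A B, g A ≤ g B ↔ A ≤ B := by
    intro A B
    rw [← Subtype.coe_le_coe, ← Subtype.coe_le_coe, hg, hg]
    exact (hull_sub hV' (hsubW _) (hsubW _)).trans (hmonoW _ _)
  have hfs : Function.Surjective f := by
    rintro ⟨F, hF⟩
    obtain ⟨C, hC, hFC⟩ := hull_face hP hF
    obtain ⟨A, hA⟩ := hsurV C hC.2.1
    refine ⟨⟨A, by rw [hA]; exact hC⟩, Subtype.ext ?_⟩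
    rw [hf]
    show convexHull ℝ (iV A : Set (Ed d)) = F
    rw [hA, hFC]
  have hgs : Function.Surjective g := by
    rintro ⟨F, hF⟩
    obtain ⟨C, hC, hFC⟩ := hull_face hQ hF
    obtain ⟨A, hA⟩ := hsurW C hC.2.1
    refine ⟨⟨A, (h' A).2 (by rw [hA]; exact hC)⟩, Subtype.ext ?_⟩
    rw [hg]
    show convexHull ℝ (iW A : Set (Ed d)) = F
    rw [hA, hFC]
  let fe : {A : Finset {x // x ∈ V} // IsFace V (iV A)} ≃o
      {F : Set (Ed d) // IsExposed ℝ P F ∧ F.Nonempty} :=
    RelIso.ofSurjective (OrderEmbedding.ofMapLEIff f hfle) hfs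
  let ge : {A : Finset {x // x ∈ V} // IsFace V (iV A)} ≃o
      {F : Set (Ed d) // IsExposed ℝ Q F ∧ F.Nonempty} :=
    RelIso.ofSurjective (OrderEmbedding.ofMapLEIff g hgle) hgs
  exact ⟨fe.symm.trans ge⟩

end Pool.Agent.LibPol19
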