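import Mathlib
import Pool.Agent.LibPol19.Defs
import Pool.Agent.LibPol19.G09
import Pool.Agent.LibPol19.N02
import Pool.Agent.LibPol19.T01
import Pool.Agent.LibPol19.T02
import Pool.Agent.LibPol19.T03
import Pool.Agent.LibPol19.T05
import Pool.Agent.LibPol19.T06
import Pool.Agent.LibPol19.T07

/-! Row N03.
V, V' from exists_vert; full_of. The set of the nonsimple vertices is the coe of V.filter (d < (nb V v).card) (exposed_single, edges_ncard), Set.ncard_coe_finset. Adjacency of u, v from the exposed F of finrank 1: hull_face F = convexHull A, u, v ∈ A (hull_sub), card A ≤ 2 (dm = 1), so A = {u, v}. graph_iso, main_V, lattice_iso.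
-/

set_option autoImplicit false

namespace Pool.Agent.LibPol19

open Finset
open scoped Classical

variable {d : ℕ} {V V' : Finset (Ed d)} {P Q : Set (Ed d)}


/-- N03: the theorem -/
theorem near_hubs (hd : 5 ≤ d) (hP : ∃ S : Finset (Ed d), P = convexHull ℝ (S : Set (Ed d))) (hPf : affineSpan ℝ P = ⊤)
    (hQ : ∃ S : Finset (Ed d), Q = convexHull ℝ (S : Set (Ed d))) (hQf : affineSpan ℝ Q = ⊤)
    (h3 : Set.ncard {v : Ed d | IsExposed ℝ P {v} ∧ d < Set.ncard {F : Set (Ed d) | IsExposed ℝ P F ∧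
      Module.finrank ℝ (vectorSpan ℝ F) = 1 ∧ v ∈ F}} = 3)
    (hadj : ∃ u v : Ed d, u ≠ v ∧ (IsExposed ℝ P {u} ∧ d < Set.ncard {F : Set (Ed d) | IsExposed ℝ P F ∧
        Module.finrank ℝ (vectorSpan ℝ F) = 1 ∧ u ∈ F}) ∧
      (IsExposed ℝ P {v} ∧ d < Set.ncard {F : Set (Ed d) | IsExposed ℝ P F ∧
        Module.finrank ℝ (vectorSpan ℝ F) = 1 ∧ v ∈ F}) ∧
      ∃ F : Set (Ed d), IsExposed ℝ P F ∧ Module.finrank ℝ (vectorSpan ℝ F) = 1 ∧ u ∈ F ∧ v ∈ F)
    (h : Nonempty ({F : Set (Ed d) // IsExposed ℝ P F ∧ F.Nonempty ∧ Module.finrank ℝ (vectorSpan ℝ F) ≤ 1} ≃o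
      {F : Set (Ed d) // IsExposed ℝ Q F ∧ F.Nonempty ∧ Module.finrank ℝ (vectorSpan ℝ F) ≤ 1})) :
    Nonempty ({F : Set (Ed d) // IsExposed ℝ P F ∧ F.Nonempty} ≃o {F : Set (Ed d) // IsExposed ℝ Q F ∧ F.Nonempty}) := by
  obtain ⟨V, hV, hPV⟩ := exists_vert hP
  obtain ⟨V', hV', hQV'⟩ := exists_vert hQ
  obtain ⟨hfull, _⟩ := full_of hPV hPf
  obtain ⟨hfull', _⟩ := full_of hQV' hQf
  obtain ⟨e, he⟩ := graph_iso hV hPV hV' hQV' h
  have hset : {v : Ed d | IsExposed ℝ P {v} ∧ d < Set.ncard {F : Set (Ed d) | IsExposed ℝ P F ∧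
      Module.finrank ℝ (vectorSpan ℝ F) = 1 ∧ v ∈ F}} = ((V.filter fun v => d < (nb V v).card : Finset (Ed d)) : Set (Ed d)) := by
    ext v
    simp only [Set.mem_setOf_eq, Finset.coe_filter]
    constructor
    · rintro ⟨h1, h2⟩
      have hv := (exposed_single hV hPV v).mp h1
      rw [edges_ncard hV hPV hv] at h2
      exact ⟨hv, h2⟩
    · rintro ⟨hv, h2⟩
      refine ⟨(exposed_single hV hPV v).mpr hv, ?_⟩
      rw [edges_ncard hV hPV hv]
      exact h2
  have h3' : (V.filter fun v => d < (nb V v).card).card = 3 := by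
    rw [hset, Set.ncard_coe_finset] at h3
    exact h3
  have hh : ∃ u w, u ∈ V ∧ w ∈ V ∧ d < (nb V u).card ∧ d < (nb V w).card ∧ Adj V u w := by
    obtain ⟨u, v, huv, ⟨hu1, hu2⟩, ⟨hv1, hv2⟩, F, hF, hFd, huF, hvF⟩ := hadj
    have hu := (exposed_single hV hPV u).mp hu1
    have hv := (exposed_single hV hPV v).mp hv1
    rw [edges_ncard hV hPV hu] at hu2
    rw [edges_ncard hV hPV hv] at hv2
    obtain ⟨A, hA, hFA⟩ := hull_face hPV (F := F) ⟨hF, ⟨u, huF⟩⟩
    have hAV : A ⊆ V := hA.2.1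
    have hmem : ∀ w ∈ V, w ∈ F → w ∈ A := by
      intro w hw hwF
      have h5 : convexHull ℝ ((({w} : Finset (Ed d)) : Set (Ed d))) ⊆ convexHull ℝ (A : Set (Ed d)) := by
        rw [Finset.coe_singleton, convexHull_singleton, Set.singleton_subset_iff, ← hFA]
        exact hwF
      have h6 := (hull_sub hV (Finset.singleton_subset_iff.mpr hw) hAV).mp h5
      exact Finset.singleton_subset_iff.mp h6
    have huA := hmem u hu huF
    have hvA := hmem v hv hvF
    have hd1 : dm A = 1 := by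
      rw [hFA, hull_span] at hFd
      exact hFd
    have hcard : A.card ≤ 2 := by
      by_contra hcon
      have := two_le_dm hV hAV (by omega : 3 ≤ A.card)
      omega
    have hAeq : ({u, v} : Finset (Ed d)) = A := by
      apply Finset.eq_of_subset_of_card_le
      · intro w hw
        rw [Finset.mem_insert, Finset.mem_singleton] at hw
        rcases hw with rfl | rfl
        · exact huA
        · exact hvA
      · rw [Finset.card_pair huv]
        exact hcard
    refine ⟨u, v, hu, hv, hu2, hv2, huv, ?_⟩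
    rw [hAeq]
    exact hA
  exact lattice_iso hV hPV hV' hQV' e (main_V hd hV hfull hV' hfull' e he h3' hh)

end Pool.Agent.LibPol19
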