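import Mathlib
import Pool.Agent.LibPol19.Defs2

/-! Row Q03.
md v u = (1/2)(v + u). If md v u = x ∈ V: x ≠ v, u (u ≠ v since Adj), the functional exposing x gives ℓ x = (ℓ v + ℓ u)/2 < ℓ x. md_inj: smul_right_injective, add_left_cancel. cutT_sub: a, b ∈ V.erase v (members of nb V v = V.filter, ≠ v by Adj).
-/

set_option autoImplicit false

namespace Pool.Agent.LibPol19

open Finset
open scoped Classical

variable {d : ℕ} {V V' A B F : Finset (Ed d)} {v a b c : Ed d}

/-- Q03: the middles of the edges are no vertices -/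
theorem md_not_mem (h : Cut V v a b) {u : Ed d} (hu : u ∈ nb V v) : md v u ∉ V := by
  intro hx
  obtain ⟨huV, hadj⟩ := mem_filter.1 hu
  obtain ⟨ℓ, hℓ⟩ := h.vert _ hx
  have hne : v ≠ u := hadj.1
  have h2 : (2 : ℝ) • md v u = v + u := by
    unfold md
    rw [smul_smul]
    norm_num
  have h3 : v ≠ md v u := by
    intro h4
    rw [← h4, two_smul] at h2
    exact hne (add_left_cancel h2)
  have h5 : u ≠ md v u := by
    intro h4
    rw [← h4, two_smul] at h2
    exact hne (add_right_cancel h2).symm
  have h6 := hℓ v h.hv h3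
  have h7 := hℓ u huV h5
  have h8 := congrArg ℓ h2
  rw [map_smul, map_add, smul_eq_mul] at h8
  linarith

theorem md_inj (v : Ed d) : Function.Injective (md v) := by
  intro u w h
  unfold md at h
  exact add_left_cancel (smul_right_injective (Ed d) (by norm_num : (1 / 2 : ℝ) ≠ 0) h)

theorem cutT_sub (h : Cut V v a b) : cutT V v a b ⊆ cutV V v a b := by
  unfold cutT cutV
  refine union_subset_union ?_ (Subset.refl _)
  intro x hx
  rw [mem_insert, mem_singleton] at hx
  rw [mem_erase]
  rcases hx with rfl | rfl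
  · obtain ⟨h1, h2⟩ := mem_filter.1 h.ha
    exact ⟨h2.1.symm, h1⟩
  · obtain ⟨h1, h2⟩ := mem_filter.1 h.hb
    exact ⟨h2.1.symm, h1⟩

end Pool.Agent.LibPol19
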