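import Mathlib
import Pool.Agent.LibPol19.Defs2
import Pool.Agent.LibPol19.Q03

/-! Row Q04.
(ℓ, c) exposes A in V. On cutV: x ∈ V.erase v: ℓ x ≤ c, = iff x ∈ A. md v u: ℓ = (ℓ v + ℓ u)/2 ≤ c, = iff v, u ∈ A. So the same (ℓ, c) exposes cutF A. (md v u ∉ V: md_not_mem, to decide membership in the union.) Nonempty: A ≠ {v}, A nonempty, so A.erase v is nonempty (if A.erase v = ∅ then A ⊆ {v}).
-/

set_option autoImplicit false

namespace Pool.Agent.LibPol19

open Finset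
open scoped Classical


variable {d : ℕ} {V V' A B F : Finset (Ed d)} {v a b c : Ed d}

theorem Q04_md_inj {d : ℕ} {v u u' : Ed d} (h : md v u = md v u') : u = u' := by
  unfold md at h
  have h2 : (2 : ℝ) • ((1 / 2 : ℝ) • (v + u)) = (2 : ℝ) • ((1 / 2 : ℝ) • (v + u')) := by rw [h]
  rw [smul_smul, smul_smul] at h2
  norm_num at h2
  exact h2

theorem Q04_md_val {d : ℕ} (ℓ : Ed d →ₗ[ℝ] ℝ) (v u : Ed d) : ℓ (md v u) = (ℓ v + ℓ u) / 2 := by
  unfold md
  rw [map_smul, map_add, smul_eq_mul]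
  ring

/-- Q04: traces of faces are faces -/
theorem face_cut (h : Cut V v a b) (hA : IsFace V A) (hne : A ≠ {v}) : IsFace (cutV V v a b) (cutF V v a b A) := by
  obtain ⟨hA1, hA2, ℓ, c, hl⟩ := hA
  have hoth : ∀ u ∈ oth V v a b, u ∈ nb V v := fun u hu =>
    Finset.mem_of_mem_erase (Finset.mem_of_mem_erase hu)
  have hnbV : ∀ u ∈ nb V v, u ∈ V := fun u hu => by
    unfold nb at hu
    exact (Finset.mem_filter.1 hu).1
  have hmem : ∀ w, w ∈ cutF V v a b A ↔ (w ≠ v ∧ w ∈ A) ∨ (v ∈ A ∧ ∃ u ∈ oth V v a b, u ∈ A ∧ md v u = w) := by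
    intro w
    unfold cutF
    rw [Finset.mem_union, Finset.mem_erase]
    refine or_congr Iff.rfl ?_
    by_cases hv : v ∈ A
    · rw [if_pos hv, Finset.mem_image]
      constructor
      · rintro ⟨u, hu, hw⟩
        rw [Finset.mem_inter] at hu
        exact ⟨hv, u, hu.1, hu.2, hw⟩
      · rintro ⟨-, u, hu, huA, hw⟩
        exact ⟨u, Finset.mem_inter.2 ⟨hu, huA⟩, hw⟩
    · rw [if_neg hv]
      constructor
      · intro hw
        exact absurd hw (Finset.notMem_empty _)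
      · rintro ⟨hv', -⟩
        exact absurd hv' hv
  refine ⟨?_, ?_, ℓ, c, ?_⟩
  · have h1 : ∃ x ∈ A, x ≠ v := by
      by_contra hcon
      push Not at hcon
      refine hne (Finset.eq_singleton_iff_nonempty_unique_mem.2 ⟨hA1, hcon⟩)
    obtain ⟨x, hx, hxv⟩ := h1
    exact ⟨x, (hmem x).2 (Or.inl ⟨hxv, hx⟩)⟩
  · intro w hw
    unfold cutV
    rw [Finset.mem_union, Finset.mem_erase, Finset.mem_image]
    rcases (hmem w).1 hw with h1 | ⟨-, u, hu, -, h3⟩
    · exact Or.inl ⟨h1.1, hA2 h1.2⟩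
    · exact Or.inr ⟨u, hu, h3⟩
  · intro w hw
    unfold cutV at hw
    rw [Finset.mem_union, Finset.mem_erase, Finset.mem_image] at hw
    rcases hw with ⟨hwv, hwV⟩ | ⟨u, hu, rfl⟩
    · refine ⟨(hl w hwV).1, fun e => (hmem w).2 (Or.inl ⟨hwv, (hl w hwV).2.1 e⟩), fun hwF => ?_⟩
      rcases (hmem w).1 hwF with h1 | ⟨-, u, hu, -, h3⟩
      · exact (hl w hwV).2.2 h1.2
      · exact absurd hwV (by rw [← h3]; exact md_not_mem h (hoth u hu))
    · have hvV := h.hv
      have huV := hnbV u (hoth u hu)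
      obtain ⟨v1, v2⟩ := hl v hvV
      obtain ⟨u1, u2⟩ := hl u huV
      rw [Q04_md_val]
      refine ⟨by linarith, fun e => ?_, fun hwF => ?_⟩
      · have e1 : ℓ v = c := by linarith
        have e2 : ℓ u = c := by linarith
        exact (hmem _).2 (Or.inr ⟨v2.1 e1, u, hu, u2.1 e2, rfl⟩)
      · rcases (hmem _).1 hwF with h1 | ⟨hvA, u', hu', hu'A, h3⟩
        · exact absurd (hA2 h1.2) (md_not_mem h (hoth u hu))
        · have h4 := Q04_md_inj h3
          rw [h4] at hu'A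
          rw [v2.2 hvA, u2.2 hu'A]
          ring

end Pool.Agent.LibPol19
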