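import Mathlib
import Pool.Agent.LibPol19.Defs2
import Pool.Agent.LibPol19.Q01
import Pool.Agent.LibPol19.Q03

/-! Row Q05.
m from cut_fun: m - m v - 1 is 0 on cutT (on md v u: (m v + m u)/2 - m v = 1) and > 0 on the rest of cutV (V \ {v,a,b}). ℓ from cut_values with φ u = 0 or -1 for u = a, b (in B or not) and φ u = 0 or -2 for u ∈ oth (md v u ∈ B or not): on cutT: ℓ t - ℓ v = 0 for t ∈ B, -1 for t ∉ B.
L = ℓ - N m with N large (ℓ x - ℓ v < N (m x - m v - 1) for the finitely many x ∈ cutV \ cutT) and constant ℓ v - N (m v + 1).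
-/

set_option autoImplicit false

namespace Pool.Agent.LibPol19

open Finset
open scoped Classical


variable {d : ℕ} {V V' A B F : Finset (Ed d)} {v a b c : Ed d}

theorem Q05_aux (s : Finset (Ed d)) (f g : Ed d → ℝ) (hg : ∀ v ∈ s, 0 < g v) :
    ∃ N : ℝ, ∀ v ∈ s, f v < N * g v := by
  refine ⟨∑ w ∈ s, (|f w| / g w + 1), fun v hv => ?_⟩
  have h1 : |f v| / g v + 1 ≤ ∑ w ∈ s, (|f w| / g w + 1) := by
    refine Finset.single_le_sum (f := fun w => |f w| / g w + 1) (fun w hw => ?_) hv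
    have := div_nonneg (abs_nonneg (f w)) (hg w hw).le
    linarith
  have h2 := hg v hv
  have h3 : (|f v| / g v + 1) * g v = |f v| + g v := by
    field_simp
  have h4 := mul_le_mul_of_nonneg_right h1 h2.le
  have h5 := le_abs_self (f v)
  linarith

theorem Q05_md (m : Ed d →ₗ[ℝ] ℝ) (v u : Ed d) : m (md v u) - m v = (m u - m v) / 2 := by
  unfold md
  rw [map_smul, map_add, smul_eq_mul]
  ring

theorem Q05_mem_oth {u : Ed d} (hu : u ∈ oth V v a b) : u ∈ nb V v ∧ u ≠ a ∧ u ≠ b := by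
  unfold oth at hu
  rw [Finset.mem_erase, Finset.mem_erase] at hu
  exact ⟨hu.2.2, hu.2.1, hu.1⟩

/-- Q05: the cutting facet is a simplex -/
theorem face_T (h : Cut V v a b) (hB : B ⊆ cutT V v a b) (hne : B.Nonempty) : IsFace (cutV V v a b) B := by
  obtain ⟨m, hma, hmb, hmo, hmx⟩ := cut_fun h
  let φ : Ed d → ℝ := fun u => if u = a then (if a ∈ B then 0 else -1) else
    if u = b then (if b ∈ B then 0 else -1) else (if md v u ∈ B then 0 else -2)
  obtain ⟨ℓ, hℓ⟩ := cut_values h φ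
  have hT : ∀ t ∈ cutT V v a b, m t - m v = 1 ∧ ℓ t - ℓ v = (if t ∈ B then 0 else -1) := by
    intro t ht
    unfold cutT at ht
    rw [Finset.mem_union, Finset.mem_insert, Finset.mem_singleton, Finset.mem_image] at ht
    rcases ht with (ht | ht) | ⟨u, hu, ht⟩
    · refine ⟨by rw [ht]; exact hma, ?_⟩
      rw [ht, hℓ a h.ha]
      simp only [φ, if_true]
    · refine ⟨by rw [ht]; exact hmb, ?_⟩
      rw [ht, hℓ b h.hb]
      simp only [φ, h.hab.symm, if_false, if_true]
    · obtain ⟨h1, h2, h3⟩ := Q05_mem_oth hu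
      rw [← ht, Q05_md, Q05_md, hmo u hu, hℓ u h1]
      refine ⟨by norm_num, ?_⟩
      simp only [φ, h2, h3, if_false]
      split_ifs <;> norm_num
  have hO : ∀ x ∈ cutV V v a b, x ∉ cutT V v a b → 1 < m x - m v := by
    intro x hx hxT
    unfold cutV at hx
    rw [Finset.mem_union, Finset.mem_erase] at hx
    unfold cutT at hxT
    rw [Finset.mem_union, Finset.mem_insert, Finset.mem_singleton] at hxT
    push Not at hxT
    rcases hx with hx | hx
    · exact hmx x hx.2 hx.1 hxT.1.1 hxT.1.2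
    · exact absurd hx hxT.2
  obtain ⟨N, hN⟩ := Q05_aux (cutV V v a b \ cutT V v a b) (fun x => ℓ x - ℓ v)
    (fun x => m x - m v - 1) (by
      intro x hx
      rw [Finset.mem_sdiff] at hx
      have := hO x hx.1 hx.2
      linarith)
  refine ⟨hne, hB.trans (cutT_sub h), ℓ - N • m, ℓ v - N * (m v + 1), fun x hx => ?_⟩
  have h6 : (ℓ - N • m) x = ℓ x - N * m x := rfl
  rw [h6]
  by_cases hxT : x ∈ cutT V v a b
  · obtain ⟨h1, h2⟩ := hT x hxT
    have h3 : m x = m v + 1 := by linarith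
    rw [h3]
    by_cases hxB : x ∈ B
    · rw [if_pos hxB] at h2
      have h4 : ℓ x = ℓ v := by linarith
      rw [h4]
      exact ⟨le_rfl, fun _ => hxB, fun _ => rfl⟩
    · rw [if_neg hxB] at h2
      refine ⟨by linarith, fun h4 => ?_, fun h4 => absurd h4 hxB⟩
      exfalso
      linarith
  · have h3 := hN x (Finset.mem_sdiff.2 ⟨hx, hxT⟩)
    have h4 : ℓ x - N * m x < ℓ v - N * (m v + 1) := by
      have h5 : N * (m x - m v - 1) = N * m x - N * (m v + 1) := by ring
      simp only [h5] at h3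
      linarith
    exact ⟨h4.le, fun h5 => absurd h5 h4.ne, fun h5 => absurd (hB h5) hxT⟩

end Pool.Agent.LibPol19
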