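import Mathlib
import Pool.Agent.LibPol19.Defs2
import Pool.Agent.LibPol19.G03
import Pool.Agent.LibPol19.Q03
import Pool.Agent.LibPol19.Q04
import Pool.Agent.LibPol19.Q05

/-! Row Q07.
vert_cut: it suffices that {x} is a face of cutV for every x: then (ℓ, c) exposes it. x ∈ V.erase v: face_cut for {x} ≠ {v} (cutF {x} = {x}); x = md v u: face_T. full_cut: if vectorSpan (cutV) ≠ ⊤ there is a nonzero linear ℓ constant on cutV (Submodule.exists_le_ker_of_lt_top). For u ∈ oth (nonempty: card = d - 2 ≥ 1):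
ℓ (md v u) = (ℓ v + ℓ u)/2 = ℓ u, so ℓ v = ℓ u: ℓ is constant on V, so vanishes on vectorSpan V = ⊤.
-/

set_option autoImplicit false

namespace Pool.Agent.LibPol19

open Finset
open scoped Classical


variable {d : ℕ} {V V' A B F : Finset (Ed d)} {v a b c : Ed d}

theorem Q07_single (h : Cut V v a b) {x : Ed d} (hx : x ∈ cutV V v a b) :
    IsFace (cutV V v a b) {x} := by
  have hx0 := hx
  unfold cutV at hx
  rw [Finset.mem_union, Finset.mem_erase] at hx
  rcases hx with hx | hx
  · have h1 := face_cut h (face_single h.vert hx.2) (by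
      intro h2
      exact hx.1 (Finset.singleton_injective h2))
    have h2 : cutF V v a b {x} = {x} := by
      unfold cutF
      have h3 : v ∉ ({x} : Finset (Ed d)) := by
        rw [Finset.mem_singleton]
        exact fun h4 => hx.1 h4.symm
      rw [if_neg h3, Finset.union_empty, Finset.erase_eq_of_notMem h3]
    rwa [h2] at h1
  · apply face_T h _ (Finset.singleton_nonempty x)
    intro y hy
    rw [Finset.mem_singleton.1 hy]
    unfold cutT
    exact Finset.mem_union_right _ hx

/-- Q07: the new polytope -/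
theorem vert_cut (h : Cut V v a b) : IsVert (cutV V v a b) := by
  intro x hx
  obtain ⟨_, _, ℓ, c, hf⟩ := Q07_single h hx
  refine ⟨ℓ, fun w hw hne => ?_⟩
  have h1 : ℓ x = c := (hf x hx).2.2 (Finset.mem_singleton_self x)
  have h2 : ℓ w ≠ c := fun h3 => hne (Finset.mem_singleton.1 ((hf w hw).2.1 h3))
  rw [h1]
  exact lt_of_le_of_ne (hf w hw).1 h2

theorem full_cut (h : Cut V v a b) : Full (cutV V v a b) := by
  unfold Full
  by_contra hne
  obtain ⟨ℓ, hℓ, hker⟩ := Submodule.exists_le_ker_of_lt_top _ (lt_top_iff_ne_top.2 hne)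
  apply hℓ
  have hc : ∀ x ∈ cutV V v a b, ∀ y ∈ cutV V v a b, ℓ x = ℓ y := by
    intro x hx y hy
    have h1 : x -ᵥ y ∈ vectorSpan ℝ ((cutV V v a b : Finset (Ed d)) : Set (Ed d)) :=
      vsub_mem_vectorSpan ℝ (Finset.mem_coe.2 hx) (Finset.mem_coe.2 hy)
    have h2 : ℓ (x - y) = 0 := hker h1
    rw [map_sub] at h2
    linarith
  obtain ⟨u, hu⟩ : (oth V v a b).Nonempty := by
    rw [← Finset.card_pos]
    unfold oth
    have h1 : b ∈ (nb V v).erase a := Finset.mem_erase.2 ⟨h.hab.symm, h.hb⟩
    rw [Finset.card_erase_of_mem h1, Finset.card_erase_of_mem h.ha, h.simple]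
    have := h.hd
    omega
  have hu0 := hu
  unfold oth at hu
  rw [Finset.mem_erase, Finset.mem_erase] at hu
  have hun := hu.2.2
  unfold nb at hun
  rw [Finset.mem_filter] at hun
  have huV : u ∈ cutV V v a b := by
    unfold cutV
    exact Finset.mem_union_left _ (Finset.mem_erase.2 ⟨hun.2.1.symm, hun.1⟩)
  have hmd : md v u ∈ cutV V v a b := by
    unfold cutV
    exact Finset.mem_union_right _ (Finset.mem_image_of_mem _ hu0)
  have h3 := hc _ hmd _ huV
  unfold md at h3
  rw [map_smul, map_add, smul_eq_mul] at h3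
  have h4 : ∀ x ∈ V, ℓ x = ℓ u := by
    intro x hx
    by_cases hxv : x = v
    · rw [hxv]
      linarith
    · exact hc x (by
        unfold cutV
        exact Finset.mem_union_left _ (Finset.mem_erase.2 ⟨hxv, hx⟩)) u huV
  have h5 : vectorSpan ℝ (V : Set (Ed d)) ≤ LinearMap.ker ℓ := by
    unfold vectorSpan
    rw [Submodule.span_le]
    rintro _ ⟨x, hx, y, hy, rfl⟩
    change ℓ (x - y) = 0
    rw [map_sub, h4 x hx, h4 y hy, sub_self]
  have h6 := h.full
  unfold Full at h6
  rw [h6, top_le_iff] at h5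
  exact LinearMap.ker_eq_top.1 h5

end Pool.Agent.LibPol19
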