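import Mathlib
import Pool.Agent.LibPol19.Defs2
import Pool.Agent.LibPol19.G03
import Pool.Agent.LibPol19.G06
import Pool.Agent.LibPol19.Q01
import Pool.Agent.LibPol19.Q03

/-! Row Q06.
(ℓ, c) exposes B in cutV. Case ℓ v > c, δ = ℓ v - c: for u ∈ oth: (ℓ v + ℓ u)/2 ≤ c, so ℓ u - ℓ v ≤ -2δ; ℓ a - ℓ v ≤ -δ, ℓ b - ℓ v ≤ -δ. For x ∈ V.erase v: x - v = ∑ c_u (u - v) (cone), so ℓ x ≤ ℓ v - δ (c_a + c_b + 2 ∑_{oth} c_u) = ℓ v - δ (m x - m v) and for x ∉ {a, b}: m x - m v > 1 so ℓ x < c: B ⊆ cutT.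
Case ℓ v ≤ c: A := V.filter (ℓ x = c); ℓ ≤ c on V. A is nonempty: B is nonempty; an element of B is x ∈ V.erase v with ℓ x = c or md v u with ℓ v = ℓ u = c. So IsFace V A. B = cutF A: x ∈ V.erase v is in B iff ℓ x = c; md v u ∈ B iff (ℓ v + ℓ u)/2 = c iff v, u ∈ A. A ≠ {v}: otherwise cutF A = ∅ (oth ∩ {v} = ∅ as v ∉ nb V v) but B is nonempty.
-/

set_option autoImplicit false

namespace Pool.Agent.LibPol19

open Finset
open scoped Classical


variable {d : ℕ} {V V' A B F : Finset (Ed d)} {v a b c : Ed d}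

theorem q06_md (ℓ : Ed d →ₗ[ℝ] ℝ) (v u : Ed d) : ℓ (md v u) = (ℓ v + ℓ u) / 2 := by
  unfold md
  rw [map_smul, map_add, smul_eq_mul]
  ring

theorem q06_mem_cutV {x : Ed d} : x ∈ cutV V v a b ↔
    (x ≠ v ∧ x ∈ V) ∨ ∃ u ∈ oth V v a b, md v u = x := by
  unfold cutV
  rw [Finset.mem_union, Finset.mem_erase, Finset.mem_image]

theorem q06_oth {u : Ed d} (hu : u ∈ oth V v a b) : u ∈ nb V v ∧ u ∈ V ∧ u ≠ v := by
  unfold oth at hu
  have h1 := Finset.mem_of_mem_erase (Finset.mem_of_mem_erase hu)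
  have h2 := (Finset.mem_filter.1 h1)
  exact ⟨h1, h2.1, h2.2.1.symm⟩

/-- Q06: all faces -/
theorem face_cases (h : Cut V v a b) (hB : IsFace (cutV V v a b) B) :
    B ⊆ cutT V v a b ∨ ∃ A, IsFace V A ∧ A ≠ {v} ∧ B = cutF V v a b A := by
  obtain ⟨⟨y0, hy0⟩, hBV, ℓ, c, hℓ⟩ := hB
  have hnbV : ∀ u ∈ nb V v, u ≠ v ∧ u ∈ V := fun u hu => by
    have h2 := Finset.mem_filter.1 hu
    exact ⟨h2.2.1.symm, h2.1⟩
  by_cases hc : c < ℓ v
  · left
    obtain ⟨m, hma, hmb, hmo, hm⟩ := cut_fun h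
    have hoth : ∀ u ∈ oth V v a b, ℓ u - ℓ v ≤ -(2 * (ℓ v - c)) := by
      intro u hu
      have h1 := (hℓ (md v u) (q06_mem_cutV.2 (Or.inr ⟨u, hu, rfl⟩))).1
      rw [q06_md] at h1
      linarith
    have hnb : ∀ u ∈ nb V v, ℓ u - ℓ v ≤ -((ℓ v - c) * (m u - m v)) := by
      intro u hu
      by_cases hua : u = a
      · have h1 := (hℓ u (q06_mem_cutV.2 (Or.inl (hnbV u hu)))).1
        rw [hua] at h1 ⊢
        rw [hma]
        linarith
      · by_cases hub : u = b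
        · have h1 := (hℓ u (q06_mem_cutV.2 (Or.inl (hnbV u hu)))).1
          rw [hub] at h1 ⊢
          rw [hmb]
          linarith
        · have hu' : u ∈ oth V v a b := by
            unfold oth
            exact Finset.mem_erase.2 ⟨hub, Finset.mem_erase.2 ⟨hua, hu⟩⟩
          have h1 := hoth u hu'
          rw [hmo u hu']
          linarith
    intro y hy
    unfold cutT
    rw [Finset.mem_union]
    rcases q06_mem_cutV.1 (hBV hy) with ⟨hyv, hyV⟩ | ⟨u, hu, rfl⟩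
    · left
      by_contra hcon
      rw [Finset.mem_insert, Finset.mem_singleton, not_or] at hcon
      obtain ⟨k, hk, hk'⟩ := cone h.vert (face_self ⟨v, h.hv⟩) h.hv hyV
      have h2 : ∀ g : Ed d →ₗ[ℝ] ℝ, g y - g v = ∑ u ∈ nb V v ∩ V, k u * (g u - g v) := by
        intro g
        rw [← map_sub, hk', map_sum]
        refine Finset.sum_congr rfl fun u _ => ?_
        rw [map_smul, smul_eq_mul, map_sub]
      have h3 : ℓ y - ℓ v ≤ -((ℓ v - c) * (m y - m v)) := by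
        rw [h2 ℓ, h2 m, Finset.mul_sum, ← Finset.sum_neg_distrib]
        refine Finset.sum_le_sum fun u hu => ?_
        have h4 := mul_le_mul_of_nonneg_left (hnb u (Finset.mem_of_mem_inter_left hu)) (hk u)
        calc k u * (ℓ u - ℓ v) ≤ k u * -((ℓ v - c) * (m u - m v)) := h4
          _ = -((ℓ v - c) * (k u * (m u - m v))) := by ring
      have h5 := hm y hyV hyv hcon.1 hcon.2
      have h6 : (ℓ v - c) * 1 < (ℓ v - c) * (m y - m v) :=
        mul_lt_mul_of_pos_left h5 (by linarith)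
      have h7 := ((hℓ y (hBV hy)).2).2 hy
      linarith
    · right
      exact Finset.mem_image_of_mem _ hu
  · right
    have hcv : ℓ v ≤ c := le_of_not_gt hc
    have hle : ∀ x ∈ V, ℓ x ≤ c := by
      intro x hx
      by_cases hxv : x = v
      · rw [hxv]
        exact hcv
      · exact (hℓ x (q06_mem_cutV.2 (Or.inl ⟨hxv, hx⟩))).1
    have hmd : ∀ u ∈ oth V v a b, (md v u ∈ B ↔ ℓ v = c ∧ ℓ u = c) := by
      intro u hu
      rw [← (hℓ (md v u) (q06_mem_cutV.2 (Or.inr ⟨u, hu, rfl⟩))).2, q06_md]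
      have h1 := hle u (q06_oth hu).2.1
      constructor
      · intro h2
        exact ⟨by linarith, by linarith⟩
      · rintro ⟨h2, h3⟩
        rw [h2, h3]
        ring
    obtain ⟨A, hA⟩ : ∃ A : Finset (Ed d), A = V.filter fun x => ℓ x = c := ⟨_, rfl⟩
    have hmA : ∀ x, x ∈ A ↔ x ∈ V ∧ ℓ x = c := fun x => by rw [hA, Finset.mem_filter]
    have hBA : B = cutF V v a b A := by
      ext y
      unfold cutF
      rw [Finset.mem_union]
      constructor
      · intro hy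
        rcases q06_mem_cutV.1 (hBV hy) with ⟨hyv, hyV⟩ | ⟨u, hu, rfl⟩
        · left
          rw [Finset.mem_erase, hmA]
          exact ⟨hyv, hyV, ((hℓ y (hBV hy)).2).2 hy⟩
        · right
          obtain ⟨h2, h3⟩ := (hmd u hu).1 hy
          rw [if_pos ((hmA v).2 ⟨h.hv, h2⟩)]
          exact Finset.mem_image_of_mem _
            (Finset.mem_inter.2 ⟨hu, (hmA u).2 ⟨(q06_oth hu).2.1, h3⟩⟩)
      · rintro (hy | hy)
        · rw [Finset.mem_erase, hmA] at hy
          exact ((hℓ y (q06_mem_cutV.2 (Or.inl ⟨hy.1, hy.2.1⟩))).2).1 hy.2.2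
        · by_cases hvA : v ∈ A
          · rw [if_pos hvA] at hy
            obtain ⟨u, hu, rfl⟩ := Finset.mem_image.1 hy
            obtain ⟨hu1, hu2⟩ := Finset.mem_inter.1 hu
            exact (hmd u hu1).2 ⟨((hmA v).1 hvA).2, ((hmA u).1 hu2).2⟩
          · rw [if_neg hvA] at hy
            exact absurd hy (Finset.notMem_empty y)
    refine ⟨A, ⟨?_, ?_, ℓ, c, fun x hx => ⟨hle x hx, ?_⟩⟩, ?_, hBA⟩
    · rcases q06_mem_cutV.1 (hBV hy0) with ⟨hyv, hyV⟩ | ⟨u, hu, rfl⟩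
      · exact ⟨y0, (hmA y0).2 ⟨hyV, ((hℓ y0 (hBV hy0)).2).2 hy0⟩⟩
      · exact ⟨v, (hmA v).2 ⟨h.hv, ((hmd u hu).1 hy0).1⟩⟩
    · rw [hA]
      exact Finset.filter_subset _ _
    · rw [hmA]
      exact ⟨fun h2 => ⟨hx, h2⟩, fun h2 => h2.2⟩
    · intro hAv
      rw [hBA, hAv] at hy0
      unfold cutF at hy0
      rw [Finset.mem_union, if_pos (Finset.mem_singleton_self v)] at hy0
      rcases hy0 with hy | hy
      · rw [Finset.mem_erase, Finset.mem_singleton] at hy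
        exact hy.1 hy.2
      · obtain ⟨u, hu, -⟩ := Finset.mem_image.1 hy
        obtain ⟨hu1, hu2⟩ := Finset.mem_inter.1 hu
        exact (q06_oth hu1).2.2 (Finset.mem_singleton.1 hu2)

end Pool.Agent.LibPol19
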