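import Mathlib
import Pool.Agent.LibPol19.Defs2
import Pool.Agent.LibPol19.G03
import Pool.Agent.LibPol19.G10
import Pool.Agent.LibPol19.G14
import Pool.Agent.LibPol19.G15
import Pool.Agent.LibPol19.Q03
import Pool.Agent.LibPol19.Q04
import Pool.Agent.LibPol19.Q05
import Pool.Agent.LibPol19.Q06

/-! Row Q08.
← : {x, y} face of V not containing v: face_cut, cutF {x, y} = {x, y}; {a, b}, {a, md v u}, {md v u, md v w} ⊆ cutT: face_T; {u, md v u} = cutF {v, u}. → : face_cases for B = {x, y}. adj_cut_old: B ⊆ cutT means x, y ∈ {a, b} (md ∉ V). B = cutF A: x, y ∈ A, no md: if v ∉ A then A = {x, y}. If v ∈ A: A = {v, x, y}, oth ∩ A = ∅, so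
nb V v ∩ A ⊆ {a, b}; A has three elements so dm A = card (nb V v ∩ A) (simple_dm) ≤ 2 and three vertices: use polygon/two_le_dm_T style: dm A ≥ 2, so nb V v ∩ A = {a, b}, {x, y} = {a, b}. adj_cut_mix: B ∋ md v u: B ⊆ cutT → x ∈ {a, b}; B = cutF A: v, u ∈ A, so u ∈ cutF A: x = u. adj_cut_new: u ≠ w by Adj and md_inj; conversely face_T.
-/

set_option autoImplicit false

namespace Pool.Agent.LibPol19

open Finset
open scoped Classical


variable {d : ℕ} {V V' A B F : Finset (Ed d)} {v a b c : Ed d}

theorem Q08_mem_cutF {x : Ed d} : x ∈ cutF V v a b A ↔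
    (x ≠ v ∧ x ∈ A) ∨ (v ∈ A ∧ ∃ u ∈ oth V v a b, u ∈ A ∧ md v u = x) := by
  unfold cutF
  rw [Finset.mem_union, Finset.mem_erase]
  refine or_congr Iff.rfl ?_
  by_cases hv : v ∈ A
  · rw [if_pos hv, Finset.mem_image]
    constructor
    · rintro ⟨u, hu, rfl⟩
      exact ⟨hv, u, (Finset.mem_inter.1 hu).1, (Finset.mem_inter.1 hu).2, rfl⟩
    · rintro ⟨-, u, h1, h2, rfl⟩
      exact ⟨u, Finset.mem_inter.2 ⟨h1, h2⟩, rfl⟩
  · rw [if_neg hv]
    simp [hv]

theorem Q08_mem_oth {u : Ed d} : u ∈ oth V v a b ↔ u ∈ nb V v ∧ u ≠ a ∧ u ≠ b := by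
  unfold oth
  rw [Finset.mem_erase, Finset.mem_erase]
  tauto

theorem Q08_nb {u : Ed d} (h : u ∈ nb V v) : u ∈ V ∧ Adj V v u := Finset.mem_filter.1 h

theorem Q08_mem_cutT {x : Ed d} : x ∈ cutT V v a b ↔ x = a ∨ x = b ∨ ∃ u ∈ oth V v a b, md v u = x := by
  unfold cutT
  rw [Finset.mem_union, Finset.mem_image, Finset.mem_insert, Finset.mem_singleton, or_assoc]

theorem Q08_cutT_old (h : Cut V v a b) {x : Ed d} (hx : x ∈ V) (hT : x ∈ cutT V v a b) :
    x = a ∨ x = b := by
  rcases Q08_mem_cutT.1 hT with h1 | h1 | ⟨u, hu, rfl⟩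
  · exact Or.inl h1
  · exact Or.inr h1
  · exact absurd hx (md_not_mem h (Q08_mem_oth.1 hu).1)

/-- Q08: the graph of the new polytope -/
theorem adj_cut_old (h : Cut V v a b) {x y : Ed d} (hx : x ∈ V) (hxv : x ≠ v) (hy : y ∈ V) (hyv : y ≠ v) :
    Adj (cutV V v a b) x y ↔ Adj V x y ∨ (x = a ∧ y = b) ∨ (x = b ∧ y = a) := by
  have haV := Q08_nb h.ha
  have hbV := Q08_nb h.hb
  constructor
  · rintro ⟨hne, hface⟩
    rcases face_cases h hface with hT | ⟨A, hA, hAv, hAe⟩
    · have h1 := Q08_cutT_old h hx (hT (Finset.mem_insert_self x _))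
      have h2 := Q08_cutT_old h hy (hT (Finset.mem_insert_of_mem (Finset.mem_singleton_self y)))
      rcases h1 with h1 | h1 <;> rcases h2 with h2 | h2
      · exact absurd (h1.trans h2.symm) hne
      · exact Or.inr (Or.inl ⟨h1, h2⟩)
      · exact Or.inr (Or.inr ⟨h1, h2⟩)
      · exact absurd (h1.trans h2.symm) hne
    · by_cases hv : v ∈ A
      · -- no vertex of `A` is in `oth`
        have hno : ∀ u ∈ nb V v, u ∈ A → u = a ∨ u = b := by
          intro u hu huA
          by_contra hcon
          push Not at hcon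
          have h1 : md v u ∈ cutF V v a b A :=
            Q08_mem_cutF.2 (Or.inr ⟨hv, u, Q08_mem_oth.2 ⟨hu, hcon.1, hcon.2⟩, huA, rfl⟩)
          rw [← hAe, Finset.mem_insert, Finset.mem_singleton] at h1
          rcases h1 with h1 | h1
          · exact md_not_mem h hu (h1 ▸ hx)
          · exact md_not_mem h hu (h1 ▸ hy)
        have hAx : ∀ z ∈ A, z ≠ v → z = x ∨ z = y := by
          intro z hz hzv
          have h1 : z ∈ cutF V v a b A := Q08_mem_cutF.2 (Or.inl ⟨hzv, hz⟩)
          rwa [← hAe, Finset.mem_insert, Finset.mem_singleton] at h1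
        have hxA : x ∈ A := by
          have h1 : x ∈ cutF V v a b A := by rw [← hAe]; exact Finset.mem_insert_self x _
          rcases Q08_mem_cutF.1 h1 with h2 | ⟨-, u, hu, -, hux⟩
          · exact h2.2
          · exact absurd (hux ▸ hx) (md_not_mem h (Q08_mem_oth.1 hu).1)
        have hyA : y ∈ A := by
          have h1 : y ∈ cutF V v a b A := by
            rw [← hAe]
            exact Finset.mem_insert_of_mem (Finset.mem_singleton_self y)
          rcases Q08_mem_cutF.1 h1 with h2 | ⟨-, u, hu, -, huy⟩
          · exact h2.2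
          · exact absurd (huy ▸ hy) (md_not_mem h (Q08_mem_oth.1 hu).1)
        -- both `a` and `b` are in `A`
        have hboth : ∀ c : Ed d, c ∈ nb V v → (∀ u ∈ nb V v, u ∈ A → u = c) → False := by
          intro c hc hall
          have hcf : IsFace V {v, c} := (Q08_nb hc).2.2
          have h1 : A ⊆ {v, c} := by
            refine face_sub h.vert hA hcf hv (Finset.mem_insert_self v _) ?_
            intro u hu
            obtain ⟨hu1, hu2⟩ := Finset.mem_inter.1 hu
            rw [hall u hu1 hu2]
            exact Finset.mem_insert_of_mem (Finset.mem_singleton_self c)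
          have h2 : x = c := by
            have h3 := h1 hxA
            rw [Finset.mem_insert, Finset.mem_singleton] at h3
            exact h3.resolve_left hxv
          have h4 : y = c := by
            have h3 := h1 hyA
            rw [Finset.mem_insert, Finset.mem_singleton] at h3
            exact h3.resolve_left hyv
          exact hne (h2.trans h4.symm)
        have haA : a ∈ A := by
          by_contra hcon
          exact hboth b h.hb fun u hu huA => (hno u hu huA).resolve_left fun h5 => hcon (h5 ▸ huA)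
        have hbA : b ∈ A := by
          by_contra hcon
          exact hboth a h.ha fun u hu huA => (hno u hu huA).resolve_right fun h5 => hcon (h5 ▸ huA)
        have h1 := hAx a haA haV.2.1.symm
        have h2 := hAx b hbA hbV.2.1.symm
        rcases h1 with h1 | h1 <;> rcases h2 with h2 | h2
        · exact absurd (h1.trans h2.symm) h.hab
        · exact Or.inr (Or.inl ⟨h1.symm, h2.symm⟩)
        · exact Or.inr (Or.inr ⟨h2.symm, h1.symm⟩)
        · exact absurd (h1.trans h2.symm) h.hab
      · have h1 : cutF V v a b A = A := by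
          ext z
          rw [Q08_mem_cutF]
          constructor
          · rintro (h2 | h2)
            · exact h2.2
            · exact absurd h2.1 hv
          · intro hz
            exact Or.inl ⟨fun h3 => hv (h3 ▸ hz), hz⟩
        rw [h1] at hAe
        exact Or.inl ⟨hne, hAe ▸ hA⟩
  · rintro (hadj | ⟨rfl, rfl⟩ | ⟨rfl, rfl⟩)
    · refine ⟨hadj.1, ?_⟩
      have hne : ({x, y} : Finset (Ed d)) ≠ {v} := by
        intro h1
        have h2 : x ∈ ({v} : Finset (Ed d)) := h1 ▸ Finset.mem_insert_self x _
        exact hxv (Finset.mem_singleton.1 h2)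
      have h1 := face_cut h hadj.2 hne
      have h2 : cutF V v a b {x, y} = {x, y} := by
        ext z
        rw [Q08_mem_cutF, Finset.mem_insert, Finset.mem_singleton, Finset.mem_insert,
          Finset.mem_singleton]
        constructor
        · rintro (h3 | h3)
          · exact h3.2
          · rcases h3.1 with h4 | h4
            · exact absurd h4.symm hxv
            · exact absurd h4.symm hyv
        · intro hz
          refine Or.inl ⟨?_, hz⟩
          rcases hz with rfl | rfl
          · exact hxv
          · exact hyv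
      rw [h2] at h1
      exact h1
    · refine ⟨h.hab, face_T h ?_ ⟨x, Finset.mem_insert_self x _⟩⟩
      intro z hz
      rw [Finset.mem_insert, Finset.mem_singleton] at hz
      rw [Q08_mem_cutT]
      tauto
    · refine ⟨h.hab.symm, face_T h ?_ ⟨x, Finset.mem_insert_self x _⟩⟩
      intro z hz
      rw [Finset.mem_insert, Finset.mem_singleton] at hz
      rw [Q08_mem_cutT]
      tauto

theorem adj_cut_mix (h : Cut V v a b) {x u : Ed d} (hx : x ∈ V) (hxv : x ≠ v) (hu : u ∈ oth V v a b) :
    Adj (cutV V v a b) x (md v u) ↔ x = u ∨ x = a ∨ x = b := by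
  have hun := (Q08_mem_oth.1 hu).1
  have huV := Q08_nb hun
  have hmd := md_not_mem h hun
  have hxm : x ≠ md v u := fun h1 => hmd (h1 ▸ hx)
  constructor
  · rintro ⟨-, hface⟩
    rcases face_cases h hface with hT | ⟨A, hA, hAv, hAe⟩
    · exact Or.inr (Q08_cutT_old h hx (hT (Finset.mem_insert_self x _)))
    · left
      have h1 : md v u ∈ cutF V v a b A := by
        rw [← hAe]
        exact Finset.mem_insert_of_mem (Finset.mem_singleton_self _)
      rcases Q08_mem_cutF.1 h1 with h2 | ⟨-, w, -, hwA, hwu⟩
      · exact absurd (hA.2.1 h2.2) hmd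
      · have h3 : w = u := md_inj v hwu
        rw [h3] at hwA
        have h4 : u ∈ cutF V v a b A := Q08_mem_cutF.2 (Or.inl ⟨huV.2.1.symm, hwA⟩)
        rw [← hAe, Finset.mem_insert, Finset.mem_singleton] at h4
        rcases h4 with h4 | h4
        · exact h4.symm
        · exact absurd (h4 ▸ huV.1) hmd
  · intro hcase
    refine ⟨hxm, ?_⟩
    rcases hcase with rfl | hcase
    · have hne : ({v, x} : Finset (Ed d)) ≠ {v} := by
        intro h1
        have h2 : x ∈ ({v} : Finset (Ed d)) :=
          h1 ▸ Finset.mem_insert_of_mem (Finset.mem_singleton_self x)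
        exact hxv (Finset.mem_singleton.1 h2)
      have h1 := face_cut h huV.2.2 hne
      have h2 : cutF V v a b {v, x} = {x, md v x} := by
        ext z
        rw [Q08_mem_cutF]
        simp only [Finset.mem_insert, Finset.mem_singleton]
        constructor
        · rintro (⟨h3, h4⟩ | ⟨-, w, hw, hwA, rfl⟩)
          · exact Or.inl (h4.resolve_left h3)
          · rcases hwA with h4 | h4
            · exact absurd h4.symm (Q08_nb (Q08_mem_oth.1 hw).1).2.1
            · exact Or.inr (by rw [h4])
        · rintro (rfl | rfl)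
          · exact Or.inl ⟨hxv, Or.inr rfl⟩
          · exact Or.inr ⟨Or.inl trivial, x, hu, Or.inr rfl, rfl⟩
      rw [h2] at h1
      exact h1
    · refine face_T h ?_ ⟨x, Finset.mem_insert_self x _⟩
      intro z hz
      rw [Finset.mem_insert, Finset.mem_singleton] at hz
      rw [Q08_mem_cutT]
      rcases hz with rfl | rfl
      · rcases hcase with h1 | h1
        · exact Or.inl h1
        · exact Or.inr (Or.inl h1)
      · exact Or.inr (Or.inr ⟨u, hu, rfl⟩)

theorem adj_cut_new (h : Cut V v a b) {u w : Ed d} (hu : u ∈ oth V v a b) (hw : w ∈ oth V v a b) :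
    Adj (cutV V v a b) (md v u) (md v w) ↔ u ≠ w := by
  constructor
  · rintro ⟨hne, -⟩ h1
    exact hne (by rw [h1])
  · intro hne
    refine ⟨fun h1 => hne (md_inj v h1), face_T h ?_ ⟨md v u, Finset.mem_insert_self _ _⟩⟩
    intro z hz
    rw [Finset.mem_insert, Finset.mem_singleton] at hz
    rw [Q08_mem_cutT]
    rcases hz with rfl | rfl
    · exact Or.inr (Or.inr ⟨u, hu, rfl⟩)
    · exact Or.inr (Or.inr ⟨w, hw, rfl⟩)

end Pool.Agent.LibPol19
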