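import Mathlib
import Pool.Agent.LibPol19.Defs2
import Pool.Agent.LibPol19.G03
import Pool.Agent.LibPol19.Q03
import Pool.Agent.LibPol19.Q08

/-! Row Q09.
deg_cut_old: neighbours in cutV: old ones y ≠ v with Adj V x y, and md v u with u = x if x ∈ oth. If x ∉ nb V v (so v ∉ nb V x) the two sets are equal; if x ∈ oth: nb' = (nb V x).erase v ∪ {md v x}. deg_cut_new: nb' (md v u) = {u, a, b} ∪ md '' (oth \ {u}): card = 3 + (d - 3) = d (card oth = d - 2).
-/

set_option autoImplicit false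

namespace Pool.Agent.LibPol19

open Finset
open scoped Classical


variable {d : ℕ} {V V' A B F : Finset (Ed d)} {v a b c : Ed d}

theorem Q09_oth {u : Ed d} : u ∈ oth V v a b ↔ u ≠ b ∧ u ≠ a ∧ u ∈ nb V v := by
  unfold oth
  rw [mem_erase, mem_erase]

theorem Q09_nb {u x : Ed d} : u ∈ nb V x ↔ u ∈ V ∧ Adj V x u := by
  unfold nb
  exact mem_filter

theorem Q09_cut {u : Ed d} : u ∈ cutV V v a b ↔ (u ≠ v ∧ u ∈ V) ∨ ∃ w ∈ oth V v a b, md v w = u := by
  unfold cutV
  rw [mem_union, mem_erase, mem_image]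

/-- Q09: degrees in the new polytope -/
theorem deg_cut_old (h : Cut V v a b) {x : Ed d} (hx : x ∈ V) (hxv : x ≠ v) (hxa : x ≠ a) (hxb : x ≠ b) :
    (nb (cutV V v a b) x).card = (nb V x).card := by
  by_cases hn : x ∈ nb V v
  · have hxo : x ∈ oth V v a b := Q09_oth.2 ⟨hxb, hxa, hn⟩
    have hvx : v ∈ nb V x := Q09_nb.2 ⟨h.hv, adj_symm (Q09_nb.1 hn).2⟩
    have heq : nb (cutV V v a b) x = insert (md v x) ((nb V x).erase v) := by
      ext u
      rw [Q09_nb, Q09_cut, mem_insert, mem_erase, Q09_nb]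
      constructor
      · rintro ⟨⟨huv, hu⟩ | ⟨w, hw, rfl⟩, hadj⟩
        · rw [adj_cut_old h hx hxv hu huv] at hadj
          right
          refine ⟨huv, hu, ?_⟩
          tauto
        · rw [adj_cut_mix h hx hxv hw] at hadj
          left
          have hxw : x = w := by tauto
          rw [hxw]
      · rintro (rfl | ⟨huv, hu, hadj⟩)
        · refine ⟨Or.inr ⟨x, hxo, rfl⟩, ?_⟩
          rw [adj_cut_mix h hx hxv hxo]
          exact Or.inl rfl
        · refine ⟨Or.inl ⟨huv, hu⟩, ?_⟩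
          rw [adj_cut_old h hx hxv hu huv]
          exact Or.inl hadj
    have hnot : md v x ∉ (nb V x).erase v := by
      intro h1
      exact md_not_mem h hn (Q09_nb.1 (mem_erase.1 h1).2).1
    rw [heq, card_insert_of_notMem hnot, card_erase_of_mem hvx]
    have : 0 < (nb V x).card := card_pos.2 ⟨v, hvx⟩
    omega
  · congr 1
    ext u
    rw [Q09_nb, Q09_cut, Q09_nb]
    constructor
    · rintro ⟨⟨huv, hu⟩ | ⟨w, hw, rfl⟩, hadj⟩
      · rw [adj_cut_old h hx hxv hu huv] at hadj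
        refine ⟨hu, ?_⟩
        tauto
      · rw [adj_cut_mix h hx hxv hw] at hadj
        have hxw : x = w := by tauto
        rw [hxw] at hn
        exact absurd (Q09_oth.1 hw).2.2 hn
    · rintro ⟨hu, hadj⟩
      have huv : u ≠ v := by
        rintro rfl
        exact hn (Q09_nb.2 ⟨hx, adj_symm hadj⟩)
      refine ⟨Or.inl ⟨huv, hu⟩, ?_⟩
      rw [adj_cut_old h hx hxv hu huv]
      exact Or.inl hadj

theorem deg_cut_new (h : Cut V v a b) {u : Ed d} (hu : u ∈ oth V v a b) : (nb (cutV V v a b) (md v u)).card = d := by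
  obtain ⟨hub, hua, hun⟩ := Q09_oth.1 hu
  obtain ⟨haV, haA⟩ := Q09_nb.1 h.ha
  obtain ⟨hbV, hbA⟩ := Q09_nb.1 h.hb
  obtain ⟨huV, huA⟩ := Q09_nb.1 hun
  have heq : nb (cutV V v a b) (md v u) = {u, a, b} ∪ ((oth V v a b).erase u).image (md v) := by
    ext x
    rw [Q09_nb, Q09_cut, mem_union, mem_insert, mem_insert, mem_singleton, mem_image]
    constructor
    · rintro ⟨⟨hxv, hx⟩ | ⟨w, hw, rfl⟩, hadj⟩
      · left
        exact (adj_cut_mix h hx hxv hu).1 (adj_symm hadj)
      · right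
        exact ⟨w, mem_erase.2 ⟨((adj_cut_new h hu hw).1 hadj).symm, hw⟩, rfl⟩
    · rintro (hx | ⟨w, hw, rfl⟩)
      · have hxV : x ≠ v ∧ x ∈ V := by
          rcases hx with rfl | rfl | rfl
          · exact ⟨huA.1.symm, huV⟩
          · exact ⟨haA.1.symm, haV⟩
          · exact ⟨hbA.1.symm, hbV⟩
        exact ⟨Or.inl hxV, adj_symm ((adj_cut_mix h hxV.2 hxV.1 hu).2 hx)⟩
      · obtain ⟨hwu, hwo⟩ := mem_erase.1 hw
        exact ⟨Or.inr ⟨w, hwo, rfl⟩, (adj_cut_new h hu hwo).2 hwu.symm⟩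
  have hdisj : Disjoint ({u, a, b} : Finset (Ed d)) (((oth V v a b).erase u).image (md v)) := by
    rw [disjoint_left]
    intro x hx hx2
    obtain ⟨w, hw, rfl⟩ := mem_image.1 hx2
    apply md_not_mem h (Q09_oth.1 (mem_erase.1 hw).2).2.2
    rw [mem_insert, mem_insert, mem_singleton] at hx
    rcases hx with h1 | h1 | h1
    · rw [h1]
      exact huV
    · rw [h1]
      exact haV
    · rw [h1]
      exact hbV
  have h3 : ({u, a, b} : Finset (Ed d)).card = 3 := by
    rw [card_eq_three]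
    exact ⟨u, a, b, hua, hub, h.hab, rfl⟩
  have hob : b ∈ (nb V v).erase a := mem_erase.2 ⟨h.hab.symm, h.hb⟩
  have hoc : (oth V v a b).card = d - 2 := by
    unfold oth
    rw [card_erase_of_mem hob, card_erase_of_mem h.ha, h.simple]
    omega
  rw [heq, card_union_of_disjoint hdisj, h3, card_image_of_injective _ (md_inj v),
    card_erase_of_mem hu, hoc]
  have := h.hd
  omega

end Pool.Agent.LibPol19
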