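import Mathlib
import Pool.Agent.LibPol19.Defs2
import Pool.Agent.LibPol19.Q03
import Pool.Agent.LibPol19.Q08
import Pool.Agent.LibPol19.S01

/-! Row Q12.
Build the equivalence: inl x ↦ e x ∈ V.erase (e v), inr u ↦ md (e v) (e u.1) with e u.1 ∈ oth (adjX e v u means Adj V (e v) (e u); ≠ by injectivity of e). Equiv.ofBijective: injective by md_inj, md_not_mem; surjective by the definition of cutV. Adjacency: the three lemmas (for inr, inl use adj symmetric: Adj is symmetric, pair_comm).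
-/

set_option autoImplicit false

namespace Pool.Agent.LibPol19

open Finset
open scoped Classical


variable {d : ℕ} {V V' A B F : Finset (Ed d)} {v a b c : Ed d}

theorem q12_mem_cutV {x : Ed d} {v a b : Ed d} : x ∈ cutV V v a b ↔
    (x ≠ v ∧ x ∈ V) ∨ ∃ u ∈ oth V v a b, md v u = x := by
  unfold cutV
  rw [Finset.mem_union, Finset.mem_erase, Finset.mem_image]

theorem q12_mem_oth {u v a b : Ed d} : u ∈ oth V v a b ↔ u ≠ b ∧ u ≠ a ∧ u ∈ V ∧ Adj V v u := by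
  unfold oth nb
  rw [Finset.mem_erase, Finset.mem_erase, Finset.mem_filter]

theorem q12_symm {W : Finset (Ed d)} {x y : Ed d} : Adj W x y ↔ Adj W y x := by
  unfold Adj
  rw [ne_comm, Finset.pair_comm]

/-- Q12: labels -/
theorem labels {X : Type} [Fintype X] (e : X ≃ {x // x ∈ V}) {v a b : X} (h : Cut V (e v : Ed d) (e a) (e b)) :
    ∃ ε : Lab (adjX e) v a b ≃ {x // x ∈ cutV V (e v : Ed d) (e a) (e b)},
      (∀ x, (ε (Sum.inl x) : Ed d) = e x.1) ∧ (∀ u, (ε (Sum.inr u) : Ed d) = md (e v : Ed d) (e u.1)) ∧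
      ∀ p q, adjX ε p q ↔ adjY (adjX e) v a b p q := by
  have hinj : ∀ x y : X, (e x : Ed d) = e y ↔ x = y := fun x y =>
    ⟨fun hxy => e.injective (Subtype.ext hxy), fun hxy => by rw [hxy]⟩
  have hne : ∀ x y : X, (e x : Ed d) ≠ e y ↔ x ≠ y := fun x y => not_congr (hinj x y)
  have hoth : ∀ u : {u : X // adjX e v u ∧ u ≠ a ∧ u ≠ b},
      (e u.1 : Ed d) ∈ oth V (e v : Ed d) (e a) (e b) := fun u =>
    q12_mem_oth.2 ⟨(hne _ _).2 u.2.2.2, (hne _ _).2 u.2.2.1, (e u.1).2, u.2.1⟩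
  have hnb : ∀ u : {u : X // adjX e v u ∧ u ≠ a ∧ u ≠ b},
      (e u.1 : Ed d) ∈ nb V (e v : Ed d) := fun u =>
    Finset.mem_filter.2 ⟨(e u.1).2, u.2.1⟩
  obtain ⟨f, hf1, hf2⟩ : ∃ f : Lab (adjX e) v a b → {x // x ∈ cutV V (e v : Ed d) (e a) (e b)},
      (∀ x, (f (Sum.inl x) : Ed d) = e x.1) ∧
        ∀ u, (f (Sum.inr u) : Ed d) = md (e v : Ed d) (e u.1) :=
    ⟨Sum.elim
      (fun x => ⟨(e x.1 : Ed d), q12_mem_cutV.2 (Or.inl ⟨(hne _ _).2 x.2, (e x.1).2⟩)⟩)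
      (fun u => ⟨md (e v : Ed d) (e u.1), q12_mem_cutV.2 (Or.inr ⟨_, hoth u, rfl⟩)⟩),
      fun _ => rfl, fun _ => rfl⟩
  have hbij : Function.Bijective f := by
    constructor
    · rintro (x | u) (y | w) hxy
      · have h1 := congrArg (fun z : {x // x ∈ cutV V (e v : Ed d) (e a) (e b)} => (z : Ed d)) hxy
        beta_reduce at h1
        rw [hf1, hf1, hinj] at h1
        exact congrArg Sum.inl (Subtype.ext h1)
      · have h1 := congrArg (fun z : {x // x ∈ cutV V (e v : Ed d) (e a) (e b)} => (z : Ed d)) hxy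
        beta_reduce at h1
        rw [hf1, hf2] at h1
        exact absurd (h1 ▸ (e x.1).2) (md_not_mem h (hnb w))
      · have h1 := congrArg (fun z : {x // x ∈ cutV V (e v : Ed d) (e a) (e b)} => (z : Ed d)) hxy
        beta_reduce at h1
        rw [hf1, hf2] at h1
        exact absurd (h1.symm ▸ (e y.1).2) (md_not_mem h (hnb u))
      · have h1 := congrArg (fun z : {x // x ∈ cutV V (e v : Ed d) (e a) (e b)} => (z : Ed d)) hxy
        beta_reduce at h1
        rw [hf2, hf2] at h1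
        have h2 := (hinj _ _).1 (md_inj _ h1)
        exact congrArg Sum.inr (Subtype.ext h2)
    · rintro ⟨y, hy⟩
      rcases q12_mem_cutV.1 hy with ⟨hyv, hyV⟩ | ⟨u, hu, rfl⟩
      · have h1 : (e (e.symm ⟨y, hyV⟩) : Ed d) = y := by rw [Equiv.apply_symm_apply]
        refine ⟨Sum.inl ⟨e.symm ⟨y, hyV⟩, ?_⟩, Subtype.ext ?_⟩
        · rw [← hne, h1]
          exact hyv
        · rw [hf1]
          exact h1
      · obtain ⟨hub, hua, huV, hadj⟩ := q12_mem_oth.1 hu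
        have h1 : (e (e.symm ⟨u, huV⟩) : Ed d) = u := by rw [Equiv.apply_symm_apply]
        refine ⟨Sum.inr ⟨e.symm ⟨u, huV⟩, ?_, ?_, ?_⟩, Subtype.ext ?_⟩
        · unfold adjX
          rw [h1]
          exact hadj
        · rw [← hne, h1]
          exact hua
        · rw [← hne, h1]
          exact hub
        · rw [hf2]
          show md (e v : Ed d) (e (e.symm ⟨u, huV⟩)) = md (e v : Ed d) u
          rw [h1]
  refine ⟨Equiv.ofBijective f hbij, hf1, hf2, ?_⟩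
  rintro (x | u) (y | w)
  · show Adj _ (f (Sum.inl x) : Ed d) (f (Sum.inl y)) ↔ adjX e x.1 y.1 ∨ (x.1 = a ∧ y.1 = b) ∨
      (x.1 = b ∧ y.1 = a)
    rw [hf1, hf1, adj_cut_old h (e x.1).2 ((hne _ _).2 x.2) (e y.1).2 ((hne _ _).2 y.2), hinj, hinj,
      hinj, hinj]
    exact Iff.rfl
  · show Adj _ (f (Sum.inl x) : Ed d) (f (Sum.inr w)) ↔ x.1 = w.1 ∨ x.1 = a ∨ x.1 = b
    rw [hf1, hf2, adj_cut_mix h (e x.1).2 ((hne _ _).2 x.2) (hoth w), hinj, hinj, hinj]
  · show Adj _ (f (Sum.inr u) : Ed d) (f (Sum.inl y)) ↔ y.1 = u.1 ∨ y.1 = a ∨ y.1 = b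
    rw [hf1, hf2, q12_symm, adj_cut_mix h (e y.1).2 ((hne _ _).2 y.2) (hoth u), hinj, hinj, hinj]
  · show Adj _ (f (Sum.inr u) : Ed d) (f (Sum.inr w)) ↔ u.1 ≠ w.1
    rw [hf2, hf2, adj_cut_new h (hoth u) (hoth w), hne]

end Pool.Agent.LibPol19
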