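import Mathlib
import Pool.Agent.LibPol19.Defs2
import Pool.Agent.LibPol19.Q03
import Pool.Agent.LibPol19.S01

/-! Row Q13.
Ext on points of Ed d: a point of im ε (..) is ε p, p = inl x (point e x, x ∈ A, x ≠ v) or p = inr u (point md, v ∈ A, u ∈ A). A point of cutF: in (im e A).erase (e v) or (if e v ∈ im e A) md (e v) w with w ∈ oth ∩ im e A: w = e u.
-/

set_option autoImplicit false

namespace Pool.Agent.LibPol19

open Finset
open scoped Classical


variable {d : ℕ} {V V' A B F : Finset (Ed d)} {v a b c : Ed d}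

theorem Q13_mem_im {W : Finset (Ed d)} {Y : Type*} [Fintype Y] (e : Y ≃ {x // x ∈ W}) (R : Finset Y) (z : Ed d) :
    z ∈ im e R ↔ ∃ p ∈ R, (e p : Ed d) = z := by
  unfold im
  rw [Finset.mem_map]
  rfl

theorem Q13_mem_oth {u : Ed d} {v a b : Ed d} :
    u ∈ oth V v a b ↔ u ∈ V ∧ Adj V v u ∧ u ≠ a ∧ u ≠ b := by
  unfold oth nb
  rw [Finset.mem_erase, Finset.mem_erase, Finset.mem_filter]
  tauto

/-- Q13: the trace in terms of labels -/
theorem labels_cutF {X : Type} [Fintype X] (e : X ≃ {x // x ∈ V}) {v a b : X} (h : Cut V (e v : Ed d) (e a) (e b))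
    (ε : Lab (adjX e) v a b ≃ {x // x ∈ cutV V (e v : Ed d) (e a) (e b)}) (h1 : ∀ x, (ε (Sum.inl x) : Ed d) = e x.1)
    (h2 : ∀ u, (ε (Sum.inr u) : Ed d) = md (e v : Ed d) (e u.1)) (A : Finset X) :
    im ε (univ.filter fun p => match p with
      | Sum.inl x => x.1 ∈ A
      | Sum.inr u => v ∈ A ∧ u.1 ∈ A) = cutF V (e v : Ed d) (e a) (e b) (im e A) := by
  have hinj : ∀ x y : X, (e x : Ed d) = e y → x = y := fun x y hxy => e.injective (Subtype.ext hxy)
  ext z
  rw [Q13_mem_im]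
  unfold cutF
  rw [Finset.mem_union, Finset.mem_erase]
  constructor
  · rintro ⟨p, hp, rfl⟩
    rw [Finset.mem_filter] at hp
    rcases p with x | u
    · left
      rw [h1]
      exact ⟨fun h3 => x.2 (hinj _ _ h3), (mem_im e A x.1).2 hp.2⟩
    · right
      have hp2 : v ∈ A ∧ u.1 ∈ A := hp.2
      rw [h2, if_pos ((mem_im e A v).2 hp2.1)]
      apply Finset.mem_image_of_mem
      rw [Finset.mem_inter, Q13_mem_oth]
      exact ⟨⟨(e u.1).2, u.2.1, fun h3 => u.2.2.1 (hinj _ _ h3), fun h3 => u.2.2.2 (hinj _ _ h3)⟩,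
        (mem_im e A u.1).2 hp2.2⟩
  · rintro (⟨h3, h4⟩ | h3)
    · obtain ⟨x, hx, rfl⟩ := (Q13_mem_im e A z).1 h4
      refine ⟨Sum.inl ⟨x, fun h5 => h3 (by rw [h5])⟩, ?_, h1 _⟩
      rw [Finset.mem_filter]
      exact ⟨Finset.mem_univ _, hx⟩
    · by_cases hv : (e v : Ed d) ∈ im e A
      · rw [if_pos hv, Finset.mem_image] at h3
        obtain ⟨w, hw, rfl⟩ := h3
        rw [Finset.mem_inter, Q13_mem_oth] at hw
        obtain ⟨⟨_, h5, h6, h7⟩, h8⟩ := hw
        obtain ⟨x, hx, rfl⟩ := (Q13_mem_im e A w).1 h8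
        refine ⟨Sum.inr ⟨x, h5, fun h9 => h6 (by rw [h9]), fun h9 => h7 (by rw [h9])⟩, ?_, h2 _⟩
        rw [Finset.mem_filter]
        exact ⟨Finset.mem_univ _, (mem_im e A v).1 hv, hx⟩
      · rw [if_neg hv] at h3
        exact absurd h3 (Finset.notMem_empty _)

end Pool.Agent.LibPol19
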