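import Mathlib
import Pool.Agent.LibPol19.Defs2
import Pool.Agent.LibPol19.G01
import Pool.Agent.LibPol19.G03
import Pool.Agent.LibPol19.G08
import Pool.Agent.LibPol19.G09
import Pool.Agent.LibPol19.G10
import Pool.Agent.LibPol19.G11
import Pool.Agent.LibPol19.G13
import Pool.Agent.LibPol19.G14
import Pool.Agent.LibPol19.G15

/-! Row Q10.
face_ab: K := face with nb V v ∩ K = {a, b} (simple_face), v ∈ K, dm K = 2 (simple_dm). F ∩ K is a face containing a, b. If F ∩ K ≠ K then dm (F ∩ K) < 2 (dm_lt), so it has at most two elements (two_le_dm): F ∩ K = {a, b} is a face: Adj V a b, contradiction. So K ⊆ F, v ∈ F. face_few: nb V v ∩ F ⊆ {a, b}. If both are in F: last case.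
Otherwise nb V v ∩ F = ∅, {a} or {b}: compare with the faces {v}, {v, a}, {v, b} (face_single, Adj) by face_sub both ways.
-/

set_option autoImplicit false

namespace Pool.Agent.LibPol19

open Finset
open scoped Classical


variable {d : ℕ} {V V' A B F : Finset (Ed d)} {v a b c : Ed d}

/-- Q10: a face containing `a` and `b` contains `v` -/
theorem face_ab (h : Cut V v a b) (hF : IsFace V F) (haF : a ∈ F) (hbF : b ∈ F) : v ∈ F := by
  have hI : ({a, b} : Finset (Ed d)) ⊆ nb V v := by
    intro x hx
    rw [mem_insert, mem_singleton] at hx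
    rcases hx with rfl | rfl
    · exact h.ha
    · exact h.hb
  obtain ⟨K, hK, hvK, hnK⟩ := simple_face h.vert h.full h.hv h.simple hI
  have hdK : dm K = 2 := by
    rw [simple_dm h.vert h.full h.simple hK hvK, hnK]
    exact card_pair h.hab
  have haK : a ∈ K := by
    have h1 : a ∈ nb V v ∩ K := by
      rw [hnK]
      exact mem_insert_self _ _
    exact (mem_inter.1 h1).2
  have hbK : b ∈ K := by
    have h1 : b ∈ nb V v ∩ K := by
      rw [hnK]
      exact mem_insert_of_mem (mem_singleton_self _)
    exact (mem_inter.1 h1).2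
  by_contra hvF
  have hne : (F ∩ K).Nonempty := ⟨a, mem_inter.2 ⟨haF, haK⟩⟩
  have hFK := face_inter hF hK hne
  have hss : F ∩ K ⊂ K := by
    refine ⟨inter_subset_right, fun hsub => ?_⟩
    exact hvF (mem_inter.1 (hsub hvK)).1
  have hlt := dm_lt hFK hss hK.2.1
  have hcard : (F ∩ K).card < 3 := by
    by_contra hc
    have h1 := two_le_dm h.vert hFK.2.1 (not_lt.1 hc)
    omega
  have hsub : ({a, b} : Finset (Ed d)) ⊆ F ∩ K := by
    intro x hx
    rw [mem_insert, mem_singleton] at hx
    rcases hx with rfl | rfl
    · exact mem_inter.2 ⟨haF, haK⟩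
    · exact mem_inter.2 ⟨hbF, hbK⟩
  have heq : ({a, b} : Finset (Ed d)) = F ∩ K := by
    refine eq_of_subset_of_card_le hsub ?_
    rw [card_pair h.hab]
    omega
  apply h.nadj
  refine ⟨h.hab, ?_⟩
  rw [heq]
  exact hFK

/-- Q11: faces with few edges at `v` -/
theorem face_few (h : Cut V v a b) (hF : IsFace V F) (hvF : v ∈ F) (ho : Disjoint (oth V v a b) F) :
    F = {v} ∨ F = {v, a} ∨ F = {v, b} ∨ (a ∈ F ∧ b ∈ F) := by
  have hnb : ∀ u ∈ nb V v ∩ F, u = a ∨ u = b := by
    intro u hu
    obtain ⟨h1, h2⟩ := mem_inter.1 hu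
    by_contra hcon
    push Not at hcon
    refine disjoint_left.1 ho ?_ h2
    unfold oth
    rw [mem_erase, mem_erase]
    exact ⟨hcon.2, hcon.1, h1⟩
  have hva : IsFace V {v, a} := (mem_filter.1 h.ha).2.2
  have hvb : IsFace V {v, b} := (mem_filter.1 h.hb).2.2
  by_cases ha : a ∈ F
  · by_cases hb : b ∈ F
    · exact Or.inr (Or.inr (Or.inr ⟨ha, hb⟩))
    · right
      left
      apply Subset.antisymm
      · refine face_sub h.vert hF hva hvF (mem_insert_self _ _) fun u hu => ?_
        rcases hnb u hu with rfl | rfl
        · exact mem_insert_of_mem (mem_singleton_self _)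
        · exact absurd (mem_inter.1 hu).2 hb
      · intro u hu
        rw [mem_insert, mem_singleton] at hu
        rcases hu with rfl | rfl
        · exact hvF
        · exact ha
  · by_cases hb : b ∈ F
    · right
      right
      left
      apply Subset.antisymm
      · refine face_sub h.vert hF hvb hvF (mem_insert_self _ _) fun u hu => ?_
        rcases hnb u hu with rfl | rfl
        · exact absurd (mem_inter.1 hu).2 ha
        · exact mem_insert_of_mem (mem_singleton_self _)
      · intro u hu
        rw [mem_insert, mem_singleton] at hu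
        rcases hu with rfl | rfl
        · exact hvF
        · exact hb
    · left
      apply Subset.antisymm
      · refine face_sub h.vert hF (face_single h.vert h.hv) hvF (mem_singleton_self _) fun u hu => ?_
        rcases hnb u hu with rfl | rfl
        · exact absurd (mem_inter.1 hu).2 ha
        · exact absurd (mem_inter.1 hu).2 hb
      · exact singleton_subset_iff.2 hvF

end Pool.Agent.LibPol19
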