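import Mathlib
import Pool.Agent.LibPol19.Defs2
import Pool.Agent.LibPol19.G03
import Pool.Agent.LibPol19.G10
import Pool.Agent.LibPol19.G15
import Pool.Agent.LibPol19.Q03
import Pool.Agent.LibPol19.Q04
import Pool.Agent.LibPol19.Q06
import Pool.Agent.LibPol19.Q10
import Pool.Agent.LibPol19.S01

/-! Row Q14.
A' = im e' A, W' = cutV V' .., B' = cutF V' .. A'. If im e A = {e v} then A = {v}, im e' A = {e' v}: face_single. Otherwise face_cut, hall: B' is a face of W'. face_cases for V'. (1) B' ⊆ cutT: then A' \ {v'} ⊆ {a', b'} (md ∉ V'), so A ⊆ {v, a, b}. If a, b ∈ A then v ∈ A by face_ab, A = {v, a, b}, a face with three vertices: dm = card (nb V v ∩ A) = 2 (simple_dm),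
polygon at a: both v and b are neighbours of a: contradiction to h.nadj. So A = {a}, {b}, {v, a}, {v, b}: A' is a vertex or an edge (hadj). (2) B' = cutF A1, A1 a face of V' ≠ {v'}. Comparing elements of V' and middles: A'.erase v' = A1.erase v', and (v' ∈ A' ∧ u' ∈ oth ∩ A') ↔ (v' ∈ A1 ∧ u' ∈ oth ∩ A1). If v' ∈ A' ↔ v' ∈ A1: A' = A1. If v' ∈ A', v' ∉ A1: oth ∩ A' = ∅,
so oth V v a b is disjoint from im e A (transport by hadj), face_few for V: im e A = {v} (excluded), {v, a}, {v, b} (then A' is an edge by hadj) or a, b ∈ A: then a', b' ∈ A1, face_ab gives v' ∈ A1: contradiction. If v' ∉ A', v' ∈ A1: oth ∩ A1 = ∅ (elements of oth ∩ A1 are ≠ v' and would give middles), face_few for V': A1 = {v'} excluded, {v', a'}: A' = {a'} a vertex; same for b';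
a', b' ∈ A1: then a, b ∈ A, face_ab gives v ∈ A: contradiction.
-/

set_option autoImplicit false

namespace Pool.Agent.LibPol19

open Finset
open scoped Classical


variable {d : ℕ} {V V' A B F : Finset (Ed d)} {v a b c : Ed d}

theorem q14_oth {u : Ed d} (hu : u ∈ oth V v a b) : u ∈ nb V v ∧ u ≠ a ∧ u ≠ b := by
  unfold oth at hu
  have h1 := Finset.mem_erase.mp hu
  have h2 := Finset.mem_erase.mp h1.2
  exact ⟨h2.2, h2.1, h1.1⟩

theorem q14_old (h : Cut V v a b) {x : Ed d} (hx : x ∈ V) : x ∈ cutF V v a b A ↔ x ≠ v ∧ x ∈ A := by
  unfold cutF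
  rw [Finset.mem_union, Finset.mem_erase]
  constructor
  · rintro (h1 | h1)
    · exact h1
    · exfalso
      split_ifs at h1 with h2
      · obtain ⟨u, hu, hux⟩ := Finset.mem_image.mp h1
        exact md_not_mem h (q14_oth (Finset.mem_inter.mp hu).1).1 (hux ▸ hx)
      · exact absurd h1 (Finset.notMem_empty _)
  · exact fun h1 => Or.inl h1

theorem q14_new (h : Cut V v a b) (hA : A ⊆ V) {u : Ed d} (hu : u ∈ oth V v a b) :
    md v u ∈ cutF V v a b A ↔ v ∈ A ∧ u ∈ A := by
  unfold cutF
  rw [Finset.mem_union, Finset.mem_erase]
  constructor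
  · rintro (h1 | h1)
    · exact absurd (hA h1.2) (md_not_mem h (q14_oth hu).1)
    · split_ifs at h1 with h2
      · obtain ⟨w, hw, hwu⟩ := Finset.mem_image.mp h1
        have h3 := md_inj v hwu
        subst h3
        exact ⟨h2, (Finset.mem_inter.mp hw).2⟩
      · exact absurd h1 (Finset.notMem_empty _)
  · rintro ⟨h1, h2⟩
    refine Or.inr ?_
    rw [if_pos h1]
    exact Finset.mem_image_of_mem _ (Finset.mem_inter.mpr ⟨hu, h2⟩)

theorem q14_im_single {X : Type} [Fintype X] (e : X ≃ {x // x ∈ V}) (v : X) : im e {v} = {(e v : Ed d)} := by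
  unfold im
  rw [Finset.map_singleton]
  rfl

theorem q14_im_pair {X : Type} [Fintype X] (e : X ≃ {x // x ∈ V}) (v a : X) : im e {v, a} = {(e v : Ed d), (e a : Ed d)} := by
  unfold im
  rw [Finset.map_insert, Finset.map_singleton]
  rfl

/-- the face with the vertices `v`, `a`, `b` does not exist -/
theorem q14_tri (h : Cut V v a b) (hA : IsFace V A) (hs : A ⊆ {v, a, b}) (ha : a ∈ A) (hb : b ∈ A) : False := by
  have hv := face_ab h hA ha hb
  have hav : Adj V v a := (Finset.mem_filter.mp h.ha).2
  have hbv : Adj V v b := (Finset.mem_filter.mp h.hb).2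
  have h1 : nb V v ∩ A = {a, b} := by
    ext x
    rw [Finset.mem_inter, Finset.mem_insert, Finset.mem_singleton]
    constructor
    · rintro ⟨h2, h3⟩
      have h4 := hs h3
      rw [Finset.mem_insert, Finset.mem_insert, Finset.mem_singleton] at h4
      rcases h4 with rfl | h4
      · exact absurd rfl (Finset.mem_filter.mp h2).2.1
      · exact h4
    · rintro (rfl | rfl)
      · exact ⟨h.ha, ha⟩
      · exact ⟨h.hb, hb⟩
  have h2 : dm A = 2 := by
    rw [simple_dm h.vert h.full h.simple hA hv, h1, Finset.card_pair h.hab]
  have h3 := polygon h.vert hA h2 ha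
  have h4 : nb V a ∩ A ⊆ {v} := by
    intro x hx
    have h5 := Finset.mem_inter.mp hx
    have h6 := (Finset.mem_filter.mp h5.1).2
    have h7 := hs h5.2
    rw [Finset.mem_insert, Finset.mem_insert, Finset.mem_singleton] at h7
    rcases h7 with rfl | rfl | rfl
    · exact Finset.mem_singleton_self _
    · exact absurd rfl h6.1
    · exact absurd h6 h.nadj
  have h8 := Finset.card_le_card h4
  rw [h3, Finset.card_singleton] at h8
  omega

/-- Q14: transfer of a face -/
theorem transfer_face {X : Type} [Fintype X] (e : X ≃ {x // x ∈ V}) (e' : X ≃ {x // x ∈ V'}) {v a b : X}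
    (hadj : ∀ u w, adjX e u w ↔ adjX e' u w) (h : Cut V (e v : Ed d) (e a) (e b)) (h' : Cut V' (e' v : Ed d) (e' a) (e' b))
    (hall : ∀ A : Finset X, IsFace (cutV V (e v : Ed d) (e a) (e b)) (cutF V (e v : Ed d) (e a) (e b) (im e A)) →
      IsFace (cutV V' (e' v : Ed d) (e' a) (e' b)) (cutF V' (e' v : Ed d) (e' a) (e' b) (im e' A)))
    (A : Finset X) (hA : IsFace V (im e A)) : IsFace V' (im e' A) := by
  have hav' : IsFace V' {(e' v : Ed d), (e' a : Ed d)} := (Finset.mem_filter.mp h'.ha).2.2
  have hbv' : IsFace V' {(e' v : Ed d), (e' b : Ed d)} := (Finset.mem_filter.mp h'.hb).2.2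
  have hsing : ∀ x : X, IsFace V' {(e' x : Ed d)} := fun x => face_single h'.vert (e' x).2
  have hva : v ≠ a := fun hc => by
    subst hc
    exact (Finset.mem_filter.mp h.ha).2.1 rfl
  have hvb : v ≠ b := fun hc => by
    subst hc
    exact (Finset.mem_filter.mp h.hb).2.1 rfl
  by_cases hne : im e A = {(e v : Ed d)}
  · have h1 : A = {v} := im_inj e (hne.trans (q14_im_single e v).symm)
    rw [h1, q14_im_single]
    exact hsing v
  have hcase : A = {v, a} ∨ A = {v, b} ∨ A = {a} ∨ A = {b} → IsFace V' (im e' A) := by
    rintro (rfl | rfl | rfl | rfl)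
    · rw [q14_im_pair]
      exact hav'
    · rw [q14_im_pair]
      exact hbv'
    · rw [q14_im_single]
      exact hsing a
    · rw [q14_im_single]
      exact hsing b
  have hfab : a ∈ A → b ∈ A → v ∈ A := fun h1 h2 =>
    (mem_im e A v).mp (face_ab h hA ((mem_im e A a).mpr h1) ((mem_im e A b).mpr h2))
  have hsub' : im e' A ⊆ V' := im_sub e' A
  rcases face_cases h' (hall A (face_cut h hA hne)) with hT | ⟨A1, hA1, hne1, hB⟩
  · -- (1)
    have hAs : ∀ x ∈ A, x = v ∨ x = a ∨ x = b := by
      intro x hx
      by_cases hxv : x = v
      · exact Or.inl hxv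
      have h1 : (e' x : Ed d) ∈ cutF V' (e' v : Ed d) (e' a) (e' b) (im e' A) :=
        (q14_old h' (e' x).2).mpr ⟨fun hc => hxv (e'.injective (Subtype.ext hc)), (mem_im e' A x).mpr hx⟩
      have h2 := hT h1
      unfold cutT at h2
      rw [Finset.mem_union, Finset.mem_insert, Finset.mem_singleton] at h2
      rcases h2 with (h2 | h2) | h2
      · exact Or.inr (Or.inl (e'.injective (Subtype.ext h2)))
      · exact Or.inr (Or.inr (e'.injective (Subtype.ext h2)))
      · obtain ⟨u, hu, hux⟩ := Finset.mem_image.mp h2
        exact absurd (e' x).2 (hux ▸ md_not_mem h' (q14_oth hu).1)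
    by_cases ha : a ∈ A
    · by_cases hb : b ∈ A
      · exfalso
        refine q14_tri h hA ?_ ((mem_im e A a).mpr ha) ((mem_im e A b).mpr hb)
        intro y hy
        have hyV := im_sub e A hy
        obtain ⟨x, hx⟩ := e.surjective ⟨y, hyV⟩
        have hx' : (e x : Ed d) = y := congrArg Subtype.val hx
        rw [← hx'] at hy ⊢
        rw [Finset.mem_insert, Finset.mem_insert, Finset.mem_singleton]
        rcases hAs x ((mem_im e A x).mp hy) with rfl | rfl | rfl
        · exact Or.inl rfl
        · exact Or.inr (Or.inl rfl)
        · exact Or.inr (Or.inr rfl)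
      · by_cases hv : v ∈ A
        · refine hcase (Or.inl ?_)
          ext x
          rw [Finset.mem_insert, Finset.mem_singleton]
          constructor
          · intro hx
            rcases hAs x hx with h1 | h1 | h1
            · exact Or.inl h1
            · exact Or.inr h1
            · exact absurd (h1 ▸ hx) hb
          · rintro (rfl | rfl)
            · exact hv
            · exact ha
        · refine hcase (Or.inr (Or.inr (Or.inl ?_)))
          ext x
          rw [Finset.mem_singleton]
          constructor
          · intro hx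
            rcases hAs x hx with h1 | h1 | h1
            · exact absurd (h1 ▸ hx) hv
            · exact h1
            · exact absurd (h1 ▸ hx) hb
          · rintro rfl
            exact ha
    · by_cases hb : b ∈ A
      · by_cases hv : v ∈ A
        · refine hcase (Or.inr (Or.inl ?_))
          ext x
          rw [Finset.mem_insert, Finset.mem_singleton]
          constructor
          · intro hx
            rcases hAs x hx with h1 | h1 | h1
            · exact Or.inl h1
            · exact absurd (h1 ▸ hx) ha
            · exact Or.inr h1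
          · rintro (rfl | rfl)
            · exact hv
            · exact hb
        · refine hcase (Or.inr (Or.inr (Or.inr ?_)))
          ext x
          rw [Finset.mem_singleton]
          constructor
          · intro hx
            rcases hAs x hx with h1 | h1 | h1
            · exact absurd (h1 ▸ hx) hv
            · exact absurd (h1 ▸ hx) ha
            · exact h1
          · rintro rfl
            exact hb
      · exfalso
        obtain ⟨y, hy⟩ := hA.1
        obtain ⟨x, hx⟩ := e.surjective ⟨y, im_sub e A hy⟩
        have hx' : (e x : Ed d) = y := congrArg Subtype.val hx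
        rw [← hx'] at hy
        have hxA := (mem_im e A x).mp hy
        refine hne ?_
        rw [← q14_im_single e v]
        congr 1
        ext z
        rw [Finset.mem_singleton]
        constructor
        · intro hz
          rcases hAs z hz with h1 | h1 | h1
          · exact h1
          · exact absurd (h1 ▸ hz) ha
          · exact absurd (h1 ▸ hz) hb
        · rintro rfl
          rcases hAs x hxA with h1 | h1 | h1
          · exact h1 ▸ hxA
          · exact absurd (h1 ▸ hxA) ha
          · exact absurd (h1 ▸ hxA) hb
  · -- (2)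
    have hs1 := hA1.2.1
    have hold : ∀ x ∈ V', x ≠ (e' v : Ed d) → (x ∈ im e' A ↔ x ∈ A1) := fun x hx hxv => by
      have h1 := q14_old h' (A := im e' A) hx
      have h2 := q14_old h' (A := A1) hx
      rw [hB] at h1
      constructor
      · intro h3
        exact (h2.mp (h1.mpr ⟨hxv, h3⟩)).2
      · intro h3
        exact (h1.mp (h2.mpr ⟨hxv, h3⟩)).2
    have hnew : ∀ u ∈ oth V' (e' v : Ed d) (e' a) (e' b), ((e' v : Ed d) ∈ im e' A ∧ u ∈ im e' A ↔ (e' v : Ed d) ∈ A1 ∧ u ∈ A1) :=
      fun u hu => by
        rw [← q14_new h' hsub' hu, ← q14_new h' hs1 hu, hB]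
    have hmemA : ∀ x ∈ A, (e' x : Ed d) ∈ im e' A := fun x hx => (mem_im e' A x).mpr hx
    have hva' : (e' a : Ed d) ≠ e' v := fun hc => hva (e'.injective (Subtype.ext hc)).symm
    have hvb' : (e' b : Ed d) ≠ e' v := fun hc => hvb (e'.injective (Subtype.ext hc)).symm
    by_cases hv : (e' v : Ed d) ∈ im e' A
    · by_cases hv1 : (e' v : Ed d) ∈ A1
      · have h1 : im e' A = A1 := by
          ext x
          by_cases hxv : x = (e' v : Ed d)
          · rw [hxv]
            exact ⟨fun _ => hv1, fun _ => hv⟩
          · constructor
            · intro h2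
              exact (hold x (hsub' h2) hxv).mp h2
            · intro h2
              exact (hold x (hs1 h2) hxv).mpr h2
        rw [h1]
        exact hA1
      · have hvA : v ∈ A := (mem_im e' A v).mp hv
        have hdisj : Disjoint (oth V (e v : Ed d) (e a) (e b)) (im e A) := by
          rw [Finset.disjoint_left]
          intro y hy hyA
          obtain ⟨x, hx⟩ := e.surjective ⟨y, im_sub e A hyA⟩
          have hx' : (e x : Ed d) = y := congrArg Subtype.val hx
          rw [← hx'] at hy hyA
          have hxA := (mem_im e A x).mp hyA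
          obtain ⟨g1, g2, g3⟩ := q14_oth hy
          have g4 : adjX e' v x := (hadj v x).mp (Finset.mem_filter.mp g1).2
          have g5 : (e' x : Ed d) ∈ oth V' (e' v : Ed d) (e' a) (e' b) := by
            unfold oth
            refine Finset.mem_erase.mpr ⟨fun hc => g3 (by rw [e'.injective (Subtype.ext hc)]), Finset.mem_erase.mpr
              ⟨fun hc => g2 (by rw [e'.injective (Subtype.ext hc)]), ?_⟩⟩
            unfold nb
            exact Finset.mem_filter.mpr ⟨(e' x).2, g4⟩
          exact hv1 ((hnew _ g5).mp ⟨hv, hmemA x hxA⟩).1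
        rcases face_few h hA ((mem_im e A v).mpr hvA) hdisj with h1 | h1 | h1 | h1
        · exact absurd h1 hne
        · exact hcase (Or.inl (im_inj e (h1.trans (q14_im_pair e v a).symm)))
        · exact hcase (Or.inr (Or.inl (im_inj e (h1.trans (q14_im_pair e v b).symm))))
        · exfalso
          have ha : a ∈ A := (mem_im e A a).mp h1.1
          have hb : b ∈ A := (mem_im e A b).mp h1.2
          exact hv1 (face_ab h' hA1 ((hold _ (e' a).2 hva').mp (hmemA a ha)) ((hold _ (e' b).2 hvb').mp (hmemA b hb)))
    · by_cases hv1 : (e' v : Ed d) ∈ A1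
      · have hdisj : Disjoint (oth V' (e' v : Ed d) (e' a) (e' b)) A1 := by
          rw [Finset.disjoint_left]
          intro y hy hyA
          exact hv ((hnew y hy).mpr ⟨hv1, hyA⟩).1
        rcases face_few h' hA1 hv1 hdisj with h1 | h1 | h1 | h1
        · exact absurd h1 hne1
        · have h2 : im e' A = {(e' a : Ed d)} := by
            ext x
            rw [Finset.mem_singleton]
            constructor
            · intro h3
              have hxv : x ≠ (e' v : Ed d) := fun hc => hv (hc ▸ h3)
              have h4 := (hold x (hsub' h3) hxv).mp h3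
              rw [h1, Finset.mem_insert, Finset.mem_singleton] at h4
              exact h4.resolve_left hxv
            · rintro rfl
              refine (hold _ (e' a).2 hva').mpr ?_
              rw [h1]
              exact Finset.mem_insert_of_mem (Finset.mem_singleton_self _)
          rw [h2]
          exact hsing a
        · have h2 : im e' A = {(e' b : Ed d)} := by
            ext x
            rw [Finset.mem_singleton]
            constructor
            · intro h3
              have hxv : x ≠ (e' v : Ed d) := fun hc => hv (hc ▸ h3)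
              have h4 := (hold x (hsub' h3) hxv).mp h3
              rw [h1, Finset.mem_insert, Finset.mem_singleton] at h4
              exact h4.resolve_left hxv
            · rintro rfl
              refine (hold _ (e' b).2 hvb').mpr ?_
              rw [h1]
              exact Finset.mem_insert_of_mem (Finset.mem_singleton_self _)
          rw [h2]
          exact hsing b
        · exfalso
          have ha : a ∈ A := (mem_im e' A a).mp ((hold _ (e' a).2 hva').mpr h1.1)
          have hb : b ∈ A := (mem_im e' A b).mp ((hold _ (e' b).2 hvb').mpr h1.2)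
          exact hv (hmemA v (hfab ha hb))
      · have h1 : im e' A = A1 := by
          ext x
          by_cases hxv : x = (e' v : Ed d)
          · rw [hxv]
            exact ⟨fun hc => absurd hc hv, fun hc => absurd hc hv1⟩
          · constructor
            · intro h2
              exact (hold x (hsub' h2) hxv).mp h2
            · intro h2
              exact (hold x (hs1 h2) hxv).mpr h2
        rw [h1]
        exact hA1

end Pool.Agent.LibPol19
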