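import Mathlib
import Pool.Agent.LibPol19.Defs2
import Pool.Agent.LibPol19.N01
import Pool.Agent.LibPol19.Q07
import Pool.Agent.LibPol19.Q09
import Pool.Agent.LibPol19.Q12
import Pool.Agent.LibPol19.Q13
import Pool.Agent.LibPol19.Q14
import Pool.Agent.LibPol19.S01
import Pool.Agent.LibPol19.S05

/-! Row Q15.
Cut structures for V and V' (simple by hub and nbr_card/hadj; nadj by h3, hadj). labels for both; Lab (adjX e) v a b and Lab (adjX e') v a b: first rewrite adjX e' = adjX e (funext, propext; subst) so that both are the same type. facets_eq for W, W' with X := Lab, hubs inl a, inl b, inl c (inl a ~ inl b by adjY), hub from deg_cut_old, deg_cut_new; then face_im_iff for ε and ε':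
IsFace W (im ε A) ↔ IsFace W' (im ε' A); labels_cutF turns this into hall of transfer_face; both directions.
-/

set_option autoImplicit false

namespace Pool.Agent.LibPol19

open Finset
open scoped Classical


variable {d : ℕ} {V V' A B F : Finset (Ed d)} {v a b c : Ed d}

theorem q15_cut {X : Type} [Fintype X] (hd : 5 ≤ d) (hV : IsVert V) (hfull : Full V) (e : X ≃ {x // x ∈ V}) {a b v : X}
    (hab : a ≠ b) (hs : (nb V (e v : Ed d)).card = d) (h1 : adjX e v a) (h2 : adjX e v b) (h3 : ¬ adjX e a b) :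
    Cut V (e v : Ed d) (e a) (e b) where
  vert := hV
  full := hfull
  hd := by omega
  hv := (e v).2
  simple := hs
  ha := by
    unfold nb
    exact Finset.mem_filter.mpr ⟨(e a).2, h1⟩
  hb := by
    unfold nb
    exact Finset.mem_filter.mpr ⟨(e b).2, h2⟩
  hab := fun h => hab (e.injective (Subtype.ext h))
  nadj := h3

theorem q15_lab {X : Type} [Fintype X] (e : X ≃ {x // x ∈ V}) {v a b : X} (h : Cut V (e v : Ed d) (e a) (e b))
    (adj : X → X → Prop) (hadj : adjX e = adj) :
    ∃ ε : Lab adj v a b ≃ {x // x ∈ cutV V (e v : Ed d) (e a) (e b)},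
      (∀ x, (ε (Sum.inl x) : Ed d) = e x.1) ∧ (∀ u, (ε (Sum.inr u) : Ed d) = md (e v : Ed d) (e u.1)) ∧
      (∀ p q, adjX ε p q ↔ adjY adj v a b p q) ∧
      (∀ A : Finset X, im ε (univ.filter fun p => Sum.elim (fun x => x.1 ∈ A) (fun u => v ∈ A ∧ u.1 ∈ A) p) =
        cutF V (e v : Ed d) (e a) (e b) (im e A)) := by
  subst hadj
  obtain ⟨ε, g1, g2, g3⟩ := labels e h
  refine ⟨ε, g1, g2, g3, fun A => ?_⟩
  rw [← labels_cutF e h ε g1 g2]
  congr 1
  ext p
  rcases p with x | u
  · simp
  · simp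

/-- Q15: two nonsimple vertices with a common simple neighbour -/
theorem cut_faces {X : Type} [Fintype X] (hd : 5 ≤ d) (hV : IsVert V) (hfull : Full V) (hV' : IsVert V') (hfull' : Full V')
    (e : X ≃ {x // x ∈ V}) (e' : X ≃ {x // x ∈ V'}) (hadj : ∀ u w, adjX e u w ↔ adjX e' u w) {a b c v : X} (hab : a ≠ b)
    (hac : a ≠ c) (hbc : b ≠ c) (hub : ∀ x, x ≠ a → x ≠ b → x ≠ c → (nb V (e x : Ed d)).card = d)
    (hva : v ≠ a) (hvb : v ≠ b) (hvc : v ≠ c) (h1 : adjX e v a) (h2 : adjX e v b) (h3 : ¬ adjX e a b) (A : Finset X) :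
    IsFace V (im e A) ↔ IsFace V' (im e' A) := by
  have hadjE : adjX e' = adjX e := by
    funext u w
    exact (propext (hadj u w)).symm
  have hs := hub v hva hvb hvc
  have hs' : (nb V' (e' v : Ed d)).card = d := by
    rw [← nbr_card, hadjE, nbr_card]
    exact hs
  have hcut := q15_cut hd hV hfull e hab hs h1 h2 h3
  have hcut' := q15_cut hd hV' hfull' e' hab hs' (by rw [hadjE]; exact h1) (by rw [hadjE]; exact h2) (by rw [hadjE]; exact h3)
  obtain ⟨ε, ε1, ε2, ε3, ε4⟩ := q15_lab e hcut _ rfl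
  obtain ⟨ε', ε1', ε2', ε3', ε4'⟩ := q15_lab e' hcut' _ hadjE
  have key := facets_eq hd (vert_cut hcut) (full_cut hcut) (vert_cut hcut') (full_cut hcut') ε ε'
    (fun p q => (ε3 p q).trans (ε3' p q).symm) (a := Sum.inl ⟨a, hva.symm⟩) (b := Sum.inl ⟨b, hvb.symm⟩)
    (c := Sum.inl ⟨c, hvc.symm⟩)
    (fun h => hab (congrArg Subtype.val (Sum.inl.inj h)))
    (fun h => hac (congrArg Subtype.val (Sum.inl.inj h)))
    (fun h => hbc (congrArg Subtype.val (Sum.inl.inj h)))
    (by
      rintro (x | u) g1 g2 g3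
      · have k1 : x.1 ≠ a := fun h => g1 (congrArg Sum.inl (Subtype.ext h))
        have k2 : x.1 ≠ b := fun h => g2 (congrArg Sum.inl (Subtype.ext h))
        have k3 : x.1 ≠ c := fun h => g3 (congrArg Sum.inl (Subtype.ext h))
        rw [ε1, deg_cut_old hcut (e x.1).2 (fun h => x.2 (e.injective (Subtype.ext h)))
          (fun h => k1 (e.injective (Subtype.ext h))) (fun h => k2 (e.injective (Subtype.ext h)))]
        exact hub x.1 k1 k2 k3
      · rw [ε2]
        refine deg_cut_new hcut ?_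
        unfold oth
        refine Finset.mem_erase.mpr ⟨fun h => u.2.2.2 (e.injective (Subtype.ext h)), Finset.mem_erase.mpr
          ⟨fun h => u.2.2.1 (e.injective (Subtype.ext h)), ?_⟩⟩
        unfold nb
        exact Finset.mem_filter.mpr ⟨(e u.1).2, u.2.1⟩)
    (Or.inl ((ε3 _ _).mpr (Or.inr (Or.inl ⟨rfl, rfl⟩))))
  have hiff : ∀ A : Finset (Lab (adjX e) v a b), IsFace (cutV V (e v : Ed d) (e a) (e b)) (im ε A) ↔
      IsFace (cutV V' (e' v : Ed d) (e' a) (e' b)) (im ε' A) := fun A => by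
    rw [face_im_iff (full_cut hcut) ε, face_im_iff (full_cut hcut') ε']
    simp only [key]
  refine ⟨fun hA => transfer_face e e' hadj hcut hcut' (fun A h => ?_) A hA,
    fun hA => transfer_face e' e (fun u w => (hadj u w).symm) hcut' hcut (fun A h => ?_) A hA⟩
  · rw [← ε4'] 
    rw [← ε4] at h
    exact (hiff _).mp h
  · rw [← ε4]
    rw [← ε4'] at h
    exact (hiff _).mpr h

end Pool.Agent.LibPol19
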