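import Mathlib
import Pool.Agent.LibPol19.Defs2
import Pool.Agent.LibPol19.N02
import Pool.Agent.LibPol19.Q15
import Pool.Agent.LibPol19.S01
import Pool.Agent.LibPol19.S03

/-! Row N04.
If the two hubs are adjacent: main_V. Otherwise z is a common neighbour; if z is a hub: z and u are adjacent hubs (Adj V u z): main_V. If z is not a hub: X := {x // x ∈ V}, e0 = Equiv.refl, e; a = u, b = w, c the third hub (Finset.card_eq_three; other vertices have (nb V x).card ≤ d and ≥ d by dm_le_card, see main_V), v = z: cut_faces with im e0 A = A.map subtype.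
-/

set_option autoImplicit false

namespace Pool.Agent.LibPol19

open Finset
open scoped Classical


variable {d : ℕ} {V V' : Finset (Ed d)} {P Q : Set (Ed d)}

/-- N04: the lattices coincide, hubs at distance at most two -/
theorem main_V2 (hd : 5 ≤ d) (hV : IsVert V) (hfull : Full V) (hV' : IsVert V') (hfull' : Full V')
    (e : {x // x ∈ V} ≃ {x // x ∈ V'}) (hadj : ∀ u w : {x // x ∈ V}, Adj V u w ↔ Adj V' (e u : Ed d) (e w : Ed d))
    (h3 : (V.filter fun v => d < (nb V v).card).card = 3)
    (hh : ∃ u w, u ∈ V ∧ w ∈ V ∧ u ≠ w ∧ d < (nb V u).card ∧ d < (nb V w).card ∧ (Adj V u w ∨ ∃ z ∈ V, Adj V u z ∧ Adj V z w))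
    (A : Finset {x // x ∈ V}) :
    IsFace V (A.map (Function.Embedding.subtype _)) ↔
      IsFace V' (A.map (e.toEmbedding.trans (Function.Embedding.subtype _))) := by
  have hsymm : ∀ u w : Ed d, Adj V u w → Adj V w u := fun u w h => ⟨h.1.symm, by
    rw [Finset.pair_comm]
    exact h.2⟩
  obtain ⟨u, w, hu, hw, huw, hdu, hdw, hh⟩ := hh
  by_cases hAuw : Adj V u w
  · exact main_V hd hV hfull hV' hfull' e hadj h3 ⟨u, w, hu, hw, hdu, hdw, hAuw⟩ A
  rcases hh with hh | ⟨z, hz, huz, hzw⟩
  · exact absurd hh hAuw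
  by_cases hdz : d < (nb V z).card
  · exact main_V hd hV hfull hV' hfull' e hadj h3 ⟨u, z, hu, hz, hdu, hdz, huz⟩ A
  obtain ⟨e0, he0⟩ : ∃ e0 : {x // x ∈ V} ≃ {x // x ∈ V}, e0 = Equiv.refl _ := ⟨_, rfl⟩
  have hv : ∀ x, e0 x = x := fun x => by rw [he0]; rfl
  have hcard : ∀ x : {x // x ∈ V}, d ≤ (nb V (x : Ed d)).card := fun x => by
    have h1 := (isSys hV hfull (by omega : 3 ≤ d) e0).deg x
    rw [nbr_card, hv] at h1
    exact h1
  obtain ⟨c0, hc0⟩ : ∃ c0, (((V.filter fun v => d < (nb V v).card).erase u).erase w) = {c0} := by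
    rw [← Finset.card_eq_one, Finset.card_erase_of_mem, Finset.card_erase_of_mem, h3]
    · exact Finset.mem_filter.mpr ⟨hu, hdu⟩
    · exact Finset.mem_erase.mpr ⟨huw.symm, Finset.mem_filter.mpr ⟨hw, hdw⟩⟩
  have hc1 : c0 ∈ ((V.filter fun v => d < (nb V v).card).erase u).erase w := by
    rw [hc0]
    exact Finset.mem_singleton_self _
  have hc2 := Finset.mem_erase.mp hc1
  have hc3 := Finset.mem_erase.mp hc2.2
  have hc4 := Finset.mem_filter.mp hc3.2
  have hmem : ∀ x, x ∈ V → d < (nb V x).card → x = u ∨ x = w ∨ x = c0 := fun x h1 h2 => by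
    by_contra hcon
    push Not at hcon
    have h4 : x ∈ ((V.filter fun v => d < (nb V v).card).erase u).erase w :=
      Finset.mem_erase.mpr ⟨hcon.2.1, Finset.mem_erase.mpr ⟨hcon.1, Finset.mem_filter.mpr ⟨h1, h2⟩⟩⟩
    rw [hc0] at h4
    exact hcon.2.2 (Finset.mem_singleton.mp h4)
  have key := cut_faces hd hV hfull hV' hfull' e0 e (fun x y => by
    unfold adjX
    rw [hv, hv]
    exact hadj x y) (a := ⟨u, hu⟩) (b := ⟨w, hw⟩) (c := ⟨c0, hc4.1⟩) (v := ⟨z, hz⟩)
    (fun h => huw (congrArg Subtype.val h)) (fun h => hc3.1 (congrArg Subtype.val h).symm)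
    (fun h => hc2.1 (congrArg Subtype.val h).symm)
    (fun x h1 h2 h3 => by
      rw [hv]
      refine le_antisymm ?_ (hcard x)
      by_contra h4
      push Not at h4
      rcases hmem x x.2 h4 with h5 | h5 | h5
      · exact h1 (Subtype.ext h5)
      · exact h2 (Subtype.ext h5)
      · exact h3 (Subtype.ext h5))
    (fun h => hdz (by
      have h6 : z = u := congrArg Subtype.val h
      rw [h6]
      exact hdu))
    (fun h => hdz (by
      have h6 : z = w := congrArg Subtype.val h
      rw [h6]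
      exact hdw))
    (fun h => hdz (by
      have h6 : z = c0 := congrArg Subtype.val h
      rw [h6]
      exact hc4.2))
    (by
      unfold adjX
      rw [hv, hv]
      exact hsymm _ _ huz)
    (by
      unfold adjX
      rw [hv, hv]
      exact hzw)
    (by
      unfold adjX
      rw [hv, hv]
      exact hAuw) A
  have h4 : A.map (Function.Embedding.subtype _) = im e0 A := by
    rw [he0]
    rfl
  rw [h4]
  exact key

end Pool.Agent.LibPol19
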