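import Mathlib
import Pool.Agent.LibPol19.Defs2
import Pool.Agent.LibPol19.N04
import Pool.Agent.LibPol19.T01
import Pool.Agent.LibPol19.T02
import Pool.Agent.LibPol19.T03
import Pool.Agent.LibPol19.T05
import Pool.Agent.LibPol19.T06
import Pool.Agent.LibPol19.T07

/-! Row N05.
As near_hubs (row N03), with the second alternative: an exposed F of finrank 1 containing u and w (w ∈ V by exposed_single) gives Adj V u w.
-/

set_option autoImplicit false

namespace Pool.Agent.LibPol19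

open Finset
open scoped Classical


variable {d : ℕ} {V V' : Finset (Ed d)} {P Q : Set (Ed d)}

theorem n05_third (hV : IsVert V) {u v x : Ed d} (hu : u ∈ V) (hv : v ∈ V) (hx : x ∈ V) (huv : u ≠ v) (hxu : x ≠ u)
    (hxv : x ≠ v) {t : ℝ} (h : t • (v - u) = x - u) : False := by
  obtain ⟨l1, h1⟩ := hV u hu
  obtain ⟨l2, h2⟩ := hV v hv
  obtain ⟨l3, h3⟩ := hV x hx
  have e1 : ∀ l : Ed d →ₗ[ℝ] ℝ, l x - l u = t * (l v - l u) := fun l => by
    rw [← map_sub, ← h, map_smul, map_sub, smul_eq_mul]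
  have a1 := h1 v hv huv.symm
  have a2 := h1 x hx hxu
  have a3 := h2 u hu huv
  have a4 := h2 x hx hxv
  have a5 := h3 u hu hxu.symm
  have a6 := h3 v hv hxv.symm
  have b1 := e1 l1
  have b2 := e1 l2
  have b3 := e1 l3
  have c1 : 0 < t := by
    by_contra hcon
    push Not at hcon
    nlinarith
  have c2 : t < 1 := by
    by_contra hcon
    push Not at hcon
    nlinarith
  rcases le_total (l3 v) (l3 u) with h4 | h4
  · nlinarith
  · nlinarith

theorem n05_edge (hV : IsVert V) (hP : P = convexHull ℝ (V : Set (Ed d))) {F : Set (Ed d)} (hF : IsExposed ℝ P F)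
    (h1 : Module.finrank ℝ (vectorSpan ℝ F) = 1) {u v : Ed d} (hu : u ∈ V) (hv : v ∈ V) (huF : u ∈ F) (hvF : v ∈ F)
    (huv : u ≠ v) : Adj V u v := by
  obtain ⟨A, hA, hFA⟩ := hull_face hP (F := F) ⟨hF, ⟨u, huF⟩⟩
  have hsub := hA.2.1
  have huA : u ∈ A := by
    have := (hull_sub hV (Finset.singleton_subset_iff.mpr hu) hsub).mp (by
      rw [Finset.coe_singleton, convexHull_singleton, ← hFA]
      exact Set.singleton_subset_iff.mpr huF)
    exact Finset.singleton_subset_iff.mp this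
  have hvA : v ∈ A := by
    have := (hull_sub hV (Finset.singleton_subset_iff.mpr hv) hsub).mp (by
      rw [Finset.coe_singleton, convexHull_singleton, ← hFA]
      exact Set.singleton_subset_iff.mpr hvF)
    exact Finset.singleton_subset_iff.mp this
  have hspan : vectorSpan ℝ F = vectorSpan ℝ (A : Set (Ed d)) := by
    rw [hFA, ← direction_affineSpan, affineSpan_convexHull, direction_affineSpan]
  rw [hspan] at h1
  have hvu : v - u ∈ vectorSpan ℝ (A : Set (Ed d)) := vsub_mem_vectorSpan ℝ (by exact_mod_cast hvA) (by exact_mod_cast huA)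
  have hne : (⟨v - u, hvu⟩ : vectorSpan ℝ (A : Set (Ed d))) ≠ 0 := fun h => huv (by
    have := congrArg Subtype.val h
    exact (sub_eq_zero.mp this).symm)
  have hall := (finrank_eq_one_iff_of_nonzero' _ hne).mp h1
  have hAeq : A = {u, v} := by
    ext x
    simp only [Finset.mem_insert, Finset.mem_singleton]
    constructor
    · intro hx
      by_contra hcon
      push Not at hcon
      have hxu : x - u ∈ vectorSpan ℝ (A : Set (Ed d)) := vsub_mem_vectorSpan ℝ (by exact_mod_cast hx) (by exact_mod_cast huA)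
      obtain ⟨t, ht⟩ := hall ⟨x - u, hxu⟩
      exact n05_third hV hu hv (hsub hx) huv hcon.1 hcon.2 (congrArg Subtype.val ht)
    · rintro (rfl | rfl)
      · exact huA
      · exact hvA
  rw [hAeq] at hA
  exact ⟨huv, hA⟩

/-- N05: the theorem -/
theorem near_hubs2 (hd : 5 ≤ d) (hP : ∃ S : Finset (Ed d), P = convexHull ℝ (S : Set (Ed d))) (hPf : affineSpan ℝ P = ⊤)
    (hQ : ∃ S : Finset (Ed d), Q = convexHull ℝ (S : Set (Ed d))) (hQf : affineSpan ℝ Q = ⊤)
    (h3 : Set.ncard {v : Ed d | IsExposed ℝ P {v} ∧ d < Set.ncard {F : Set (Ed d) | IsExposed ℝ P F ∧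
      Module.finrank ℝ (vectorSpan ℝ F) = 1 ∧ v ∈ F}} = 3)
    (hadj : ∃ u v : Ed d, u ≠ v ∧ (IsExposed ℝ P {u} ∧ d < Set.ncard {F : Set (Ed d) | IsExposed ℝ P F ∧
        Module.finrank ℝ (vectorSpan ℝ F) = 1 ∧ u ∈ F}) ∧
      (IsExposed ℝ P {v} ∧ d < Set.ncard {F : Set (Ed d) | IsExposed ℝ P F ∧
        Module.finrank ℝ (vectorSpan ℝ F) = 1 ∧ v ∈ F}) ∧
      ((∃ F : Set (Ed d), IsExposed ℝ P F ∧ Module.finrank ℝ (vectorSpan ℝ F) = 1 ∧ u ∈ F ∧ v ∈ F) ∨
        ∃ (w : Ed d) (F F' : Set (Ed d)), IsExposed ℝ P {w} ∧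
          (IsExposed ℝ P F ∧ Module.finrank ℝ (vectorSpan ℝ F) = 1 ∧ u ∈ F ∧ w ∈ F) ∧
          (IsExposed ℝ P F' ∧ Module.finrank ℝ (vectorSpan ℝ F') = 1 ∧ w ∈ F' ∧ v ∈ F')))
    (h : Nonempty ({F : Set (Ed d) // IsExposed ℝ P F ∧ F.Nonempty ∧ Module.finrank ℝ (vectorSpan ℝ F) ≤ 1} ≃o
      {F : Set (Ed d) // IsExposed ℝ Q F ∧ F.Nonempty ∧ Module.finrank ℝ (vectorSpan ℝ F) ≤ 1})) :
    Nonempty ({F : Set (Ed d) // IsExposed ℝ P F ∧ F.Nonempty} ≃o {F : Set (Ed d) // IsExposed ℝ Q F ∧ F.Nonempty}) := by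
  obtain ⟨V, hV, hPV⟩ := exists_vert hP
  obtain ⟨V', hV', hQV⟩ := exists_vert hQ
  obtain ⟨e, he⟩ := graph_iso hV hPV hV' hQV h
  have hset : {v : Ed d | IsExposed ℝ P {v} ∧ d < Set.ncard {F : Set (Ed d) | IsExposed ℝ P F ∧
      Module.finrank ℝ (vectorSpan ℝ F) = 1 ∧ v ∈ F}} = ((V.filter fun v => d < (nb V v).card : Finset (Ed d)) : Set (Ed d)) := by
    ext v
    rw [Set.mem_setOf_eq, exposed_single hV hPV, Finset.mem_coe, Finset.mem_filter]
    constructor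
    · rintro ⟨h1, h2⟩
      rw [edges_ncard hV hPV h1] at h2
      exact ⟨h1, h2⟩
    · rintro ⟨h1, h2⟩
      refine ⟨h1, ?_⟩
      rw [edges_ncard hV hPV h1]
      exact h2
  rw [hset, Set.ncard_coe_finset] at h3
  refine lattice_iso hV hPV hV' hQV e (main_V2 hd hV (full_of hPV hPf).1 hV' (full_of hQV hQf).1 e he h3 ?_)
  obtain ⟨u, v, huv, ⟨hu1, hu2⟩, ⟨hv1, hv2⟩, halt⟩ := hadj
  rw [exposed_single hV hPV] at hu1 hv1
  rw [edges_ncard hV hPV hu1] at hu2
  rw [edges_ncard hV hPV hv1] at hv2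
  refine ⟨u, v, hu1, hv1, huv, hu2, hv2, ?_⟩
  rcases halt with ⟨F, hF, hF1, huF, hvF⟩ | ⟨w, F, F', hw, ⟨hF, hF1, huF, hwF⟩, ⟨hF', hF1', hwF', hvF'⟩⟩
  · exact Or.inl (n05_edge hV hPV hF hF1 hu1 hv1 huF hvF huv)
  · rw [exposed_single hV hPV] at hw
    by_cases huw : u = w
    · subst huw
      exact Or.inl (n05_edge hV hPV hF' hF1' hu1 hv1 hwF' hvF' huv)
    · by_cases hwv : w = v
      · subst hwv
        exact Or.inl (n05_edge hV hPV hF hF1 hu1 hv1 huF hwF huv)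
      · exact Or.inr ⟨w, hw, n05_edge hV hPV hF hF1 hu1 hw huF hwF huw, n05_edge hV hPV hF' hF1' hw hv1 hwF' hvF' hwv⟩

end Pool.Agent.LibPol19
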